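import Pool.Agent.Lib.MP_d6ddbd_nt.L.Pnt1
import Pool.Agent.Lib.MP_7ffa02_nt.Short

/-! The prime number theorem with a saving of any power of the logarithm. -/

namespace Pool.Agent.Lib.MP_d6ddbd_nt.L

open Complex Finset LSeries Filter Topology Metric

namespace PntAux

open MP_7ffa02_nt (FF FF_eq FF_diff region one_le_log)

/-- The coefficients. -/
noncomputable def cf : ℕ → ℂ := MP_7ffa02_nt.lam - 1

theorem cf_sum {s : ℂ} (h : 1 < s.re) : LSeriesSummable cf s :=
  (ArithmeticFunction.LSeriesSummable_vonMangoldt h).sub (LSeriesSummable_one_iff.2 h)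

theorem cf_abs : abscissaOfAbsConv cf ≤ 1 :=
  abscissaOfAbsConv_le_of_forall_lt_LSeriesSummable (x := 1) fun _ hy => cf_sum (by simpa using hy)

theorem FF_cf {s : ℂ} (h1 : 1 < s.re) : FF s = LSeries cf s := by
  rw [FF_eq (fun h => by rw [h] at h1; simp at h1) (riemannZeta_ne_zero_of_one_le_re h1.le), cf,
    LSeries_sub (f := MP_7ffa02_nt.lam) (g := 1)
      (ArithmeticFunction.LSeriesSummable_vonMangoldt h1) (LSeriesSummable_one_iff.2 h1),
    LSeries_one_eq_riemannZeta h1]
  congr 1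
  exact (ArithmeticFunction.LSeries_vonMangoldt_eq_deriv_riemannZeta_div h1).symm

theorem der (m : ℕ) : ∃ B : ℝ, 0 ≤ B ∧ ∀ s : ℂ, 1 < s.re → s.re ≤ 3 / 2 → ∀ j ≤ m,
    ‖LSeries (logMul^[j] cf) s‖ ≤ B * (‖s‖ + 2) ^ 3 := by
  obtain ⟨c, C, c0, c1, hC, hR⟩ := region
  obtain ⟨D, hD, hl⟩ := G.SwAux.lg m one_pos
  refine ⟨m.factorial * C * D / c ^ m * 8 ^ 3, by positivity, fun s h1 h2 j hj => ?_⟩
  have n0 := norm_nonneg s
  set T := ‖s‖ + 15 with hT
  have l1 := one_le_log (show 3 ≤ T by linarith)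
  set r := c / Real.log T with hr
  have r0 : 0 < r := by positivity
  have r1 : r ≤ 1 / 2 := (div_le_self c0.le l1).trans c1
  have hb : ∀ z ∈ closedBall s r, riemannZeta₁ z ≠ 0 ∧ ‖FF z‖ ≤ C * T ^ 2 := fun z hz => by
    rw [mem_closedBall_iff_norm] at hz
    have b1 := abs_le.1 ((abs_re_le_norm (z - s)).trans hz)
    have b2 := (abs_im_le_norm z).trans (norm_le_norm_add_norm_sub' z s)
    rw [sub_re] at b1
    exact hR T (by linarith) z (by linarith [b1.1]) (by linarith [b1.2]) (by linarith)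
  have e1 : iteratedDeriv j FF s = iteratedDeriv j (LSeries cf) s :=
    EventuallyEq.iteratedDeriv_eq j (by
      filter_upwards [(isOpen_lt continuous_const continuous_re).mem_nhds h1] with z hz
      exact FF_cf hz)
  have e2 := norm_iteratedDeriv_le_of_forall_mem_sphere_norm_le (f := FF) (c := s) j r0
    (DifferentiableOn.diffContOnCl fun z hz => by
      rw [closure_ball _ r0.ne'] at hz
      exact (FF_diff (hb z hz).1).differentiableWithinAt)
    fun z hz => (hb z (sphere_subset_closedBall hz)).2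
  rw [e1, LSeries_iteratedDeriv j (cf_abs.trans_lt (by exact_mod_cast h1)), norm_mul, norm_pow,
    norm_neg, norm_one, one_pow, one_mul] at e2
  refine e2.trans ?_
  have b1 := hl j hj T (by linarith)
  rw [Real.rpow_one] at b1
  have b2 : c ^ m ≤ c ^ j := pow_le_pow_of_le_one c0.le (by linarith) hj
  have b3 : (j.factorial : ℝ) ≤ m.factorial := by exact_mod_cast Nat.factorial_le hj
  calc _ = j.factorial * (C * T ^ 2) * Real.log T ^ j / c ^ j := by
        rw [hr, div_pow, div_div_eq_mul_div]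
    _ ≤ m.factorial * (C * T ^ 2) * (D * T) / c ^ m := by gcongr
    _ = m.factorial * C * D / c ^ m * T ^ 3 := by ring
    _ ≤ m.factorial * C * D / c ^ m * (8 * (‖s‖ + 2)) ^ 3 := by gcongr; linarith
    _ = _ := by ring

end PntAux

theorem pnt : PntS := fun a => by
  obtain ⟨m, C, hC, h⟩ := PntAux.gen 3 a
  obtain ⟨B, hB, hd⟩ := PntAux.der m
  obtain ⟨D, hD, ht⟩ := PntAux.th_lam a
  refine ⟨D + C * (B + 1), by positivity, fun y hy => ?_⟩
  have h1 := h PntAux.cf B y hy PntAux.cf_abs (fun n _ => ?_) hB hd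
  · have h2 := ht (fun _ => 1) y hy (by simp)
    have e : ((∑ R ∈ range y, th R - y : ℝ) : ℂ) = (∑ n ∈ range y, 1 * (th n : ℂ) -
        ∑ n ∈ Icc 1 y, 1 * ((ArithmeticFunction.vonMangoldt n : ℝ) : ℂ)) +
          ∑ n ∈ Icc 1 y, PntAux.cf n := by
      simp [PntAux.cf, MP_7ffa02_nt.lam]
    rw [← Real.norm_eq_abs, ← norm_real, e, add_mul, add_div]
    exact norm_add_le_of_le h2 h1
  · rw [PntAux.cf, Pi.sub_apply, Pi.one_apply, MP_7ffa02_nt.lam, add_comm]
    refine (norm_sub_le _ _).trans ?_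
    rw [norm_one, norm_real, Real.norm_of_nonneg ArithmeticFunction.vonMangoldt_nonneg]
    linarith [ArithmeticFunction.vonMangoldt_le_log (n := n)]

end Pool.Agent.Lib.MP_d6ddbd_nt.L
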