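import Pool.Agent.Lib.MP_d6ddbd_nt.L.St
import Pool.Agent.Lib.MP_d6ddbd_nt.G.Bil

/-! Bombieri-Vinogradov for the weight on the primes, twisted by a Jacobi symbol. -/

open Finset Filter ArithmeticFunction

noncomputable section

namespace Pool.Agent.Lib.MP_d6ddbd_nt.L

open MP_f64879_nt (W Mx M0 ap W_small W_nonneg LW_nonneg exp_neg_le)
open G.BilAux (abs_jac jc jc_apply jc_prim)

namespace Bv

theorem sum_jac {x : ℕ} (h1 : Squarefree x) (h2 : Odd x) :
    ∑ a ∈ range x, (jacobiSym a x : ℝ) = if x = 1 then 1 else 0 := by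
  split_ifs with h
  · subst h; simp
  have : NeZero x := ⟨h1.ne_zero⟩
  have hn : jc x ≠ 1 := fun e => h (by
    have := jc_prim x h1 h2
    rw [DirichletCharacter.IsPrimitive, e, DirichletCharacter.conductor_one] at this
    exact this.symm)
  have h3 := MulChar.sum_eq_zero_of_ne_one hn
  have h4 : ∑ a ∈ range x, jc x a = ∑ a, jc x a :=
    sum_nbij' (fun a => (a : ZMod x)) (fun a => a.val) (fun _ _ => mem_univ _)
      (fun a _ => mem_range.2 a.val_lt) (fun a ha => ZMod.val_cast_of_lt (mem_range.1 ha))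
      (fun a _ => ZMod.natCast_zmod_val a) fun _ _ => rfl
  rw [← h4, sum_congr rfl fun a _ => jc_apply x a] at h3
  exact_mod_cast h3

theorem W_le (s : ℝ) (n : ℕ) : W s n ≤ Real.exp (1 - s) := by
  rcases le_or_gt (n : ℝ) (Real.exp (s - 1)) with h | h
  · rw [W_small h]; positivity
  have h2 : (0 : ℝ) < n := (Real.exp_pos _).trans h
  rw [W, show 1 - s = -(s - 1) by ring, Real.exp_neg, inv_eq_one_div]
  gcongr
  exact MP_f64879_nt.bp.le_one

theorem M0_le (s : ℝ) : M0 s ≤ (Real.log 4 + 4) * Real.exp 2 := by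
  have h := Chebyshev.psi_le_const_mul_self (Real.exp_pos (s + 1)).le
  rw [Chebyshev.psi_eq_sum_Icc] at h
  calc M0 s ≤ ∑ n ∈ range (Mx s), Λ n * Real.exp (1 - s) :=
        sum_le_sum fun n _ => mul_le_mul_of_nonneg_left (W_le s n) vonMangoldt_nonneg
    _ = (∑ n ∈ Icc 0 ⌊Real.exp (s + 1)⌋₊, Λ n) * Real.exp (1 - s) := by
        rw [← sum_mul, Mx, Nat.range_succ_eq_Icc_zero]
    _ ≤ (Real.log 4 + 4) * Real.exp (s + 1) * Real.exp (1 - s) := by gcongr
    _ = _ := by rw [mul_assoc, ← Real.exp_add]; congr 2; ring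

/-- The mass of the proper prime powers. -/
def Pw (s : ℝ) : ℝ := ∑ n ∈ range (Mx s), (Λ n * W s n - wt s n)

theorem dif_eq (s : ℝ) (n : ℕ) :
    Λ n * W s n - wt s n = if n.Prime then 0 else Λ n * W s n := by
  unfold wt
  split_ifs with h
  · rw [vonMangoldt_apply_prime h, sub_self]
  · rw [sub_zero]

theorem dif_nonneg (s : ℝ) (n : ℕ) : 0 ≤ Λ n * W s n - wt s n := by
  rw [dif_eq]
  split_ifs
  · exact le_rfl
  · exact LW_nonneg s n

theorem Pw_nonneg (s : ℝ) : 0 ≤ Pw s := sum_nonneg fun n _ => dif_nonneg s n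

theorem Pw_le : ∃ C : ℝ, 0 ≤ C ∧ ∀ s : ℝ, Pw s ≤ C * Real.exp (-(s / 2)) := by
  obtain ⟨C, hC⟩ := Chebyshev.psi_sub_theta_le_mul_sqrt
  refine ⟨|C| * Real.exp (3 / 2), by positivity, fun s => ?_⟩
  have h := hC (Real.exp (s + 1))
  rw [Chebyshev.psi_sub_theta_eq_sum_not_prime, ← Real.exp_half, sum_filter] at h
  calc Pw s ≤ ∑ n ∈ range (Mx s), (if ¬n.Prime then Λ n else 0) * Real.exp (1 - s) := by
        refine sum_le_sum fun n _ => ?_
        rw [dif_eq]
        by_cases hp : n.Prime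
        · simp [hp]
        · rw [if_neg hp, if_pos hp]
          exact mul_le_mul_of_nonneg_left (W_le s n) vonMangoldt_nonneg
    _ = (∑ n ∈ Ioc 0 ⌊Real.exp (s + 1)⌋₊, if ¬n.Prime then Λ n else 0) * Real.exp (1 - s) := by
        rw [← sum_mul, Mx, Nat.range_succ_eq_Icc_zero, ← add_sum_Ioc_eq_sum_Icc (Nat.zero_le _)]
        simp
    _ ≤ |C| * Real.exp ((s + 1) / 2) * Real.exp (1 - s) := by
        gcongr
        exact h.trans (mul_le_mul_of_nonneg_right (le_abs_self C) (Real.exp_pos _).le)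
    _ = _ := by
        rw [mul_assoc, mul_assoc, ← Real.exp_add, ← Real.exp_add]; congr 2; ring

theorem cls (s : ℝ) (q c : ℕ) :
    |∑ n ∈ range (Mx s) with n ≡ c [MOD q], wt s n - ap s q c| ≤ Pw s := by
  rw [abs_sub_comm, ap, ← sum_sub_distrib, abs_of_nonneg (sum_nonneg fun n _ => dif_nonneg s n)]
  exact sum_le_sum_of_subset_of_nonneg (filter_subset _ _) fun n _ _ => dif_nonneg s n

theorem twist (s : ℝ) (w : ℕ → ℝ) (M : ℝ) (E : ℝ) {m x r : ℕ} (hr : r.Coprime m)
    (h1 : Squarefree x) (h2 : Odd x) (hc : x.Coprime m)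
    (h : ∀ c : ℕ, c.Coprime (m * x) →
      |∑ n ∈ range (Mx s) with n ≡ c [MOD m * x], w n - M / (m * x).totient| ≤ E) (hE : 0 ≤ E) :
    |∑ n ∈ range (Mx s) with n ≡ r [MOD m], w n * jacobiSym n x -
      if x = 1 then M / m.totient else 0| ≤ x * E := by
  have x0 : 0 < x := h2.pos
  have e1 : ∑ n ∈ range (Mx s) with n ≡ r [MOD m], w n * jacobiSym n x =
      ∑ a ∈ range x, jacobiSym a x *
        ∑ n ∈ (range (Mx s)).filter (fun n => n ≡ r [MOD m]) with n % x = a, w n := by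
    rw [← sum_fiberwise_of_maps_to (t := range x) (g := fun n => n % x)
      fun n _ => mem_range.2 (Nat.mod_lt _ x0)]
    refine sum_congr rfl fun a _ => ?_
    rw [mul_sum]
    refine sum_congr rfl fun n hn => ?_
    rw [← (mem_filter.1 hn).2, Int.natCast_mod, ← jacobiSym.mod_left, mul_comm]
  have e2 : (if x = 1 then M / m.totient else 0) =
      ∑ a ∈ range x, jacobiSym a x * (M / (m * x).totient) := by
    rw [← sum_mul, sum_jac h1 h2]
    split_ifs with hx
    · rw [hx, mul_one, one_mul]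
    · rw [zero_mul]
  rw [e1, e2, ← sum_sub_distrib]
  refine (abs_sum_le_sum_abs _ _).trans ((sum_le_card_nsmul _ _ E fun a ha => ?_).trans_eq
    (by rw [card_range, nsmul_eq_mul]))
  rw [← mul_sub, abs_mul]
  by_cases hax : a.Coprime x
  · obtain ⟨c, c1, c2⟩ := Nat.chineseRemainder hc.symm r a
    have e3 : ((range (Mx s)).filter fun n => n ≡ r [MOD m]).filter (fun n => n % x = a) =
        (range (Mx s)).filter fun n => n ≡ c [MOD m * x] := by
      rw [filter_filter]
      refine filter_congr fun n _ => ?_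
      rw [← Nat.modEq_and_modEq_iff_modEq_mul hc.symm]
      have e4 : n % x = a ↔ n ≡ a [MOD x] := by
        rw [Nat.ModEq, Nat.mod_eq_of_lt (mem_range.1 ha)]
      rw [e4]
      exact ⟨fun h => ⟨h.1.trans c1.symm, h.2.trans c2.symm⟩,
        fun h => ⟨h.1.trans c1, h.2.trans c2⟩⟩
    rw [e3]
    refine (mul_le_of_le_one_left (abs_nonneg _) (abs_jac _ _)).trans (h c ?_)
    refine Nat.Coprime.mul_right ?_ ?_
    · rw [Nat.Coprime, c1.gcd_eq]; exact hr
    · rw [Nat.Coprime, c2.gcd_eq]; exact hax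
  · have : NeZero x := ⟨x0.ne'⟩
    rw [jacobiSym.eq_zero_iff_not_coprime.2 (by rwa [Int.gcd_natCast_natCast])]
    simpa using hE

end Bv

open Bv in
theorem bv' : BvS := by
  intro b
  obtain ⟨C1, c1, h1⟩ := MP_f64879_nt.bv b
  obtain ⟨C2, c2, h2⟩ := Pw_le
  obtain ⟨K, k0, h3⟩ := exp_neg_le (show (0 : ℝ) < 2 / 5 by norm_num) b
  have l4 : 0 ≤ (Real.log 4 + 4) * Real.exp 2 := by positivity
  refine ⟨C1 + C2 * K + (Real.log 4 + 4) * Real.exp 2, by positivity, fun s hs => ⟨?_, ?_, ?_⟩⟩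
  · have := M0_le s
    have : 0 ≤ C2 * K := by positivity
    nlinarith
  · have := Pw_nonneg s
    rw [Pw, sum_sub_distrib] at this
    exact sub_nonneg.1 this
  obtain ⟨E, e0, e1, e2⟩ := h1 s hs
  refine ⟨fun m => E m + Pw s, fun m => add_nonneg (e0 m) (Pw_nonneg s),
    fun m x r hm hr x1 x2 hc => twist s _ _ _ hr x1 x2 hc (fun c hc' => ?_)
      (add_nonneg (e0 _) (Pw_nonneg s)), fun D hD => ?_⟩
  · refine (abs_sub_le _ (ap s (m * x) c) _).trans ?_
    rw [add_comm]
    exact add_le_add (e1 _ c (Nat.mul_pos hm x2.pos) hc') (cls s _ c)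
  · have s0 : 0 < s := by linarith
    have a : (D : ℝ) * Pw s ≤ C2 * K / s ^ b :=
      calc _ ≤ Real.exp (s / 10) * (C2 * Real.exp (-(s / 2))) :=
            mul_le_mul hD (h2 s) (Pw_nonneg s) (Real.exp_pos _).le
        _ = C2 * Real.exp (-(2 / 5 * s)) := by
            rw [mul_left_comm, ← Real.exp_add]; congr 2; ring
        _ ≤ C2 * (K / s ^ b) := by gcongr; exact h3 s s0
        _ = _ := by ring
    have a' : 0 ≤ (Real.log 4 + 4) * Real.exp 2 / s ^ b := by positivity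
    rw [sum_add_distrib, sum_const, Nat.card_Icc, nsmul_eq_mul, Nat.add_sub_cancel, add_div,
      add_div]
    linarith [e2 D hD]

end Pool.Agent.Lib.MP_d6ddbd_nt.L
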