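import Pool.Agent.Lib.MP_d6ddbd_nt.L.St
import Pool.Agent.Lib.MP_f64879_nt.LS

/-! Barban-Davenport-Halberstam for the difference of the primes and the model. -/

open Finset Filter Complex
open scoped Real ComplexConjugate

namespace Pool.Agent.Lib.MP_d6ddbd_nt.L

open MP_164d34_nt.Fam (trig nsq red)

namespace Bda

theorem orth {r : ℕ} (hr : 1 ≤ r) (n : ℤ) :
    ∑ t ∈ range r, cexp (2 * π * I * n * t / r) = if (r : ℤ) ∣ n then (r : ℂ) else 0 := by
  have hr' : (r : ℂ) ≠ 0 := by exact_mod_cast (by omega : r ≠ 0)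
  have e : ∀ t : ℕ, cexp (2 * π * I * n * t / r) = cexp (2 * π * I * n / r) ^ t := fun t => by
    rw [← Complex.exp_nat_mul]; congr 1; ring
  simp only [e]
  split_ifs with h
  · obtain ⟨k, rfl⟩ := h
    have : cexp (2 * π * I * ((r * k : ℤ) : ℂ) / r) = 1 :=
      Complex.exp_eq_one_iff.2 ⟨k, by push_cast; field_simp⟩
    rw [this]
    simp
  · have h1 : cexp (2 * π * I * n / r) ≠ 1 := fun c => h <| by
      obtain ⟨k, hk⟩ := Complex.exp_eq_one_iff.1 c
      refine ⟨k, ?_⟩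
      have p : (π : ℂ) ≠ 0 := by exact_mod_cast Real.pi_ne_zero
      field_simp at hk
      exact_mod_cast hk
    rw [geom_sum_eq h1, ← e r, mul_div_assoc, div_self hr', mul_one,
      Complex.exp_eq_one_iff.2 ⟨n, by ring⟩, sub_self, zero_div]

theorem parseval (g : ℕ → ℝ) {r : ℕ} (hr : 1 ≤ r) (y : ℕ) :
    ∑ t ∈ range r, ‖trig (fun n => (g n : ℂ)) y ((t : ℝ) / r)‖ ^ 2 = r * Var g r y := by
  have e1 : ∀ t : ℕ, ((‖trig (fun n => (g n : ℂ)) y ((t : ℝ) / r)‖ ^ 2 : ℝ) : ℂ) =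
      ∑ a ∈ range y, ∑ b ∈ range y, (g a * g b : ℂ) *
        cexp (2 * π * I * ((a : ℤ) - b : ℤ) * t / r) := fun t => by
    push_cast
    rw [← Complex.mul_conj', trig, map_sum, sum_mul_sum]
    refine sum_congr rfl fun a _ => sum_congr rfl fun b _ => ?_
    rw [map_mul, conj_ofReal, ← exp_conj, mul_mul_mul_comm, ← Complex.exp_add]
    simp only [map_mul, conj_ofReal, conj_I, map_ofNat, map_natCast]
    congr 2
    push_cast
    ring
  have e2 : Var g r y = ∑ a ∈ range y, ∑ b ∈ range y, if b % r = a % r then g a * g b else 0 := by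
    rw [Var, ← sum_fiberwise_of_maps_to (s := range y) (t := range r) (g := fun a => a % r)
      fun a _ => mem_range.2 (Nat.mod_lt _ hr)]
    refine sum_congr rfl fun s _ => ?_
    rw [sq, sum_mul]
    refine sum_congr rfl fun a ha => ?_
    rw [mul_sum, sum_filter, (mem_filter.1 ha).2]
  apply ofReal_injective
  rw [ofReal_sum, sum_congr rfl fun t _ => e1 t, sum_comm, e2]
  push_cast
  rw [mul_sum]
  refine sum_congr rfl fun a _ => ?_
  rw [sum_comm, mul_sum]
  refine sum_congr rfl fun b _ => ?_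
  have := orth hr ((a : ℤ) - b)
  push_cast at this
  rw [← mul_sum, this]
  have k : (r : ℤ) ∣ (a : ℤ) - b ↔ b % r = a % r := Nat.modEq_iff_dvd.symm
  by_cases c : b % r = a % r
  · rw [if_pos (k.2 c), if_pos c]; push_cast; ring
  · rw [if_neg (mt k.1 c), if_neg c]; simp

theorem inj_le {α β : Type} [DecidableEq β] {s : Finset α} {t : Finset β} {f : α → ℝ} {g : β → ℝ}
    (e : α → β) (h1 : Set.InjOn e s) (h2 : s.image e ⊆ t) (h3 : ∀ a ∈ s, f a ≤ g (e a))
    (h4 : ∀ b ∈ t, b ∉ s.image e → 0 ≤ g b) : ∑ a ∈ s, f a ≤ ∑ b ∈ t, g b :=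
  (sum_le_sum h3).trans ((sum_image h1).symm.le.trans (sum_le_sum_of_subset_of_nonneg h2 h4))

theorem farey (F : ℝ → ℝ) (hF : ∀ x, 0 ≤ F x) {r : ℕ} (hr : 1 ≤ r) :
    ∑ t ∈ range r, F ((t : ℝ) / r) ≤ ∑ f ∈ r.divisors, ∑ b ∈ red f, F ((b : ℝ) / f) := by
  rw [sum_sigma']
  have g0 : ∀ t : ℕ, 0 < t.gcd r := fun t => Nat.gcd_pos_of_pos_right _ hr
  have e : ∀ t : ℕ, ((t / t.gcd r : ℕ) : ℝ) / (r / t.gcd r : ℕ) = t / r := fun t => by
    have : ((t.gcd r : ℕ) : ℝ) ≠ 0 := by exact_mod_cast (g0 t).ne'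
    rw [Nat.cast_div (Nat.gcd_dvd_left _ _) this, Nat.cast_div (Nat.gcd_dvd_right _ _) this,
      div_div_div_cancel_right₀ this]
  refine inj_le (fun t => (⟨r / t.gcd r, t / t.gcd r⟩ : Σ _ : ℕ, ℕ)) ?_ ?_ ?_ ?_
  · intro a _ b _ h
    have h1 := e a
    have hr' : (r : ℝ) ≠ 0 := by exact_mod_cast (by omega : r ≠ 0)
    simp only [Sigma.mk.injEq, heq_eq_eq] at h
    rw [h.1, h.2, e b, div_left_inj' hr'] at h1
    exact_mod_cast h1.symm
  · intro p hp
    obtain ⟨t, ht, rfl⟩ := mem_image.1 hp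
    refine mem_sigma.2 ⟨Nat.mem_divisors.2 ⟨Nat.div_dvd_of_dvd (Nat.gcd_dvd_right _ _), by omega⟩,
      mem_filter.2 ⟨mem_range.2 ?_, Nat.coprime_div_gcd_div_gcd (g0 t)⟩⟩
    exact Nat.div_lt_div_of_lt_of_dvd (Nat.gcd_dvd_right _ _) (mem_range.1 ht)
  · intro t _
    exact (congrArg F (e t)).ge
  · intro _ _ _
    exact hF _

theorem har (D e : ℕ) (he : 1 ≤ e) :
    ∑ m ∈ Icc 1 D with e ∣ m, 1 / (m : ℝ) ≤ (1 + Real.log D) / e := by
  have h : ∑ m ∈ Icc 1 D, 1 / (m : ℝ) ≤ 1 + Real.log D := by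
    have := harmonic_le_one_add_log D
    rw [harmonic_eq_sum_Icc] at this
    simpa using this
  refine le_trans ?_ (div_le_div_of_nonneg_right h (Nat.cast_nonneg e))
  rw [sum_div]
  refine inj_le (fun m => m / e) ?_ ?_ ?_ fun _ _ _ => by positivity
  · intro a ha b hb k
    obtain ⟨x, rfl⟩ := (mem_filter.1 ha).2
    obtain ⟨z, rfl⟩ := (mem_filter.1 hb).2
    simp only [Nat.mul_div_cancel_left _ he] at k
    rw [k]
  · intro p hp
    obtain ⟨m, hm, rfl⟩ := mem_image.1 hp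
    obtain ⟨h1, h2⟩ := mem_filter.1 hm
    exact mem_Icc.2 ⟨Nat.div_pos (Nat.le_of_dvd (mem_Icc.1 h1).1 h2) he,
      (Nat.div_le_self _ _).trans (mem_Icc.1 h1).2⟩
  · intro m hm
    obtain ⟨x, rfl⟩ := (mem_filter.1 hm).2
    rw [Nat.mul_div_cancel_left _ he, div_div, mul_comm]
    simp

theorem wt_le (D K : ℕ) {f : ℕ} (hf : 1 ≤ f) :
    ∑ m ∈ Icc 1 D, ∑ k ∈ Icc 1 K, (if f ∣ m * k then 1 / ((m : ℝ) * k) else 0) ≤
      f.divisors.card / f * ((1 + Real.log D) * (1 + Real.log K)) := by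
  calc _ ≤ ∑ m ∈ Icc 1 D, ∑ k ∈ Icc 1 K, ∑ e ∈ f.divisors,
        (if e ∣ m then 1 / (m : ℝ) else 0) * (if f / e ∣ k then 1 / (k : ℝ) else 0) := by
        refine sum_le_sum fun m _ => sum_le_sum fun k _ => ?_
        have p : ∀ e ∈ f.divisors, 0 ≤ (if e ∣ m then 1 / (m : ℝ) else 0) *
          (if f / e ∣ k then 1 / (k : ℝ) else 0) := fun e _ => by positivity
        split_ifs with c
        · refine le_trans (le_of_eq ?_) (single_le_sum p (a := f.gcd m)
            (Nat.mem_divisors.2 ⟨Nat.gcd_dvd_left _ _, by omega⟩))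
          rw [if_pos (Nat.gcd_dvd_right _ _), if_pos, one_div_mul_one_div]
          have g0 : 0 < f.gcd m := Nat.gcd_pos_of_pos_left _ hf
          refine (Nat.coprime_div_gcd_div_gcd g0).dvd_of_dvd_mul_left
            (Nat.dvd_of_mul_dvd_mul_left g0 ?_)
          rwa [← mul_assoc, Nat.mul_div_cancel' (Nat.gcd_dvd_left _ _),
            Nat.mul_div_cancel' (Nat.gcd_dvd_right _ _)]
        · exact sum_nonneg p
    _ = ∑ e ∈ f.divisors, (∑ m ∈ Icc 1 D with e ∣ m, 1 / (m : ℝ)) *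
          ∑ k ∈ Icc 1 K with f / e ∣ k, 1 / (k : ℝ) := by
        simp only [sum_filter, sum_mul_sum]
        exact (sum_congr rfl fun _ _ => sum_comm).trans sum_comm
    _ ≤ ∑ e ∈ f.divisors, 1 / f * ((1 + Real.log D) * (1 + Real.log K)) := by
        refine sum_le_sum fun e he => ?_
        obtain ⟨x, rfl⟩ := Nat.dvd_of_mem_divisors he
        have h1 : 1 ≤ e := Nat.pos_of_mul_pos_right hf
        have h2 : 1 ≤ x := Nat.pos_of_mul_pos_left hf
        rw [Nat.mul_div_cancel_left _ h1]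
        refine (mul_le_mul (har D e h1) (har K x h2) (sum_nonneg fun _ _ => by positivity)
          (by have := Real.log_natCast_nonneg D; positivity)).trans_eq ?_
        push_cast
        ring
    _ = _ := by rw [sum_const, nsmul_eq_mul]; ring

theorem tau_sq (f : ℕ) : f.divisors.card ^ 2 ≤ 4 * f := by
  have h : f.divisors ⊆ Icc 1 f.sqrt ∪ (Icc 1 f.sqrt).image (f / ·) := fun e he => by
    obtain ⟨x, hx⟩ := Nat.dvd_of_mem_divisors he
    have h0 := Nat.pos_of_ne_zero (Nat.mem_divisors.1 he).2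
    have h1 : 1 ≤ e := Nat.pos_of_mul_pos_right (hx ▸ h0)
    have h2 : 1 ≤ x := Nat.pos_of_mul_pos_left (hx ▸ h0)
    rcases Nat.le_sqrt_of_eq_mul hx with c | c
    · exact mem_union_left _ (mem_Icc.2 ⟨h1, c⟩)
    · exact mem_union_right _ (mem_image.2 ⟨x, mem_Icc.2 ⟨h2, c⟩,
        by rw [hx, Nat.mul_div_cancel _ h2]⟩)
  have h2 := (card_le_card h).trans ((card_union_le _ _).trans (add_le_add le_rfl card_image_le))
  simp only [Nat.card_Icc, add_tsub_cancel_right] at h2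
  have := Nat.sqrt_le f
  nlinarith

theorem main (g : ℕ → ℝ) (y D K V : ℕ) {B z : ℝ} (hz : 0 < z) (hV : z ^ 2 ≤ V + 1)
    (hB : ∀ f ∈ Icc 1 V, ∀ b ∈ red f, ‖trig (fun n => (g n : ℂ)) y ((b : ℝ) / f)‖ ≤ B) :
    ∑ m ∈ Icc 1 D, ∑ k ∈ Icc 1 K, Var g (m * k) y ≤ (1 + Real.log D) * (1 + Real.log K) *
      (V ^ 2 * B ^ 2 + 2 / z * (22 * (((D * K : ℕ) : ℝ) ^ 2 + y + 1) * ∑ n ∈ range y, g n ^ 2)) := by
  set H : ℕ → ℝ := fun f => ∑ b ∈ red f, ‖trig (fun n => (g n : ℂ)) y ((b : ℝ) / f)‖ ^ 2 with hH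
  have H0 : ∀ f, 0 ≤ H f := fun f => sum_nonneg fun _ _ => by positivity
  have l0 : 0 ≤ (1 + Real.log D) * (1 + Real.log K) := by
    have := Real.log_natCast_nonneg D
    have := Real.log_natCast_nonneg K
    positivity
  calc _ ≤ ∑ m ∈ Icc 1 D, ∑ k ∈ Icc 1 K, ∑ f ∈ Icc 1 (D * K),
        (if f ∣ m * k then 1 / ((m : ℝ) * k) else 0) * H f := by
        refine sum_le_sum fun m hm => sum_le_sum fun k hk => ?_
        rw [mem_Icc] at hm hk
        have p : 1 ≤ m * k := Nat.mul_pos hm.1 hk.1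
        have p' : (0 : ℝ) < (m * k : ℕ) := by exact_mod_cast p
        have a := (parseval g p y).ge.trans
          (farey (fun x => ‖trig (fun n => (g n : ℂ)) y x‖ ^ 2) (fun _ => by positivity) p)
        rw [← le_div_iff₀' p', sum_div] at a
        refine a.trans (le_trans (le_of_eq (sum_congr rfl fun f hf => ?_))
          (sum_le_sum_of_subset_of_nonneg (s := (m * k).divisors) (fun f hf => mem_Icc.2
            ⟨Nat.pos_of_mem_divisors hf, (Nat.divisor_le hf).trans (Nat.mul_le_mul hm.2 hk.2)⟩)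
            fun f _ _ => mul_nonneg (by positivity) (H0 f)))
        rw [if_pos (Nat.dvd_of_mem_divisors hf)]
        push_cast
        ring
    _ = ∑ f ∈ Icc 1 (D * K), (∑ m ∈ Icc 1 D, ∑ k ∈ Icc 1 K,
          (if f ∣ m * k then 1 / ((m : ℝ) * k) else 0)) * H f := by
        simp only [sum_mul]
        exact (sum_congr rfl fun _ _ => sum_comm).trans sum_comm
    _ ≤ ∑ f ∈ Icc 1 (D * K), (1 + Real.log D) * (1 + Real.log K) *
          ((if f ≤ V then V * B ^ 2 else 0) + 2 / z * H f) := by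
        refine sum_le_sum fun f hf => ?_
        have h1 := (mem_Icc.1 hf).1
        have f0 : (0 : ℝ) < f := by exact_mod_cast h1
        refine (mul_le_mul_of_nonneg_right (wt_le D K h1) (H0 f)).trans ?_
        rw [mul_comm (_ / _ : ℝ), mul_assoc]
        refine mul_le_mul_of_nonneg_left ?_ l0
        have q := H0 f
        split_ifs with c
        · refine le_add_of_le_of_nonneg ?_ (by positivity)
          have a1 : (f.divisors.card : ℝ) / f ≤ 1 :=
            (div_le_one f0).2 (by exact_mod_cast Nat.card_divisors_le_self f)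
          refine (mul_le_of_le_one_left q a1).trans ((sum_le_card_nsmul _ _ (B ^ 2) fun b hb =>
            pow_le_pow_left₀ (norm_nonneg _) (hB f (mem_Icc.2 ⟨h1, c⟩) b hb) 2).trans ?_)
          rw [nsmul_eq_mul]
          gcongr
          exact (card_filter_le _ _).trans ((card_range f).le.trans c)
        · rw [zero_add]
          refine mul_le_mul_of_nonneg_right ?_ q
          have a1 : (f.divisors.card : ℝ) ^ 2 ≤ 4 * f := by exact_mod_cast tau_sq f
          have a2 : (V : ℝ) + 1 ≤ f := by exact_mod_cast not_le.1 c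
          rw [div_le_div_iff₀ f0 hz]
          refine (pow_le_pow_iff_left₀ (by positivity) (by positivity) two_ne_zero).1 ?_
          rw [mul_pow]
          nlinarith [mul_le_mul a1 (hV.trans a2) (by positivity) (by positivity)]
    _ ≤ _ := by
        rw [← mul_sum, sum_add_distrib, ← mul_sum]
        refine mul_le_mul_of_nonneg_left (add_le_add ?_ (mul_le_mul_of_nonneg_left ?_
          (by positivity))) l0
        · rw [← sum_filter, sum_const, nsmul_eq_mul, sq (V : ℝ), mul_assoc]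
          gcongr
          refine (card_le_card (t := Icc 1 V) fun f hf => ?_).trans (by simp)
          exact mem_Icc.2 ⟨(mem_Icc.1 (mem_filter.1 hf).1).1, (mem_filter.1 hf).2⟩
        · have := MP_f64879_nt.ls_add (fun n => (g n : ℂ)) y (D * K)
          rw [sum_sigma] at this
          simpa [nsq] using this

end Bda

theorem bda : BdaS := by
  intro hS hL c
  obtain ⟨a, ha⟩ : ∃ a, a = 2 * (c + 6) := ⟨_, rfl⟩
  obtain ⟨A, hA⟩ : ∃ A, A = a + c + 2 := ⟨_, rfl⟩
  obtain ⟨C, C0, hC⟩ := hS A (2 * a)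
  refine ⟨a, ?_⟩
  have t := (tendsto_exp_mul_div_rpow_atTop ((3 * a + A : ℕ) : ℝ) (9 / 10)
    (by norm_num)).eventually_ge_atTop 3
  filter_upwards [hL.2 a, t, eventually_ge_atTop (200 + 8 * (C * 2 ^ A + 1) ^ 2)]
    with u h1 h2 h3 Y y D K y1 y2 y3 y4
  have u1 : 200 ≤ u := le_trans (le_add_of_nonneg_right (by positivity)) h3
  have u0 : 0 < u := by linarith
  rw [Real.rpow_natCast, le_div_iff₀ (by positivity)] at h2
  have y5 : 3 * u ^ (3 * a + A) ≤ Y := h2.trans y1
  have p1 : 1 ≤ u ^ (3 * a + A) := one_le_pow₀ (by linarith)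
  have y6 : (3 : ℝ) ≤ Y := by linarith
  have l1 : 9 / 10 * u ≤ Real.log Y := (Real.le_log_iff_exp_le (by linarith)).2 y1
  have l2 : Real.log Y ≤ u + 5 := (Real.log_le_iff_le_exp (by linarith)).2 y2
  have v1 : (VV u a : ℝ) ≤ u ^ a := Nat.floor_le (by positivity)
  rcases Nat.eq_zero_or_pos D with rfl | D0
  · simp only [show Icc 1 0 = (∅ : Finset ℕ) from rfl, sum_empty]
    positivity
  rcases Nat.eq_zero_or_pos K with rfl | K0
  · simp only [show Icc 1 0 = (∅ : Finset ℕ) from rfl, sum_empty, sum_const_zero]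
    positivity
  have lg : ∀ E : ℕ, 0 < E → E ≤ D * K → 1 + Real.log E ≤ 2 * u := fun E e1 e2 => by
    have : (E : ℝ) ≤ Y := by exact_mod_cast e2.trans ((Nat.le_self_pow two_ne_zero _).trans y4)
    have := Real.log_le_log (by exact_mod_cast e1) this
    linarith
  have hB : ∀ f ∈ Icc 1 (VV u a), ∀ b ∈ red f,
      ‖trig (fun n => ((th n - lam (VV u a) n : ℝ) : ℂ)) y ((b : ℝ) / f)‖ ≤
        (C * 2 ^ A + 1) * Y / u ^ A := fun f hf b hb => by
    rw [mem_Icc] at hf
    have cp : IsCoprime (b : ℤ) f := Nat.isCoprime_iff_coprime.2 (mem_filter.1 hb).2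
    have f1 : (f : ℝ) ≤ Real.log Y ^ (2 * a) := by
      refine (Nat.cast_le.2 hf.2).trans (v1.trans ?_)
      rw [pow_mul]
      gcongr
      nlinarith
    have a1 := hC Y y f b (by exact_mod_cast y6) y3 hf.1 f1 cp
    have a2 := hL.1 (VV u a) y f b hf.1 hf.2 cp
    have a3 := (norm_sub_le _ _).trans (add_le_add a1 a2)
    rw [sub_sub_sub_cancel_right, ← sum_sub_distrib] at a3
    refine le_trans (le_of_eq (congrArg _ (sum_congr rfl fun n _ => ?_))) (a3.trans ?_)
    · push_cast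
      rw [← sub_mul]
      congr 2
      ring
    · rw [add_mul, add_div, one_mul]
      refine add_le_add ?_ ?_
      · have : (u / 2) ^ A ≤ Real.log Y ^ A := by gcongr; linarith
        refine (div_le_div_of_nonneg_left (by positivity) (by positivity) this).trans_eq ?_
        rw [div_pow]
        field_simp
      · rw [le_div_iff₀ (by positivity)]
        calc _ ≤ (u ^ a) ^ 3 * u ^ A := by gcongr
          _ = u ^ (3 * a + A) := by ring
          _ ≤ _ := by linarith
  have hV : (u ^ (c + 6)) ^ 2 ≤ (VV u a : ℝ) + 1 := by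
    rw [← pow_mul, mul_comm, ← ha]
    exact (Nat.lt_floor_add_one _).le
  refine (Bda.main _ y D K _ (by positivity) hV hB).trans ?_
  have n1 : ∑ n ∈ range y, (th n - lam (VV u a) n) ^ 2 ≤ 8 * Y * u ^ 2 :=
    (sum_le_sum_of_subset_of_nonneg (range_subset_range.2 y3) fun _ _ _ => sq_nonneg _).trans
      (h1 Y y1 y2)
  have n2 : ((D * K : ℕ) : ℝ) ^ 2 + y + 1 ≤ 3 * Y := by
    have b1 : ((D * K : ℕ) : ℝ) ^ 2 ≤ Y := by exact_mod_cast y4
    have b2 : (y : ℝ) ≤ Y := by exact_mod_cast y3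
    linarith
  have := Real.log_natCast_nonneg K
  calc _ ≤ (2 * u) * (2 * u) * ((u ^ a) ^ 2 * ((C * 2 ^ A + 1) * Y / u ^ A) ^ 2 +
        2 / u ^ (c + 6) * (22 * (3 * Y) * (8 * Y * u ^ 2))) := by
        gcongr
        exacts [lg D D0 (Nat.le_mul_of_pos_right _ K0), lg K K0 (Nat.le_mul_of_pos_left _ D0)]
    _ = Y ^ 2 / u ^ c * (4 * (C * 2 ^ A + 1) ^ 2 / u ^ (c + 2) + 4224 / u ^ 2) := by
        generalize C * 2 ^ A + 1 = E
        rw [hA]
        field_simp
        ring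
    _ ≤ Y ^ 2 / u ^ c * (1 / 2 + 1 / 2) := by
        refine mul_le_mul_of_nonneg_left (add_le_add ?_ ?_) (by positivity)
        · rw [div_le_iff₀ (by positivity)]
          have : u ≤ u ^ (c + 2) := le_self_pow₀ (by linarith) (by omega)
          linarith
        · rw [div_le_iff₀ (by positivity)]
          nlinarith
    _ = _ := by ring

end Pool.Agent.Lib.MP_d6ddbd_nt.L
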