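import Pool.Agent.Lib.MP_d6ddbd_nt.L.St

/-! The Legendre family: triples and labellings. -/

open Finset

noncomputable section

namespace Pool.Agent.Lib.MP_d6ddbd_nt.L

namespace Br

/-- The primes of a colour. -/
def Pt (S : Finset ℕ) (f : S → Lb) (i : Fin 3) : Finset ℕ :=
  (univ.filter fun p : S => (f p).1 = i).map (Function.Embedding.subtype _)

lemma mem_Pt {S : Finset ℕ} {f : S → Lb} {i : Fin 3} {q : ℕ} :
    q ∈ Pt S f i ↔ ∃ h : q ∈ S, (f ⟨q, h⟩).1 = i := by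
  simp [Pt]

lemma card_Pt (S : Finset ℕ) (f : S → Lb) (i : Fin 3) : (Pt S f i).card = om S f i := by
  simp [Pt, om]

/-- The triple of a labelling. -/
def ph (S : Finset ℕ) (f : S → Lb) : ℕ × ℕ × ℕ :=
  (∏ q ∈ Pt S f 0, q, ∏ q ∈ Pt S f 1, q, ∏ q ∈ Pt S f 2, q)

lemma pf_Pt (m : ℕ) (f : m.primeFactors → Lb) (i : Fin 3) :
    (∏ q ∈ Pt _ f i, q).primeFactors = Pt _ f i :=
  Nat.primeFactors_prod fun _ hq => Nat.prime_of_mem_primeFactors (mem_Pt.1 hq).1

lemma pr_ph {m : ℕ} (hm : Squarefree m) (f : m.primeFactors → Lb) : pr (ph _ f) = m := by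
  have h := Finset.prod_fiberwise (univ : Finset m.primeFactors) (fun p => (f p).1)
    fun p => (p : ℕ)
  rw [Fin.prod_univ_three, Finset.prod_coe_sort m.primeFactors (fun p => p),
    Nat.prod_primeFactors_of_squarefree hm] at h
  simpa [pr, ph, Pt] using h

lemma dvd_Pt {m : ℕ} (f : m.primeFactors → Lb) (i : Fin 3) (p : m.primeFactors) :
    (p : ℕ) ∣ ∏ q ∈ Pt _ f i, q ↔ (f p).1 = i := by
  have hp := Nat.prime_of_mem_primeFactors p.2
  have h0 : (∏ q ∈ Pt _ f i, q) ≠ 0 := Finset.prod_ne_zero_iff.2 fun q hq =>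
    (Nat.prime_of_mem_primeFactors (mem_Pt.1 hq).1).ne_zero
  constructor
  · intro h
    have := Nat.mem_primeFactors.2 ⟨hp, h, h0⟩
    rw [pf_Pt] at this
    exact (mem_Pt.1 this).2
  · exact fun h => Finset.dvd_prod_of_mem _ (mem_Pt.2 ⟨p.2, h⟩)

lemma ph_iff {d : ℕ × ℕ × ℕ} (hm : Squarefree (pr d)) (f : (pr d).primeFactors → Lb) :
    ph _ f = d ↔ ∀ p, (f p).1 = cl d p := by
  constructor
  · intro h p
    have h1 : d.1 = ∏ q ∈ Pt _ f 0, q := (congrArg Prod.fst h).symm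
    have h2 : d.2.1 = ∏ q ∈ Pt _ f 1, q := (congrArg (fun x => x.2.1) h).symm
    have k1 := dvd_Pt f 0 p
    have k2 := dvd_Pt f 1 p
    rw [← h1] at k1
    rw [← h2] at k2
    unfold cl
    simp only [k1, k2]
    generalize (f p).1 = i
    revert i
    decide
  · intro h
    have h0 := hm.ne_zero
    obtain ⟨c1, s12, s3⟩ := Nat.squarefree_mul_iff.1 hm
    obtain ⟨c2, s1, s2⟩ := Nat.squarefree_mul_iff.1 s12
    have e : ∀ (i : Fin 3) (x : ℕ), Squarefree x →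
        (∀ q, q.Prime → (q ∣ x ↔ q ∣ pr d ∧ cl d q = i)) → ∏ q ∈ Pt _ f i, q = x := by
      intro i x hx hq
      rw [← Nat.prod_primeFactors_of_squarefree hx]
      congr 1
      ext q
      simp only [mem_Pt, h, Nat.mem_primeFactors, exists_prop]
      exact ⟨fun k => ⟨k.1.1, (hq q k.1.1).2 ⟨k.1.2.1, k.2⟩, hx.ne_zero⟩,
        fun k => ⟨⟨k.1, ((hq q k.1).1 k.2.1).1, h0⟩, ((hq q k.1).1 k.2.1).2⟩⟩
    have nc : ∀ {x y q : ℕ}, x.Coprime y → q.Prime → q ∣ x → ¬ q ∣ y := fun k hq k1 k2 =>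
      hq.ne_one (Nat.eq_one_of_dvd_coprimes k k1 k2)
    refine Prod.ext (e 0 _ s1 fun q hq => ?_)
      (Prod.ext (e 1 _ s2 fun q hq => ?_) (e 2 _ s3 fun q hq => ?_))
    all_goals
      have n1 := nc c2 hq
      have n2 := nc c1 hq
      simp only [pr, cl, hq.dvd_mul] at n2 ⊢
      by_cases k1 : q ∣ d.1 <;> by_cases k2 : q ∣ d.2.1 <;> by_cases k3 : q ∣ d.2.2 <;> simp_all

open Classical in
lemma fib {m : ℕ} (hm : Squarefree m) (T : Finset (ℕ × ℕ × ℕ)) (hT : ∀ d ∈ T, pr d = m)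
    (F : (S : Finset ℕ) → (S → Lb) → ℝ) :
    ∑ d ∈ T, (∑ f ∈ Fintype.piFinset fun p : (pr d).primeFactors =>
      univ.filter fun k : Lb => k.1 = cl d p, F _ f) =
        ∑ f : m.primeFactors → Lb, if ph _ f ∈ T then F _ f else 0 := by
  rw [← Finset.sum_filter, ← Finset.sum_fiberwise_of_maps_to (g := ph _) (t := T)
    fun f hf => (mem_filter.1 hf).2]
  refine Finset.sum_congr rfl fun d hd => ?_
  obtain rfl := hT d hd
  refine Finset.sum_congr ?_ fun _ _ => rfl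
  ext f
  simp only [Fintype.mem_piFinset, mem_filter, mem_univ, true_and, ← ph_iff hm]
  exact ⟨fun h => ⟨by rw [h]; exact hd, h⟩, fun h => h.2⟩

open Classical in
lemma fib' (u : ℝ) (T : Finset (ℕ × ℕ × ℕ)) (hT : ∀ d ∈ T, pr d ∈ Sq u)
    (F : (S : Finset ℕ) → (S → Lb) → ℝ) :
    ∑ d ∈ T, (∑ f ∈ Fintype.piFinset fun p : (pr d).primeFactors =>
      univ.filter fun k : Lb => k.1 = cl d p, F _ f) / (pr d : ℝ) =
        GG u fun S f => if ph S f ∈ T ∧ pr (ph S f) = ∏ q ∈ S, q then F S f else 0 := by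
  rw [← Finset.sum_fiberwise_of_maps_to hT]
  refine Finset.sum_congr rfl fun m hm => ?_
  have hs : Squarefree m := (mem_filter.1 hm).2.1
  simp only [Nat.prod_primeFactors_of_squarefree hs]
  have := fib hs (T.filter fun d => pr d = m) (fun d hd => (mem_filter.1 hd).2) F
  simp only [mem_filter] at this
  rw [← this, Finset.sum_div]
  exact Finset.sum_congr rfl fun d hd => by rw [(mem_filter.1 hd).2]

end Br

open Br in
theorem br' : BrS := by
  classical
  intro u F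
  rw [fib' u (Fam u) (fun d hd => ?_) F]
  · refine Finset.sum_congr rfl fun m hm => ?_
    obtain ⟨h1, hs, ho⟩ := mem_filter.1 hm
    congr 1
    refine Finset.sum_congr rfl fun f _ => if_congr ?_ rfl rfl
    have e := pr_ph hs f
    have h2 := mem_Icc.1 h1
    have k : ∀ x, x ∣ m → x ∈ Icc 1 (DD u) := fun x hx =>
      mem_Icc.2 ⟨Nat.pos_of_dvd_of_pos hx h2.1, (Nat.le_of_dvd h2.1 hx).trans h2.2⟩
    have k1 := k (ph _ f).1 (Dvd.intro _ ((mul_assoc _ _ _).symm.trans e))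
    have k2 := k (ph _ f).2.1 (((dvd_mul_left _ _).mul_right _).trans (dvd_of_eq e))
    have k3 := k (ph _ f).2.2 (Dvd.intro_left _ e)
    have c0 : (ph _ f).1.primeFactors.card = om _ f 0 := by rw [← card_Pt, ← pf_Pt]; rfl
    have c2 : (ph _ f).2.2.primeFactors.card = om _ f 2 := by rw [← card_Pt, ← pf_Pt]; rfl
    simp only [Fam, Tri, Io, mem_filter, mem_product, e, c0, c2, k1, k2, k3, hs, ho, h2.2,
      Nat.prod_primeFactors_of_squarefree hs, true_and, and_true]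
  · obtain ⟨-, hs, ho, h3, -⟩ := mem_filter.1 (mem_filter.1 hd).1
    exact mem_filter.2 ⟨mem_Icc.2 ⟨Nat.pos_of_ne_zero hs.ne_zero, h3⟩, hs, ho⟩

end Pool.Agent.Lib.MP_d6ddbd_nt.L
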