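import Mathlib

/-! Real Dirichlet series of completely multiplicative functions and sums over primes. -/

open Finset Filter

noncomputable section

namespace Pool.Agent.Lib.MP_d6ddbd_nt.L.ChAux

/-- The Dirichlet series. -/
def LS (f : ℕ → ℝ) (s : ℝ) : ℝ := ∑' n : ℕ, f n * (n : ℝ) ^ (-s)

/-- The restriction to the primes. -/
def pr (f : ℕ → ℝ) (n : ℕ) : ℝ := if n.Prime then f n else 0

lemma pr_abs {f : ℕ → ℝ} (hb : ∀ n, |f n| ≤ 1) (n : ℕ) : |pr f n| ≤ 1 := by
  unfold pr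
  split_ifs
  · exact hb n
  · simp

lemma tm_abs {f : ℕ → ℝ} (hb : ∀ n, |f n| ≤ 1) (s : ℝ) (n : ℕ) :
    |f n * (n : ℝ) ^ (-s)| ≤ (n : ℝ) ^ (-s) := by
  rw [abs_mul, abs_of_nonneg (by positivity : 0 ≤ (n : ℝ) ^ (-s))]
  exact mul_le_of_le_one_left (by positivity) (hb _)

lemma summ0 {s : ℝ} (hs : 1 < s) : Summable fun n : ℕ => (n : ℝ) ^ (-s) :=
  Real.summable_nat_rpow.2 (by linarith)

lemma summ {f : ℕ → ℝ} (hb : ∀ n, |f n| ≤ 1) {s : ℝ} (hs : 1 < s) :
    Summable fun n : ℕ => f n * (n : ℝ) ^ (-s) :=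
  Summable.of_norm_bounded (summ0 hs) fun n => tm_abs hb s n

lemma log_bd {w : ℝ} (hw : |w| ≤ 1 / 2) :
    w ≤ Real.log (1 - w)⁻¹ ∧ Real.log (1 - w)⁻¹ ≤ w + 2 * w ^ 2 := by
  obtain ⟨h1, h2⟩ := abs_le.1 hw
  have h3 : 0 < 1 - w := by linarith
  constructor
  · rw [Real.log_inv]
    linarith [Real.log_le_sub_one_of_pos h3]
  · refine (Real.log_le_sub_one_of_pos (inv_pos.2 h3)).trans ?_
    rw [sub_le_iff_le_add, inv_le_iff_one_le_mul₀ h3]
    nlinarith [mul_nonneg (sq_nonneg w) (show 0 ≤ 1 - 2 * w by linarith)]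

lemma rpow_le_inv {s : ℝ} (hs : 1 ≤ s) (n : ℕ) : (n : ℝ) ^ (-s) ≤ 1 / (n : ℝ) := by
  rcases Nat.eq_zero_or_pos n with rfl | h
  · simp [Real.zero_rpow (show -s ≠ 0 by linarith)]
  · rw [one_div, ← Real.rpow_neg_one]
    exact Real.rpow_le_rpow_of_exponent_le (by exact_mod_cast h) (by linarith)

/-- The logarithm of the Euler product. -/
lemma euler {f : ℕ → ℝ} (h1 : f 1 = 1) (hm : ∀ m n, f (m * n) = f m * f n)
    (hb : ∀ n, |f n| ≤ 1) {s : ℝ} (hs : 1 < s) :
    0 < LS f s ∧ LS (pr f) s ≤ Real.log (LS f s) ∧ Real.log (LS f s) ≤ LS (pr f) s + 4 := by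
  let g : ℕ →*₀ ℝ :=
    { toFun := fun n => f n * (n : ℝ) ^ (-s)
      map_zero' := by simp [Real.zero_rpow (show -s ≠ 0 by linarith)]
      map_one' := by simp [h1]
      map_mul' := fun m n => by
        rw [hm, Nat.cast_mul, Real.mul_rpow (by positivity) (by positivity)]
        ring }
  have hg : ∀ n, g n = f n * (n : ℝ) ^ (-s) := fun n => rfl
  have s1 : Summable fun n => g n := summ hb hs
  have e1 := EulerProduct.eulerProduct_completely_multiplicative_tprod (f := g) s1.norm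
  have b1 : ∀ p : Nat.Primes, |g p| ≤ 1 / ((p : ℕ) : ℝ) := fun p =>
    (tm_abs hb s p).trans (rpow_le_inv hs.le p)
  have b2 : ∀ p : Nat.Primes, |g p| ≤ 1 / 2 := fun p => (b1 p).trans
    (one_div_le_one_div_of_le (by norm_num) (by exact_mod_cast p.2.two_le))
  have s2 : Summable fun p : Nat.Primes => g p := s1.subtype _
  have s3 : Summable fun p : Nat.Primes => 1 / ((p : ℕ) : ℝ) ^ 2 :=
    hasSum_zeta_two.summable.subtype _
  have s4 : ∑' p : Nat.Primes, 1 / ((p : ℕ) : ℝ) ^ 2 ≤ 2 := by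
    have := hasSum_zeta_two.summable.tsum_subtype_le _ {p | p.Prime} (fun n => by positivity)
    rw [hasSum_zeta_two.tsum_eq] at this
    refine le_trans this ?_
    nlinarith [Real.pi_lt_d2, Real.pi_pos]
  have b3 : ∀ p : Nat.Primes, Real.log (1 - g p)⁻¹ ≤ g p + 2 * (1 / ((p : ℕ) : ℝ) ^ 2) := fun p => by
    have a1 := (log_bd (b2 p)).2
    have a2 : g p ^ 2 ≤ 1 / ((p : ℕ) : ℝ) ^ 2 := by
      rw [← sq_abs, ← one_div_pow]
      exact pow_le_pow_left₀ (abs_nonneg _) (b1 p) 2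
    linarith
  have s5 : Summable fun p : Nat.Primes => g p + 2 * (1 / ((p : ℕ) : ℝ) ^ 2) :=
    s2.add (s3.mul_left 2)
  have s6 : Summable fun p : Nat.Primes => Real.log (1 - g p)⁻¹ := by
    refine Summable.of_norm_bounded (s2.abs.add (s3.mul_left 2)) fun p => ?_
    have a1 := (log_bd (b2 p)).1
    have a2 := b3 p
    have a3 : 0 ≤ 1 / ((p : ℕ) : ℝ) ^ 2 := by positivity
    rw [Real.norm_eq_abs, abs_le]
    constructor <;> linarith [le_abs_self (g p), neg_abs_le (g p)]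
  have e2 := Real.rexp_tsum_eq_tprod (f := fun p : Nat.Primes => (1 - g p)⁻¹)
    (fun p => inv_pos.2 (by linarith [(abs_le.1 (b2 p)).2])) s6
  have e3 : LS f s = Real.exp (∑' p : Nat.Primes, Real.log (1 - g p)⁻¹) := by
    rw [e2, e1]
    rfl
  have e4 : LS (pr f) s = ∑' p : Nat.Primes, g p := by
    refine Eq.trans ?_ (_root_.tsum_subtype {p : ℕ | p.Prime} fun n => g n).symm
    refine tsum_congr fun n => ?_
    by_cases h : n.Prime
    · rw [Set.indicator_of_mem (by exact h), pr, if_pos h, hg]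
    · rw [Set.indicator_of_notMem (by exact h), pr, if_neg h, zero_mul]
  rw [e3, Real.log_exp, e4]
  refine ⟨Real.exp_pos _, s2.tsum_le_tsum (fun p => (log_bd (b2 p)).1) s6, ?_⟩
  refine (s6.tsum_le_tsum b3 s5).trans ?_
  rw [s2.tsum_add (s3.mul_left 2), tsum_mul_left]
  linarith

lemma abel {a w : ℕ → ℝ} {B : ℝ} (hB : ∀ N, |∑ n ∈ range N, a n| ≤ B) (hw : Antitone w) (N : ℕ) :
    |∑ n ∈ range N, a n * w n - (∑ n ∈ range N, a n) * w N| ≤ B * (w 0 - w N) := by
  induction N with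
  | zero => simp
  | succ N ih =>
    have e : ∑ n ∈ range (N + 1), a n * w n - (∑ n ∈ range (N + 1), a n) * w (N + 1) =
        (∑ n ∈ range N, a n * w n - (∑ n ∈ range N, a n) * w N) +
          (∑ n ∈ range (N + 1), a n) * (w N - w (N + 1)) := by
      simp only [sum_range_succ]
      ring
    have h1 : 0 ≤ w N - w (N + 1) := sub_nonneg.2 (hw N.le_succ)
    rw [e]
    refine (abs_add_le _ _).trans ?_
    rw [abs_mul, abs_of_nonneg h1]
    nlinarith [mul_le_mul_of_nonneg_right (hB (N + 1)) h1]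

lemma abel' {a w : ℕ → ℝ} {B : ℝ} (hB : ∀ N, |∑ n ∈ range N, a n| ≤ B) (hw : Antitone w)
    (h0 : ∀ n, 0 ≤ w n) (N : ℕ) : |∑ n ∈ range N, a n * w n| ≤ B * w 0 := by
  have h1 := abel hB hw N
  have h2 : |(∑ n ∈ range N, a n) * w N| ≤ B * w N := by
    rw [abs_mul, abs_of_nonneg (h0 N)]
    exact mul_le_mul_of_nonneg_right (hB N) (h0 N)
  have h3 := abs_add_le (∑ n ∈ range N, a n * w n - (∑ n ∈ range N, a n) * w N)
    ((∑ n ∈ range N, a n) * w N)
  rw [sub_add_cancel] at h3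
  linarith

lemma window {f : ℕ → ℝ} {q : ℕ} (hp : ∀ n, f (n + q) = f n) (k : ℕ) :
    ∑ n ∈ range q, f (n + k) = ∑ n ∈ range q, f n := by
  induction k with
  | zero => rfl
  | succ k ih =>
    have h1 := sum_range_succ (fun n => f (n + k)) q
    have h2 := sum_range_succ' (fun n => f (n + k)) q
    have h3 : f (q + k) = f (0 + k) := by rw [add_comm, hp, zero_add]
    have h4 : ∑ n ∈ range q, f (n + 1 + k) = ∑ n ∈ range q, f (n + (k + 1)) :=
      sum_congr rfl fun n _ => by rw [add_assoc, add_comm 1 k]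
    linarith

lemma per_bd {f : ℕ → ℝ} {q : ℕ} (hq : 1 ≤ q) (hb : ∀ n, |f n| ≤ 1) (hp : ∀ n, f (n + q) = f n)
    (h0 : ∑ n ∈ range q, f n = 0) (M N : ℕ) : |∑ n ∈ range N, f (n + M)| ≤ q := by
  induction N using Nat.strong_induction_on with
  | _ N ih =>
    rcases le_or_gt N q with h | h
    · refine (abs_sum_le_sum_abs _ _).trans ((sum_le_sum fun n _ => hb _).trans ?_)
      simpa using h
    · obtain ⟨k, rfl⟩ := Nat.exists_eq_add_of_le' h.le
      have h1 : ∑ n ∈ range q, f (k + n + M) = 0 := by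
        rw [← h0, ← window hp (k + M)]
        exact sum_congr rfl fun n _ => by rw [add_comm k n, add_assoc]
      rw [sum_range_add, h1, add_zero]
      exact ih k (by omega)

lemma LS_tail {f : ℕ → ℝ} {q : ℕ} (hq : 1 ≤ q) (hb : ∀ n, |f n| ≤ 1) (hp : ∀ n, f (n + q) = f n)
    (h0 : ∑ n ∈ range q, f n = 0) {s : ℝ} (hs : 1 < s) {M : ℕ} (hM : 1 ≤ M) :
    |LS f s - ∑ n ∈ range M, f n * (n : ℝ) ^ (-s)| ≤ q * (1 / (M : ℝ)) := by
  have s1 := summ hb hs
  have s2 := (summable_nat_add_iff M).2 s1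
  rw [LS, ← s1.sum_add_tsum_nat_add M, add_sub_cancel_left]
  refine le_of_tendsto' (s2.hasSum.tendsto_sum_nat.abs) fun N => ?_
  have hM' : (0 : ℝ) < M := by exact_mod_cast hM
  refine (abel' (a := fun n => f (n + M)) (w := fun n => ((n + M : ℕ) : ℝ) ^ (-s))
    (per_bd hq hb hp h0 M) (fun m n h => ?_) (fun n => by positivity) N).trans ?_
  · refine Real.rpow_le_rpow_of_nonpos (by push_cast; positivity) ?_ (by linarith)
    exact_mod_cast Nat.add_le_add_right h M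
  · rw [zero_add]
    exact mul_le_mul_of_nonneg_left (rpow_le_inv hs.le M) (by positivity)

lemma LS_le {f : ℕ → ℝ} {q : ℕ} (hq : 1 ≤ q) (hb : ∀ n, |f n| ≤ 1) (hp : ∀ n, f (n + q) = f n)
    (h0 : ∑ n ∈ range q, f n = 0) {s : ℝ} (hs : 1 < s) : LS f s ≤ 2 + Real.log q := by
  have h1 := (abs_le.1 (LS_tail hq hb hp h0 hs (M := q + 1) (by omega))).2
  have h2 : ∑ n ∈ range (q + 1), f n * (n : ℝ) ^ (-s) ≤ ∑ n ∈ range (q + 1), 1 / (n : ℝ) :=
    sum_le_sum fun n _ => (le_abs_self _).trans ((tm_abs hb s n).trans (rpow_le_inv hs.le n))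
  have h3 := harmonic_le_one_add_log q
  have h4 : ∑ n ∈ range (q + 1), 1 / (n : ℝ) = (harmonic q : ℝ) := by
    rw [sum_range_succ', harmonic]
    simp
  have h5 : (q : ℝ) * (1 / ((q + 1 : ℕ) : ℝ)) ≤ 1 := by
    rw [mul_one_div, div_le_one (by positivity)]
    push_cast
    linarith
  linarith

lemma anti {s : ℝ} (hs : 1 < s) {N : ℕ} (hN : 1 ≤ N) :
    AntitoneOn (fun t : ℝ => t ^ (-s)) (Set.Ici (N : ℝ)) := fun x hx y _ h =>
  Real.rpow_le_rpow_of_nonpos (lt_of_lt_of_le (by exact_mod_cast hN) hx) h (by linarith)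

lemma tail {s : ℝ} (hs : 1 < s) {N : ℕ} (hN : 1 ≤ N) :
    ∑' n : ℕ, ((n + (N + 1) : ℕ) : ℝ) ^ (-s) ≤ (N : ℝ) ^ (1 - s) / (s - 1) := by
  have hN' : (0 : ℝ) < N := by exact_mod_cast hN
  have h := (anti hs hN).tsum_comp_add_le_integral N
    (integrableOn_Ioi_rpow_of_lt (by linarith) hN') fun t ht => by
      have : 0 < t := hN'.trans ht
      positivity
  rw [integral_Ioi_rpow_of_lt (by linarith) hN'] at h
  refine h.trans (le_of_eq ?_)
  rw [show -s + 1 = 1 - s by ring, show s - 1 = -(1 - s) by ring, div_neg, neg_div]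

lemma zeta_bd {s : ℝ} (hs : 1 < s) :
    1 / (s - 1) ≤ LS (fun _ => 1) s ∧ LS (fun _ => 1) s ≤ 1 + 1 / (s - 1) := by
  have z : (0 : ℝ) ^ (-s) = 0 := Real.zero_rpow (by linarith)
  simp only [LS, one_mul]
  constructor
  · have h := (anti hs le_rfl).integral_le_tsum_comp_add 1 (summ0 hs) fun t ht => by
      have : 0 < t := lt_trans (by simp) ht
      positivity
    rw [integral_Ioi_rpow_of_lt (by linarith) (by simp)] at h
    rw [← (summ0 hs).sum_add_tsum_nat_add 1]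
    simp only [range_one, sum_singleton, Nat.cast_zero, z, zero_add]
    refine le_trans (le_of_eq ?_) h
    rw [Nat.cast_one, Real.one_rpow, show -s + 1 = -(s - 1) by ring, neg_div_neg_eq]
  · have h := tail hs (N := 1) le_rfl
    rw [← (summ0 hs).sum_add_tsum_nat_add 2]
    simp only [sum_range_succ, range_zero, sum_empty, Nat.cast_zero, z, zero_add, Nat.cast_one,
      Real.one_rpow] at h ⊢
    linarith

end Pool.Agent.Lib.MP_d6ddbd_nt.L.ChAux
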