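import Pool.Agent.Lib.MP_d6ddbd_nt.L.St
import Pool.Agent.Lib.MP_d6ddbd_nt.L.Ch1
import Pool.Agent.Lib.MP_d6ddbd_nt.G.Bil

/-! Sums over primes with prescribed symbols. -/

open Finset Filter

noncomputable section

namespace Pool.Agent.Lib.MP_d6ddbd_nt.L

namespace ChAux

/-- The non-trivial character modulo four. -/
def c4 (n : ℕ) : ℝ := ((ZMod.χ₄ (n : ZMod 4) : ℤ) : ℝ)

/-- The Jacobi symbol with denominator `x`. -/
def jx (x n : ℕ) : ℝ := (jacobiSym n x : ℝ)

lemma c4_eq (n : ℕ) : c4 n = if n % 2 = 0 then 0 else if n % 4 = 1 then 1 else -1 := by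
  rw [c4, ZMod.χ₄_nat_eq_if_mod_four]
  split_ifs <;> simp

lemma c4_abs (n : ℕ) : |c4 n| ≤ 1 := by
  rw [c4_eq]
  split_ifs <;> simp

lemma c4_mul (m n : ℕ) : c4 (m * n) = c4 m * c4 n := by
  simp only [c4, Nat.cast_mul, map_mul, Int.cast_mul]

lemma c4_add (n k : ℕ) : c4 (n + 4 * k) = c4 n := by
  rw [c4_eq, c4_eq, show (n + 4 * k) % 2 = n % 2 by omega, show (n + 4 * k) % 4 = n % 4 by omega]

lemma c4_neg (n : ℕ) {x : ℕ} (hx : Odd x) : c4 (n + 2 * x) = -c4 n := by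
  obtain ⟨k, rfl⟩ := hx
  rw [c4_eq, c4_eq]
  split_ifs <;> first | omega | simp

lemma jx_abs (x n : ℕ) : |jx x n| ≤ 1 := G.BilAux.abs_jac _ _

lemma jx_mul (x m n : ℕ) : jx x (m * n) = jx x m * jx x n := by
  simp only [jx, Nat.cast_mul, jacobiSym.mul_left, Int.cast_mul]

lemma jx_add (x n k : ℕ) : jx x (n + k * x) = jx x n := by
  unfold jx
  rw [jacobiSym.mod_left' (a₂ := n)]
  push_cast
  exact Int.add_mul_emod_self_right _ _ _

lemma jx_sum {x : ℕ} (h1 : Squarefree x) (h2 : Odd x) (h3 : 1 < x) :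
    ∑ n ∈ range x, jx x n = 0 := by
  have : NeZero x := ⟨by omega⟩
  have h4 : G.BilAux.jc x ≠ 1 := fun h => by
    have h5 := G.BilAux.jc_prim x h1 h2
    rw [DirichletCharacter.IsPrimitive, h, DirichletCharacter.conductor_one] at h5
    omega
  have h0 : ∑ m ∈ range x, G.BilAux.jc x m = 0 := by
    rw [← (G.BilAux.jc x).sum_eq_zero_of_ne_one h4]
    exact sum_nbij' (fun m => (m : ZMod x)) ZMod.val (by simp) (by simp [ZMod.val_lt])
      (fun m hm => ZMod.val_cast_of_lt (mem_range.1 hm)) (by simp) (by simp)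
  simp only [G.BilAux.jc_apply] at h0
  unfold jx
  exact_mod_cast h0

lemma P1 {s : ℝ} (hs : 1 < s) : LS (pr fun _ => 1) s ≤ Real.log (1 + 1 / (s - 1)) ∧
    Real.log (1 / (s - 1)) - 4 ≤ LS (pr fun _ => 1) s := by
  obtain ⟨a, b, c⟩ := euler (f := fun _ => 1) rfl (by simp) (by simp) hs
  obtain ⟨d, e⟩ := zeta_bd hs
  have h0 : 0 < 1 / (s - 1) := one_div_pos.2 (by linarith)
  exact ⟨b.trans (Real.log_le_log a e), by linarith [Real.log_le_log h0 d]⟩

lemma P4 {s : ℝ} (hs : 1 < s) : LS (pr c4) s ≤ 4 ∧ -45 ≤ LS (pr c4) s := by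
  obtain ⟨a, b, c⟩ := euler (f := c4) (by simp [c4_eq]) c4_mul c4_abs hs
  have hp : ∀ n, c4 (n + 4) = c4 n := fun n => c4_add n 1
  have h0 : ∑ n ∈ range 4, c4 n = 0 := by simp [sum_range_succ, c4_eq]
  have h1 := LS_le (by norm_num) c4_abs hp h0 hs
  have h2 := (abs_le.1 (LS_tail (by norm_num) c4_abs hp h0 hs (M := 8) (by norm_num))).1
  have h3 := rpow_le_inv hs.le 3
  have h7 := rpow_le_inv hs.le 7
  have h5 : 0 ≤ ((5 : ℕ) : ℝ) ^ (-s) := by positivity
  have h6 : ∑ n ∈ range 8, c4 n * (n : ℝ) ^ (-s) =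
      1 - ((3 : ℕ) : ℝ) ^ (-s) + ((5 : ℕ) : ℝ) ^ (-s) - ((7 : ℕ) : ℝ) ^ (-s) := by
    simp [sum_range_succ, c4_eq]
    ring
  have h8 : 42⁻¹ ≤ LS c4 s := by
    rw [h6] at h2
    push_cast at h2 h3 h5 h7
    linarith
  have h9 := Real.log_le_log (by norm_num) h8
  rw [Real.log_inv] at h9
  have a1 := Real.log_le_sub_one_of_pos (show (0 : ℝ) < 42 by norm_num)
  have a2 := Real.log_le_sub_one_of_pos a
  have a3 := Real.log_le_sub_one_of_pos (show (0 : ℝ) < (4 : ℕ) by norm_num)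
  push_cast at a3 h1
  constructor <;> linarith

lemma Pj {x : ℕ} (h1 : Squarefree x) (h2 : Odd x) (h3 : 1 < x) {s : ℝ} (hs : 1 < s) :
    LS (pr (jx x)) s ≤ Real.log (5 + Real.log x) := by
  obtain ⟨a, b, -⟩ := euler (f := jx x) (by simp [jx]) (jx_mul x) (jx_abs x) hs
  have h4 := LS_le h3.le (jx_abs x) (fun n => by simpa using jx_add x n 1) (jx_sum h1 h2 h3) hs
  exact b.trans (Real.log_le_log a (by linarith))

lemma Pcj {x : ℕ} (h2 : Odd x) {s : ℝ} (hs : 1 < s) :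
    LS (pr fun n => c4 n * jx x n) s ≤ Real.log (5 + Real.log x) := by
  have hb : ∀ n, |c4 n * jx x n| ≤ 1 := fun n => by
    rw [abs_mul]
    exact mul_le_one₀ (c4_abs n) (abs_nonneg _) (jx_abs x n)
  obtain ⟨a, b, -⟩ := euler (f := fun n => c4 n * jx x n) (by simp [jx, c4_eq])
    (fun m n => by rw [c4_mul, jx_mul]; ring) hb hs
  have hp : ∀ n, c4 (n + 4 * x) * jx x (n + 4 * x) = c4 n * jx x n := fun n => by
    rw [c4_add, jx_add]
  have h0 : ∑ n ∈ range (4 * x), c4 n * jx x n = 0 := by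
    have w := window (f := fun n => c4 n * jx x n) hp (2 * x)
    simp only [c4_neg _ h2, jx_add, neg_mul, sum_neg_distrib] at w
    linarith
  have hx := h2.pos
  have h4 := LS_le (f := fun n => c4 n * jx x n) (by omega) hb hp h0 hs
  rw [Nat.cast_mul, Real.log_mul (by norm_num) (by positivity)] at h4
  have a3 := Real.log_le_sub_one_of_pos (show (0 : ℝ) < (4 : ℕ) by norm_num)
  refine b.trans (Real.log_le_log a ?_)
  push_cast at a3 h4
  linarith

lemma fin_le {g : ℕ → ℝ} (h0 : ∀ n, 0 ≤ g n) (hb : ∀ n, |g n| ≤ 1) {y δ : ℝ} (hδ : 0 < δ)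
    (S : Finset ℕ) (hS : ∀ n ∈ S, 1 ≤ n ∧ (n : ℝ) ≤ Real.exp y ∧ g n = 1) :
    ∑ n ∈ S, 1 / (n : ℝ) ≤ Real.exp (y * δ) * LS g (1 + δ) := by
  have h1 := (summ hb (s := 1 + δ) (by linarith)).sum_le_tsum S fun n _ =>
    mul_nonneg (h0 n) (by positivity)
  refine le_trans ?_ (mul_le_mul_of_nonneg_left h1 (Real.exp_pos _).le)
  rw [mul_sum]
  refine sum_le_sum fun n hn => ?_
  obtain ⟨a, b, c⟩ := hS n hn
  have hn0 : (0 : ℝ) < n := by exact_mod_cast a
  have e : 1 / (n : ℝ) = (n : ℝ) ^ δ * (n : ℝ) ^ (-(1 + δ)) := by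
    rw [← Real.rpow_add hn0, one_div, ← Real.rpow_neg_one]
    congr 1
    ring
  rw [c, one_mul, e, Real.exp_mul]
  exact mul_le_mul_of_nonneg_right (Real.rpow_le_rpow hn0.le b hδ.le) (by positivity)

lemma pr_nonneg {g : ℕ → ℝ} (h0 : ∀ n, 0 ≤ g n) (n : ℕ) : 0 ≤ pr g n := by
  unfold pr
  split_ifs
  · exact h0 n
  · rfl

lemma mem_PP {u : ℝ} {p : ℕ} (h : p ∈ PP (DD u)) : p.Prime ∧ (p : ℝ) ≤ Real.exp (u / 200) := by
  obtain ⟨a, b⟩ := mem_filter.1 h
  exact ⟨b, (Nat.cast_le.2 (mem_Icc.1 a).2).trans (Nat.floor_le (Real.exp_pos _).le)⟩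

lemma first {u : ℝ} (hu : 1 ≤ u) (hL : 100 ≤ Real.log u) :
    ∑ p ∈ PP (DD u) with p % 4 = 1, 1 / (p : ℝ) ≤ 3 / 5 * Real.log u := by
  have hδ : 0 < 1 / u := by positivity
  have hs : 1 < 1 + 1 / u := by linarith
  have hb : ∀ n, |(1 + c4 n) / 2| ≤ 1 := fun n => by
    have := abs_le.1 (c4_abs n)
    rw [abs_le]
    constructor <;> linarith
  have h1 := fin_le (g := pr fun n => (1 + c4 n) / 2)
    (pr_nonneg fun n => by linarith [abs_le.1 (c4_abs n)]) (pr_abs hb) (y := u / 200) hδ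
    ((PP (DD u)).filter fun p => p % 4 = 1) fun p hp => by
      obtain ⟨a, b⟩ := mem_filter.1 hp
      obtain ⟨c, d⟩ := mem_PP a
      refine ⟨c.one_le, d, ?_⟩
      rw [pr, if_pos c, c4_eq, if_neg (by omega), if_pos b]
      norm_num
  have h2 : LS (pr fun n => (1 + c4 n) / 2) (1 + 1 / u) =
      (LS (pr fun _ => 1) (1 + 1 / u) + LS (pr c4) (1 + 1 / u)) / 2 := by
    unfold LS
    rw [← (summ (pr_abs (by simp)) hs).tsum_add (summ (pr_abs c4_abs) hs), ← tsum_div_const]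
    refine tsum_congr fun n => ?_
    unfold pr
    split_ifs <;> ring
  have h3 := (P1 hs).1
  have h4 := (P4 hs).1
  rw [add_sub_cancel_left, one_div_one_div] at h3
  have h5 : Real.log (1 + u) ≤ 1 + Real.log u := by
    have a1 := Real.log_le_log (by linarith) (show 1 + u ≤ 2 * u by linarith)
    rw [Real.log_mul (by norm_num) (by linarith)] at a1
    linarith [Real.log_two_lt_d9]
  have h6 : Real.exp (u / 200 * (1 / u)) ≤ 11 / 10 := by
    rw [show u / 200 * (1 / u) = 1 / 200 by field_simp]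
    refine (Real.exp_bound_div_one_sub_of_interval (by norm_num) (by norm_num)).trans ?_
    norm_num
  have h7 : LS (pr fun n => (1 + c4 n) / 2) (1 + 1 / u) ≤ (5 + Real.log u) / 2 := by linarith
  have h8 := mul_le_mul_of_nonneg_left h7 (Real.exp_pos (u / 200 * (1 / u))).le
  have h9 := mul_le_mul_of_nonneg_right h6 (show 0 ≤ (5 + Real.log u) / 2 by linarith)
  linarith

/-- The weight detecting the primes with the prescribed symbols. -/
def hh (x n : ℕ) : ℝ := (1 + c4 n) * (1 - jx x n) / 4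

lemma hh_bd (x n : ℕ) : 0 ≤ hh x n ∧ hh x n ≤ 1 := by
  obtain ⟨a, b⟩ := abs_le.1 (c4_abs n)
  obtain ⟨c, d⟩ := abs_le.1 (jx_abs x n)
  unfold hh
  constructor
  · exact div_nonneg (mul_nonneg (by linarith) (by linarith)) (by norm_num)
  · nlinarith [mul_nonneg (show 0 ≤ 1 - c4 n by linarith) (show 0 ≤ 1 - jx x n by linarith)]

lemma hh_abs (x n : ℕ) : |hh x n| ≤ 1 := by
  rw [abs_of_nonneg (hh_bd x n).1]
  exact (hh_bd x n).2

lemma hh_ge {x : ℕ} (h1 : Squarefree x) (h2 : Odd x) (h3 : 1 < x) {s : ℝ} (hs : 1 < s) :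
    (Real.log (1 / (s - 1)) - 49 - 2 * Real.log (5 + Real.log x)) / 4 ≤ LS (pr (hh x)) s := by
  have hb : ∀ n, |c4 n * jx x n| ≤ 1 := fun n => by
    rw [abs_mul]
    exact mul_le_one₀ (c4_abs n) (abs_nonneg _) (jx_abs x n)
  have s1 := summ (pr_abs (f := fun _ => 1) (by simp)) hs
  have s2 := summ (pr_abs c4_abs) hs
  have s3 := summ (pr_abs (jx_abs x)) hs
  have s4 := summ (pr_abs hb) hs
  have e : LS (pr (hh x)) s = (LS (pr fun _ => 1) s + LS (pr c4) s - LS (pr (jx x)) s -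
      LS (pr fun n => c4 n * jx x n) s) / 4 := by
    unfold LS
    rw [← s1.tsum_add s2, ← (s1.add s2).tsum_sub s3, ← ((s1.add s2).sub s3).tsum_sub s4,
      ← tsum_div_const]
    refine tsum_congr fun n => ?_
    unfold pr hh
    split_ifs <;> ring
  linarith [(P1 hs).2, (P4 hs).2, Pj h1 h2 h3 hs, Pcj h2 hs]

lemma hh_le {x : ℕ} (h2 : Odd x) {s T : ℝ} (hs : 1 < s) (hT : 2 ≤ T) {D : ℕ} (hD : 1 ≤ D) :
    LS (pr (hh x)) s ≤
      ∑ p ∈ (PP D).filter (fun p : ℕ => T < p ∧ p % 4 = 1 ∧ jacobiSym x p = -1), 1 / (p : ℝ) +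
      ∑ p ∈ (PP D).filter (fun p : ℕ => (p : ℝ) ≤ T), 1 / (p : ℝ) +
      ∑ p ∈ x.primeFactors.filter (fun p : ℕ => T < p), 1 / (p : ℝ) +
      (D : ℝ) ^ (1 - s) / (s - 1) := by
  have s1 := summ (pr_abs (hh_abs x)) hs
  rw [LS, ← s1.sum_add_tsum_nat_add (D + 1)]
  refine add_le_add ?_ (le_trans ?_ (tail hs hD))
  · have e1 : ∑ n ∈ range (D + 1), pr (hh x) n * (n : ℝ) ^ (-s) =
        ∑ n ∈ PP D, hh x n * (n : ℝ) ^ (-s) := by
      rw [PP, sum_filter, range_eq_Ico, sum_eq_sum_Ico_succ_bot (by omega), pr,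
        if_neg Nat.not_prime_zero, zero_mul, zero_add]
      refine sum_congr rfl fun n _ => ?_
      unfold pr
      split_ifs <;> simp
    have e2 : ∑ p ∈ (PP D).filter (fun p : ℕ => T < p ∧ p ∣ x), 1 / (p : ℝ) ≤
        ∑ p ∈ x.primeFactors.filter (fun p : ℕ => T < p), 1 / (p : ℝ) := by
      refine sum_le_sum_of_subset_of_nonneg (fun p hp => ?_) fun _ _ _ => by positivity
      obtain ⟨a, b, c⟩ := mem_filter.1 hp
      exact mem_filter.2 ⟨Nat.mem_primeFactors.2 ⟨(mem_filter.1 a).2, c, h2.pos.ne'⟩, b⟩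
    refine le_trans ?_ (add_le_add le_rfl e2)
    rw [e1, sum_filter, sum_filter, sum_filter, ← sum_add_distrib, ← sum_add_distrib]
    refine sum_le_sum fun p hp => ?_
    have hp' := (mem_filter.1 hp).2
    have a1 : hh x p * (p : ℝ) ^ (-s) ≤ 1 / (p : ℝ) :=
      (le_abs_self _).trans ((tm_abs (hh_abs x) s p).trans (rpow_le_inv hs.le p))
    have a0 : 0 ≤ 1 / (p : ℝ) := by positivity
    by_cases c1 : (p : ℝ) ≤ T
    · rw [if_pos c1]
      split_ifs <;> linarith
    have c1' := not_le.1 c1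
    by_cases c2 : p ∣ x
    · rw [if_pos (show T < p ∧ p ∣ x from ⟨c1', c2⟩)]
      split_ifs <;> linarith
    by_cases c3 : T < p ∧ p % 4 = 1 ∧ jacobiSym x p = -1
    · rw [if_pos c3]
      split_ifs <;> linarith
    have c4' : hh x p = 0 := by
      have o : p % 2 = 1 := hp'.eq_two_or_odd.resolve_left (by
        rintro rfl
        exact c1 (by exact_mod_cast hT))
      unfold hh
      by_cases c5 : p % 4 = 1
      · have j1 : jacobiSym x p = 1 := by
          refine (jacobiSym.eq_one_or_neg_one ?_).resolve_right fun h => c3 ⟨c1', c5, h⟩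
          rw [Int.gcd_natCast_natCast]
          exact ((Nat.Prime.coprime_iff_not_dvd hp').2 c2).symm
        rw [jx, jacobiSym.quadratic_reciprocity_one_mod_four c5 h2, j1]
        simp
      · rw [c4_eq, if_neg (by omega), if_neg c5]
        simp
    rw [c4', zero_mul]
    split_ifs <;> linarith
  · refine ((summable_nat_add_iff (D + 1)).2 s1).tsum_le_tsum (fun n => ?_)
      ((summable_nat_add_iff (D + 1)).2 (summ0 hs))
    exact (le_abs_self _).trans (tm_abs (pr_abs (hh_abs x)) s _)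

lemma small {y : ℝ} (hy : 0 < y) (D : ℕ) :
    ∑ p ∈ (PP D).filter (fun p : ℕ => (p : ℝ) ≤ Real.exp y), 1 / (p : ℝ) ≤
      3 * Real.log (1 + y) := by
  have hδ : 0 < 1 / y := by positivity
  have h1 := fin_le (g := pr fun _ => 1) (pr_nonneg fun _ => zero_le_one) (pr_abs (by simp))
    (y := y) hδ ((PP D).filter fun p : ℕ => (p : ℝ) ≤ Real.exp y) fun p hp => by
      obtain ⟨a, b⟩ := mem_filter.1 hp
      have c := (mem_filter.1 a).2
      exact ⟨c.one_le, b, if_pos c⟩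
  have h3 := (P1 (s := 1 + 1 / y) (by linarith)).1
  rw [add_sub_cancel_left, one_div_one_div] at h3
  rw [mul_one_div_cancel hy.ne'] at h1
  have h4 := Real.log_nonneg (show 1 ≤ 1 + y by linarith)
  have h5 := mul_le_mul_of_nonneg_left h3 (Real.exp_pos 1).le
  nlinarith [Real.exp_one_lt_d9]

lemma divs {x : ℕ} (h1 : Squarefree x) {T : ℝ} (hT : 3 ≤ T) :
    ∑ p ∈ x.primeFactors.filter (fun p : ℕ => T < p), 1 / (p : ℝ) ≤ Real.log x / T := by
  have e : Real.log x = ∑ p ∈ x.primeFactors, Real.log p := by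
    conv_lhs => rw [← Nat.prod_primeFactors_of_squarefree h1]
    rw [Nat.cast_prod, Real.log_prod fun p hp => by
      exact_mod_cast (Nat.prime_of_mem_primeFactors hp).ne_zero]
  rw [e, sum_div, sum_filter]
  refine sum_le_sum fun p _ => ?_
  split_ifs with h
  · have a1 : 1 ≤ Real.log p := by
      rw [Real.le_log_iff_exp_le (by linarith)]
      linarith [Real.exp_one_lt_d9]
    exact div_le_div₀ (by linarith) a1 (by linarith) h.le
  · exact div_nonneg (Real.log_natCast_nonneg p) (by linarith)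

lemma second {u : ℝ} (hu : 400 ≤ u) (hL : 10 ^ 6 ≤ Real.log u)
    (hL' : Real.log (Real.log u) ≤ Real.log u / 400) {x : ℕ} (h1 : Squarefree x) (h2 : Odd x)
    (h3 : 1 < x) (h4 : (x : ℝ) ≤ Real.exp (u ^ (1 / 4 : ℝ))) : 1 / 10 * Real.log u ≤
      ∑ p ∈ (PP (DD u)).filter (fun p : ℕ => u ^ 800 < p ∧ p % 4 = 1 ∧ jacobiSym x p = -1),
        1 / (p : ℝ) := by
  have hu0 : 0 < u := by linarith
  have hu1 : 1 ≤ u := by linarith
  obtain ⟨L, hLu⟩ : ∃ L, L = Real.log u := ⟨_, rfl⟩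
  rw [← hLu] at hL hL' ⊢
  have hL0 : 0 < L := by linarith
  have hδ : 0 < 400 * L / u := by positivity
  have hs : 1 < 1 + 400 * L / u := by linarith
  have hT : u ≤ u ^ 800 := le_self_pow₀ hu1 (by norm_num)
  have hD : Real.exp (u / 400) ≤ DD u := by
    have a1 := Nat.lt_floor_add_one (Real.exp (u / 200))
    have a2 : Real.exp (u / 200) = Real.exp (u / 400) * Real.exp (u / 400) := by
      rw [← Real.exp_add]
      congr 1
      ring
    have a3 := Real.add_one_le_exp (u / 400)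
    unfold DD
    nlinarith
  have hD1 : 1 ≤ DD u := by
    have := Real.add_one_le_exp (u / 400)
    exact_mod_cast (show (1 : ℝ) ≤ DD u by linarith)
  have b1 := hh_ge h1 h2 h3 hs
  have b2 := hh_le h2 hs (T := u ^ 800) (by linarith) hD1
  have b3 := small (y := 800 * L) (by positivity) (DD u)
  have b4 := divs h1 (T := u ^ 800) (by linarith)
  have e1 : Real.exp (800 * L) = u ^ 800 := by
    rw [hLu, show (800 : ℝ) = (800 : ℕ) by norm_num, Real.exp_nat_mul, Real.exp_log hu0]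
  rw [e1] at b3
  have c1 : Real.log x ≤ u ^ (1 / 4 : ℝ) :=
    (Real.log_le_iff_le_exp (by exact_mod_cast h2.pos)).2 h4
  have c2 : u ^ (1 / 4 : ℝ) ≤ u := by
    simpa using Real.rpow_le_rpow_of_exponent_le hu1 (show (1 / 4 : ℝ) ≤ 1 by norm_num)
  have c3 : 1 ≤ u ^ (1 / 4 : ℝ) := Real.one_le_rpow hu1 (by norm_num)
  have c4 : Real.log x / u ^ 800 ≤ 1 := (div_le_one (by linarith)).2 (by linarith)
  have c5 : Real.log (5 + Real.log x) ≤ 5 + L / 4 := by
    have a1 := Real.log_le_log (by linarith [Real.log_natCast_nonneg x])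
      (show 5 + Real.log x ≤ 6 * u ^ (1 / 4 : ℝ) by linarith)
    rw [Real.log_mul (by norm_num) (by linarith), Real.log_rpow hu0, ← hLu] at a1
    linarith [Real.log_le_sub_one_of_pos (show (0 : ℝ) < 6 by norm_num)]
  have c6 : Real.log (1 + 800 * L) ≤ 800 + Real.log L := by
    have a1 := Real.log_le_log (by linarith) (show 1 + 800 * L ≤ 801 * L by linarith)
    rw [Real.log_mul (by norm_num) hL0.ne'] at a1
    linarith [Real.log_le_sub_one_of_pos (show (0 : ℝ) < 801 by norm_num)]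
  have c7 : L - 399 - Real.log L ≤ Real.log (1 / (1 + 400 * L / u - 1)) := by
    rw [add_sub_cancel_left, one_div_div, Real.log_div hu0.ne' (by positivity),
      Real.log_mul (by norm_num) hL0.ne', ← hLu]
    linarith [Real.log_le_sub_one_of_pos (show (0 : ℝ) < 400 by norm_num)]
  have c8 : (DD u : ℝ) ^ (1 - (1 + 400 * L / u)) / (1 + 400 * L / u - 1) ≤ 1 := by
    rw [add_sub_cancel_left, div_le_one hδ]
    have a1 := Real.rpow_le_rpow_of_nonpos (Real.exp_pos _) hD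
      (show 1 - (1 + 400 * L / u) ≤ 0 by linarith)
    rw [← Real.exp_mul, show u / 400 * (1 - (1 + 400 * L / u)) = -L by field_simp; ring,
      Real.exp_neg, hLu, Real.exp_log hu0, ← hLu, ← one_div] at a1
    exact a1.trans (div_le_div_of_nonneg_right (by linarith) hu0.le)
  linarith

end ChAux

theorem ch : ChS := by
  have h1 := Real.tendsto_log_atTop.eventually_ge_atTop (10 ^ 6)
  have h2 := Real.tendsto_log_atTop.eventually
    (Real.isLittleO_log_id_atTop.bound (show (0 : ℝ) < 1 / 400 by norm_num))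
  filter_upwards [h1, h2, eventually_ge_atTop 400] with u a b c
  refine ⟨ChAux.first (by linarith) (by linarith), fun x _ _ _ _ => ChAux.second c a ?_ ‹_› ‹_› ‹_› ‹_›⟩
  rw [id, Real.norm_eq_abs, Real.norm_eq_abs, abs_of_nonneg (show 0 ≤ Real.log u by linarith)] at b
  linarith [le_abs_self (Real.log (Real.log u))]

end Pool.Agent.Lib.MP_d6ddbd_nt.L
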