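import Pool.Agent.Lib.MP_d6ddbd_nt.L.St

/-! The Legendre family: from the weighted count to the positive density. -/

open Finset Filter

namespace Pool.Agent.Lib.MP_d6ddbd_nt.L

open MP_f64879_nt (W Mx bp bp_zero W_nonneg)

namespace Cnt

theorem wt_le (s : ℝ) (n : ℕ) : 0 ≤ wt s n ∧ wt s n ≤ Real.log n / n := by
  have h := Real.log_natCast_nonneg n
  unfold wt
  split_ifs
  · refine ⟨mul_nonneg h (W_nonneg s n), ?_⟩
    rw [W, ← mul_div_assoc]
    exact div_le_div_of_nonneg_right (mul_le_of_le_one_right h bp.le_one) n.cast_nonneg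
  · exact ⟨le_rfl, by positivity⟩

theorem wt_ne {s : ℝ} {n : ℕ} (h : wt s n ≠ 0) :
    n.Prime ∧ s - 1 < Real.log n ∧ Real.log n < s + 1 := by
  unfold wt at h
  split_ifs at h with a
  · have := abs_lt.1 (not_le.1 fun c => h (by rw [W, bp_zero c, zero_div, mul_zero]))
    exact ⟨a, by linarith [this.1], by linarith [this.2]⟩
  · exact absurd rfl h

theorem big {d d' P P' : ℕ} (hP : P.Prime) (hP' : P'.Prime) (h0 : 0 < d')
    (h : Real.log d' < Real.log P) (e : d * P = d' * P') : P = P' ∧ d = d' := by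
  have h1 : d' < P := by
    exact_mod_cast (Real.log_lt_log_iff (by exact_mod_cast h0) (by exact_mod_cast hP.pos)).1 h
  obtain rfl : P = P' := (Nat.prime_dvd_prime_iff_eq hP hP').1
    (((Nat.Prime.dvd_mul hP).1 (Dvd.intro_left d e)).resolve_left fun c =>
      (Nat.le_of_dvd h0 c).not_gt h1)
  exact ⟨rfl, Nat.eq_of_mul_eq_mul_right hP.pos e⟩

theorem sm {u : ℝ} {d : ℕ} (h : d ∈ Icc 1 (DD u)) : 0 < d ∧ Real.log d ≤ u / 200 ∧
    (lg d : ℝ) ≤ Real.log d ∧ Real.log d < lg d + 1 := by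
  obtain ⟨a, b⟩ := mem_Icc.1 h
  exact ⟨a, (Real.log_le_iff_le_exp (by exact_mod_cast a)).2
    ((Nat.le_floor_iff (Real.exp_pos _).le).1 b), Nat.floor_le (Real.log_natCast_nonneg d),
    Nat.lt_floor_add_one _⟩

/-- The facts about a tuple of non-zero weight. -/
structure Ok (u : ℝ) (j : ℕ) (d : ℕ × ℕ × ℕ) (n P Q R : ℕ) : Prop where
  pr : n.Prime ∧ P.Prime ∧ Q.Prime ∧ R.Prime
  ps : 0 < d.1 ∧ 0 < d.2.1 ∧ 0 < d.2.2
  eq : d.1 * n * P + d.2.1 * Q = 16 * (d.2.2 * R)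
  sm : Real.log d.1 ≤ u / 200 ∧ Real.log d.2.1 ≤ u / 200 ∧ Real.log d.2.2 ≤ u / 200
  nj : (j : ℝ) - 1 < Real.log n ∧ Real.log n < j + 1
  jj : 7 / 20 * u ≤ j ∧ j ≤ 2 / 5 * u
  bg : u / 2 < Real.log P ∧ u / 2 < Real.log Q ∧ u / 2 < Real.log R
  le : ((d.1 * n * P : ℕ) : ℝ) ≤ Real.exp (u + 3) ∧ ((d.2.1 * Q : ℕ) : ℝ) ≤ Real.exp (u + 3)
  wt : wF u j d n P Q / (d.1 * d.2.1 : ℝ) ≤ 16 * u ^ 4 * Real.exp (3 - 2 * u)

theorem ok {u : ℝ} (hu : 100 ≤ u) {j : ℕ} (hj : j ∈ Jr u) {d : ℕ × ℕ × ℕ} (hd : d ∈ Tri u)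
    {n P Q : ℕ} (h : wF u j d n P Q ≠ 0) : ∃ R, Ok u j d n P Q R := by
  obtain ⟨d1, d2, d3⟩ := d
  simp only [Tri, mem_filter, mem_product] at hd
  obtain ⟨a0, a1, a2, a3⟩ := sm hd.1.1
  obtain ⟨b0, b1, b2, b3⟩ := sm hd.1.2.1
  obtain ⟨c0, c1, -⟩ := sm hd.1.2.2
  have j1 := Nat.ceil_le.1 (mem_Icc.1 hj).1
  have j2 := (Nat.le_floor_iff (by linarith)).1 (mem_Icc.1 hj).2
  simp only [wF, mul_ne_zero_iff] at h
  obtain ⟨⟨⟨⟨h1, h2⟩, h3⟩, -⟩, h5⟩ := h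
  obtain ⟨pn, n1, n2⟩ := wt_ne h1
  obtain ⟨pP, P1, P2⟩ := wt_ne h2
  obtain ⟨pQ, Q1, Q2⟩ := wt_ne h3
  simp only [sP, sQ] at P1 P2 Q1 Q2
  have dv : 16 * d3 ∣ d1 * n * P + d2 * Q := by_contra fun c => h5 (if_neg c)
  obtain ⟨R, hR⟩ := dv
  have e5 : Rw th (d1, d2, d3) n P Q = th R := by
    rw [Rw, if_pos ⟨R, hR⟩, hR, Nat.mul_div_cancel_left _ (by positivity)]
  have pR : R.Prime := by_contra fun c => h5 (e5.trans (if_neg c))
  have x1 : (0 : ℝ) < d1 := by exact_mod_cast a0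
  have x2 : (0 : ℝ) < d2 := by exact_mod_cast b0
  have x3 : (1 : ℝ) ≤ d3 := by exact_mod_cast c0
  have xn : (0 : ℝ) < n := by exact_mod_cast pn.pos
  have xP : (0 : ℝ) < P := by exact_mod_cast pP.pos
  have xQ : (0 : ℝ) < Q := by exact_mod_cast pQ.pos
  have xR : (0 : ℝ) < R := by exact_mod_cast pR.pos
  have lA : Real.log (d1 * n * P) = Real.log d1 + Real.log n + Real.log P := by
    rw [Real.log_mul (by positivity) xP.ne', Real.log_mul x1.ne' xn.ne']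
  have lB : Real.log (d2 * Q) = Real.log d2 + Real.log Q := Real.log_mul x2.ne' xQ.ne'
  have uA : (d1 * n * P : ℝ) ≤ Real.exp (u + 3) :=
    (Real.log_le_iff_le_exp (by positivity)).1 (by linarith)
  have uB : (d2 * Q : ℝ) ≤ Real.exp (u + 3) :=
    (Real.log_le_iff_le_exp (by positivity)).1 (by linarith)
  have eR : (d1 * n * P + d2 * Q : ℝ) = 16 * d3 * R := by exact_mod_cast hR
  have uR : Real.log R ≤ u + 3 := (Real.log_le_iff_le_exp xR).2 (by nlinarith)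
  have lR : u / 2 < Real.log R := by
    have k1 : Real.log (d2 * Q) ≤ Real.log (16 * d3 * R) :=
      Real.log_le_log (by positivity) (eR ▸ le_add_of_nonneg_left (by positivity))
    rw [Real.log_mul (x := 16 * d3) (by positivity) xR.ne',
      Real.log_mul (x := 16) (by norm_num) (by positivity)] at k1
    linarith [Real.log_le_sub_one_of_pos (show (0 : ℝ) < 16 by norm_num)]
  refine ⟨R, ⟨pn, pP, pQ, pR⟩, ⟨a0, b0, c0⟩, hR.trans (mul_assoc _ _ _), ⟨a1, b1, c1⟩, ⟨n1, n2⟩,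
    ⟨j1, j2⟩, ⟨by linarith, by linarith, lR⟩, ⟨by exact_mod_cast uA, by exact_mod_cast uB⟩, ?_⟩
  have ch : chi 1 1 1 false false n P Q ≤ 1 := by
    unfold chi
    split_ifs <;> simp_all
  have lo : Real.exp (2 * u - 3) ≤ d1 * n * P * (d2 * Q) :=
    (Real.le_log_iff_exp_le (by positivity)).1 (by
      rw [Real.log_mul (by positivity) (by positivity)]; linarith)
  have l1 := Real.log_natCast_nonneg d1
  have l2 := Real.log_natCast_nonneg d2
  have w1 : wF u j (d1, d2, d3) n P Q ≤ 2 * u / n * (2 * u / P) * (2 * u / Q) * 1 * (2 * u) := by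
    have k : ∀ (s : ℝ) (m : ℕ), Real.log m ≤ 2 * u → L.wt s m ≤ 2 * u / m := fun s m hm =>
      (wt_le s m).2.trans (div_le_div_of_nonneg_right hm m.cast_nonneg)
    rw [wF, e5, th, if_pos pR]
    have := (wt_le j n).1
    have := (wt_le (sP u j (d1, d2, d3)) P).1
    have := (wt_le (sQ u (d1, d2, d3)) Q).1
    refine (mul_le_mul_of_nonneg_right (mul_le_mul_of_nonneg_left ch (by positivity))
      (by linarith)).trans ?_
    gcongr
    exacts [k _ _ (by linarith), k _ _ (by linarith), k _ _ (by linarith), by linarith]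
  refine (div_le_div_of_nonneg_right w1 (by positivity)).trans ?_
  rw [show 3 - 2 * u = -(2 * u - 3) by ring, Real.exp_neg, ← div_eq_mul_inv]
  refine le_of_eq_of_le (b := 16 * u ^ 4 / (d1 * n * P * (d2 * Q))) (by field_simp; norm_num) ?_
  exact div_le_div_of_nonneg_left (by positivity) (Real.exp_pos _) lo

theorem uniq {u : ℝ} (hu : 100 ≤ u) {j j' : ℕ} {d d' : ℕ × ℕ × ℕ} {n P Q R n' P' Q' R' : ℕ}
    (h : Ok u j d n P Q R) (h' : Ok u j' d' n' P' Q' R') (eA : d.1 * n * P = d'.1 * n' * P')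
    (eB : d.2.1 * Q = d'.2.1 * Q') (ej : j % 2 = j' % 2) :
    j = j' ∧ d = d' ∧ n = n' ∧ P = P' ∧ Q = Q' := by
  obtain ⟨a1, a2⟩ := big h.pr.2.1 h'.pr.2.1 (mul_pos h'.ps.1 h'.pr.1.pos) (by
    rw [Nat.cast_mul, Real.log_mul (by exact_mod_cast h'.ps.1.ne') (by exact_mod_cast h'.pr.1.ne_zero)]
    linarith [h'.sm.1, h'.nj.2, h'.jj.2, h.bg.1]) eA
  obtain ⟨rfl, a4⟩ := big h.pr.1 h'.pr.1 h'.ps.1 (by linarith [h'.sm.1, h.nj.1, h.jj.1]) a2
  obtain ⟨b1, b2⟩ := big h.pr.2.2.1 h'.pr.2.2.1 h'.ps.2.1 (by linarith [h'.sm.2.1, h.bg.2.1]) eB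
  obtain ⟨-, c2⟩ := big h.pr.2.2.2 h'.pr.2.2.2 h'.ps.2.2 (by linarith [h'.sm.2.2, h.bg.2.2])
    (Nat.eq_of_mul_eq_mul_left (by norm_num : 0 < 16) (by rw [← h.eq, ← h'.eq, eA, eB]))
  have k1 : j < j' + 2 := by exact_mod_cast (by linarith [h.nj.1, h'.nj.2] : (j : ℝ) < j' + 2)
  have k2 : j' < j + 2 := by exact_mod_cast (by linarith [h'.nj.1, h.nj.2] : (j' : ℝ) < j + 2)
  exact ⟨by omega, Prod.ext a4 (Prod.ext b2 c2), rfl, a1, b1⟩

theorem abs {ι κ : Type} {T : Finset ι} {t : ι → ℝ} (S : Finset κ) (f : ι → κ) {w : ℝ}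
    (hw : 0 ≤ w) (h1 : ∀ x ∈ T, t x ≠ 0 → t x ≤ w ∧ f x ∈ S)
    (h2 : ∀ x ∈ T, ∀ y ∈ T, t x ≠ 0 → t y ≠ 0 → f x = f y → x = y) :
    ∑ x ∈ T, t x ≤ S.card * w := by
  rw [← sum_filter_ne_zero]
  refine (sum_le_card_nsmul _ _ w fun x hx => ?_).trans ?_
  · exact (h1 x (mem_filter.1 hx).1 (mem_filter.1 hx).2).1
  · rw [nsmul_eq_mul]
    refine mul_le_mul_of_nonneg_right (Nat.cast_le.2 (card_le_card_of_injOn f (fun x hx => ?_)
      fun x hx y hy => ?_)) hw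
    · exact (h1 x (mem_filter.1 hx).1 (mem_filter.1 hx).2).2
    · exact h2 x (mem_filter.1 hx).1 y (mem_filter.1 hy).1 (mem_filter.1 hx).2 (mem_filter.1 hy).2

end Cnt

open Classical in
theorem cnt : CntR := by
  rintro ⟨c, hc, h⟩
  refine ⟨c / (32 * Real.exp 9), by positivity, ?_⟩
  have t : Tendsto (fun H : ℕ => Real.log H - 3) atTop atTop :=
    tendsto_atTop_add_const_right _ (-3) (Real.tendsto_log_atTop.comp tendsto_natCast_atTop_atTop)
  filter_upwards [t.eventually h, t.eventually_ge_atTop 100, eventually_gt_atTop 0] with H h hu H0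
  have eH : Real.exp (Real.log H - 3 + 3) = H := by
    rw [sub_add_cancel, Real.exp_log (by exact_mod_cast H0)]
  generalize Real.log H - 3 = u at h hu eH
  obtain ⟨S, hS⟩ : ∃ S : Finset (ℕ × ℕ), S = (range (H + 1) ×ˢ range (H + 1)).filter
    fun x => Good x.1 x.2 := ⟨_, rfl⟩
  rw [show {x : ℕ × ℕ | x.1 ≤ H ∧ x.2 ≤ H ∧ Good x.1 x.2} = S by
    ext x; simp [hS, and_assoc], Set.ncard_coe_finset]
  simp only [sum_div, sum_sigma'] at h
  have h3 := h.trans (Cnt.abs (S ×ˢ range 2) (fun x =>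
    ((x.2.1.1 * x.2.2.1 * x.2.2.2.1, x.2.1.2.1 * x.2.2.2.2), x.1 % 2))
    (w := 16 * u ^ 4 * Real.exp (3 - 2 * u)) (by positivity) ?_ ?_)
  · rw [card_product, card_range, Nat.cast_mul] at h3
    have e : (H : ℝ) ^ 2 * Real.exp (3 - 2 * u) = Real.exp 9 := by
      rw [← eH, ← Real.exp_nat_mul, ← Real.exp_add]
      congr 1
      push_cast
      ring
    rw [div_mul_eq_mul_div, div_le_iff₀ (by positivity), ← e]
    have u4 : 0 < u ^ 4 := by positivity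
    refine le_of_mul_le_mul_right ?_ u4
    have := mul_le_mul_of_nonneg_right h3 (sq_nonneg (H : ℝ))
    push_cast at this
    linarith
  · rintro ⟨j, d, n, P, Q⟩ hx h0
    simp only [mem_sigma] at hx h0
    have g : Good (d.1 * n * P) (d.2.1 * Q) := by_contra fun c => h0 (by rw [if_neg c, zero_div])
    obtain ⟨R, o⟩ := Cnt.ok hu hx.1 hx.2.1 (n := n) (P := P) (Q := Q)
      fun c => h0 (by rw [c, ite_self, zero_div])
    have := o.le
    rw [eH, Nat.cast_le, Nat.cast_le] at this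
    simp only [if_pos g, hS, mem_product, mem_filter, mem_range]
    exact ⟨o.wt, ⟨⟨by omega, by omega⟩, g⟩, by omega⟩
  · rintro ⟨j, d, n, P, Q⟩ hx ⟨j', d', n', P', Q'⟩ hx' h0 h0' e
    simp only [mem_sigma, Prod.mk.injEq] at hx hx' h0 h0' e
    obtain ⟨R, o⟩ := Cnt.ok hu hx.1 hx.2.1 (n := n) (P := P) (Q := Q)
      fun c => h0 (by rw [c, ite_self, zero_div])
    obtain ⟨R', o'⟩ := Cnt.ok hu hx'.1 hx'.2.1 (n := n') (P := P') (Q := Q')
      fun c => h0' (by rw [c, ite_self, zero_div])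
    obtain ⟨rfl, rfl, rfl, rfl, rfl⟩ := Cnt.uniq hu o o' e.1.1 e.1.2 e.2
    rfl

end Pool.Agent.Lib.MP_d6ddbd_nt.L
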