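import Pool.Agent.Lib.MP_d6ddbd_nt.L.St
import Pool.Agent.Lib.MP_d6ddbd_nt.G.Comp

/-! The criterion is computable. -/

open Finset

noncomputable section

namespace Pool.Agent.Lib.MP_d6ddbd_nt.L

namespace Comp

open Primrec G.Cp

attribute [local instance] pc

variable {α : Type} [Primcodable α]

/-- A binary digit. -/
def bt (N l : ℕ) : ZMod 2 := (N / 2 ^ l : ℕ)

theorem bits (n : ℕ) (x : ℕ → ZMod 2) : ∃ N < 2 ^ n, ∀ l < n, bt N l = x l := by
  induction n generalizing x with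
  | zero => exact ⟨0, one_pos, fun l hl => absurd hl (Nat.not_lt_zero l)⟩
  | succ n ih =>
    obtain ⟨N, hN, h⟩ := ih fun l => x (l + 1)
    have := ZMod.val_lt (x 0)
    refine ⟨(x 0).val + 2 * N, by omega, fun l hl => ?_⟩
    cases l with
    | zero =>
      rw [bt, pow_zero, Nat.div_one, Nat.cast_add, ZMod.natCast_zmod_val, Nat.cast_mul,
        ZMod.natCast_self, zero_mul, add_zero]
    | succ l =>
      rw [← h l (by omega), bt, bt, pow_succ', ← Nat.div_div_eq_div_mul]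
      congr 2
      omega

theorem powP {f : α → ℕ} (hf : Primrec f) : Primrec fun a => 2 ^ f a :=
  (Primrec₂.unpaired'.1 Nat.Primrec.pow).comp (const 2) hf

theorem btP {f g : α → ℕ} (hf : Primrec f) (hg : Primrec g) : Primrec fun a => bt (f a) (g a) :=
  (fin_val_iff (n := 2)).1 ((nat_mod.comp (nat_div.comp hf (powP hg)) (const 2)).of_eq
    fun _ => (ZMod.val_natCast 2 _).symm)

open Classical in
theorem injP {n : α → ℕ} {m : α → ℕ → ℕ → ZMod 2} {S : α → ℕ → Prop} (hn : Primrec n)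
    (hS : PrimrecPred fun x : α × ℕ => S x.1 x.2)
    (hm : Primrec fun x : (α × ℕ) × ℕ => m x.1.1 x.1.2 x.2) :
    PrimrecPred fun a => ∀ x : ℕ → ZMod 2,
      (∀ k < n a, S a k → ∑ l ∈ range (n a), (if S a l then m a k l * x l else 0) = 0) →
      ∀ k < n a, S a k → x k = 0 := by
  have h1 : Primrec fun y : (α × ℕ) × ℕ => ∑ l ∈ range (n y.1.1),
      if S y.1.1 l then m y.1.1 y.2 l * bt y.1.2 l else 0 :=
    bsum (g := fun (y : (α × ℕ) × ℕ) l => if S y.1.1 l then m y.1.1 y.2 l * bt y.1.2 l else 0)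
      (hn.comp (fst.comp fst)) (Primrec.ite (hS.comp (pair (fst.comp (fst.comp fst)) snd))
        (zmul (hm.comp (pair (pair (fst.comp (fst.comp fst)) (snd.comp fst)) snd))
          (btP (snd.comp (fst.comp fst)) snd)) (const 0))
  have h2 : PrimrecPred fun y : (α × ℕ) × ℕ => S y.1.1 y.2 := hS.comp (pair (fst.comp fst) snd)
  have h3 := ball (R := fun (y : α × ℕ) k => S y.1 k → ∑ l ∈ range (n y.1),
    (if S y.1 l then m y.1 k l * bt y.2 l else 0) = 0) (hn.comp fst)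
    (imp h2 (Primrec.eq.comp h1 (const 0)))
  have h4 := ball (R := fun (y : α × ℕ) k => S y.1 k → bt y.2 k = 0) (hn.comp fst)
    (imp h2 (Primrec.eq.comp (btP (snd.comp fst) snd) (const 0)))
  refine (ball (R := fun a N => (∀ k < n a, S a k → ∑ l ∈ range (n a),
    (if S a l then m a k l * bt N l else 0) = 0) → ∀ k < n a, S a k → bt N k = 0) (powP hn)
    (imp h3 h4)).of_eq fun a => ⟨fun h x hx k hk hs => ?_, fun h N _ => h _⟩
  obtain ⟨N, hN, e⟩ := bits (n a) x
  rw [← e k hk]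
  refine h N hN (fun j hj hs => ?_) k hk hs
  exact (sum_congr rfl fun l hl => by rw [e l (mem_range.1 hl)]).trans (hx j hj hs)

/-- The numbering of the coordinates. -/
def de (k : ℕ) : ℕ × Fin 3 := (k / 3, ⟨k % 3, Nat.mod_lt _ three_pos⟩)

/-- The inverse numbering. -/
def en (s : ℕ × Fin 3) : ℕ := 3 * s.1 + s.2

theorem de_en (s : ℕ × Fin 3) : de (en s) = s := by
  have := s.2.2
  refine Prod.ext ?_ (Fin.ext ?_) <;> simp only [de, en] <;> omega

theorem en_de (k : ℕ) : en (de k) = k := Nat.div_add_mod k 3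

theorem deP : Primrec de :=
  pair (nat_div.comp Primrec.id (const 3)) (fin_val_iff.1 (nat_mod.comp Primrec.id (const 3)))

theorem mem_co {A B C Q : ℕ} {s : ℕ × Fin 3} : s ∈ Co A B C Q ↔
    (s.1 ∈ A.primeFactors ∧ s.2 = 0) ∨ ((¬ s.1 = Q ∧ s.1 ∈ B.primeFactors) ∧ (s.2 = 1 ∨ s.2 = 2)) ∨
      (s.1 ∈ C.primeFactors ∧ s.2 = 2) := by
  simp only [Co, mem_union, mem_product, mem_singleton, mem_erase, mem_insert]

theorem co_prime {A B C Q : ℕ} {s : ℕ × Fin 3} (h : s ∈ Co A B C Q) : s.1.Prime := by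
  rcases mem_co.1 h with h | h | h
  exacts [Nat.prime_of_mem_primeFactors h.1, Nat.prime_of_mem_primeFactors h.1.2,
    Nat.prime_of_mem_primeFactors h.1]

theorem en_lt {A B C Q : ℕ} {s : ℕ × Fin 3} (h : s ∈ Co A B C Q) : en s < 3 * (A + B + C + 1) := by
  have := s.2.2
  have : s.1 ≤ A + B + C := by
    rcases mem_co.1 h with h | h | h
    · have := Nat.le_of_mem_primeFactors h.1
      omega
    · have := Nat.le_of_mem_primeFactors h.1.2
      omega
    · have := Nat.le_of_mem_primeFactors h.1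
      omega
  rw [en]
  omega

theorem coP {A B C Q : α → ℕ} {s : α → ℕ × Fin 3} (hA : Primrec A) (hB : Primrec B) (hC : Primrec C)
    (hQ : Primrec Q) (hs : Primrec s) : PrimrecPred fun a => s a ∈ Co (A a) (B a) (C a) (Q a) :=
  have e : ∀ i : Fin 3, PrimrecPred fun a => (s a).2 = i := fun i =>
    Primrec.eq.comp (snd.comp hs) (const i)
  (((memP (fst.comp hs) hA).and (e 0)).or ((((Primrec.eq.comp (fst.comp hs) hQ).not.and
    (memP (fst.comp hs) hB)).and ((e 1).or (e 2))).or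
      ((memP (fst.comp hs) hC).and (e 2)))).of_eq fun _ => mem_co.symm

/-- The symbol `Nn` at primes. -/
def Nn' (A B q p : ℕ) : ZMod 2 :=
  if q = p then ∑ r ∈ (A * B).primeFactors, al' r p else al' p q

/-- The matrix `Mt` at primes. -/
def Mt' (A B : ℕ) (s t : ℕ × Fin 3) : ZMod 2 :=
  Nn' A B s.1 t.1 * ci s.2 * ck t.2 + Nn' A B t.1 s.1 * ci t.2 * ck s.2

theorem nn_eq (A B q : ℕ) {p : ℕ} (hp : p.Prime) : Nn A B q p = Nn' A B q p :=
  if_congr Iff.rfl (sum_congr rfl fun _ hr => al_eq (Nat.prime_of_mem_primeFactors hr) p)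
    (al_eq hp q)

theorem nnP {A B q p : α → ℕ} (hA : Primrec A) (hB : Primrec B) (hq : Primrec q) (hp : Primrec p) :
    Primrec fun a => Nn' (A a) (B a) (q a) (p a) :=
  Primrec.ite (Primrec.eq.comp hq hp)
    (sumP (g := fun a r => al' r (p a)) (nat_mul.comp hA hB) (alP snd (hp.comp fst))) (alP hp hq)

theorem mtP {A B : α → ℕ} {s t : α → ℕ × Fin 3} (hA : Primrec A) (hB : Primrec B) (hs : Primrec s)
    (ht : Primrec t) : Primrec fun a => Mt' (A a) (B a) (s a) (t a) :=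
  zadd (zmul (zmul (nnP hA hB (fst.comp hs) (fst.comp ht)) ((dom_finite ci).comp (snd.comp hs)))
      ((dom_finite ck).comp (snd.comp ht)))
    (zmul (zmul (nnP hA hB (fst.comp ht) (fst.comp hs)) ((dom_finite ci).comp (snd.comp ht)))
      ((dom_finite ck).comp (snd.comp hs)))

open Classical in
theorem sum_eq {A B C Q : ℕ} {s : ℕ × Fin 3} (hs : s ∈ Co A B C Q) (x : ℕ → ZMod 2) :
    ∑ t : Co A B C Q, Mt A B s t * x (en t) = ∑ l ∈ range (3 * (A + B + C + 1)),
      if de l ∈ Co A B C Q then Mt' A B s (de l) * x l else 0 := by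
  rw [← sum_filter, sum_coe_sort (Co A B C Q) fun t => Mt A B s t * x (en t)]
  refine sum_nbij' en de (fun t ht => ?_) (fun l hl => (mem_filter.1 hl).2) (fun t _ => de_en t)
    (fun l _ => en_de l) fun t ht => ?_
  · exact mem_filter.2 ⟨mem_range.2 (en_lt ht), (de_en t).symm ▸ ht⟩
  · rw [de_en, Mt, nn_eq A B _ (co_prime ht), nn_eq A B _ (co_prime hs), Mt']

open Classical in
theorem ker_iff (A B C Q : ℕ) : (∀ x : ℕ → ZMod 2,
    (∀ k < 3 * (A + B + C + 1), de k ∈ Co A B C Q → ∑ l ∈ range (3 * (A + B + C + 1)),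
      (if de l ∈ Co A B C Q then Mt' A B (de k) (de l) * x l else 0) = 0) →
    ∀ k < 3 * (A + B + C + 1), de k ∈ Co A B C Q → x k = 0) ↔ (Ker A B C Q).card = 1 := by
  have z : 0 ∈ Ker A B C Q := by simp [Ker]
  constructor
  · refine fun h => card_eq_one.2 ⟨0, eq_singleton_iff_unique_mem.2 ⟨z, fun y hy => ?_⟩⟩
    let x : ℕ → ZMod 2 := fun k => if h : de k ∈ Co A B C Q then y ⟨_, h⟩ else 0
    have e : ∀ t : Co A B C Q, x (en t) = y t := fun t => by
      simp only [x, de_en, dif_pos t.2]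
    funext t
    rw [← e]
    refine h x (fun k _ hk => ?_) _ (en_lt t.2) ((de_en t).symm ▸ t.2)
    rw [← sum_eq hk]
    simp only [e]
    exact (mem_filter.1 hy).2 ⟨_, hk⟩
  · intro h x hx k _ hk
    have m : (fun t : Co A B C Q => x (en t)) ∈ Ker A B C Q :=
      mem_filter.2 ⟨mem_univ _, fun s => by
        have := hx _ (en_lt s.2) ((de_en s).symm ▸ s.2)
        rw [de_en] at this
        rw [sum_eq s.2, this]⟩
    have := congrFun (card_le_one.1 h.le _ m _ z) ⟨_, hk⟩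
    rwa [en_de] at this

theorem kerP {A B C Q : α → ℕ} (hA : Primrec A) (hB : Primrec B) (hC : Primrec C) (hQ : Primrec Q) :
    PrimrecPred fun a => (Ker (A a) (B a) (C a) (Q a)).card = 1 :=
  (injP (S := fun a k => de k ∈ Co (A a) (B a) (C a) (Q a))
    (m := fun a k l => Mt' (A a) (B a) (de k) (de l))
    (nat_mul.comp (const 3) (succ.comp (nat_add.comp (nat_add.comp hA hB) hC)))
    (coP (hA.comp fst) (hB.comp fst) (hC.comp fst) (hQ.comp fst) (deP.comp snd))
    (mtP (hA.comp (fst.comp fst)) (hB.comp (fst.comp fst)) (deP.comp (snd.comp fst))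
      (deP.comp snd))).of_eq fun a => by convert ker_iff (A a) (B a) (C a) (Q a)

theorem goodP : PrimrecPred fun x : ℕ × ℕ => Good x.1 x.2 := by
  have hA : Primrec fun y : ((ℕ × ℕ) × ℕ) × ℕ => y.1.1.1 := fst.comp (fst.comp fst)
  have hB : Primrec fun y : ((ℕ × ℕ) × ℕ) × ℕ => y.1.1.2 := snd.comp (fst.comp fst)
  have hC : Primrec fun y : ((ℕ × ℕ) × ℕ) × ℕ => y.1.2 := snd.comp fst
  have hM := nat_mul.comp (nat_mul.comp hA hB) hC
  have h1 := bex (R := fun (y : (ℕ × ℕ) × ℕ) Q => y.1.1 + y.1.2 = 16 * y.2 ∧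
    Squarefree (y.1.1 * y.1.2 * y.2) ∧ y.1.1 * y.1.2 * y.2 % 2 = 1 ∧ Q ∈ y.1.2.primeFactors ∧
      (Ker y.1.1 y.1.2 y.2 Q).card = 1) (succ.comp (snd.comp fst))
    ((Primrec.eq.comp (nat_add.comp hA hB) (nat_mul.comp (const 16) hC)).and ((sqf.comp hM).and
      ((Primrec.eq.comp (nat_mod.comp hM (const 2)) (const 1)).and
        ((memP snd hB).and (kerP hA hB hC snd)))))
  refine (bex (R := fun (x : ℕ × ℕ) C => ∃ Q < x.2 + 1, x.1 + x.2 = 16 * C ∧
    Squarefree (x.1 * x.2 * C) ∧ x.1 * x.2 * C % 2 = 1 ∧ Q ∈ x.2.primeFactors ∧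
      (Ker x.1 x.2 C Q).card = 1) (succ.comp (nat_add.comp fst snd)) h1).of_eq fun x => ?_
  constructor
  · rintro ⟨C, -, Q, -, a1, a2, a3, a4⟩
    exact ⟨C, Q, a1, a2, Nat.odd_iff.2 a3, a4⟩
  · rintro ⟨C, Q, a1, a2, a3, a4⟩
    exact ⟨C, by omega, Q, Nat.lt_succ_of_le (Nat.le_of_mem_primeFactors a4.1), a1, a2,
      Nat.odd_iff.1 a3, a4⟩

end Comp

theorem comp : CompS := by
  classical
  have h : PrimrecPred fun x : ℤ × ℕ => x.1 < 0 ∧ Good x.1.natAbs x.2 :=
    (G.Cp.negP.comp Primrec.fst).and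
      (Comp.goodP.comp (Primrec.pair (G.Cp.absP.comp Primrec.fst) Primrec.snd))
  exact ⟨_, (Primrec.ite h (Primrec.const true) (Primrec.const false)).to_comp, fun a b => by simp⟩

end Pool.Agent.Lib.MP_d6ddbd_nt.L
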