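import Pool.Agent.Lib.MP_d6ddbd_nt.L.St
import Pool.Agent.Lib.MP_d6ddbd_nt.G.Desc
import Pool.Agent.Lib.MP_d6ddbd_nt.G.Ker

/-! The Legendre family: the local conditions of the `2`-descent. -/

open Finset

noncomputable section

namespace Pool.Agent.Lib.MP_d6ddbd_nt.L

open G (ep al ps dsc ind recip)
open G.DescAux hiding lg Ch

namespace Desc

/-- The symbol of the unit part at an odd prime. -/
abbrev Lp (p : ℕ) : ℚ → ZMod 2 := G.DescAux.lg p (ps p) fun a => jacobiSym a p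

/-- The symbol of the unit part at two. -/
abbrev L4 : ℚ → ZMod 2 := G.DescAux.lg 2 2 fun a => ZMod.χ₄ (a : ZMod 4)

variable {p : ℕ} {x y z b m : ℚ}

theorem jadd (hp : p.Prime) {u w z : ℚ} (hu : u ≠ 0) (hw : w ≠ 0) (hz : z = u + w)
    (h : padicValRat p u < padicValRat p w) :
    padicValRat p z = padicValRat p u ∧ Lp p z = Lp p u :=
  (ch_jac hp).add hu hw hz (by omega)

theorem Lp_neg (hp : p.Prime) (hp2 : p ≠ 2) {u : ℚ} (hu : u ≠ 0) : Lp p (-u) = ep p + Lp p u := by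
  have hc := ch_jac hp
  have h3 := hc.lg_int (A := -1) fun h => hc.pz.not_dvd_one (dvd_neg.1 h)
  have h4 := hp.odd_of_ne_two hp2
  rw [jacobiSym.at_neg_one h4, ZMod.χ₄_nat_eq_if_mod_four] at h3
  rw [neg_eq_neg_one_mul, Lp, hc.lg_mul (by norm_num) hu]
  congr 1
  refine Eq.trans (by simpa using h3) ?_
  unfold ep
  have h5 := Nat.odd_iff.1 h4
  refine if_congr ?_ rfl rfl
  split_ifs <;> simp <;> omega

theorem L4_neg {u : ℚ} (hu : u ≠ 0) : L4 (-u) = 1 + L4 u := by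
  have h3 := ch_four.lg_int (A := -1) (by decide)
  rw [neg_eq_neg_one_mul, L4, ch_four.lg_mul (by norm_num) hu]
  congr 1

theorem val_sq (hp : p.Prime) (u : ℚ) : padicValRat p (u ^ 2) = 2 * padicValRat p u := by
  have := Fact.mk hp
  rw [padicValRat.pow]
  rfl

theorem flip {u w z : ℚ} (hu : u ≠ 0) (hw : w ≠ 0) (hz : z = u + w)
    (h : padicValRat 2 w = padicValRat 2 u + 1) : L4 z = L4 u + 1 := by
  have hc := ch_four
  obtain ⟨A, B, k, hA, hB, h1⟩ := hc.ex hu
  obtain ⟨A', B', k', hA', hB', h2⟩ := hc.ex hw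
  obtain ⟨e1, e2⟩ := hc.spec hA hB h1
  rw [e1, (hc.spec hA' hB' h2).1] at h
  have h3 : z * ((B * B' : ℤ) : ℚ) = ((2 : ℤ) : ℚ) ^ k * ((A * B' + 2 * (A' * B) : ℤ) : ℚ) := by
    rw [h, zpow_add₀ hc.ne, zpow_one] at h2
    rw [hz]
    push_cast at h1 h2 ⊢
    linear_combination (B' : ℚ) * h1 + (B : ℚ) * h2
  have h4 : ¬ ((2 : ℕ) : ℤ) ∣ A * B' + 2 * (A' * B) := fun h5 =>
    hc.nd hA hB' ((dvd_add_left (Dvd.intro _ rfl)).1 h5)
  rw [L4, (hc.spec h4 (hc.nd hB hB') h3).2, e2]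
  have od : ∀ n : ℤ, ¬ ((2 : ℕ) : ℤ) ∣ n → (n : ZMod 4) = 1 ∨ (n : ZMod 4) = 3 := fun n hn => by
    have : n % 4 = 1 ∨ n % 4 = 3 := by omega
    rcases this with e | e
    · exact Or.inl (by rw [← ZMod.intCast_mod n 4]; exact congrArg Int.cast e)
    · exact Or.inr (by rw [← ZMod.intCast_mod n 4]; exact congrArg Int.cast e)
  push_cast
  rcases od A hA with a | a <;> rcases od B hB with a' | a' <;> rcases od A' hA' with c | c <;>
    rcases od B' hB' with c' | c' <;> rw [a, a', c, c'] <;> decide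

theorem locO (hp : p.Prime) (hx : x ≠ 0) (hz : z ≠ 0) (hb : b ≠ 0) (hm : m ≠ 0)
    (hn : b ^ 2 + m ≠ 0) (ey : y = x - b ^ 2) (ez : z = x + m) (vb : padicValRat p b = 0)
    (vM : padicValRat p m = 0) (vn : padicValRat p (b ^ 2 + m) = 0)
    (hv : vm p x + vm p y + vm p z = 0) : vm p x = 0 ∧ vm p z = 0 := by
  have hb2 : -b ^ 2 ≠ 0 := neg_ne_zero.2 (pow_ne_zero 2 hb)
  have v2 : padicValRat p (-b ^ 2) = 0 := by rw [padicValRat.neg, val_sq hp, vb]; rfl
  have v3 := padicValRat.neg (p := p) m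
  have v4 := padicValRat.neg (p := p) (b ^ 2 + m)
  unfold vm at hv ⊢
  rcases lt_trichotomy (padicValRat p x) 0 with c | c | c
  · have e1 := (jadd hp (z := y) hx hb2 (by rw [ey]; ring) (by omega)).1
    have e2 := (jadd hp hx hm ez (by omega)).1
    rw [e1, e2, CharTwo.add_self_eq_zero, zero_add] at hv
    rw [e2]
    exact ⟨hv, hv⟩
  · refine ⟨by rw [c]; rfl, ?_⟩
    rcases lt_trichotomy (padicValRat p z) 0 with c' | c' | c'
    · have := (jadd hp (z := x) hz (neg_ne_zero.2 hm) (by rw [ez]; ring) (by omega)).1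
      omega
    · rw [c']; rfl
    · have e1 := (jadd hp (z := y) (neg_ne_zero.2 hn) hz (by rw [ey, ez]; ring) (by omega)).1
      rw [e1, c, v4, vn] at hv
      simpa using hv
  · have e1 := (jadd hp (z := y) hb2 hx (by rw [ey]; ring) (by omega)).1
    have e2 := (jadd hp (z := z) hm hx (by rw [ez]; ring) (by omega)).1
    rw [e1, e2, v2, vM] at hv
    rw [e2, vM]
    exact ⟨by simpa using hv, rfl⟩

theorem locC (hp : p.Prime) (hy : y ≠ 0) (hb : b ≠ 0) (hn : b ^ 2 + m ≠ 0) (ey : y = x - b ^ 2)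
    (ez : z = x + m) (vb : padicValRat p b = 0) (vn : padicValRat p (b ^ 2 + m) = 1)
    (hv : vm p x + vm p y + vm p z = 0) (hL : Lp p x + Lp p y + Lp p z = 0) :
    vm p x = 0 ∧ Lp p x = 0 := by
  have v2 : padicValRat p (b ^ 2) = 0 := by rw [val_sq hp, vb]; rfl
  unfold vm at hv ⊢
  by_cases c : padicValRat p y ≤ 0
  · obtain ⟨e1, e2⟩ := jadd hp (z := z) hy hn (by rw [ey, ez]; ring) (by omega)
    rw [e1, add_assoc, CharTwo.add_self_eq_zero, add_zero] at hv
    rw [e2, add_assoc, CharTwo.add_self_eq_zero, add_zero] at hL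
    exact ⟨hv, hL⟩
  · obtain ⟨e1, e2⟩ := jadd hp (z := x) (pow_ne_zero 2 hb) hy (by rw [ey]; ring) (by omega)
    rw [e1, e2, v2]
    exact ⟨rfl, (ch_jac hp).lg_sq hb⟩

theorem locA (hp : p.Prime) (hp2 : p ≠ 2) (hx : x ≠ 0) (hb : b ≠ 0) (hm : m ≠ 0)
    (ey : y = x - b ^ 2) (ez : z = x + m) (vb : padicValRat p b = 0) (vM : padicValRat p m = 1)
    (hv : vm p x + vm p y + vm p z = 0) (hL : Lp p x + Lp p y + Lp p z = 0) :
    vm p x = vm p z ∧ Lp p x + Lp p z = ep p * vm p x := by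
  have hb2 : -b ^ 2 ≠ 0 := neg_ne_zero.2 (pow_ne_zero 2 hb)
  have v2 : padicValRat p (-b ^ 2) = 0 := by rw [padicValRat.neg, val_sq hp, vb]; rfl
  have l2 : Lp p (-b ^ 2) = ep p := by
    rw [Lp_neg hp hp2 (pow_ne_zero 2 hb), Lp, (ch_jac hp).lg_sq hb, add_zero]
  unfold vm at hv ⊢
  by_cases c : padicValRat p x ≤ 0
  · obtain ⟨e1, e2⟩ := jadd hp hx hm ez (by omega)
    rw [e1, e2, CharTwo.add_self_eq_zero]
    refine ⟨rfl, ?_⟩
    rcases c.eq_or_lt with c | c
    · rw [c]; simp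
    · rw [(jadd hp (z := y) hx hb2 (by rw [ey]; ring) (by omega)).1, e1,
        CharTwo.add_self_eq_zero, zero_add] at hv
      rw [hv, mul_zero]
  · obtain ⟨e1, e2⟩ := jadd hp (z := y) hb2 hx (by rw [ey]; ring) (by omega)
    rw [e1, v2] at hv
    rw [e2, l2] at hL
    have h1 : ((padicValRat p x : ℤ) : ZMod 2) = 1 := by
      by_cases c' : padicValRat p x = 1
      · rw [c']; rfl
      · rw [(jadd hp (z := z) hm hx (by rw [ez]; ring) (by omega)).1, vM] at hv
        revert hv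
        generalize ((padicValRat p x : ℤ) : ZMod 2) = s
        revert s
        decide
    rw [h1] at hv ⊢
    revert hv hL
    generalize ((padicValRat p z : ℤ) : ZMod 2) = s
    generalize Lp p x = t
    generalize Lp p z = t'
    generalize ep p = c
    revert s t t' c
    decide

theorem locB (hp : p.Prime) (hp2 : p ≠ 2) (hx : x ≠ 0) (hy : y ≠ 0) (hz : z ≠ 0) (hb : b ≠ 0)
    (hm : m ≠ 0) (ey : y = x - b ^ 2) (ez : z = x + m) (vb : padicValRat p b = 1)
    (vM : padicValRat p m = 1) (hv : vm p x + vm p y + vm p z = 0)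
    (hL : Lp p x + Lp p y + Lp p z = 0) :
    Lp p x = vm p x * Lp p (-m) ∧ Lp p z = vm p z * Lp p m := by
  have hb2 : -b ^ 2 ≠ 0 := neg_ne_zero.2 (pow_ne_zero 2 hb)
  have v1 : padicValRat p (b ^ 2) = 2 := by rw [val_sq hp, vb]; rfl
  have v2 : padicValRat p (-b ^ 2) = 2 := by rw [padicValRat.neg, v1]
  have v3 := padicValRat.neg (p := p) m
  have l1 : Lp p (b ^ 2) = 0 := (ch_jac hp).lg_sq hb
  have l2 : Lp p (-b ^ 2) = ep p := by rw [Lp_neg hp hp2 (pow_ne_zero 2 hb), l1, add_zero]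
  have pv := (vm_zero_iff p _).1 (show vm p (x * y * z) = 0 by
    rw [vm_mul hp (mul_ne_zero hx hy) hz, vm_mul hp hx hy, hv])
  have := Fact.mk hp
  rw [padicValRat.mul (mul_ne_zero hx hy) hz, padicValRat.mul hx hy] at pv
  obtain ⟨s, hs⟩ := pv
  unfold vm at hv ⊢
  rcases lt_trichotomy (padicValRat p x) 1 with c | c | c
  · obtain ⟨e1, e2⟩ := jadd hp (z := y) hx hb2 (by rw [ey]; ring) (by omega)
    obtain ⟨e3, e4⟩ := jadd hp hx hm ez (by omega)
    rw [e1, e3, CharTwo.add_self_eq_zero, zero_add] at hv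
    rw [e2, e4, CharTwo.add_self_eq_zero, zero_add] at hL
    rw [e3, e4, hv, hL]
    simp
  · obtain ⟨e1, e2⟩ := jadd hp (z := y) hx hb2 (by rw [ey]; ring) (by omega)
    rw [e1, CharTwo.add_self_eq_zero, zero_add] at hv
    rw [e2, CharTwo.add_self_eq_zero, zero_add] at hL
    have h1 : 1 < padicValRat p z := by
      by_contra h2
      have := (jadd hp (z := x) hz (neg_ne_zero.2 hm) (by rw [ez]; ring) (by omega)).1
      omega
    rw [hv, hL, c, (jadd hp (z := x) (neg_ne_zero.2 hm) hz (by rw [ez]; ring) (by omega)).2]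
    simp
  · obtain ⟨e3, e4⟩ := jadd hp (z := z) hm hx (by rw [ez]; ring) (by omega)
    refine ⟨?_, by rw [e3, e4, vM]; simp⟩
    by_cases c' : padicValRat p x = 2
    · have h1 : 2 < padicValRat p y := by
        by_contra h2
        have := (jadd hp (z := x) hy (pow_ne_zero 2 hb) (by rw [ey]; ring) (by omega)).1
        omega
      rw [(jadd hp (z := x) (pow_ne_zero 2 hb) hy (by rw [ey]; ring) (by omega)).2, l1, c']
      exact (zero_mul _).symm
    · obtain ⟨e1, e2⟩ := jadd hp (z := y) hb2 hx (by rw [ey]; ring) (by omega)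
      rw [e1, e3, v2, vM] at hv
      rw [e2, e4, l2] at hL
      rw [Lp_neg hp hp2 hm]
      revert hv hL
      generalize ((padicValRat p x : ℤ) : ZMod 2) = s
      generalize Lp p x = t
      generalize Lp p m = t'
      generalize ep p = c
      revert s t t' c
      decide

theorem loc2 (hx : x ≠ 0) (hy : y ≠ 0) (hz : z ≠ 0) (hb : b ≠ 0) (hn : b ^ 2 + m ≠ 0)
    (ey : y = x - b ^ 2) (ez : z = x + m) (vb : padicValRat 2 b = 0)
    (vn : padicValRat 2 (b ^ 2 + m) = 4) (hv : vm 2 x + vm 2 y + vm 2 z = 0)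
    (hL : L4 x + L4 y + L4 z = 0) : vm 2 x = 0 ∧ vm 2 z = 0 ∧ L4 x = 0 := by
  have hp := Nat.prime_two
  have hb2 := pow_ne_zero 2 hb
  have v1 : padicValRat 2 (b ^ 2) = 0 := by rw [val_sq hp, vb]; rfl
  have l1 : L4 (b ^ 2) = 0 := ch_four.lg_sq hb
  have pv := (vm_zero_iff 2 _).1 (show vm 2 (x * y * z) = 0 by
    rw [vm_mul hp (mul_ne_zero hx hy) hz, vm_mul hp hx hy, hv])
  rw [padicValRat.mul (mul_ne_zero hx hy) hz, padicValRat.mul hx hy] at pv
  obtain ⟨s, hs⟩ := pv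
  have k1 : x = b ^ 2 + y := by rw [ey]; ring
  have k2 : z = y + (b ^ 2 + m) := by rw [ey, ez]; ring
  rw [vm_zero_iff, vm_zero_iff, Int.even_iff, Int.even_iff]
  by_cases c : padicValRat 2 y ≤ 2
  · obtain ⟨e1, e2⟩ := ch_four.add hy hn k2 (by omega)
    rw [L4, e2, add_assoc, CharTwo.add_self_eq_zero, add_zero] at hL
    refine ⟨by omega, ?_, hL⟩
    by_cases c1 : padicValRat 2 y < 0
    · have := ((ch_triv hp).add (z := x) hy hb2 (by rw [k1]; ring) (by omega)).1
      omega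
    · have : padicValRat 2 y ≠ 1 := fun c2 => by
        have := flip hb2 hy k1 (by omega)
        rw [l1, L4, hL] at this
        exact absurd this (by decide)
      omega
  · obtain ⟨e1, e2⟩ := ch_four.add hb2 hy k1 (by omega)
    replace e2 : L4 x = 0 := e2.trans l1
    refine ⟨by omega, ?_, e2⟩
    by_cases c1 : 4 < padicValRat 2 y
    · have := ((ch_triv hp).add (z := z) hn hy (by rw [k2]; ring) (by omega)).1
      omega
    · have : padicValRat 2 y ≠ 3 := fun c2 => by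
        rw [flip hy hn k2 (by omega), e2, zero_add, ← add_assoc, CharTwo.add_self_eq_zero] at hL
        exact absurd hL (by decide)
      omega

/-- The local conditions. -/
structure Cd (A B C : ℕ) (u w : ℚ) : Prop where
  ne : u ≠ 0
  pos : 0 < w
  two : L4 u = 0
  oth : ∀ l : ℕ, l.Prime → ¬ l ∣ A * B * C → vm l u = 0 ∧ vm l w = 0
  pC : ∀ l : ℕ, l.Prime → l ∣ C → vm l u = 0 ∧ Lp l u = 0
  pA : ∀ l : ℕ, l.Prime → l ∣ A → vm l u = vm l w ∧ Lp l u + Lp l w = ep l * vm l u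
  pB : ∀ l : ℕ, l.Prime → l ∣ B →
    Lp l u = vm l u * Lp l (-(A * B : ℚ)) ∧ Lp l w = vm l w * Lp l (A * B : ℚ)

variable {A B C Q : ℕ} {u w u' w' : ℚ}

theorem Cd.mul (h : Cd A B C u w) (h' : Cd A B C u' w') : Cd A B C (u * u') (w * w') := by
  have a := h.pos.ne'
  have a' := h'.pos.ne'
  refine ⟨mul_ne_zero h.ne h'.ne, mul_pos h.pos h'.pos, ?_, fun l hl e => ?_, fun l hl e => ?_,
    fun l hl e => ?_, fun l hl e => ?_⟩
  · rw [L4, ch_four.lg_mul h.ne h'.ne]
    exact (congrArg₂ (· + ·) h.two h'.two).trans (add_zero _)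
  all_goals simp only [vm_mul hl h.ne h'.ne, vm_mul hl a a', (ch_jac hl).lg_mul h.ne h'.ne,
    (ch_jac hl).lg_mul a a']
  · simp [h.oth l hl e, h'.oth l hl e]
  · simp [h.pC l hl e, h'.pC l hl e]
  · exact ⟨by rw [(h.pA l hl e).1, (h'.pA l hl e).1], by
      linear_combination (h.pA l hl e).2 + (h'.pA l hl e).2⟩
  · exact ⟨by linear_combination (h.pB l hl e).1 + (h'.pB l hl e).1,
      by linear_combination (h.pB l hl e).2 + (h'.pB l hl e).2⟩

theorem vnat {n : ℕ} (hn : Squarefree n) (hp : p.Prime) :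
    padicValRat p (n : ℚ) = if p ∣ n then 1 else 0 := by
  have := Fact.mk hp
  rw [padicValRat.of_nat]
  split_ifs with h
  · have h1 := (Nat.squarefree_iff_factorization_le_one hn.ne_zero).1 hn p
    have h2 := one_le_padicValNat_of_dvd hn.ne_zero h
    rw [Nat.factorization_def _ hp] at h1
    omega
  · rw [padicValNat.eq_zero_of_not_dvd h]; rfl

/-- The arithmetic hypotheses. -/
structure Hy (A B C : ℕ) : Prop where
  sum : A + B = 16 * C
  sqf : Squarefree (A * B * C)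
  odd : Odd (A * B * C)

namespace Hy

variable (H : Hy A B C)
include H

theorem pA : (0 : ℚ) < A := by
  have := H.sqf.ne_zero
  exact_mod_cast Nat.pos_of_ne_zero fun e => this (by simp [e])

theorem pB : (0 : ℚ) < B := by
  have := H.sqf.ne_zero
  exact_mod_cast Nat.pos_of_ne_zero fun e => this (by simp [e])

theorem pC : (0 : ℚ) < C := by
  have := H.sqf.ne_zero
  exact_mod_cast Nat.pos_of_ne_zero fun e => this (by simp [e])

theorem ne2 (h : p ∣ A * B * C) : p ≠ 2 := by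
  rintro rfl
  exact (Nat.not_even_iff_odd.2 H.odd) (even_iff_two_dvd.2 h)

theorem excl (hp : p.Prime) : ¬ (p ∣ A ∧ p ∣ B) ∧ ¬ (p ∣ A ∧ p ∣ C) ∧ ¬ (p ∣ B ∧ p ∣ C) := by
  have k := fun h => hp.not_isUnit (H.sqf p h)
  refine ⟨fun h => k ((mul_dvd_mul h.1 h.2).mul_right _), fun h => k ?_, fun h => k ?_⟩
  · exact mul_dvd_mul (h.1.mul_right _) h.2
  · exact mul_dvd_mul (h.1.mul_left _) h.2

theorem vals (hp : p.Prime) : padicValRat p (B : ℚ) = (if p ∣ B then 1 else 0) ∧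
    padicValRat p (A * B : ℚ) = (if p ∣ A then 1 else 0) + (if p ∣ B then 1 else 0) ∧
    padicValRat p (B ^ 2 + A * B : ℚ) = (if p = 2 then 4 else 0) + (if p ∣ B then 1 else 0) +
      if p ∣ C then 1 else 0 := by
  have := Fact.mk hp
  have a := vnat (H.sqf.squarefree_of_dvd ((dvd_mul_right A B).mul_right C)) hp
  have b := vnat (H.sqf.squarefree_of_dvd ((dvd_mul_left B A).mul_right C)) hp
  have c := vnat (H.sqf.squarefree_of_dvd (dvd_mul_left C _)) hp
  have e : (B ^ 2 + A * B : ℚ) = (2 : ℕ) ^ 4 * B * C := by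
    have : (A : ℚ) + B = 16 * C := by exact_mod_cast H.sum
    push_cast
    linear_combination B * this
  refine ⟨b, by rw [padicValRat.mul H.pA.ne' H.pB.ne', a, b], ?_⟩
  rw [e, padicValRat.mul (mul_ne_zero (by norm_num) H.pB.ne') H.pC.ne',
    padicValRat.mul (by norm_num) H.pB.ne', b, c, padicValRat.pow,
    vnat Nat.prime_two.squarefree hp]
  simp only [Nat.prime_dvd_prime_iff_eq hp Nat.prime_two]
  split_ifs <;> simp

theorem point {X Y : ℚ} (hY : Y ≠ 0) (h : Y ^ 2 = X * (X - B ^ 2) * (X + A * B)) :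
    Cd A B C X (X + A * B) := by
  have hn : X * (X - B ^ 2) * (X + A * B) ≠ 0 := h ▸ pow_ne_zero 2 hY
  have h0 : X ≠ 0 := left_ne_zero_of_mul (left_ne_zero_of_mul hn)
  have h1 : X - B ^ 2 ≠ 0 := right_ne_zero_of_mul (left_ne_zero_of_mul hn)
  have h2 : X + A * B ≠ 0 := right_ne_zero_of_mul hn
  have a := H.pA
  have b := H.pB
  have hm : (A * B : ℚ) ≠ 0 := by positivity
  have h3 : (B ^ 2 + A * B : ℚ) ≠ 0 := by positivity
  have hv : ∀ l : ℕ, l.Prime → vm l X + vm l (X - B ^ 2) + vm l (X + A * B) = 0 := fun l hl => by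
    rw [← vm_mul hl h0 h1, ← vm_mul hl (mul_ne_zero h0 h1) h2, ← h, vm_sq hl hY]
  have hL : ∀ l : ℕ, l.Prime → Lp l X + Lp l (X - B ^ 2) + Lp l (X + A * B) = 0 := fun l hl => by
    rw [Lp, ← (ch_jac hl).lg_mul h0 h1, ← (ch_jac hl).lg_mul (mul_ne_zero h0 h1) h2, ← h,
      (ch_jac hl).lg_sq hY]
  have n2 : ¬ 2 ∣ B ∧ ¬ 2 ∣ C :=
    ⟨fun e => H.ne2 ((e.mul_left _).mul_right _) rfl, fun e => H.ne2 (e.mul_left _) rfl⟩
  have t2 := loc2 h0 h1 h2 b.ne' h3 rfl rfl (by simp [(H.vals Nat.prime_two).1, n2])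
    (by simp [(H.vals Nat.prime_two).2.2, n2]) (hv 2 Nat.prime_two) (by
      rw [L4, ← ch_four.lg_mul h0 h1, ← ch_four.lg_mul (mul_ne_zero h0 h1) h2, ← h,
        ch_four.lg_sq hY])
  refine ⟨h0, ?_, t2.2.2, fun l hl e => ?_, fun l hl e => ?_, fun l hl e => ?_, fun l hl e => ?_⟩
  · by_contra c
    have c1 : X + A * B < 0 := lt_of_le_of_ne (not_lt.1 c) h2
    have c2 : X < 0 := by nlinarith [mul_pos a b]
    have c3 : X - B ^ 2 < 0 := by nlinarith
    nlinarith [mul_neg_of_pos_of_neg (mul_pos_of_neg_of_neg c2 c3) c1, sq_nonneg Y]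
  all_goals obtain ⟨v1, v2, v3⟩ := H.vals hl
  all_goals obtain ⟨x1, x2, x3⟩ := H.excl hl
  · by_cases c : l = 2
    · subst c
      exact ⟨t2.1, t2.2.1⟩
    · simp only [hl.dvd_mul, not_or] at e
      exact locO hl h0 h2 b.ne' hm h3 rfl rfl (by simp [v1, e]) (by simp [v2, e])
        (by simp [v3, e, c]) (hv l hl)
  · have c := H.ne2 (e.mul_left _)
    have c' : ¬ l ∣ B := fun k => x3 ⟨k, e⟩
    exact locC hl h1 b.ne' h3 rfl rfl (by simp [v1, c']) (by simp [v3, e, c, c']) (hv l hl)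
      (hL l hl)
  · have c' : ¬ l ∣ B := fun k => x1 ⟨e, k⟩
    exact locA hl (H.ne2 ((e.mul_right _).mul_right _)) h0 b.ne' hm rfl rfl (by simp [v1, c'])
      (by simp [v2, e, c']) (hv l hl) (hL l hl)
  · have c' : ¬ l ∣ A := fun k => x1 ⟨k, e⟩
    exact locB hl (H.ne2 ((e.mul_left _).mul_right _)) h0 h1 h2 b.ne' hm rfl rfl (by simp [v1, e])
      (by simp [v2, e, c']) (hv l hl) (hL l hl)

theorem tor1 : Cd A B C (-(A * B : ℚ)) (A * B) := by
  have a := H.pA
  have b := H.pB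
  have hm : (A * B : ℚ) ≠ 0 := by positivity
  have h3 : -(B ^ 2 + A * B : ℚ) ≠ 0 := neg_ne_zero.2 (by positivity)
  have hb := pow_ne_zero 2 b.ne'
  have e0 : -(A * B : ℚ) = B ^ 2 + -(B ^ 2 + A * B : ℚ) := by ring
  have n2 : ¬ 2 ∣ B ∧ ¬ 2 ∣ C :=
    ⟨fun e => H.ne2 ((e.mul_left _).mul_right _) rfl, fun e => H.ne2 (e.mul_left _) rfl⟩
  refine ⟨neg_ne_zero.2 hm, by positivity, ?_, fun l hl e => ?_, fun l hl e => ?_,
    fun l hl e => ?_, fun l hl e => ?_⟩
  · refine (ch_four.add hb h3 e0 ?_).2.trans (ch_four.lg_sq b.ne')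
    rw [padicValRat.neg, val_sq Nat.prime_two, (H.vals Nat.prime_two).1,
      (H.vals Nat.prime_two).2.2]
    simp [n2]
  all_goals obtain ⟨v1, v2, v3⟩ := H.vals hl
  all_goals obtain ⟨x1, x2, x3⟩ := H.excl hl
  all_goals simp only [vm, padicValRat.neg, v2]
  · simp only [hl.dvd_mul, not_or] at e
    simp [e]
  · have c := H.ne2 (e.mul_left _)
    have c1 : ¬ l ∣ B := fun k => x3 ⟨k, e⟩
    have c2 : ¬ l ∣ A := fun k => x2 ⟨k, e⟩
    refine ⟨by simp [c1, c2], (jadd hl hb h3 e0 ?_).2.trans ((ch_jac hl).lg_sq b.ne')⟩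
    rw [padicValRat.neg, val_sq hl, v1, v3]
    simp [c, c1, e]
  · have c1 : ¬ l ∣ B := fun k => x1 ⟨e, k⟩
    rw [Lp_neg hl (H.ne2 ((e.mul_right _).mul_right _)) hm, add_assoc, CharTwo.add_self_eq_zero]
    simp [c1, e]
  · have c1 : ¬ l ∣ A := fun k => x1 ⟨k, e⟩
    simp [c1, e]

theorem tor2 : Cd A B C 1 (B ^ 2 + A * B) := by
  have a := H.pA
  have b := H.pB
  have hm : (A * B : ℚ) ≠ 0 := by positivity
  have hb := pow_ne_zero 2 b.ne'
  refine ⟨one_ne_zero, by positivity, ch_four.lg_one, fun l hl e => ?_, fun l hl e => ?_,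
    fun l hl e => ?_, fun l hl e => ?_⟩
  all_goals obtain ⟨v1, v2, v3⟩ := H.vals hl
  all_goals obtain ⟨x1, x2, x3⟩ := H.excl hl
  all_goals simp only [vm, padicValRat.one, v3, (ch_jac hl).lg_one]
  · simp only [hl.dvd_mul, not_or] at e
    refine ⟨rfl, ?_⟩
    simp only [e, if_false]
    split_ifs <;> rfl
  · exact ⟨rfl, trivial⟩
  · have c := H.ne2 ((e.mul_right _).mul_right _)
    have c1 : ¬ l ∣ B := fun k => x1 ⟨e, k⟩
    have c2 : ¬ l ∣ C := fun k => x2 ⟨e, k⟩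
    rw [show Lp l (B ^ 2 + A * B) = 0 from (jadd hl hb hm rfl (by
      rw [val_sq hl, v1, v2]; simp [c1, e])).2.trans ((ch_jac hl).lg_sq b.ne')]
    simp [c, c1, c2]
  · have c := H.ne2 ((e.mul_left _).mul_right _)
    have c1 : ¬ l ∣ A := fun k => x1 ⟨k, e⟩
    have c2 : ¬ l ∣ C := fun k => x3 ⟨e, k⟩
    rw [show Lp l (B ^ 2 + A * B) = Lp l (A * B) from (jadd hl hm hb (add_comm _ _) (by
      rw [val_sq hl, v1, v2]; simp [c1, e])).2]
    simp [c, c2, e]

theorem Lp_prime (hp : p ∈ (A * B * C).primeFactors) {q : ℕ} (hq : q ∈ (A * B * C).primeFactors) :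
    Lp p q = (if p = q then ep p else 0) + al q p := by
  have p1 := Nat.prime_of_mem_primeFactors hp
  have q1 := Nat.prime_of_mem_primeFactors hq
  have p2 := H.ne2 (Nat.dvd_of_mem_primeFactors hp)
  have q2 := H.ne2 (Nat.dvd_of_mem_primeFactors hq)
  have k : Lp p q = ep p * ep q + Lp p (ps q : ℚ) := by
    rw [ps, ep, ep]
    split_ifs with h1 h2 h2
    all_goals simp only [Int.cast_neg, Int.cast_natCast, mul_zero, zero_add, mul_one,
      Lp_neg p1 p2 (Nat.cast_ne_zero.2 q1.ne_zero), ep, h1, if_true, if_false]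
    rw [← add_assoc, CharTwo.add_self_eq_zero, zero_add]
  rw [k]
  split_ifs with h
  · subst h
    rw [Lp, (ch_jac p1).lg_pi, recip.1 p p1, ep]
    split_ifs <;> simp
  · rw [Lp, (ch_jac p1).lg_int (not_dvd_ps p1 q1 h), ← recip.2 p q p1 q1 p2 q2 h, zero_add,
      add_comm (al p q), add_assoc]
    exact (congrArg _ (CharTwo.add_self_eq_zero _)).trans (add_zero _)

theorem Lp_prod (hp : p ∈ (A * B * C).primeFactors) {a : Finset ℕ}
    (ha : a ⊆ (A * B * C).primeFactors) :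
    Lp p (∏ q ∈ a, q : ℕ) = ep p * ind a p + ∑ q ∈ a, al q p := by
  have p1 := Nat.prime_of_mem_primeFactors hp
  have k : Lp p (∏ q ∈ a, q : ℕ) = ∑ q ∈ a, Lp p q := by
    induction a using Finset.induction_on with
    | empty => simpa using (ch_jac p1).lg_one
    | insert q a hq ih =>
      have h1 : ∀ r ∈ insert q a, r ≠ 0 := fun r hr =>
        (Nat.prime_of_mem_primeFactors (ha hr)).ne_zero
      rw [prod_insert hq, sum_insert hq, Nat.cast_mul, Lp, (ch_jac p1).lg_mul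
        (Nat.cast_ne_zero.2 (h1 q (mem_insert_self _ _))) (Nat.cast_ne_zero.2
          (prod_ne_zero_iff.2 fun r hr => h1 r (mem_insert_of_mem hr))),
        ← ih ((subset_insert _ _).trans ha)]
  rw [k, sum_congr rfl fun q hq => H.Lp_prime hp (ha hq), sum_add_distrib, sum_ite_eq, ind]
  split_ifs <;> simp

theorem Lp_AB (hp : p.Prime) (h : p ∣ A * B) :
    Lp p (A * B : ℚ) = ep p + rho A B p ∧ Lp p (-(A * B : ℚ)) = rho A B p := by
  have h0 := H.sqf.squarefree_of_dvd (dvd_mul_right (A * B) C)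
  have h1 := H.Lp_prod (Nat.mem_primeFactors.2 ⟨hp, h.mul_right _, H.sqf.ne_zero⟩)
    (Nat.primeFactors_mono (dvd_mul_right (A * B) C) H.sqf.ne_zero)
  rw [Nat.prod_primeFactors_of_squarefree h0, ind, if_pos (Nat.mem_primeFactors.2
    ⟨hp, h, h0.ne_zero⟩), mul_one, Nat.cast_mul] at h1
  refine ⟨h1, ?_⟩
  rw [Lp_neg hp (H.ne2 (h.mul_right _)) (mul_pos H.pA H.pB).ne', h1, ← add_assoc,
    CharTwo.add_self_eq_zero, zero_add, rho]

theorem sum_co (f : ℕ × Fin 3 → ZMod 2) (g g' : ℕ → ZMod 2)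
    (h0 : ∀ q ∈ A.primeFactors, f (q, 0) = g q + g' q) (h1 : ∀ q, f (q, 1) = g q)
    (h2 : ∀ q, f (q, 2) = g' q) (hC : ∀ q ∈ C.primeFactors, g q = 0) (hQ : g Q = 0)
    (hQ' : g' Q = 0) : ∑ t : Co A B C Q, f t = ∑ q ∈ (A * B * C).primeFactors, (g q + g' q) := by
  have x := fun (q : ℕ) (hq : q.Prime) => H.excl hq
  have a0 : A ≠ 0 := by exact_mod_cast H.pA.ne'
  have b0 : B ≠ 0 := by exact_mod_cast H.pB.ne'
  have c0 : C ≠ 0 := by exact_mod_cast H.pC.ne'
  rw [sum_coe_sort (Co A B C Q) f, Co, Nat.primeFactors_mul (mul_ne_zero a0 b0) c0,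
    Nat.primeFactors_mul a0 b0, sum_union, sum_union, sum_union, sum_union, sum_product,
    sum_product, sum_product, add_assoc, ← sum_erase B.primeFactors (a := Q) (by
      rw [hQ, hQ', add_zero])]
  · simp only [sum_singleton, sum_pair (show (1 : Fin 3) ≠ 2 by decide), h1, h2]
    rw [sum_congr rfl h0, sum_congr (s₁ := C.primeFactors) rfl fun q hq =>
      show g q + g' q = g' q by rw [hC q hq, zero_add]]
  all_goals
    simp only [disjoint_left, mem_union, mem_product, mem_erase, Nat.mem_primeFactors,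
      mem_singleton, mem_insert]
    grind

theorem main (hK : (Ker A B C Q).card = 1) (h : Cd A B C u w) (h1 : vm Q u = 0)
    (h2 : vm Q w = 0) : IsSquare u ∧ IsSquare w := by
  set S := (A * B * C).primeFactors with hS
  have hP : ∀ q ∈ S, q.Prime := fun q hq => Nat.prime_of_mem_primeFactors hq
  have z2 : ∀ s : ZMod 2, (if s = 1 then 1 else 0) = s := by decide
  have key : ∀ t : ℚ, (∀ l : ℕ, l.Prime → ¬ l ∣ A * B * C → vm l t = 0) → ∀ l : ℕ, l.Prime →
      ind (S.filter fun q => vm q t = 1) l = vm l t := fun t ht l hl => by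
    by_cases c : l ∣ A * B * C
    · simp only [ind, mem_filter, hS, Nat.mem_primeFactors, hl, c, H.sqf.ne_zero, ne_eq,
        not_false_eq_true, true_and, z2]
    · simp [ind, hS, c, ht l hl c]
  have ka := key u fun l hl c => (h.oth l hl c).1
  have kb := key w fun l hl c => (h.oth l hl c).2
  have sa : (S.filter fun q => vm q u = 1) ⊆ S := filter_subset _ _
  have sb : (S.filter fun q => vm q w = 1) ⊆ S := filter_subset _ _
  generalize (S.filter fun q => vm q u = 1) = a at ka sa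
  generalize (S.filter fun q => vm q w = 1) = b at kb sb
  have a0 := dsc_ne fun q hq => hP q (sa hq)
  have b0 : (0 : ℚ) < (∏ q ∈ b, q : ℕ) := Nat.cast_pos.2 (prod_pos fun q hq => (hP q (sb hq)).pos)
  have bs : Squarefree (∏ q ∈ b, q) := H.sqf.squarefree_of_dvd
    ((prod_dvd_prod_of_subset _ _ _ sb).trans (Nat.prod_primeFactors_dvd _))
  obtain ⟨r, hr⟩ := sq_of_even (mul_ne_zero h.ne a0) fun l hl => by
    rw [vm_mul hl h.ne a0, vm_dsc hl a fun q hq => hP q (sa hq), ka l hl, CharTwo.add_self_eq_zero]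
  obtain ⟨s, hs⟩ := sq_of_even (mul_pos h.pos b0).ne' fun l hl => by
    rw [vm_mul hl h.pos.ne' b0.ne', ← kb l hl, vm, vnat bs hl, ind]
    have : l ∣ ∏ q ∈ b, q ↔ l ∈ b := by
      rw [← Nat.primeFactors_prod fun q hq => hP q (sb hq), Nat.mem_primeFactors,
        Nat.prod_primeFactors_of_squarefree bs]
      simp [hl, bs.ne_zero]
    simp only [this]
    split_ifs <;> decide
  have r0 : r ≠ 0 := by
    rintro rfl
    exact mul_ne_zero h.ne a0 (by simpa using hr)
  replace hr : u * dsc a = r ^ 2 := hr.resolve_right fun e => by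
    have := congrArg L4 e
    rw [L4_neg (pow_ne_zero 2 r0), L4, ch_four.lg_mul h.ne a0, ch_four.lg_sq r0,
      lg_two_dsc a fun q hq => ⟨hP q (sa hq), H.ne2 (Nat.dvd_of_mem_primeFactors (sa hq))⟩] at this
    exact absurd (h.two.symm.trans ((add_zero _).symm.trans this)) (by decide)
  replace hs : w * (∏ q ∈ b, q : ℕ) = s ^ 2 := hs.resolve_right fun e => by
    nlinarith [mul_pos h.pos b0, sq_nonneg s]
  have s0 : s ≠ 0 := by
    rintro rfl
    exact (mul_pos h.pos b0).ne' (by simpa using hs)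
  have eq2 : ∀ x y : ZMod 2, x + y = 0 → x = y := by decide
  have lu : ∀ p ∈ S, Lp p u = ∑ q ∈ S, al p q * vm q u := fun p hp => by
    have := congrArg (Lp p) hr
    rw [Lp, (ch_jac (hP p hp)).lg_mul h.ne a0, (ch_jac (hP p hp)).lg_sq r0,
      lg_jac_dsc recip (hP p hp) hP sa] at this
    exact (eq2 _ _ this).trans (sum_congr rfl fun q hq => by rw [ka q (hP q hq)])
  have lw : ∀ p ∈ S, Lp p w = ep p * vm p w + ∑ q ∈ S, al q p * vm q w := fun p hp => by
    have := congrArg (Lp p) hs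
    rw [Lp, (ch_jac (hP p hp)).lg_mul h.pos.ne' b0.ne', (ch_jac (hP p hp)).lg_sq s0] at this
    rw [Lp, eq2 _ _ this, ← Lp, H.Lp_prod hp sb, kb p (hP p hp), ← sum_subset sb fun q hq c => by
      rw [← kb q (hP q hq), ind, if_neg c, mul_zero]]
    exact congrArg _ (sum_congr rfl fun q hq => by
      rw [← kb q (hP q (sb hq)), ind, if_pos hq, mul_one])
  have nn : ∀ p ∈ S, ∀ (F : ℕ → ZMod 2) (g : ℕ → ZMod 2), F p = 0 →
      ∑ q ∈ S, (if q = p then rho A B p else F q) * g q = rho A B p * g p + ∑ q ∈ S, F q * g q :=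
    fun p hp F g e => by
      rw [← add_sum_erase _ _ hp, ← add_sum_erase _ _ hp, if_pos rfl, e, zero_mul, zero_add]
      exact congrArg _ (sum_congr rfl fun q hq => by rw [if_neg (ne_of_mem_erase hq)])
  have cc : ci 0 = 1 ∧ ci 1 = 1 ∧ ci 2 = 0 ∧ ck 0 = 1 ∧ ck 1 = 0 ∧ ck 2 = 1 :=
    ⟨rfl, rfl, rfl, rfl, rfl, rfl⟩
  have hx : (fun t : Co A B C Q => if t.1.2 = 2 then vm t.1.1 w else vm t.1.1 u) ∈ Ker A B C Q := by
    refine mem_filter.2 ⟨mem_univ _, fun ⟨⟨p, τ⟩, ht⟩ => ?_⟩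
    have hp : p ∈ S := by
      simp only [Co, mem_union, mem_product, mem_erase, Nat.mem_primeFactors] at ht
      refine Nat.mem_primeFactors.2 ⟨by tauto, ?_, H.sqf.ne_zero⟩
      rcases ht with e | e | e
      exacts [(e.1.2.1.mul_right _).mul_right _, (e.1.2.2.1.mul_left _).mul_right _,
        e.1.2.1.mul_left _]
    have p1 := hP p hp
    refine (H.sum_co (fun t => Mt A B (p, τ) t * if t.2 = 2 then vm t.1 w else vm t.1 u)
      (fun q => ck τ * (Nn A B q p * vm q u)) (fun q => ci τ * (Nn A B p q * vm q w))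
      (fun q hq => ?_) (fun q => ?_) (fun q => ?_) (fun q hq => ?_) (by simp [h1])
      (by simp [h2])).trans ?_
    · rw [← (h.pA q (Nat.prime_of_mem_primeFactors hq) (Nat.dvd_of_mem_primeFactors hq)).1]
      simp only [Mt, cc, ite_self]
      ring
    · simp only [Mt, cc, show ¬ (1 : Fin 3) = 2 by decide, if_false]
      ring
    · simp only [Mt, cc, if_true]
      ring
    · simp [(h.pC q (Nat.prime_of_mem_primeFactors hq) (Nat.dvd_of_mem_primeFactors hq)).1]
    have n1 : ∑ q ∈ S, Nn A B q p * vm q u = rho A B p * vm p u + Lp p u := by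
      rw [lu p hp, ← nn p hp _ (vm · u) (recip.1 p p1)]
      rfl
    have n2 : ∑ q ∈ S, Nn A B p q * vm q w = rho A B p * vm p w + (ep p * vm p w + Lp p w) := by
      rw [lw p hp, ← add_assoc (ep p * _), CharTwo.add_self_eq_zero, zero_add,
        ← nn p hp (fun q => al q p) (vm · w) (recip.1 p p1)]
      refine sum_congr rfl fun q _ => ?_
      rw [Nn]
      by_cases c : q = p
      · simp [c]
      · simp [c, Ne.symm c]
    rw [sum_add_distrib, ← mul_sum, ← mul_sum, n1, n2]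
    simp only [Co, mem_union, mem_product, mem_erase, Nat.mem_primeFactors, mem_singleton,
      mem_insert] at ht
    have t2 : (2 : ZMod 2) = 0 := rfl
    rcases ht with ⟨e, rfl⟩ | ⟨e, rfl | rfl⟩ | ⟨e, rfl⟩
    · obtain ⟨k1, k2⟩ := h.pA p p1 e.2.1
      rw [← k1]
      simp only [cc]
      linear_combination k2 + (rho A B p * vm p u + ep p * vm p u) * t2
    · have k := (h.pB p p1 e.2.2.1).2
      rw [(H.Lp_AB p1 (e.2.2.1.mul_left _)).1] at k
      simp only [cc]
      linear_combination k + (rho A B p * vm p w + ep p * vm p w) * t2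
    · have k := (h.pB p p1 e.2.2.1).1
      rw [(H.Lp_AB p1 (e.2.2.1.mul_left _)).2] at k
      simp only [cc]
      linear_combination k + rho A B p * vm p u * t2
    · obtain ⟨k1, k2⟩ := h.pC p p1 e.2.1
      simp [cc, k1, k2]
  have h0 := card_le_one.1 hK.le _ hx 0 (mem_filter.2 ⟨mem_univ _, by simp⟩)
  have hz : ∀ q ∈ S, vm q u = 0 ∧ vm q w = 0 := fun q hq => by
    have q1 := hP q hq
    have m : ∀ n : ℕ, q ∣ n → n ∣ A * B * C → q ∈ n.primeFactors := fun n e e' =>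
      Nat.mem_primeFactors.2 ⟨q1, e, ne_zero_of_dvd_ne_zero H.sqf.ne_zero e'⟩
    rcases q1.dvd_mul.1 (Nat.dvd_of_mem_primeFactors hq) with e | e
    rcases q1.dvd_mul.1 e with e | e
    · have := congrFun h0 ⟨(q, 0), by
        simp [Co, m A e ((dvd_mul_right A B).mul_right C), -Nat.mem_primeFactors]⟩
      exact ⟨this, (h.pA q q1 e).1 ▸ this⟩
    · by_cases c : q = Q
      · exact c ▸ ⟨h1, h2⟩
      · have := m B e ((dvd_mul_left B A).mul_right C)
        exact ⟨congrFun h0 ⟨(q, 1), by simp [Co, this, c, -Nat.mem_primeFactors]⟩,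
          congrFun h0 ⟨(q, 2), by simp [Co, this, c, -Nat.mem_primeFactors]⟩⟩
    · exact ⟨(h.pC q q1 e).1, congrFun h0 ⟨(q, 2), by
        simp [Co, m C e (dvd_mul_left _ _), -Nat.mem_primeFactors]⟩⟩
  have em : ∀ c ⊆ S, (∀ q ∈ S, ind c q = 0) → c = ∅ := fun c hc e =>
    eq_empty_of_forall_notMem fun q hq => by simpa [ind, hq] using e q (hc hq)
  rw [em a sa fun q hq => (ka q (hP q hq)).trans (hz q hq).1] at hr
  rw [em b sb fun q hq => (kb q (hP q hq)).trans (hz q hq).2] at hs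
  exact ⟨⟨r, by simpa [dsc, pow_two] using hr⟩, ⟨s, by simpa [pow_two] using hs⟩⟩

end Hy

end Desc

open Desc in
theorem desc : DescS := by
  rintro A B ⟨C, Q, h1, h2, h3, h4, h5⟩ X Y hY h
  have H : Hy A B C := ⟨h1, h2, h3⟩
  have q1 := Nat.prime_of_mem_primeFactors h4
  have q2 := Nat.dvd_of_mem_primeFactors h4
  have P := H.point hY h
  have T1 := H.tor1
  have T2 := H.tor2
  obtain ⟨-, v2, v3⟩ := H.vals q1
  obtain ⟨x1, -, x3⟩ := H.excl q1
  have c1 : ¬ Q ∣ A := fun k => x1 ⟨k, q2⟩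
  have c2 : ¬ Q ∣ C := fun k => x3 ⟨q2, k⟩
  have c3 := H.ne2 ((q2.mul_left _).mul_right _)
  have w0 : vm Q 1 = 0 := by simp [vm]
  have w1 : vm Q (-(A * B : ℚ)) = 1 := by simp [vm, v2, c1, q2]
  have w2 : vm Q (A * B : ℚ) = 1 := by simp [vm, v2, c1, q2]
  have w3 : vm Q (B ^ 2 + A * B : ℚ) = 1 := by simp [vm, v3, c2, c3, q2]
  have z2 : ∀ s : ZMod 2, s = 0 ∨ s = 1 := by decide
  rcases z2 (vm Q X) with a | a <;> rcases z2 (vm Q (X + A * B)) with b | b
  · exact Or.inl (H.main h5 P a b)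
  · have := H.main h5 (T2.mul P) (by rw [vm_mul q1 T2.ne P.ne, w0, a]; rfl)
      (by rw [vm_mul q1 T2.pos.ne' P.pos.ne', w3, b]; rfl)
    rw [one_mul, show (B ^ 2 + A * B : ℚ) = B * (A + B) by ring] at this
    exact Or.inr (Or.inr (Or.inl this))
  · obtain ⟨k1, s, k2⟩ := H.main h5 ((T2.mul T1).mul P)
      (by rw [vm_mul q1 (T2.mul T1).ne P.ne, one_mul, w1, a]; rfl)
      (by rw [vm_mul q1 (T2.mul T1).pos.ne' P.pos.ne', vm_mul q1 T2.pos.ne' T1.pos.ne', w3, w2, b]
          rfl)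
    rw [one_mul] at k1
    refine Or.inr (Or.inr (Or.inr ⟨k1, s / B, ?_⟩))
    have := H.pB.ne'
    field_simp
    linear_combination k2
  · exact Or.inr (Or.inl (H.main h5 (T1.mul P) (by rw [vm_mul q1 T1.ne P.ne, w1, a]; rfl)
      (by rw [vm_mul q1 T1.pos.ne' P.pos.ne', w2, b]; rfl)))

end Pool.Agent.Lib.MP_d6ddbd_nt.L
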