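import Pool.Agent.Lib.MP_d6ddbd_nt.L.St

/-! The Legendre family: the terms with a symbol between two large primes. -/

open Finset Filter

noncomputable section

namespace Pool.Agent.Lib.MP_d6ddbd_nt.L

open MP_f64879_nt (W Mx M0 W_nonneg W_small W_out log_Mx bp)

namespace Ej

theorem W_le (u : ℝ) (n : ℕ) : W u n ≤ 3 * Real.exp (-u) := by
  rcases le_or_gt (n : ℝ) (Real.exp (u - 1)) with a | a
  · rw [W_small a]; positivity
  · refine (div_le_div₀ zero_le_one bp.le_one (Real.exp_pos _) a.le).trans ?_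
    rw [one_div, ← Real.exp_neg, neg_sub, sub_eq_add_neg, Real.exp_add]
    exact mul_le_mul_of_nonneg_right Real.exp_one_lt_three.le (Real.exp_pos _).le

theorem wt_nonneg (s : ℝ) (n : ℕ) : 0 ≤ wt s n := by
  unfold wt
  split_ifs
  · exact mul_nonneg (Real.log_natCast_nonneg n) (W_nonneg s n)
  · exact le_rfl

theorem wt_le {s u : ℝ} (h0 : 0 ≤ s) (h1 : s ≤ u) (n : ℕ) :
    wt s n ≤ 3 * (u + 2) / Real.exp s := by
  have hu : 0 ≤ u + 2 := by linarith
  unfold wt
  split_ifs with hp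
  · by_cases hn : n ∈ range (Mx s)
    · have a1 : Real.log n ≤ u + 2 := by
        refine le_trans (Real.log_le_log (by exact_mod_cast hp.pos) ?_) ((log_Mx h0).trans (by linarith))
        exact_mod_cast (mem_range.1 hn).le
      calc Real.log n * W s n ≤ (u + 2) * (3 * Real.exp (-s)) :=
            mul_le_mul a1 (W_le s n) (W_nonneg s n) hu
        _ = _ := by rw [Real.exp_neg]; ring
    · rw [W_out hn, mul_zero]; positivity
  · positivity

theorem wt_ne {s : ℝ} {n : ℕ} (h : wt s n ≠ 0) : n.Prime ∧ Real.exp (s - 1) < n := by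
  unfold wt at h
  split_ifs at h with hp
  · refine ⟨hp, ?_⟩
    by_contra hc
    exact h (by rw [W_small (not_lt.1 hc), mul_zero])
  · exact absurd rfl h

theorem lt_Mx {s : ℝ} {n : ℕ} (h : n ∈ range (Mx s)) : (n : ℝ) ≤ 3 * Real.exp s := by
  have h1 : n ≤ ⌊Real.exp (s + 1)⌋₊ := Nat.lt_succ_iff.1 (mem_range.1 h)
  have h2 : (n : ℝ) ≤ Real.exp (s + 1) :=
    le_trans (by exact_mod_cast h1) (Nat.floor_le (Real.exp_pos _).le)
  rw [Real.exp_add] at h2
  nlinarith [Real.exp_one_lt_three, Real.exp_pos s]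

theorem Mx_bd {s : ℝ} (h : 0 ≤ s) : Real.exp s ≤ Mx s ∧ (Mx s : ℝ) ≤ 4 * Real.exp s := by
  have e1 : 1 ≤ Real.exp s := Real.one_le_exp h
  constructor
  · have := Nat.lt_floor_add_one (Real.exp (s + 1))
    have h2 : Real.exp s ≤ Real.exp (s + 1) := Real.exp_le_exp.2 (by linarith)
    rw [Mx]; push_cast; linarith
  · have h1 : (⌊Real.exp (s + 1)⌋₊ : ℝ) ≤ Real.exp (s + 1) := Nat.floor_le (Real.exp_pos _).le
    rw [Real.exp_add] at h1
    rw [Mx]; push_cast
    rw [Real.exp_add]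
    nlinarith [Real.exp_one_lt_three]

theorem lg_bd {d : ℕ} (h : 1 ≤ d) :
    Real.exp (lg d) ≤ d ∧ (d : ℝ) ≤ 3 * Real.exp (lg d) ∧ (lg d : ℝ) ≤ Real.log d := by
  have h0 : (0 : ℝ) < d := by exact_mod_cast h
  have h1 : (lg d : ℝ) ≤ Real.log d := Nat.floor_le (Real.log_natCast_nonneg d)
  refine ⟨(Real.le_log_iff_exp_le h0).1 h1, ?_, h1⟩
  have h2 : Real.log d < lg d + 1 := Nat.lt_floor_add_one _
  have h3 := (Real.log_lt_iff_lt_exp h0).1 h2
  rw [Real.exp_add] at h3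
  nlinarith [Real.exp_one_lt_three, Real.exp_pos (lg d : ℝ)]

theorem abs_jac (a : ℤ) (b : ℕ) : |(jacobiSym a b : ℝ)| ≤ 1 := by
  rcases jacobiSym.trichotomy a b with h | h | h <;> simp [h]

theorem jac_swap {ν d1 d2 d3 P Q R : ℕ} (hν : ν % 4 = 1) (hc : d2.Coprime ν)
    (h : 16 * d3 * R = d1 * ν * P + d2 * Q) :
    jacobiSym Q ν = jacobiSym (d2 * d3 : ℕ) ν * jacobiSym R ν := by
  have h1 : jacobiSym ((d2 : ℤ) * Q) ν = jacobiSym ((4 : ℤ) ^ 2 * (d3 * R)) ν := by
    apply jacobiSym.mod_left'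
    have : ((4 : ℤ) ^ 2 * (d3 * R)) = d2 * Q + ν * (d1 * P) := by
      have := congrArg (Nat.cast : ℕ → ℤ) h
      push_cast at this
      linarith
    rw [this, Int.add_mul_emod_self_left]
  have h4 : (4 : ℤ).gcd ν = 1 := by
    have : Nat.Coprime 4 ν := by
      rw [Nat.Coprime, Nat.gcd_comm, Nat.gcd_comm, Nat.gcd_rec, hν]; rfl
    exact this
  have h2 : jacobiSym d2 ν ^ 2 = 1 := jacobiSym.sq_one (by simpa using hc)
  rw [jacobiSym.mul_left, jacobiSym.mul_left, jacobiSym.sq_one' h4, jacobiSym.mul_left] at h1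
  push_cast
  rw [jacobiSym.mul_left]
  calc jacobiSym Q ν = jacobiSym d2 ν ^ 2 * jacobiSym Q ν := by rw [h2, one_mul]
    _ = jacobiSym d2 ν * (jacobiSym d2 ν * jacobiSym Q ν) := by ring
    _ = _ := by rw [h1]; ring

theorem harm (K n : ℕ) : ∑ k ∈ Ioc K n, 1 / (k : ℝ) ≤ 1 + Real.log n := by
  refine le_trans ?_ (harmonic_le_one_add_log n)
  rw [harmonic_eq_sum_Icc]
  push_cast
  simp only [one_div]
  refine sum_le_sum_of_subset_of_nonneg (fun k hk => ?_) fun k _ _ => by positivity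
  rw [mem_Ioc] at hk
  exact mem_Icc.2 ⟨by omega, hk.2⟩

theorem rp {x z t : ℝ} (ht : 0 ≤ t) (hx : Real.exp t ≤ x) (hz : z = x + 1) :
    z ^ (23 / 12 : ℝ) ≤ 4 * x ^ 2 * Real.exp (-(t / 12)) := by
  have e1 : 1 ≤ Real.exp t := Real.one_le_exp ht
  have z0 : 0 < z := by linarith
  have h1 : z ^ (23 / 12 : ℝ) = z ^ 2 * z ^ (-(1 / 12) : ℝ) := by
    rw [← Real.rpow_natCast, ← Real.rpow_add z0]; norm_num
  have h2 : z ^ (-(1 / 12) : ℝ) ≤ Real.exp (-(t / 12)) := by
    calc z ^ (-(1 / 12) : ℝ) ≤ Real.exp t ^ (-(1 / 12) : ℝ) :=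
          Real.rpow_le_rpow_of_nonpos (Real.exp_pos t) (by linarith) (by norm_num)
      _ = _ := by rw [← Real.exp_mul]; congr 1; ring
  have h3 : z ^ 2 ≤ 4 * x ^ 2 := by nlinarith
  rw [h1]
  exact mul_le_mul h3 h2 (Real.rpow_nonneg z0.le _) (by positivity)

theorem second {sN : Finset ℕ} {V : ℕ → ℕ → ℕ → ℝ} {K n Y : ℕ} {A θ l H : ℝ} {D : ℕ → ℝ}
    (hA : 0 ≤ A) (hθ : 0 ≤ θ) (hD : ∀ k ∈ Ioc K n, 0 < D k ∧ (Y + 1 : ℝ) / D k ≤ θ)
    (hV : ∀ k ∈ Ioc K n, ∀ y ≤ Y, ∑ ν ∈ sN, V ν k y ≤ A / k) (hl : 1 + Real.log n ≤ l)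
    (hH : A * (θ + 1) * l ≤ H) :
    ∑ k ∈ Ioc K n, ∑ ν ∈ sN, ((∑ y ∈ range (Y + 1), V ν k y) / D k + V ν k Y) ≤ H := by
  refine le_trans ?_ hH
  calc ∑ k ∈ Ioc K n, ∑ ν ∈ sN, ((∑ y ∈ range (Y + 1), V ν k y) / D k + V ν k Y)
      ≤ ∑ k ∈ Ioc K n, A * (θ + 1) * (1 / (k : ℝ)) := by
        refine sum_le_sum fun k hk => ?_
        obtain ⟨d0, d1⟩ := hD k hk
        rw [sum_add_distrib, ← sum_div, sum_comm]
        have h1 : ∑ y ∈ range (Y + 1), ∑ ν ∈ sN, V ν k y ≤ (Y + 1 : ℝ) * (A / k) := by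
          calc ∑ y ∈ range (Y + 1), ∑ ν ∈ sN, V ν k y ≤ ∑ _y ∈ range (Y + 1), A / k :=
                sum_le_sum fun y hy => hV k hk y (Nat.lt_succ_iff.1 (mem_range.1 hy))
            _ = _ := by simp
        have h2 : 0 ≤ A / k := by positivity
        have h3 : (∑ y ∈ range (Y + 1), ∑ ν ∈ sN, V ν k y) / D k ≤ θ * (A / k) := by
          calc _ ≤ (Y + 1 : ℝ) * (A / k) / D k := div_le_div_of_nonneg_right h1 d0.le
            _ = (Y + 1 : ℝ) / D k * (A / k) := by ring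
            _ ≤ _ := mul_le_mul_of_nonneg_right d1 h2
        have h4 := hV k hk Y le_rfl
        calc _ ≤ θ * (A / k) + A / k := add_le_add h3 h4
          _ = _ := by ring
    _ ≤ A * (θ + 1) * l := by
        rw [← mul_sum]
        exact mul_le_mul_of_nonneg_left ((harm K n).trans hl) (by positivity)

theorem fin_num {u a b q X w T S Br d1 d2 d3 N Y : ℝ} (hu : 2 ≤ u) (ha : 0 < a) (hb : 0 < b)
    (hq : 0 < q) (hX : 0 < X) (h1 : 0 < d1) (h2 : 0 < d2) (h3 : 0 < d3) (hw : 0 ≤ w)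
    (hY0 : 0 ≤ Y) (hS0 : 0 ≤ S)
    (hab : X ≤ a * b * d1) (hqd : X ≤ q * d2) (hN : N ≤ 4 * a) (hY : Y ≤ 4 * X / d3)
    (hS : S ≤ 4 * b * (4 * q) * (3 * (u + 2) / b * (3 * (u + 2) / q)) ^ 2)
    (hBr : Br ≤ N * Y ^ 2 / (d1 * d2) * w)
    (hT : T ^ 2 ≤ (3 * (u + 2) / a * (u + 2)) ^ 2 * (S * Br)) :
    (d3 * T) ^ 2 ≤ 2 * 10 ^ 8 * (u ^ 8 * w) := by
  have b1 : Br ≤ 4 * a * (4 * X / d3) ^ 2 / (d1 * d2) * w := by
    refine hBr.trans ?_
    gcongr
  have b2 : S * Br ≤ (4 * b * (4 * q) * (3 * (u + 2) / b * (3 * (u + 2) / q)) ^ 2) *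
      (4 * a * (4 * X / d3) ^ 2 / (d1 * d2) * w) :=
    (mul_le_mul_of_nonneg_left b1 hS0).trans (mul_le_mul_of_nonneg_right hS (by positivity))
  have b3 : T ^ 2 ≤ (3 * (u + 2) / a * (u + 2)) ^ 2 *
      ((4 * b * (4 * q) * (3 * (u + 2) / b * (3 * (u + 2) / q)) ^ 2) *
      (4 * a * (4 * X / d3) ^ 2 / (d1 * d2) * w)) :=
    hT.trans (mul_le_mul_of_nonneg_left b2 (by positivity))
  have b4 : X / (a * b * d1) ≤ 1 := (div_le_one (by positivity)).2 hab
  have b5 : X / (q * d2) ≤ 1 := (div_le_one (by positivity)).2 hqd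
  have b6 : (u + 2) ^ 8 ≤ (2 * u) ^ 8 := pow_le_pow_left₀ (by linarith) (by linarith) 8
  calc (d3 * T) ^ 2 = d3 ^ 2 * T ^ 2 := by ring
    _ ≤ d3 ^ 2 * _ := mul_le_mul_of_nonneg_left b3 (by positivity)
    _ = 746496 * (u + 2) ^ 8 * w * (X / (a * b * d1)) * (X / (q * d2)) := by
        field_simp; ring
    _ ≤ 746496 * (2 * u) ^ 8 * w * 1 * 1 := by gcongr
    _ ≤ _ := by
        have : 0 ≤ u ^ 8 * w := by positivity
        nlinarith

theorem first_num {a b X E d1 d2 d3 N L Y K n : ℝ} (ha : 0 < a)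
    (h1 : 0 < d1) (h2 : 0 < d2) (h3 : 0 < d3) (hE : 0 < E) (hN0 : 0 ≤ N) (hL0 : 0 ≤ L)
    (hY0 : 0 ≤ Y) (hK0 : 0 ≤ K) (hn : n ≤ N)
    (hab : a * b * d1 ≤ 3 * X) (hN : N ≤ 4 * a) (hL : L ≤ 4 * b) (hY : 3 * X / d3 ≤ Y)
    (hK : K + 1 ≤ 2 * (N / (16 * d3 * E))) :
    100 * n * (K + 1) * (L / d2) * Y ≤ N * Y ^ 2 / (d1 * d2) * (200 / E) := by
  have b1 : N * L * d1 / (16 * d3) ≤ Y := by
    refine le_trans ?_ hY
    rw [div_le_div_iff₀ (by positivity) h3]
    have : N * L ≤ 4 * a * (4 * b) := mul_le_mul hN hL hL0 (by positivity)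
    have h4 : N * L * d1 ≤ 48 * X := by nlinarith
    nlinarith
  calc 100 * n * (K + 1) * (L / d2) * Y ≤ 100 * N * (2 * (N / (16 * d3 * E))) * (L / d2) * Y := by
        gcongr
    _ = N * (Y * (N * L * d1 / (16 * d3))) / (d1 * d2) * (200 / E) := by field_simp; ring
    _ ≤ N * (Y * Y) / (d1 * d2) * (200 / E) := by gcongr
    _ = _ := by ring

theorem ev (C : ℝ) : ∀ᶠ u : ℝ in atTop, C * (u ^ 9 * Real.exp (-(11 / 1000 * u))) ≤ 1 := by
  have h := tendsto_rpow_mul_exp_neg_mul_atTop_nhds_zero (9 : ℕ) (11 / 1000) (by norm_num)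
  have h2 := h.const_mul C
  rw [mul_zero] at h2
  filter_upwards [h2.eventually (ge_mem_nhds zero_lt_one)] with u hu
  simpa [Real.rpow_natCast] using hu

theorem ex_ge {t : ℝ} (c : ℝ) (h : c - 1 ≤ t) : c ≤ Real.exp t := by
  linarith [Real.add_one_le_exp t]

theorem core (hL : LdS) (hJ : JbS) : ∀ᶠ u : ℝ in atTop, ∀ d ∈ Tri u, ∀ s1 s2 : ℝ,
    7 / 20 * u ≤ s1 → s1 ≤ 13 / 20 * u → 7 / 20 * u ≤ s2 → s1 + s2 = u - lg d.1 →
    ∀ (γ0 : ℕ → ℝ) (β0 : ℕ → ℕ → ℝ), (∀ ν, |γ0 ν| ≤ 1) → (∀ ν, γ0 ν ≠ 0 → ν % 4 = 1) →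
      (∀ P Q, |β0 P Q| ≤ 1) →
      |∑ ν ∈ range (Mx s1), ∑ P ∈ range (Mx s2), ∑ Q ∈ range (Mx (sQ u d)),
        wt s1 ν * wt s2 P * wt (sQ u d) Q * (γ0 ν * β0 P Q * jacobiSym Q ν) * Rw th d ν P Q| ≤
        Real.exp (-u / 1000) / d.2.2 := by
  obtain ⟨C, hC, hJ⟩ := hJ
  filter_upwards [ev (2 * 10 ^ 8 * (200 + 32400 * C)), eventually_ge_atTop 2000] with u hev hu
  rintro ⟨d1, d2, d3⟩ hd s1 s2 p1 p2 p3 p4 γ0 β0 g1 g2 g3
  simp only [Tri, mem_filter, mem_product, mem_Icc, pr] at hd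
  obtain ⟨⟨⟨a1, -⟩, ⟨a2, -⟩, a3, -⟩, hsq, hodd, hm, -⟩ := hd
  obtain ⟨s3, hs3⟩ : ∃ s3, s3 = sQ u (d1, d2, d3) := ⟨_, rfl⟩
  rw [← hs3]
  have p5 : s3 = u - lg d2 := hs3
  change s1 + s2 = u - lg d1 at p4
  change _ ≤ Real.exp (-u / 1000) / d3
  have r1 : (1 : ℝ) ≤ d1 := by exact_mod_cast a1
  have r2 : (1 : ℝ) ≤ d2 := by exact_mod_cast a2
  have r3 : (1 : ℝ) ≤ d3 := by exact_mod_cast a3
  have hmR : (d1 : ℝ) * d2 * d3 ≤ Real.exp (u / 200) :=
    le_trans (by exact_mod_cast hm) (Nat.floor_le (Real.exp_pos _).le)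
  have m1 : (d1 : ℝ) ≤ Real.exp (u / 200) := by
    refine le_trans ?_ hmR
    rw [mul_assoc]; exact le_mul_of_one_le_right (by positivity) (one_le_mul_of_one_le_of_one_le r2 r3)
  have m2 : (d2 : ℝ) ≤ Real.exp (u / 200) := by
    refine le_trans ?_ hmR
    rw [mul_comm (d1 : ℝ), mul_assoc]
    exact le_mul_of_one_le_right (by positivity) (one_le_mul_of_one_le_of_one_le r1 r3)
  have m3 : (d3 : ℝ) ≤ Real.exp (u / 200) := by
    refine le_trans ?_ hmR
    exact le_mul_of_one_le_left (by positivity) (one_le_mul_of_one_le_of_one_le r1 r2)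
  obtain ⟨l11, l12, l13⟩ := lg_bd a1
  obtain ⟨l21, l22, l23⟩ := lg_bd a2
  have l24 : (lg d2 : ℝ) ≤ u / 200 := l23.trans ((Real.log_le_iff_le_exp (by linarith)).2 m2)
  have l0 : (0 : ℝ) ≤ lg d1 := Nat.cast_nonneg _
  have l0' : (0 : ℝ) ≤ lg d2 := Nat.cast_nonneg _
  have big : ∀ (s : ℝ) (n : ℕ), 7 / 20 * u ≤ s → wt s n ≠ 0 → 32 * Real.exp (u / 200) < n := by
    intro s n hs hn
    refine lt_of_le_of_lt ?_ (wt_ne hn).2
    rw [show s - 1 = (s - 1 - u / 200) + u / 200 by ring, Real.exp_add]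
    exact mul_le_mul_of_nonneg_right (ex_ge 32 (by linarith)) (Real.exp_pos _).le
  have cop : ∀ (n k : ℕ), n.Prime → 1 ≤ k → (k : ℝ) < n → k.Coprime n := fun n k hn h1 h2 =>
    ((Nat.coprime_of_lt_prime (by omega) (by exact_mod_cast h2) hn)).symm
  have e200 := Real.exp_pos (u / 200)
  obtain ⟨N1, N2⟩ := Mx_bd (s := s1) (by linarith)
  obtain ⟨L1, L2⟩ := Mx_bd (s := s2) (by linarith)
  obtain ⟨-, Q2⟩ := Mx_bd (s := s3) (by linarith)
  have w1 := wt_le (s := s1) (u := u) (by linarith) (by linarith)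
  have w2 := wt_le (s := s2) (u := u) (by linarith) (by linarith)
  have w3 := wt_le (s := s3) (u := u) (by linarith) (by linarith)
  have x1 : Real.exp s1 * Real.exp s2 * Real.exp (lg d1) = Real.exp u := by
    rw [← Real.exp_add, ← Real.exp_add]; congr 1; linarith
  have x2 : Real.exp s3 * Real.exp (lg d2) = Real.exp u := by
    rw [← Real.exp_add]; congr 1; linarith
  have ha := Real.exp_pos s1
  have hb := Real.exp_pos s2
  have hq := Real.exp_pos s3
  have hX := Real.exp_pos u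
  have hab : Real.exp u ≤ Real.exp s1 * Real.exp s2 * d1 := by rw [← x1]; gcongr
  have hab' : Real.exp s1 * Real.exp s2 * d1 ≤ 3 * Real.exp u := by
    rw [← x1]
    calc _ ≤ Real.exp s1 * Real.exp s2 * (3 * Real.exp (lg d1)) := by gcongr
      _ = _ := by ring
  have hqd : Real.exp u ≤ Real.exp s3 * d2 := by rw [← x2]; gcongr
  have hqd' : Real.exp s3 * d2 ≤ 3 * Real.exp u := by
    rw [← x2]
    calc _ ≤ Real.exp s3 * (3 * Real.exp (lg d2)) := by gcongr
      _ = _ := by ring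
  obtain ⟨Y, hYd⟩ : ∃ Y : ℕ, Y = ⌈3 * Real.exp u / d3⌉₊ := ⟨_, rfl⟩
  have hX3 : 1 ≤ Real.exp u / d3 :=
    (one_le_div (by linarith)).2 (m3.trans (Real.exp_le_exp.2 (by linarith)))
  have Y1 : 3 * Real.exp u / d3 ≤ Y := by rw [hYd]; exact Nat.le_ceil _
  have Y2 : (Y : ℝ) ≤ 4 * Real.exp u / d3 := by
    have := Nat.ceil_lt_add_one (show 0 ≤ 3 * Real.exp u / d3 by positivity)
    rw [← hYd, mul_div_assoc] at this
    rw [mul_div_assoc]; linarith
  have Y3 : (Y : ℝ) ≤ 4 * Real.exp u := Y2.trans (div_le_self (by positivity) r3)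
  have hu2 : 0 < u + 2 := by linarith
  obtain ⟨aR, haR⟩ : ∃ aR : ℕ → ℝ, aR = fun R => if 2 < R ∧ R < Y then th R / (u + 2) else 0 :=
    ⟨_, rfl⟩
  have A1 : ∀ R, |aR R| ≤ 1 := by
    intro R
    rw [haR]
    dsimp only
    split_ifs with h
    · have h0 : 0 ≤ th R := by
        unfold th; split_ifs
        · exact Real.log_natCast_nonneg R
        · exact le_rfl
      have h1 : th R ≤ u + 2 := by
        unfold th; split_ifs with hp
        · rw [Real.log_le_iff_le_exp (by exact_mod_cast hp.pos),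
            show u + 2 = u + 1 + 1 by ring, Real.exp_add, Real.exp_add]
          have h2 : (R : ℝ) ≤ Y := by exact_mod_cast h.2.le
          have h3 := ex_ge (t := 1) 2 (by norm_num)
          have h4 : Real.exp u * 2 * 2 ≤ Real.exp u * Real.exp 1 * Real.exp 1 := by gcongr
          linarith
        · linarith
      rw [abs_of_nonneg (by positivity)]
      exact (div_le_one hu2).2 h1
    · simp
  have A2 : ∀ R, aR R ≠ 0 → R.Prime ∧ R ≠ 2 := by
    intro R hR
    rw [haR] at hR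
    dsimp only at hR
    split_ifs at hR with h
    · refine ⟨?_, by omega⟩
      by_contra hp
      exact hR (by rw [th, if_neg hp, zero_div])
    · exact absurd rfl hR
  obtain ⟨E, hEd⟩ : ∃ E, E = Real.exp (u / 70) := ⟨_, rfl⟩
  have hE : 0 < E := by rw [hEd]; exact Real.exp_pos _
  have hE1 : 1 ≤ E := by rw [hEd]; exact Real.one_le_exp (by linarith)
  obtain ⟨K, hKd⟩ : ∃ K : ℕ, K = ⌊(Mx s1 : ℝ) / (16 * d3 * E)⌋₊ := ⟨_, rfl⟩
  have K0 : 1 ≤ (Mx s1 : ℝ) / (16 * d3 * E) := by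
    rw [one_le_div (by positivity)]
    refine le_trans ?_ N1
    rw [show s1 = (s1 - u / 200 - u / 70) + u / 200 + u / 70 by ring, Real.exp_add, Real.exp_add,
      ← hEd]
    have := ex_ge (t := s1 - u / 200 - u / 70) 16 (by linarith)
    gcongr
  have K1 : (K : ℝ) + 1 ≤ 2 * ((Mx s1 : ℝ) / (16 * d3 * E)) := by
    have : (K : ℝ) ≤ (Mx s1 : ℝ) / (16 * d3 * E) := by rw [hKd]; exact Nat.floor_le (by positivity)
    linarith
  have K2 : (Mx s1 : ℝ) / (16 * d3 * E) < K + 1 := by rw [hKd]; exact Nat.lt_floor_add_one _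
  have sz : ∀ ν ∈ range (Mx s1), ∀ P ∈ range (Mx s2), ∀ Q ∈ range (Mx s3),
      d1 * ν * P + d2 * Q < 16 * d3 * Y := by
    intro ν hν P hP Q hQ
    have b1 := lt_Mx hν
    have b2 := lt_Mx hP
    have b3 := lt_Mx hQ
    have b4 : (d1 : ℝ) * ν * P ≤ d1 * (3 * Real.exp s1) * (3 * Real.exp s2) := by gcongr
    have b5 : (d2 : ℝ) * Q ≤ d2 * (3 * Real.exp s3) := by gcongr
    have b6 : 3 * Real.exp u ≤ Y * d3 := (div_le_iff₀ (by linarith)).1 Y1
    have : (d1 : ℝ) * ν * P + d2 * Q < 16 * d3 * Y := by nlinarith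
    exact_mod_cast this
  have c12 : d1.Coprime d2 := Nat.coprime_of_squarefree_mul hsq.of_mul_left
  have c13 : d1.Coprime d3 :=
    (Nat.coprime_of_squarefree_mul hsq).coprime_mul_right
  have c1 : d1.Coprime 16 := by
    have : Odd d1 := (Nat.odd_mul.1 (Nat.odd_mul.1 hodd).1).1
    exact (Nat.coprime_two_right.2 this).pow_right 4
  have hB : 0 < 3 * (u + 2) / Real.exp s1 := by positivity
  have key := hL (16 * d3) d1 d2 (Mx s2) (Mx s1) K Y
    ((range (Mx s1)).filter fun ν => wt s1 ν ≠ 0 ∧ ν % 4 = 1)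
    ((range (Mx s2)).filter fun P => wt s2 P ≠ 0) (range (Mx s3))
    (fun P Q => wt s2 P * wt s3 Q * β0 P Q)
    (fun ν => wt s1 ν * γ0 ν * jacobiSym (d2 * d3 : ℕ) ν / (3 * (u + 2) / Real.exp s1))
    (fun ν R => aR R * jacobiSym R ν) Y (by omega) a1 a2
    (by
      have : (d2 : ℝ) ≤ Mx s2 := m2.trans ((Real.exp_le_exp.2 (by linarith)).trans L1)
      exact_mod_cast this)
    (by
      intro ν hν
      rw [mem_filter] at hν
      obtain ⟨h1, h2, -⟩ := hν
      have h3 := big s1 ν p1 h2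
      refine ⟨(mem_range.1 h1).le, c12.mul_left (cop ν d2 (wt_ne h2).1 a2 (by linarith)).symm, ?_, ?_⟩
      · rw [abs_div, abs_of_pos hB, div_le_one hB, abs_mul, abs_mul, abs_of_nonneg (wt_nonneg _ _)]
        calc _ ≤ 3 * (u + 2) / Real.exp s1 * 1 * 1 := by
              gcongr
              exacts [w1 ν, g1 ν, abs_jac _ _]
          _ = _ := by ring
      · calc _ ≤ ∑ _R ∈ range Y, (1 : ℝ) := by
              refine sum_le_sum fun R _ => ?_
              rw [sq_le_one_iff_abs_le_one, abs_mul]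
              exact mul_le_one₀ (A1 R) (abs_nonneg _) (abs_jac _ _)
          _ = _ := by simp)
    (by
      intro P hP
      rw [mem_filter] at hP
      have h3 := big s2 P p3 hP.2
      refine ⟨(mem_range.1 hP.1).le, (c1.mul_right c13).mul_left
        (cop P (16 * d3) (wt_ne hP.2).1 (by omega) (by push_cast; linarith)).symm⟩)
    (fun ν hν P hP Q hQ => sz ν (mem_filter.1 hν).1 P (mem_filter.1 hP).1 Q hQ)
  have hT : ∑ ν ∈ range (Mx s1), ∑ P ∈ range (Mx s2), ∑ Q ∈ range (Mx s3),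
      wt s1 ν * wt s2 P * wt s3 Q * (γ0 ν * β0 P Q * jacobiSym Q ν) * Rw th (d1, d2, d3) ν P Q =
      (3 * (u + 2) / Real.exp s1 * (u + 2)) *
      ∑ P ∈ (range (Mx s2)).filter fun P => wt s2 P ≠ 0, ∑ Q ∈ range (Mx s3),
        wt s2 P * wt s3 Q * β0 P Q *
        ∑ ν ∈ (range (Mx s1)).filter fun ν => wt s1 ν ≠ 0 ∧ ν % 4 = 1,
          wt s1 ν * γ0 ν * jacobiSym (d2 * d3 : ℕ) ν / (3 * (u + 2) / Real.exp s1) *
          if 16 * d3 ∣ d1 * ν * P + d2 * Q then
            aR ((d1 * ν * P + d2 * Q) / (16 * d3)) *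
              jacobiSym ((d1 * ν * P + d2 * Q) / (16 * d3) : ℕ) ν else 0 := by
    rw [sum_comm, mul_sum, sum_filter]
    refine sum_congr rfl fun P hP => ?_
    split_ifs with hP0
    swap
    · rw [not_not] at hP0
      simp [hP0]
    rw [sum_comm, mul_sum]
    refine sum_congr rfl fun Q hQ => ?_
    rw [mul_sum, mul_sum, sum_filter]
    refine sum_congr rfl fun ν hν => ?_
    by_cases hν0 : wt s1 ν ≠ 0 ∧ ν % 4 = 1
    swap
    · rw [if_neg hν0]
      by_cases h1 : wt s1 ν = 0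
      · simp [h1]
      · have : γ0 ν = 0 := by
          by_contra h2
          exact hν0 ⟨h1, g2 ν h2⟩
        simp [this]
    rw [if_pos hν0]
    by_cases hQ0 : wt s3 Q = 0
    · simp [hQ0]
    unfold Rw
    dsimp only
    split_ifs with hdv
    swap
    · simp
    obtain ⟨R, hR⟩ := hdv
    have hR' : (d1 * ν * P + d2 * Q) / (16 * d3) = R := by
      rw [hR]; exact Nat.mul_div_cancel_left R (by omega)
    rw [hR']
    have h1 : R < Y := by
      have := sz ν hν P hP Q hQ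
      rw [hR] at this
      exact Nat.lt_of_mul_lt_mul_left this
    have h2 : 2 < R := by
      have b1 := big s3 Q (by linarith) hQ0
      have b2 : 32 * d3 < Q := by
        have : (32 * d3 : ℝ) < Q := by linarith
        exact_mod_cast this
      have b3 : Q ≤ d2 * Q := Nat.le_mul_of_pos_left Q a2
      by_contra hc
      have : 16 * d3 * R ≤ 16 * d3 * 2 := Nat.mul_le_mul_left _ (not_lt.1 hc)
      omega
    have h3 : aR R = th R / (u + 2) := by rw [haR]; exact if_pos ⟨h2, h1⟩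
    have h4 := big s1 ν p1 hν0.1
    rw [h3, jac_swap hν0.2 (cop ν d2 (wt_ne hν0.1).1 a2 (by linarith)) hR.symm]
    push_cast
    field_simp
  have hS : ∑ P ∈ (range (Mx s2)).filter fun P => wt s2 P ≠ 0, ∑ Q ∈ range (Mx s3),
      (wt s2 P * wt s3 Q * β0 P Q) ^ 2 ≤ 4 * Real.exp s2 * (4 * Real.exp s3) *
        (3 * (u + 2) / Real.exp s2 * (3 * (u + 2) / Real.exp s3)) ^ 2 := by
    calc _ ≤ ∑ P ∈ range (Mx s2), ∑ Q ∈ range (Mx s3), (wt s2 P * wt s3 Q * β0 P Q) ^ 2 :=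
          sum_le_sum_of_subset_of_nonneg (filter_subset _ _) fun P _ _ =>
            sum_nonneg fun Q _ => sq_nonneg _
      _ ≤ ∑ _P ∈ range (Mx s2), ∑ _Q ∈ range (Mx s3),
            (3 * (u + 2) / Real.exp s2 * (3 * (u + 2) / Real.exp s3)) ^ 2 := by
          refine sum_le_sum fun P _ => sum_le_sum fun Q _ => ?_
          rw [← sq_abs]
          refine pow_le_pow_left₀ (abs_nonneg _) ?_ 2
          rw [abs_mul, abs_mul, abs_of_nonneg (wt_nonneg _ _), abs_of_nonneg (wt_nonneg _ _)]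
          calc _ ≤ 3 * (u + 2) / Real.exp s2 * (3 * (u + 2) / Real.exp s3) * 1 := by
                have := wt_nonneg s3 Q
                gcongr
                exacts [w2 P, w3 Q, g3 P Q]
            _ = _ := mul_one _
      _ = Mx s2 * (Mx s3 * (3 * (u + 2) / Real.exp s2 * (3 * (u + 2) / Real.exp s3)) ^ 2) := by
          simp
      _ ≤ 4 * Real.exp s2 * (4 * Real.exp s3 *
            (3 * (u + 2) / Real.exp s2 * (3 * (u + 2) / Real.exp s3)) ^ 2) := by gcongr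
      _ = _ := by ring
  obtain ⟨δ, hδ⟩ : ∃ δ, δ = Real.exp (-(33 / 100 * u / 12)) := ⟨_, rfl⟩
  obtain ⟨ε, hε⟩ : ∃ ε, ε = Real.exp (-(13 / 1000 * u)) := ⟨_, rfl⟩
  have δ0 : 0 < δ := by rw [hδ]; exact Real.exp_pos _
  have ε0 : 0 < ε := by rw [hε]; exact Real.exp_pos _
  have δ1 : δ * E ≤ ε := by
    rw [hδ, hEd, hε, ← Real.exp_add]; exact Real.exp_le_exp.2 (by linarith)
  have δ2 : 1 / E ≤ ε := by
    rw [hEd, hε, one_div, ← Real.exp_neg]; exact Real.exp_le_exp.2 (by linarith)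
  have hN0 : (0 : ℝ) < Mx s1 := ha.trans_le N1
  have hL0 : (0 : ℝ) < Mx s2 := hb.trans_le L1
  have hY6 : Y ^ 2 ≤ Mx s1 ^ 6 := by
    have b1 : (Y : ℝ) ^ 2 ≤ (4 * Real.exp u) ^ 2 := by gcongr
    have b2 : Real.exp s1 ^ 6 ≤ (Mx s1 : ℝ) ^ 6 := by gcongr
    have b3 : (4 * Real.exp u) ^ 2 ≤ Real.exp s1 ^ 6 := by
      rw [← Real.exp_nat_mul, mul_pow, ← Real.exp_nat_mul,
        show ((6 : ℕ) : ℝ) * s1 = (6 * s1 - 2 * u) + (2 : ℕ) * u by push_cast; ring, Real.exp_add]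
      exact mul_le_mul_of_nonneg_right (ex_ge _ (by linarith)) (Real.exp_pos _).le
    exact_mod_cast b1.trans (b3.trans b2)
  have sec := second (sN := (range (Mx s1)).filter fun ν => wt s1 ν ≠ 0 ∧ ν % 4 = 1)
    (V := fun ν k y => Var (fun R => aR R * jacobiSym R ν) (d1 * d2 * k) y) (K := K)
    (n := Mx s1 / (16 * d3)) (Y := Y) (A := 4 * C * Mx s1 * Y ^ 2 * δ / (d1 * d2)) (θ := 80 * E)
    (l := u) (H := Mx s1 * Y ^ 2 / (d1 * d2) * (324 * C * (u * ε)))
    (D := fun k => (Mx s2 : ℝ) * d1 * k) (by positivity) (by positivity)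
    (by
      intro k hk
      rw [mem_Ioc] at hk
      have k1 : (K : ℝ) + 1 ≤ k := by exact_mod_cast hk.1
      have k0 : (0 : ℝ) < k := by linarith [(Nat.cast_nonneg K : (0 : ℝ) ≤ K)]
      refine ⟨by positivity, ?_⟩
      rw [div_le_iff₀ (by positivity)]
      have b1 : (Mx s1 : ℝ) ≤ k * (16 * d3 * E) := (div_le_iff₀ (by positivity)).1 (by linarith)
      have b2 : (Y + 1 : ℝ) ≤ 5 * (Real.exp u / d3) := by rw [mul_div_assoc] at Y2; linarith
      have b3 : Real.exp u ≤ k * (16 * d3 * E) * Mx s2 * d1 := by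
        refine hab.trans ?_
        gcongr
        exact N1.trans b1
      have b4 : Real.exp u / d3 ≤ k * (16 * E) * Mx s2 * d1 := by
        rw [div_le_iff₀ (by linarith)]; linarith
      linarith)
    (by
      intro k hk y hy
      rw [mem_Ioc] at hk
      have k1 : 1 ≤ k := by omega
      have k0 : (1 : ℝ) ≤ k := by exact_mod_cast k1
      have k2 : (k : ℝ) ≤ 4 * Real.exp s1 := by
        refine le_trans ?_ N2
        exact_mod_cast hk.2.trans (Nat.div_le_self _ _)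
      have hr : 1 ≤ d1 * d2 * k := Nat.mul_pos (Nat.mul_pos a1 a2) k1
      refine (hJ Y y (d1 * d2 * k) (Mx s1) _ aR hr hy hY6 (fun ν hν => ?_) A1 A2).trans ?_
      · rw [mem_filter] at hν
        exact ⟨(wt_ne hν.2.1).1, hν.2.2, (mem_range.1 hν.1).le⟩
      have b1 : Real.exp (33 / 100 * u) ≤ (Y : ℝ) / (d1 * d2 * k : ℕ) := by
        push_cast
        rw [le_div_iff₀ (by positivity)]
        refine le_trans ?_ Y1
        rw [le_div_iff₀ (by positivity)]
        have b2 : Real.exp s1 ≤ Real.exp (13 / 20 * u) := Real.exp_le_exp.2 p2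
        have b3 : Real.exp u = Real.exp (3 / 200 * u) * (Real.exp (33 / 100 * u) *
            (Real.exp (u / 200) * Real.exp (13 / 20 * u))) := by
          rw [← Real.exp_add, ← Real.exp_add, ← Real.exp_add]; congr 1; ring
        have b4 := ex_ge (t := 3 / 200 * u) 2 (by linarith)
        calc Real.exp (33 / 100 * u) * (d1 * d2 * k) * d3
            = Real.exp (33 / 100 * u) * ((d1 * d2 * d3) * k) := by ring
          _ ≤ Real.exp (33 / 100 * u) * (Real.exp (u / 200) * (4 * Real.exp (13 / 20 * u))) := by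
              gcongr
              linarith
          _ = 2 * (2 * (Real.exp (33 / 100 * u) *
              (Real.exp (u / 200) * Real.exp (13 / 20 * u)))) := by ring
          _ ≤ 3 * (Real.exp (3 / 200 * u) * (Real.exp (33 / 100 * u) *
              (Real.exp (u / 200) * Real.exp (13 / 20 * u)))) := by
              gcongr
              norm_num
          _ = _ := by rw [← b3]
      have b5 := rp (by linarith) b1 rfl
      rw [← hδ] at b5
      calc _ ≤ C * (d1 * d2 * k : ℕ) * Mx s1 * (4 * ((Y : ℝ) / (d1 * d2 * k : ℕ)) ^ 2 * δ) := by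
            gcongr
        _ = _ := by push_cast; field_simp)
    (by
      have b1 : Real.log (Mx s1 / (16 * d3) : ℕ) ≤ Real.log (Mx s1) := by
        rcases Nat.eq_zero_or_pos (Mx s1 / (16 * d3)) with h | h
        · rw [h]; simpa using Real.log_natCast_nonneg _
        · exact Real.log_le_log (by exact_mod_cast h) (by exact_mod_cast Nat.div_le_self _ _)
      linarith [log_Mx (u := s1) (by linarith)])
    (by
      calc 4 * C * Mx s1 * Y ^ 2 * δ / (d1 * d2) * (80 * E + 1) * u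
          ≤ 4 * C * Mx s1 * Y ^ 2 * δ / (d1 * d2) * (81 * E) * u := by
            gcongr
            linarith
        _ = Mx s1 * Y ^ 2 / (d1 * d2) * (324 * C * (u * (δ * E))) := by ring
        _ ≤ _ := by gcongr)
  have fst := first_num (K := (K : ℝ))
    (n := (((range (Mx s1)).filter fun ν => wt s1 ν ≠ 0 ∧ ν % 4 = 1).card : ℝ)) ha
    (by linarith : (0 : ℝ) < d1) (by linarith : (0 : ℝ) < d2) (by linarith : (0 : ℝ) < d3) hE
    hN0.le hL0.le (Nat.cast_nonneg Y) (Nat.cast_nonneg K)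
    (by exact_mod_cast (card_filter_le _ _).trans (card_range _).le) hab' N2 L2 Y1 K1
  have fin := fin_num (w := (200 + 32400 * C) * (u * ε)) (by linarith : 2 ≤ u) ha hb hq hX
    (by linarith : (0 : ℝ) < d1) (by linarith : (0 : ℝ) < d2) (by linarith : (0 : ℝ) < d3)
    (by positivity) (Nat.cast_nonneg Y)
    (sum_nonneg fun P _ => sum_nonneg fun Q _ => sq_nonneg _) hab hqd N2 Y2 hS
    (le_trans (add_le_add fst (mul_le_mul_of_nonneg_left sec (by norm_num : (0 : ℝ) ≤ 100))) (by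
      have b1 : 200 / E ≤ 200 * (u * ε) := by
        rw [div_eq_mul_one_div]
        have : ε ≤ u * ε := le_mul_of_one_le_left ε0.le (by linarith)
        linarith
      have b2 : (0 : ℝ) ≤ Mx s1 * Y ^ 2 / (d1 * d2) := by positivity
      have b3 := mul_le_mul_of_nonneg_left b1 b2
      linarith))
    ((mul_pow _ _ 2).trans_le (mul_le_mul_of_nonneg_left key (sq_nonneg _)))
  rw [hT, le_div_iff₀ (by linarith), mul_comm, ← abs_of_pos (by linarith : (0 : ℝ) < d3), ← abs_mul]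
  refine abs_le_of_sq_le_sq (fin.trans ?_) (Real.exp_pos _).le
  have b1 : ε = Real.exp (-(11 / 1000 * u)) * Real.exp (-u / 1000) ^ 2 := by
    rw [hε, ← Real.exp_nat_mul, ← Real.exp_add]; congr 1; push_cast; ring
  calc 2 * 10 ^ 8 * (u ^ 8 * ((200 + 32400 * C) * (u * ε)))
      = 2 * 10 ^ 8 * (200 + 32400 * C) * (u ^ 9 * Real.exp (-(11 / 1000 * u))) *
        Real.exp (-u / 1000) ^ 2 := by rw [b1]; ring
    _ ≤ 1 * Real.exp (-u / 1000) ^ 2 := by gcongr
    _ = _ := one_mul _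

end Ej

theorem ej : EjR := by
  intro hL hJ
  filter_upwards [Ej.core hL hJ, eventually_ge_atTop 0] with u h hu j hj d hd x y z e e' he
  have j1 : 7 / 20 * u ≤ j := Nat.ceil_le.1 (mem_Icc.1 hj).1
  have j2 : (j : ℝ) ≤ 2 / 5 * u :=
    le_trans (by exact_mod_cast (mem_Icc.1 hj).2) (Nat.floor_le (by linarith))
  have l0 : (0 : ℝ) ≤ lg d.1 := Nat.cast_nonneg _
  have l1 : (lg d.1 : ℝ) ≤ u / 200 := by
    have hd' := hd
    simp only [Tri, mem_filter, mem_product, mem_Icc] at hd'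
    obtain ⟨⟨⟨a1, a2⟩, -⟩, -⟩ := hd'
    refine (Ej.lg_bd a1).2.2.trans ((Real.log_le_iff_le_exp (by exact_mod_cast a1)).2 ?_)
    exact le_trans (by exact_mod_cast a2) (Nat.floor_le (Real.exp_pos _).le)
  have ab := Ej.abs_jac
  cases e with
  | true =>
    have := h d hd j (sP u j d) j1 (by linarith) (by unfold sP; linarith) (by unfold sP; ring)
      (fun n => if n % 4 = 1 then (jacobiSym n y : ℝ) else 0)
      (fun P Q => if P % 4 = 1 then (jacobiSym Q x : ℝ) * jacobiSym P z *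
        (if e' then (jacobiSym Q P : ℝ) else 1) else 0)
      (fun n => by split_ifs; exacts [ab _ _, by simp])
      (fun n hn => by by_contra hc; exact hn (if_neg hc))
      (fun P Q => by
        split_ifs
        · rw [abs_mul, abs_mul]
          exact mul_le_one₀ (mul_le_one₀ (ab _ _) (abs_nonneg _) (ab _ _)) (abs_nonneg _) (ab _ _)
        · rw [mul_one, abs_mul]; exact mul_le_one₀ (ab _ _) (abs_nonneg _) (ab _ _)
        · simp)
    convert this using 2
    unfold TT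
    refine sum_congr rfl fun n _ => sum_congr rfl fun P _ => sum_congr rfl fun Q _ => ?_
    congr 2
    unfold chi
    by_cases h1 : n % 4 = 1 <;> by_cases h2 : P % 4 = 1 <;> cases e' <;> simp [h1, h2] <;> ring_nf <;> simp
  | false =>
    obtain rfl : e' = true := by simpa using he
    have := h d hd (sP u j d) j (by unfold sP; linarith) (by unfold sP; linarith) j1
      (by unfold sP; ring)
      (fun P => if P % 4 = 1 then (jacobiSym P z : ℝ) else 0)
      (fun n Q => if n % 4 = 1 then (jacobiSym Q x : ℝ) * jacobiSym n y else 0)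
      (fun n => by split_ifs; exacts [ab _ _, by simp])
      (fun n hn => by by_contra hc; exact hn (if_neg hc))
      (fun P Q => by
        split_ifs
        · rw [abs_mul]; exact mul_le_one₀ (ab _ _) (abs_nonneg _) (ab _ _)
        · simp)
    convert this using 2
    unfold TT
    rw [sum_comm]
    refine sum_congr rfl fun P _ => sum_congr rfl fun n _ => sum_congr rfl fun Q _ => ?_
    have e1 : Rw th d n P Q = Rw th d P n Q := by unfold Rw; rw [mul_right_comm]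
    rw [e1, mul_comm (wt j n)]
    congr 2
    unfold chi
    by_cases h1 : n % 4 = 1 <;> by_cases h2 : P % 4 = 1 <;> simp [h1, h2] <;> ring_nf <;> simp

end Pool.Agent.Lib.MP_d6ddbd_nt.L
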