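import Pool.Agent.Lib.MP_d6ddbd_nt.L.St

/-! The primes `R` may be replaced by the model. -/

open Finset Filter

noncomputable section

namespace Pool.Agent.Lib.MP_d6ddbd_nt.L

open MP_f64879_nt (W Mx M0 W_small W_nonneg bp)

namespace En

lemma mx_le {s : ℝ} {n : ℕ} (h : n ∈ range (Mx s)) : (n : ℝ) ≤ Real.exp s * 3 :=
  ((Nat.cast_le.2 (Nat.lt_succ_iff.1 (mem_range.1 h))).trans
    (Nat.floor_le (Real.exp_pos _).le)).trans (by
      rw [Real.exp_add]
      exact mul_le_mul_of_nonneg_left Real.exp_one_lt_three.le (Real.exp_pos _).le)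

lemma mx_bd {s : ℝ} (hs : 0 ≤ s) : Real.exp s ≤ Mx s ∧ (Mx s : ℝ) ≤ 4 * Real.exp s := by
  have h1 := Nat.lt_floor_add_one (Real.exp (s + 1))
  have h2 := Nat.floor_le (Real.exp_pos (s + 1)).le
  have h3 : Real.exp s ≤ Real.exp (s + 1) := Real.exp_le_exp.2 (by linarith)
  have h4 : Real.exp (s + 1) ≤ Real.exp s * 3 := by
    rw [Real.exp_add]
    exact mul_le_mul_of_nonneg_left Real.exp_one_lt_three.le (Real.exp_pos _).le
  have h5 := Real.one_le_exp hs
  rw [Mx, Nat.cast_add_one]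
  constructor <;> linarith

lemma wt_ne {s : ℝ} {n : ℕ} (h : wt s n ≠ 0) : n.Prime ∧ Real.exp (s - 1) < n := by
  unfold wt at h
  split_ifs at h with hp
  · exact ⟨hp, not_le.1 fun a => h (by rw [W_small a, mul_zero])⟩
  · exact absurd rfl h

lemma wt_bd {s u : ℝ} (hu : s ≤ u) (h1 : 2 ≤ u) {n : ℕ} (h : n ∈ range (Mx s)) :
    |wt s n| ≤ 6 * u / Real.exp s := by
  by_cases h0 : wt s n = 0
  · rw [h0, abs_zero]
    positivity
  obtain ⟨hp, a⟩ := wt_ne h0
  have h2 : W s n ≤ 3 / Real.exp s := by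
    refine (div_le_div₀ zero_le_one bp.le_one (Real.exp_pos _) a.le).trans ?_
    rw [Real.exp_sub, one_div_div]
    gcongr
    exact Real.exp_one_lt_three.le
  have h3 : Real.log n ≤ 2 * u := by
    have := Real.log_le_log (Nat.cast_pos.2 hp.pos) (mx_le h)
    rw [Real.log_mul (Real.exp_pos _).ne' three_ne_zero, Real.log_exp] at this
    linarith [Real.log_le_sub_one_of_pos (show (0 : ℝ) < 3 by norm_num)]
  rw [wt, if_pos hp, abs_of_nonneg (mul_nonneg (Real.log_natCast_nonneg n) (W_nonneg s n))]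
  exact (mul_le_mul h3 h2 (W_nonneg s n) (by linarith)).trans_eq (by ring)

lemma jac (a : ℤ) (b : ℕ) : |(jacobiSym a b : ℝ)| ≤ 1 := by
  rcases jacobiSym.trichotomy a b with h | h | h <;> simp [h]

lemma lg_bd {d : ℕ} (hd : 1 ≤ d) :
    Real.exp (lg d) ≤ d ∧ (d : ℝ) ≤ Real.exp (lg d) * 3 ∧ (lg d : ℝ) ≤ Real.log d := by
  have h0 : (0 : ℝ) < d := by exact_mod_cast hd
  have h1 : (lg d : ℝ) ≤ Real.log d := Nat.floor_le (Real.log_natCast_nonneg d)
  refine ⟨(Real.le_log_iff_exp_le h0).1 h1, ?_, h1⟩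
  refine ((Real.log_le_iff_le_exp h0).1 (Nat.lt_floor_add_one _).le).trans ?_
  rw [Real.exp_add]
  exact mul_le_mul_of_nonneg_left Real.exp_one_lt_three.le (Real.exp_pos _).le

lemma var_nonneg (g : ℕ → ℝ) (r y : ℕ) : 0 ≤ Var g r y := sum_nonneg fun _ _ => sq_nonneg _

/-- The mean of the variances. -/
def Zz (g : ℕ → ℝ) (N Y m : ℕ) : ℝ :=
  ∑ k ∈ Icc 1 N, ((∑ y ∈ range (Y + 1), Var g (m * k) y) / (Y + 1) + Var g (m * k) Y)

lemma zz_nonneg (g : ℕ → ℝ) (N Y m : ℕ) : 0 ≤ Zz g N Y m := sum_nonneg fun _ _ =>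
  add_nonneg (div_nonneg (sum_nonneg fun _ _ => var_nonneg ..) (by positivity)) (var_nonneg ..)

lemma alg {u ub ej eP eQ E1 E2 d1 d2 d3 B n K L Y Z S T : ℝ} (hu : 0 < u) (hb : 0 < ub)
    (hj : 0 < ej) (hP : 0 < eP) (hQ : 0 < eQ) (h1 : 0 < E1) (h2 : 0 < E2)
    (e : ej * eP * E1 = eQ * E2)
    (a1 : E1 ≤ d1) (a2 : E2 ≤ d2) (a3 : 0 < d3) (b0 : 0 ≤ B) (b1 : B ≤ 20736 * u ^ 4 / (eP * eQ))
    (n0 : 0 ≤ n) (n1 : n ≤ 4 * ej) (k0 : 0 ≤ K) (k1 : K * d3 ≤ ej / ub) (l0 : 0 ≤ L)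
    (l1 : L ≤ 4 * eP) (y0 : 0 < Y) (y1 : Y * d3 ≤ 4 * (eQ * E2)) (z0 : 0 ≤ Z)
    (s1 : S ≤ n * (80 * ub * Z))
    (h : T ^ 2 ≤ B * (100 * n * K * (L / d2) * (8 * Y * u ^ 2) + 100 * S)) :
    (d3 * (6 * u / ej * T)) ^ 2 ≤
      10 ^ 12 * (u ^ 8 / ub + u ^ 6 * ub * (d1 * d2) * (Z / Y ^ 2)) := by
  have d20 : 0 < d2 := h2.trans_le a2
  have d10 : 0 < d1 := h1.trans_le a1
  have c1 : B * n * (K * d3) * L * (Y * d3) / d2 ≤
      20736 * u ^ 4 / (eP * eQ) * (4 * ej) * (ej / ub) * (4 * eP) * (4 * (eQ * d2)) / d2 := by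
    have y2 : Y * d3 ≤ 4 * (eQ * d2) := y1.trans (by gcongr)
    gcongr ?_ * ?_ * ?_ * ?_ * ?_ / _
  have c2 : B * n * (Y * d3) ^ 2 ≤
      20736 * u ^ 4 / (eP * eQ) * (4 * ej) * (16 * (ej * eP * d1) * (eQ * d2)) := by
    gcongr
    calc (Y * d3) ^ 2 ≤ (4 * (eQ * E2)) ^ 2 := by gcongr
      _ = 16 * (ej * eP * E1) * (eQ * E2) := by rw [e]; ring
      _ ≤ _ := by gcongr
  calc (d3 * (6 * u / ej * T)) ^ 2 = (d3 * (6 * u / ej)) ^ 2 * T ^ 2 := by ring
    _ ≤ (d3 * (6 * u / ej)) ^ 2 * (B * (100 * n * K * (L / d2) * (8 * Y * u ^ 2) +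
        100 * (n * (80 * ub * Z)))) := by
      gcongr
      exact h.trans (by gcongr)
    _ = 28800 * u ^ 4 / ej ^ 2 * (B * n * (K * d3) * L * (Y * d3) / d2) +
        288000 * u ^ 2 * ub / ej ^ 2 * (Z / Y ^ 2) * (B * n * (Y * d3) ^ 2) := by
      field_simp
      ring
    _ ≤ 28800 * u ^ 4 / ej ^ 2 * (20736 * u ^ 4 / (eP * eQ) * (4 * ej) * (ej / ub) * (4 * eP) *
          (4 * (eQ * d2)) / d2) + 288000 * u ^ 2 * ub / ej ^ 2 * (Z / Y ^ 2) *
          (20736 * u ^ 4 / (eP * eQ) * (4 * ej) * (16 * (ej * eP * d1) * (eQ * d2))) := by gcongr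
    _ = 28800 * 20736 * 64 * (u ^ 8 / ub) +
        288000 * 20736 * 64 * (u ^ 6 * ub * (d1 * d2) * (Z / Y ^ 2)) := by
      field_simp
      ring
    _ ≤ _ := by
      rw [mul_add]
      gcongr <;> norm_num

lemma tri {u : ℝ} {d : ℕ × ℕ × ℕ} (hd : d ∈ Tri u) :
    d.1 ∈ Icc 1 (DD u) ∧ d.2.1 ∈ Icc 1 (DD u) ∧ d.2.2 ∈ Icc 1 (DD u) ∧ Squarefree (pr d) ∧
      Odd (pr d) ∧ pr d ≤ DD u ∧ ((pr d).primeFactors.card : ℝ) ≤ 10 * Real.log u := by
  simpa only [Tri, mem_filter, mem_product, and_assoc] using hd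

lemma icc {u : ℝ} {d : ℕ} (h : d ∈ Icc 1 (DD u)) : 1 ≤ d ∧ (d : ℝ) ≤ Real.exp (u / 200) :=
  ⟨(mem_Icc.1 h).1, (Nat.cast_le.2 (mem_Icc.1 h).2).trans (Nat.floor_le (Real.exp_pos _).le)⟩

/-- The length of the range of `R`. -/
def YY (u : ℝ) (e : ℕ) : ℕ := ⌈3 * Real.exp u / e⌉₊

lemma yy {u : ℝ} {e : ℕ} (hu : 0 ≤ u) (h : e ∈ Icc 1 (DD u)) :
    3 * Real.exp u ≤ YY u e * e ∧ (YY u e + 1 : ℝ) * e ≤ 5 * Real.exp u ∧
      (YY u e : ℝ) * e ≤ 4 * Real.exp u ∧
      Real.exp (9 / 10 * u) ≤ YY u e ∧ (YY u e : ℝ) ≤ Real.exp (u + 5) := by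
  obtain ⟨h1, h2⟩ := icc h
  have h1' : (1 : ℝ) ≤ e := by exact_mod_cast h1
  have h0 : (0 : ℝ) < e := by linarith
  have h3 : 3 * Real.exp u ≤ YY u e * e := (div_le_iff₀ h0).1 (Nat.le_ceil _)
  have h5 := Real.exp_le_exp.2 (show u / 200 ≤ u by linarith)
  have h4 : (YY u e : ℝ) * e ≤ 4 * Real.exp u := by
    have a := mul_le_mul_of_nonneg_right
      (Nat.ceil_lt_add_one (show 0 ≤ 3 * Real.exp u / e by positivity)).le h0.le
    rw [add_mul, div_mul_cancel₀ _ h0.ne'] at a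
    unfold YY
    linarith
  refine ⟨h3, by linarith, h4, ?_, ?_⟩
  · refine le_of_mul_le_mul_right (le_trans ?_ h3) h0
    refine (mul_le_mul_of_nonneg_left h2 (Real.exp_pos _).le).trans ?_
    rw [← Real.exp_add]
    linarith [Real.exp_le_exp.2 (show 9 / 10 * u + u / 200 ≤ u by linarith), Real.exp_pos u]
  · rw [Real.exp_add]
    nlinarith [Real.add_one_le_exp (5 : ℝ), Real.exp_pos u, (Nat.cast_nonneg (YY u e) : (0 : ℝ) ≤ _)]

theorem one (hL : LdS) {u ub : ℝ} (hu : 4000 ≤ u) (hb : 1 ≤ ub) (hb' : ub ≤ Real.exp (u / 10))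
    {j : ℕ} (hj : j ∈ Jr u) {d : ℕ × ℕ × ℕ} (hd : d ∈ Tri u) (g : ℕ → ℝ)
    (hg : ∑ R ∈ range (YY u d.2.2), g R ^ 2 ≤ 8 * YY u d.2.2 * u ^ 2) (x y z : ℕ) :
    (d.2.2 * TT g u j d (chi x y z false false)) ^ 2 ≤ 10 ^ 12 * (u ^ 8 / ub + u ^ 6 * ub *
      (d.1 * d.2.1) * (Zz g (Mx j) (YY u d.2.2) (d.1 * d.2.1) / YY u d.2.2 ^ 2)) := by
  obtain ⟨t1, t2, t3, hs, ho, -, -⟩ := tri hd
  obtain ⟨y1, y2, y3, y4, -⟩ := yy (by linarith) t3
  obtain ⟨d1, d2, d3⟩ := d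
  dsimp only at t1 t2 t3 y1 y2 y3 y4 hg ⊢
  obtain ⟨p1, q1⟩ := icc t1
  obtain ⟨p2, q2⟩ := icc t2
  obtain ⟨p3, q3⟩ := icc t3
  obtain ⟨l1, l2, l3⟩ := lg_bd p1
  obtain ⟨m1, m2, m3⟩ := lg_bd p2
  have d30 : (0 : ℝ) < d3 := by exact_mod_cast p3
  replace l3 := l3.trans ((Real.log_le_iff_le_exp (by exact_mod_cast p1)).2 q1)
  replace m3 := m3.trans ((Real.log_le_iff_le_exp (by exact_mod_cast p2)).2 q2)
  have j1 : 7 / 20 * u ≤ j := Nat.ceil_le.1 (mem_Icc.1 hj).1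
  have j2 : (j : ℝ) ≤ 2 / 5 * u := (Nat.le_floor_iff (by linarith)).1 (mem_Icc.1 hj).2
  have hX : 16 ≤ Real.exp (u / 200) := by linarith [Real.add_one_le_exp (u / 200)]
  set a := sP u j (d1, d2, d3) with ha
  set b := sQ u (d1, d2, d3) with hb0
  have a1 : a = u - j - lg d1 := rfl
  have b1 : b = u - lg d2 := rfl
  have l0 : (0 : ℝ) ≤ lg d1 := Nat.cast_nonneg _
  have m0 : (0 : ℝ) ≤ lg d2 := Nat.cast_nonneg _
  have ea : Real.exp j * Real.exp a * Real.exp (lg d1) = Real.exp u := by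
    rw [← Real.exp_add, ← Real.exp_add, a1]; ring_nf
  have eb : Real.exp b * Real.exp (lg d2) = Real.exp u := by rw [← Real.exp_add, b1]; ring_nf
  obtain ⟨N1, N2⟩ := mx_bd (show (0 : ℝ) ≤ j by linarith)
  obtain ⟨L1, L2⟩ := mx_bd (show 0 ≤ a by linarith)
  obtain ⟨-, Q2⟩ := mx_bd (show 0 ≤ b by linarith)
  have ej := Real.exp_pos (j : ℝ)
  have eP := Real.exp_pos a
  have eQ := Real.exp_pos b
  have u0 : 0 < u := by linarith
  have c12 : d1.Coprime d2 := Nat.coprime_of_squarefree_mul (Squarefree.of_mul_left hs)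
  have c13 : d1.Coprime (16 * d3) := Nat.Coprime.mul_right
    (Nat.Coprime.pow_right 4 (Nat.odd_mul.1 (Nat.odd_mul.1 ho).1).1.coprime_two_right)
    (Nat.coprime_of_squarefree_mul hs).coprime_mul_right
  set Y := YY u d3
  set sN := (range (Mx j)).filter fun n => wt j n ≠ 0
  set sA := (range (Mx a)).filter fun n => wt a n ≠ 0
  set β : ℕ → ℕ → ℝ := fun P Q => wt a P * wt b Q *
    if P % 4 = 1 then (jacobiSym Q x : ℝ) * jacobiSym P z else 0 with hβ
  set γ : ℕ → ℝ := fun n => wt j n * (if n % 4 = 1 then (jacobiSym n y : ℝ) else 0) /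
    (6 * u / Real.exp j) with hγ
  set K := ⌊Mx j / (16 * d3 * ub)⌋₊
  have Γ0 : 0 < 6 * u / Real.exp j := by positivity
  have key := hL (16 * d3) d1 d2 (Mx a) (Mx j) K Y sN sA (range (Mx b)) β γ (fun _ => g) _
    (by omega) p1 p2 (Nat.cast_le (α := ℝ).1 (q2.trans
      ((Real.exp_le_exp.2 (by linarith)).trans L1)))
    (fun n hn => by
      obtain ⟨h1, h2⟩ := mem_filter.1 hn
      obtain ⟨h3, h4⟩ := wt_ne h2
      refine ⟨(mem_range.1 h1).le, c12.mul_left ((Nat.Prime.coprime_iff_not_dvd h3).2 fun h =>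
        absurd ((Nat.cast_le.2 (Nat.le_of_dvd p2 h)).trans
          (q2.trans (Real.exp_le_exp.2 (by linarith)))) h4.not_ge), ?_, hg⟩
      rw [hγ, abs_div, abs_of_pos Γ0, div_le_one Γ0, abs_mul]
      refine (mul_le_of_le_one_right (abs_nonneg _) ?_).trans (wt_bd (by linarith) (by linarith) h1)
      split_ifs
      exacts [jac _ _, by simp])
    (fun P hP => by
      obtain ⟨h1, h2⟩ := mem_filter.1 hP
      obtain ⟨h3, h4⟩ := wt_ne h2
      refine ⟨(mem_range.1 h1).le, c13.mul_left ((Nat.Prime.coprime_iff_not_dvd h3).2 fun h =>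
        absurd ((Nat.cast_le.2 (Nat.le_of_dvd (by omega) h)).trans ?_) h4.not_ge)⟩
      push_cast
      refine (mul_le_mul hX q3 d30.le (Real.exp_pos _).le).trans ?_
      rw [← Real.exp_add]
      exact Real.exp_le_exp.2 (by linarith))
    (fun n hn P hP Q hQ => by
      have h1 : (d1 : ℝ) * n * P ≤ Real.exp (lg d1) * 3 * (Real.exp j * 3) * (Real.exp a * 3) := by
        gcongr ?_ * ?_ * ?_
        exacts [mx_le (mem_filter.1 hn).1, mx_le (mem_filter.1 hP).1]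
      have h2 : (d2 : ℝ) * Q ≤ Real.exp (lg d2) * 3 * (Real.exp b * 3) := by
        gcongr ?_ * ?_
        exact mx_le hQ
      refine Nat.cast_lt (α := ℝ).1 ?_
      push_cast
      linarith [Real.exp_pos u])
  have e : TT g u j (d1, d2, d3) (chi x y z false false) = 6 * u / Real.exp j *
      ∑ P ∈ sA, ∑ Q ∈ range (Mx b), β P Q * ∑ n ∈ sN, γ n *
        if 16 * d3 ∣ d1 * n * P + d2 * Q then g ((d1 * n * P + d2 * Q) / (16 * d3)) else 0 := by
    rw [sum_subset (filter_subset _ _) fun P h1 h2 => by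
      simp [hβ, not_not.1 fun h => h2 (mem_filter.2 ⟨h1, h⟩)], TT, sum_comm, mul_sum]
    refine sum_congr rfl fun P _ => ?_
    rw [sum_comm, mul_sum]
    refine sum_congr rfl fun Q _ => ?_
    rw [sum_subset (filter_subset _ _) fun P h1 h2 => by
      simp [hγ, not_not.1 fun h => h2 (mem_filter.2 ⟨h1, h⟩)], mul_sum, mul_sum]
    refine sum_congr rfl fun n _ => ?_
    simp only [hβ, hγ, chi, Rw, ← ha, ← hb0]
    by_cases h1 : n % 4 = 1 <;> by_cases h2 : P % 4 = 1 <;>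
      simp only [h1, h2, if_true, if_false, and_self, false_and, and_false, Bool.false_eq_true] <;>
      push_cast <;> field_simp <;> ring
  rw [e]
  have ub0 : 0 < ub := by linarith
  have := alg (Z := Zz g (Mx j) Y (d1 * d2)) u0 ub0 ej eP eQ (Real.exp_pos _) (Real.exp_pos _)
    (ea.trans eb.symm) l1 m1 d30 (sum_nonneg fun _ _ => sum_nonneg fun _ _ => sq_nonneg _) ?_
    (Nat.cast_nonneg _) ?_ (by positivity) ?_ (Nat.cast_nonneg _) L2
    ((Real.exp_pos _).trans_le y4) (eb ▸ y3) (zz_nonneg ..) ?_ key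
  · exact this
  · have h1 : ∀ P ∈ sA, ∀ Q ∈ range (Mx b),
        β P Q ^ 2 ≤ (6 * u / Real.exp a * (6 * u / Real.exp b)) ^ 2 := fun P hP Q hQ => by
      refine sq_le_sq.2 (le_trans ?_ (le_abs_self _))
      rw [hβ, abs_mul, abs_mul]
      refine (mul_le_of_le_one_right (by positivity) ?_).trans (mul_le_mul (wt_bd (by linarith)
        (by linarith) (mem_filter.1 hP).1) (wt_bd (by linarith) (by linarith) hQ) (abs_nonneg _)
        (by positivity))
      split_ifs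
      · rw [abs_mul]
        exact mul_le_one₀ (jac _ _) (abs_nonneg _) (jac _ _)
      · simp
    refine (sum_le_card_nsmul _ _ _ fun P hP => sum_le_card_nsmul _ _ _ (h1 P hP)).trans ?_
    have h2 : (sA.card : ℝ) ≤ 4 * Real.exp a :=
      (Nat.cast_le.2 ((card_filter_le _ _).trans (card_range _).le)).trans L2
    rw [card_range, nsmul_eq_mul, nsmul_eq_mul]
    calc _ ≤ 4 * Real.exp a * (4 * Real.exp b *
          (6 * u / Real.exp a * (6 * u / Real.exp b)) ^ 2) := by gcongr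
      _ = _ := by field_simp; ring
  · exact (Nat.cast_le.2 ((card_filter_le _ _).trans (card_range _).le)).trans N2
  · have h1 : (K : ℝ) * (16 * d3 * ub) ≤ Mx j :=
      (le_div_iff₀ (by positivity)).1 (Nat.floor_le (by positivity))
    have h2 : 16 * (d3 * ub) ≤ Real.exp j := by
      refine (mul_le_mul hX (mul_le_mul q3 hb' ub0.le (Real.exp_pos _).le) (by positivity)
        (Real.exp_pos _).le).trans ?_
      rw [← Real.exp_add, ← Real.exp_add]
      exact Real.exp_le_exp.2 (by linarith)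
    rw [le_div_iff₀ ub0]
    linarith
  · simp only [sum_const, nsmul_eq_mul, ← mul_sum]
    refine mul_le_mul_of_nonneg_left ?_ (Nat.cast_nonneg _)
    rw [Zz, mul_sum]
    refine (sum_le_sum fun k hk => ?_).trans (sum_le_sum_of_subset_of_nonneg
      (fun k hk => mem_Icc.2 ⟨Nat.succ_le_of_lt ((Nat.zero_le K).trans_lt (mem_Ioc.1 hk).1),
        (mem_Ioc.1 hk).2.trans (Nat.div_le_self _ _)⟩) fun k _ _ => mul_nonneg (by positivity)
        (add_nonneg (div_nonneg (sum_nonneg fun _ _ => var_nonneg ..) (by positivity))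
          (var_nonneg ..)))
    have h1 : (Mx j : ℝ) ≤ k * (16 * d3 * ub) := (div_le_iff₀ (by positivity)).1
      ((Nat.lt_floor_add_one _).le.trans
        (show (K : ℝ) + 1 ≤ k by exact_mod_cast (mem_Ioc.1 hk).1))
    have k0 : (0 : ℝ) < k := Nat.cast_pos.2 ((Nat.zero_le K).trans_lt (mem_Ioc.1 hk).1)
    have h2 : Real.exp u ≤ k * (16 * d3 * ub) * Mx a * d1 := by
      rw [← ea]
      gcongr
      exact N1.trans h1
    have h3 : (Y + 1 : ℝ) ≤ 80 * ub * (Mx a * d1 * k) :=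
      le_of_mul_le_mul_right (by linarith) d30
    have h4 : (0 : ℝ) < Mx a * d1 * k :=
      mul_pos (mul_pos (eP.trans_le L1) (by exact_mod_cast p1)) k0
    rw [mul_add]
    refine add_le_add ?_ (le_mul_of_one_le_left (var_nonneg ..) (by linarith))
    rw [← mul_div_assoc, div_le_div_iff₀ h4 (by positivity)]
    exact (mul_le_mul_of_nonneg_left h3 (sum_nonneg fun _ _ => var_nonneg ..)).trans_eq (by ring)

lemma har {u : ℝ} (hu : 2 ≤ u) : ∑ m ∈ Icc 1 (DD u), 1 / (m : ℝ) ≤ u := by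
  have h1 := harmonic_le_one_add_log (DD u)
  have h2 : Real.log (DD u) ≤ u / 200 := by
    rcases Nat.eq_zero_or_pos (DD u) with h | h
    · simp [h]; linarith
    · exact (Real.log_le_iff_le_exp (by exact_mod_cast h)).2 (Nat.floor_le (Real.exp_pos _).le)
  rw [harmonic_eq_sum_Icc] at h1
  push_cast at h1
  simp only [one_div]
  linarith

lemma fib {u : ℝ} (hu : 1 ≤ u) (F : ℕ × ℕ → ℝ) (hF : ∀ e, 0 ≤ F e) :
    ∑ d ∈ Tri u, F (d.2.2, d.1 * d.2.1) ≤
      u ^ 7 * ∑ e ∈ Icc 1 (DD u) ×ˢ Icc 1 (DD u), F e := by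
  rw [← sum_fiberwise_of_maps_to (g := fun d : ℕ × ℕ × ℕ => (d.2.2, d.1 * d.2.1))
    (t := Icc 1 (DD u) ×ˢ Icc 1 (DD u)) fun d hd => by
      obtain ⟨t1, t2, t3, -, -, h, -⟩ := tri hd
      exact mem_product.2 ⟨t3, mem_Icc.2 ⟨Nat.mul_pos (icc t1).1 (icc t2).1,
        (Nat.le_mul_of_pos_right _ (icc t3).1).trans h⟩⟩, mul_sum]
  refine sum_le_sum fun e _ => ?_
  rw [sum_congr rfl fun d hd => congrArg F (mem_filter.1 hd).2, sum_const, nsmul_eq_mul]
  refine mul_le_mul_of_nonneg_right ?_ (hF e)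
  rcases ((Tri u).filter fun d => (d.2.2, d.1 * d.2.1) = e).eq_empty_or_nonempty with h | ⟨d, hd⟩
  · rw [h]
    simp only [card_empty, Nat.cast_zero]
    positivity
  obtain ⟨hd', rfl⟩ := mem_filter.1 hd
  obtain ⟨-, -, -, hs, -, -, hw⟩ := tri hd'
  have h1 : #{d' ∈ Tri u | (d'.2.2, d'.1 * d'.2.1) = (d.2.2, d.1 * d.2.1)} ≤ #(pr d).divisors := by
    refine card_le_card_of_injOn (fun d => d.1) (fun d' h => ?_) fun d' h d'' h' e => ?_
    · exact mem_coe.2 (Nat.mem_divisors.2 ⟨Dvd.dvd.mul_right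
        ⟨_, (congrArg Prod.snd (mem_filter.1 h).2).symm⟩ _, hs.ne_zero⟩)
    · have e1 := (mem_filter.1 h).2.trans (mem_filter.1 h').2.symm
      have e2 : d'.1 * d'.2.1 = d''.1 * d''.2.1 := congrArg Prod.snd e1
      have e3 : d'.1 = d''.1 := e
      rw [e3] at e2
      exact Prod.ext e (Prod.ext (Nat.eq_of_mul_eq_mul_left (icc (tri (mem_filter.1 h').1).1).1 e2)
        (congrArg Prod.fst e1))
  have h2 : #(pr d).divisors ≤ 2 ^ #(pr d).primeFactors := by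
    rw [Nat.card_divisors hs.ne_zero]
    exact prod_le_pow_card _ _ _ fun p _ => Nat.succ_le_succ (hs.natFactorization_le_one p)
  have h3 := Real.log_nonneg hu
  calc _ ≤ (2 : ℝ) ^ #(pr d).primeFactors := by exact_mod_cast h1.trans h2
    _ = Real.exp (#(pr d).primeFactors * Real.log 2) := by
      rw [Real.exp_nat_mul, Real.exp_log two_pos]
    _ ≤ Real.exp ((7 : ℕ) * Real.log u) := Real.exp_le_exp.2 (by
      have := mul_le_mul hw Real.log_two_lt_d9.le (Real.log_nonneg one_le_two) (by linarith)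
      push_cast
      linarith)
    _ = u ^ 7 := by rw [Real.exp_nat_mul, Real.exp_log (by linarith)]

end En

open En in
theorem en : EnR := by
  intro hL hM hB c
  obtain ⟨a, ha⟩ := hB (4 * c + 53)
  refine ⟨a, ?_⟩
  filter_upwards [ha, hM.2 a, eventually_ge_atTop ((10 : ℝ) ^ 13),
    (isLittleO_pow_exp_pos_mul_atTop (2 * c + 28) (show (0 : ℝ) < 1 / 10 by norm_num)).eventuallyLE]
    with u h1 h2 hu h3 j hj x y z
  set g : ℕ → ℝ := fun R => th R - lam (VV u a) R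
  have u1 : 4000 ≤ u := le_trans (by norm_num) hu
  have u0 : 0 < u := by linarith
  have hb : 1 ≤ u ^ (2 * c + 28) := one_le_pow₀ (by linarith)
  have hb' : u ^ (2 * c + 28) ≤ Real.exp (u / 10) := by
    simpa only [Real.norm_of_nonneg (zero_le_one.trans hb), Real.norm_of_nonneg (Real.exp_pos _).le,
      one_div_mul_eq_div] using h3
  have j2 : (j : ℝ) ≤ 2 / 5 * u := (Nat.le_floor_iff (by linarith)).1 (mem_Icc.1 hj).2
  set a1 : ℝ := (1 + 10 ^ 12) / u ^ (c + 10)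
  set a2 : ℝ := 10 ^ 12 * u ^ (3 * c + 44)
  let F : ℕ × ℕ → ℝ := fun e =>
    1 / e.1 * (a1 * (1 / e.2) + a2 * (Zz g (Mx j) (YY u e.1) e.2 / YY u e.1 ^ 2))
  have h4 : ∀ d ∈ Tri u, |TT g u j d (chi (x d) (y d) (z d) false false)| / (d.1 * d.2.1 : ℝ) ≤
      F (d.2.2, d.1 * d.2.1) := fun d hd => by
    obtain ⟨t1, t2, t3, -⟩ := tri hd
    obtain ⟨-, -, -, y4, y5⟩ := yy u0.le t3
    have h := one hL u1 hb hb' hj hd g (h2 _ y4 y5) (x d) (y d) (z d)
    have p1 : (0 : ℝ) < d.1 := by exact_mod_cast (icc t1).1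
    have p2 : (0 : ℝ) < d.2.1 := by exact_mod_cast (icc t2).1
    have p3 : (0 : ℝ) < d.2.2 := by exact_mod_cast (icc t3).1
    simp only [F, Nat.cast_mul]
    generalize Zz g (Mx j) (YY u d.2.2) (d.1 * d.2.1) / (YY u d.2.2 : ℝ) ^ 2 = Z at h ⊢
    generalize TT g u j d _ = T at h ⊢
    rw [mul_pow, ← sq_abs T, ← mul_pow] at h
    have h5 : d.2.2 * |T| ≤ 1 / u ^ (c + 10) + u ^ (c + 10) * (d.2.2 * |T|) ^ 2 := by
      have h6 : 0 < u ^ (c + 10) := by positivity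
      rw [← sub_nonneg, show 1 / u ^ (c + 10) + u ^ (c + 10) * (d.2.2 * |T|) ^ 2 - d.2.2 * |T| =
        (u ^ (c + 10) * (d.2.2 * |T|) - 1) ^ 2 / u ^ (c + 10) + d.2.2 * |T| by field_simp; ring]
      positivity
    calc |T| / (d.1 * d.2.1 : ℝ) = d.2.2 * |T| / (d.2.2 * (d.1 * d.2.1)) := by field_simp
      _ ≤ (1 / u ^ (c + 10) + u ^ (c + 10) * (10 ^ 12 * (u ^ 8 / u ^ (2 * c + 28) +
          u ^ 6 * u ^ (2 * c + 28) * (d.1 * d.2.1) * Z))) / (d.2.2 * (d.1 * d.2.1)) := by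
        gcongr
        exact h5.trans (by gcongr)
      _ = 1 / d.2.2 * ((1 + 10 ^ 12 / u ^ 0) / u ^ (c + 10) * (1 / (d.1 * d.2.1)) + a2 * Z) := by
        simp only [a2]
        field_simp
        ring
      _ = _ := by simp [a1]
  have h5 : ∀ e ∈ Icc 1 (DD u), ∑ m ∈ Icc 1 (DD u), F (e, m) ≤
      1 / e * (a1 * u + a2 * (2 / u ^ (4 * c + 53))) := fun e he => by
    obtain ⟨-, -, -, y4, y5⟩ := yy u0.le he
    have y0 : (0 : ℝ) < YY u e := (Real.exp_pos _).trans_le y4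
    have h6 : (DD u * Mx j) ^ 2 ≤ YY u e := Nat.cast_le (α := ℝ).1 (by
      push_cast
      calc ((DD u : ℝ) * Mx j) ^ 2 ≤ (Real.exp (u / 200) * (4 * Real.exp (2 / 5 * u))) ^ 2 := by
            gcongr
            exacts [Nat.floor_le (Real.exp_pos _).le,
              (mx_bd (Nat.cast_nonneg j)).2.trans (by gcongr)]
        _ = 16 * Real.exp (81 / 100 * u) := by
            rw [show 81 / 100 * u = (2 : ℕ) * (u / 200 + 2 / 5 * u) by push_cast; ring,
              Real.exp_nat_mul, Real.exp_add]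
            ring
        _ ≤ Real.exp (9 / 100 * u) * Real.exp (81 / 100 * u) := by
            gcongr
            linarith [Real.add_one_le_exp (9 / 100 * u)]
        _ ≤ _ := by
            rw [← Real.exp_add]
            exact le_trans (Real.exp_le_exp.2 (by linarith)) y4)
    simp only [F, ← mul_sum, sum_add_distrib, ← sum_div]
    gcongr _ * (_ * ?_ + _ * ?_)
    · exact har (by linarith)
    · rw [div_le_iff₀ (by positivity)]
      simp only [Zz, sum_add_distrib, ← sum_div]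
      have h7 : ∑ m ∈ Icc 1 (DD u), ∑ k ∈ Icc 1 (Mx j), ∑ y ∈ range (YY u e + 1), Var g (m * k) y ≤
          (YY u e + 1) * (YY u e ^ 2 / u ^ (4 * c + 53)) := by
        simp only [sum_comm (t := range (YY u e + 1))]
        refine (sum_le_card_nsmul _ _ _ fun y hy => h1 _ y _ _ y4 y5
          (Nat.lt_succ_iff.1 (mem_range.1 hy)) h6).trans_eq ?_
        simp
      have h8 := h1 _ _ _ _ y4 y5 le_rfl h6
      rw [← div_le_iff₀' (by positivity)] at h7
      exact (add_le_add h7 h8).trans_eq (by ring)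
  calc _ ≤ _ := sum_le_sum h4
    _ ≤ _ := fib (by linarith) F fun e => mul_nonneg (by positivity) (add_nonneg (by positivity)
        (mul_nonneg (by positivity) (div_nonneg (zz_nonneg ..) (by positivity))))
    _ ≤ u ^ 7 * (u * (a1 * u + a2 * (2 / u ^ (4 * c + 53)))) := by
        rw [sum_product]
        refine mul_le_mul_of_nonneg_left ((sum_le_sum h5).trans ?_) (by positivity)
        rw [← sum_mul]
        exact mul_le_mul_of_nonneg_right (har (by linarith)) (by positivity)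
    _ = (1 + 3 * 10 ^ 12) / u * (1 / u ^ c) := by
        simp only [a1, a2]
        field_simp
        ring
    _ ≤ _ := mul_le_of_le_one_left (by positivity) ((div_le_one u0).2 (le_trans (by norm_num) hu))

end Pool.Agent.Lib.MP_d6ddbd_nt.L
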