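import Pool.Agent.Lib.MP_d6ddbd_nt.L.St
import Pool.Agent.Lib.MP_d6ddbd_nt.G.Bil

/-! Equidistribution of the symbols of the large primes: assembly. -/

open Finset Filter

noncomputable section

namespace Pool.Agent.Lib.MP_d6ddbd_nt.L

namespace EqA

theorem TT_sub (g h : ℕ → ℝ) (u : ℝ) (j : ℕ) (d : ℕ × ℕ × ℕ) (φ : ℕ → ℕ → ℕ → ℝ) :
    TT (fun R => g R - h R) u j d φ = TT g u j d φ - TT h u j d φ := by
  simp only [TT, ← sum_sub_distrib]
  refine sum_congr rfl fun n _ => sum_congr rfl fun P _ => sum_congr rfl fun Q _ => ?_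
  unfold Rw
  split_ifs <;> ring

theorem sum_Tri {u : ℝ} (hu : 1 ≤ u) :
    ∑ d ∈ Tri u, (d.1 : ℝ)⁻¹ * ((d.2.1 : ℝ)⁻¹ * (d.2.2 : ℝ)⁻¹) ≤ (2 * u) ^ 3 := by
  have h : ∑ a ∈ Icc 1 (DD u), (a : ℝ)⁻¹ ≤ 2 * u := by
    have := G.BilAux.harm (N := DD u) (T := Real.exp (u / 200)) (Nat.floor_le (Real.exp_pos _).le)
      (Real.one_le_exp (by linarith))
    rw [Real.log_exp] at this
    linarith
  have h0 : 0 ≤ ∑ a ∈ Icc 1 (DD u), (a : ℝ)⁻¹ := sum_nonneg fun _ _ => by positivity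
  calc _ ≤ ∑ d ∈ Icc 1 (DD u) ×ˢ Icc 1 (DD u) ×ˢ Icc 1 (DD u),
        (d.1 : ℝ)⁻¹ * ((d.2.1 : ℝ)⁻¹ * (d.2.2 : ℝ)⁻¹) :=
        sum_le_sum_of_subset_of_nonneg (filter_subset _ _) fun _ _ _ => by positivity
    _ = (∑ a ∈ Icc 1 (DD u), (a : ℝ)⁻¹) ^ 3 := by
        simp only [sum_product, ← mul_sum, ← sum_mul]
        ring
    _ ≤ _ := by gcongr

end EqA

open EqA in
theorem eq' : EqR := by
  intro hj hn ht hk c
  obtain ⟨a, hn⟩ := hn (c + 1)
  obtain ⟨K, k0, h3⟩ := MP_f64879_nt.exp_neg_le (show (0 : ℝ) < 1 / 1000 by norm_num) (c + 5)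
  filter_upwards [hj, hn, ht a (c + 1), eventually_ge_atTop 3, eventually_ge_atTop (8 * K)]
    with u hj hn ht u3 uK
  have u0 : 0 < u := by linarith
  refine ⟨kap (VV u a), fun d hd => ?_, fun j hJ x y z e e' hC => ?_⟩
  · obtain ⟨-, h1, h2, -⟩ := mem_filter.1 hd
    exact hk _ d (Nat.le_floor (by rw [Nat.cast_one]; exact one_le_pow₀ (by linarith))) h1 h2
  have a1 := hn j hJ x y z
  have a2 := ht j hJ x y z hC
  have a3 : ∑ d ∈ Tri u, Real.exp (-u / 1000) * ((d.1 : ℝ)⁻¹ * ((d.2.1 : ℝ)⁻¹ * (d.2.2 : ℝ)⁻¹)) ≤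
      1 / u ^ (c + 1) := by
    rw [← mul_sum, show -u / 1000 = -(1 / 1000 * u) by ring]
    calc _ ≤ K / u ^ (c + 5) * (2 * u) ^ 3 :=
          mul_le_mul (h3 u u0) (sum_Tri (by linarith)) (sum_nonneg fun _ _ => by positivity)
            (by positivity)
      _ = 8 * K / u ^ (c + 2) := by field_simp; ring
      _ ≤ u / u ^ (c + 2) := by gcongr
      _ = _ := by field_simp; ring
  have a4 : 1 / u ^ (c + 1) + 1 / u ^ (c + 1) + 1 / u ^ (c + 1) ≤ 1 / u ^ c :=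
    calc _ = 3 / u ^ (c + 1) := by ring
      _ ≤ u / u ^ (c + 1) := by gcongr
      _ = _ := by field_simp; ring
  refine le_trans ?_ ((add_le_add (add_le_add a1 a2) a3).trans a4)
  rw [← sum_add_distrib, ← sum_add_distrib]
  refine sum_le_sum fun d hd => ?_
  by_cases he : e d = true ∨ e' d = true
  · rw [if_neg (by rcases he with h | h <;> simp [h]), sub_zero]
    refine le_add_of_nonneg_of_le (by positivity) ?_
    refine (div_le_div_of_nonneg_right (hj j hJ d hd _ _ _ _ _ he) (by positivity)).trans_eq ?_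
    rw [div_div, div_eq_mul_inv, mul_inv, mul_inv]
    ring
  · have h1 : e d = false := by simpa using fun h => he (Or.inl h)
    have h2 : e' d = false := by simpa using fun h => he (Or.inr h)
    refine le_add_of_le_of_nonneg ?_ (by positivity)
    rw [← add_div, h1, h2, TT_sub]
    simp only [and_true]
    gcongr
    exact abs_sub_le _ _ _

end Pool.Agent.Lib.MP_d6ddbd_nt.L
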