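import Pool.Agent.Lib.MP_d6ddbd_nt.L.St

/-! The Legendre family: Euler products, the estimate of Mertens and the method of Rankin. -/

open Finset Filter

noncomputable section

namespace Pool.Agent.Lib.MP_d6ddbd_nt.L

namespace Eul

open MP_30b5ba_nt.P

lemma mem_PP {D p : ℕ} : p ∈ PP D ↔ p.Prime ∧ p ≤ D := by
  rw [PP, mem_filter, mem_Icc]
  exact ⟨fun h => ⟨h.2, h.1.2⟩, fun h => ⟨⟨h.1.one_lt.le, h.2⟩, h.1⟩⟩

lemma one (D : ℕ) (h : ℕ → ℝ) (h0 : ∀ p, 0 ≤ h p) :
    ∑ m ∈ Icc 1 D with Squarefree m, (∏ p ∈ m.primeFactors, h p) / m ≤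
      Real.exp (∑ p ∈ PP D, h p / p) := by
  have hn : ∀ p : ℕ, 0 ≤ h p / p := fun p => div_nonneg (h0 p) (Nat.cast_nonneg p)
  have e1 : ∀ m ∈ (Icc 1 D).filter Squarefree, (∏ p ∈ m.primeFactors, h p) / m =
      ∏ p ∈ m.primeFactors, h p / p := by
    intro m hm
    rw [prod_div_distrib, ← Nat.cast_prod,
      Nat.prod_primeFactors_of_squarefree (mem_filter.1 hm).2]
  have inj : Set.InjOn Nat.primeFactors ((Icc 1 D).filter Squarefree : Finset ℕ) := by
    intro a ha b hb hab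
    rw [← Nat.prod_primeFactors_of_squarefree (mem_filter.1 (mem_coe.1 ha)).2,
      ← Nat.prod_primeFactors_of_squarefree (mem_filter.1 (mem_coe.1 hb)).2, hab]
  calc _ = ∑ m ∈ (Icc 1 D).filter Squarefree, ∏ p ∈ m.primeFactors, h p / p := sum_congr rfl e1
    _ = ∑ t ∈ ((Icc 1 D).filter Squarefree).image Nat.primeFactors, ∏ p ∈ t, h p / p :=
      (sum_image (f := fun t : Finset ℕ => ∏ p ∈ t, h p / p) inj).symm
    _ ≤ ∑ t ∈ (PP D).powerset, ∏ p ∈ t, h p / p := by
      refine sum_le_sum_of_subset_of_nonneg (fun t ht => ?_) fun t _ _ =>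
        prod_nonneg fun p _ => hn p
      obtain ⟨m, hm, rfl⟩ := mem_image.1 ht
      exact mem_powerset.2 fun p hp => mem_PP.2 ⟨Nat.prime_of_mem_primeFactors hp,
        (Nat.le_of_mem_primeFactors hp).trans (mem_Icc.1 (mem_filter.1 hm).1).2⟩
    _ = ∏ p ∈ PP D, (1 + h p / p) := (prod_one_add _).symm
    _ ≤ ∏ p ∈ PP D, Real.exp (h p / p) :=
      prod_le_prod (fun p _ => by linarith [hn p]) fun p _ => by
        linarith [Real.add_one_le_exp (h p / p)]
    _ = _ := (Real.exp_sum _ _).symm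

lemma two (u : ℝ) (w : ℕ → Lb → ℝ) (h0 : ∀ p k, 0 ≤ w p k) :
    GG u (fun S f => ∏ p : S, w p (f p)) ≤ Real.exp (∑ p ∈ PP (DD u), (∑ k, w p k) / p) := by
  refine le_trans ?_ (one (DD u) (fun p => ∑ k, w p k) fun p => sum_nonneg fun k _ => h0 p k)
  have e : ∀ m : ℕ, ∑ f : m.primeFactors → Lb, ∏ p : m.primeFactors, w p (f p) =
      ∏ p ∈ m.primeFactors, ∑ k, w p k := by
    intro m
    rw [← prod_coe_sort m.primeFactors fun p => ∑ k, w p k, prod_univ_sum,
      Fintype.piFinset_univ]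
  rw [GG]
  simp only [e]
  refine sum_le_sum_of_subset_of_nonneg (fun m hm => ?_) fun m _ _ =>
    div_nonneg (prod_nonneg fun p _ => sum_nonneg fun k _ => h0 p k) (Nat.cast_nonneg m)
  rw [Sq, mem_filter] at hm
  exact mem_filter.2 ⟨hm.1, hm.2.1⟩

lemma mer : ∃ C : ℝ, ∀ (N : ℕ) (x : ℝ), 2 ≤ N → Real.log N ≤ x →
    ∑ p ∈ PP N, 1 / (p : ℝ) ≤ Real.log x + C := by
  obtain ⟨C, -, hC⟩ := Mertens.S_bound
  refine ⟨C, fun N x hN hx => ?_⟩
  have h1 := (abs_le.1 (hC N hN)).2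
  have h2 : 0 < Real.log N := Real.log_pos (by exact_mod_cast hN)
  have h3 := Real.log_le_log h2 hx
  have h4 : ∑ p ∈ PP N, 1 / (p : ℝ) = Mertens.S N := by
    rw [Mertens.S, PP, sum_filter]
    rfl
  linarith

lemma three : ∃ C : ℝ, ∀ᶠ u : ℝ in atTop, ∑ p ∈ PP (DD u), 1 / (p : ℝ) ≤ Real.log u + C ∧
    ∑ p ∈ (PP (DD u)).filter (fun p : ℕ => (p : ℝ) ≤ u ^ 800), 1 / (p : ℝ) ≤
      Real.log (Real.log u) + C := by
  obtain ⟨C, hC⟩ := mer
  refine ⟨C + Real.log 800, ?_⟩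
  filter_upwards [eventually_ge_atTop (200 : ℝ)] with u hu
  have h8 : 0 ≤ Real.log 800 := Real.log_nonneg (by norm_num)
  have hD : 2 ≤ DD u := Nat.le_floor (by
    have := Real.add_one_le_exp (u / 200)
    push_cast
    linarith)
  have hD0 : (0 : ℝ) < DD u := by exact_mod_cast (by omega : 0 < DD u)
  have h1 : Real.log (DD u) ≤ u := by
    have : (DD u : ℝ) ≤ Real.exp (u / 200) := Nat.floor_le (Real.exp_pos _).le
    have := (Real.log_le_iff_le_exp hD0).2 this
    linarith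
  refine ⟨by linarith [hC _ u hD h1], ?_⟩
  have hT : (2 : ℝ) ≤ u ^ 800 :=
    (by linarith : (2 : ℝ) ≤ u).trans (le_self_pow₀ (by linarith) (by norm_num))
  have hN : 2 ≤ ⌊u ^ 800⌋₊ := Nat.le_floor (by exact_mod_cast hT)
  have hN0 : (0 : ℝ) < ⌊u ^ 800⌋₊ := by exact_mod_cast (by omega : 0 < ⌊u ^ 800⌋₊)
  have h2 : Real.log (⌊u ^ 800⌋₊ : ℕ) ≤ 800 * Real.log u := by
    have := Real.log_le_log hN0 (Nat.floor_le (by linarith : (0 : ℝ) ≤ u ^ 800))
    rwa [Real.log_pow, Nat.cast_ofNat] at this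
  have h3 := hC _ _ hN h2
  have hl : 0 < Real.log u := Real.log_pos (by linarith)
  rw [Real.log_mul (by norm_num) hl.ne'] at h3
  refine le_trans (sum_le_sum_of_subset_of_nonneg (fun p hp => ?_) fun p _ _ => by positivity)
    (h3.trans (by linarith))
  rw [mem_filter] at hp
  exact mem_PP.2 ⟨(mem_PP.1 hp.1).1, Nat.le_floor hp.2⟩

lemma grow (a C : ℝ) : ∀ᶠ x : ℝ in atTop,
    a * x + 60 * (Real.log x + C) ≤ Real.exp (x * (1 / 4)) / (800 * x) := by
  filter_upwards [eventually_ge_atTop (1 : ℝ),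
    eventually_ge_atTop (307200 * (|a| + 60 + 60 * |C|))] with x h1 h2
  have h3 := Real.pow_div_factorial_le_exp (x * (1 / 4)) (by linarith) 3
  have h4 : Real.log x ≤ x := (Real.log_le_sub_one_of_pos (by linarith)).trans (by linarith)
  have h5 : a * x ≤ |a| * x := mul_le_mul_of_nonneg_right (le_abs_self a) (by linarith)
  have h6 : C ≤ |C| * x := (le_abs_self C).trans (le_mul_of_one_le_right (abs_nonneg C) h1)
  rw [le_div_iff₀ (by linarith)]
  refine le_trans ?_ h3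
  have h7 : (a * x + 60 * (Real.log x + C)) * (800 * x) ≤
      (|a| + 60 + 60 * |C|) * x * (800 * x) :=
    mul_le_mul_of_nonneg_right (by linarith) (by linarith)
  have h8 : 307200 * (|a| + 60 + 60 * |C|) * (x * x) ≤ x * (x * x) :=
    mul_le_mul_of_nonneg_right h2 (by positivity)
  simp only [Nat.factorial, Nat.succ_eq_add_one]
  push_cast
  nlinarith

lemma four (a : ℕ) : ∀ᶠ u : ℝ in atTop,
    ∑ m ∈ (Icc 1 (DD u)).filter (fun m : ℕ => Squarefree m ∧
      (∀ p ∈ m.primeFactors, (p : ℝ) ≤ u ^ 800) ∧ Real.exp (u ^ (1 / 4 : ℝ)) < m),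
        (20 : ℝ) ^ m.primeFactors.card / m ≤ 1 / u ^ a := by
  obtain ⟨C, hC⟩ := three
  filter_upwards [hC, eventually_gt_atTop (1 : ℝ),
    Real.tendsto_log_atTop.eventually (grow a C)] with u h1 hu h2
  have hl : 0 < Real.log u := Real.log_pos hu
  rw [← Real.rpow_def_of_pos (by linarith)] at h2
  set y := u ^ (1 / 4 : ℝ) / (800 * Real.log u) with hy
  set h : ℕ → ℝ := fun p => if (p : ℝ) ≤ u ^ 800 then 60 else 0 with hh
  have h0 : ∀ p, 0 ≤ h p := fun p => by
    simp only [hh]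
    split_ifs <;> norm_num
  have h3 := one (DD u) h h0
  have h4 : ∑ p ∈ PP (DD u), h p / p ≤ 60 * (Real.log (Real.log u) + C) := by
    refine le_trans (le_of_eq ?_) (mul_le_mul_of_nonneg_left h1.2 (by norm_num))
    rw [sum_filter, mul_sum]
    refine sum_congr rfl fun p _ => ?_
    simp only [hh]
    split_ifs <;> ring
  have h5 : ∀ m ∈ (Icc 1 (DD u)).filter (fun m : ℕ => Squarefree m ∧
      (∀ p ∈ m.primeFactors, (p : ℝ) ≤ u ^ 800) ∧ Real.exp (u ^ (1 / 4 : ℝ)) < m),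
        (20 : ℝ) ^ m.primeFactors.card / m ≤
          Real.exp (-y) * ((∏ p ∈ m.primeFactors, h p) / m) := by
    intro m hm
    obtain ⟨-, hs, hp, hb⟩ := mem_filter.1 hm
    have e1 : ∏ p ∈ m.primeFactors, h p = 60 ^ m.primeFactors.card := by
      rw [← prod_const]
      exact prod_congr rfl fun p hq => if_pos (hp p hq)
    have e2 : (m : ℝ) ≤ (u ^ 800) ^ m.primeFactors.card := by
      rw [← prod_const]
      conv_lhs => rw [← Nat.prod_primeFactors_of_squarefree hs, Nat.cast_prod]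
      exact prod_le_prod (fun p _ => Nat.cast_nonneg p) hp
    have e3 : y ≤ m.primeFactors.card := by
      have := Real.log_le_log (Real.exp_pos _) (hb.le.trans e2)
      rw [Real.log_exp, Real.log_pow, Real.log_pow, Nat.cast_ofNat] at this
      rwa [hy, div_le_iff₀ (by positivity)]
    have e4 : Real.exp y ≤ 3 ^ m.primeFactors.card := by
      refine (Real.exp_le_exp.2 e3).trans ?_
      rw [← Real.exp_one_pow]
      exact pow_le_pow_left₀ (Real.exp_pos _).le (by linarith [Real.exp_one_lt_d9]) _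
    rw [e1, ← mul_div_assoc]
    refine div_le_div_of_nonneg_right ?_ (Nat.cast_nonneg m)
    rw [Real.exp_neg, ← div_eq_inv_mul, le_div_iff₀ (Real.exp_pos _),
      show (60 : ℝ) = 20 * 3 by norm_num, mul_pow]
    exact mul_le_mul_of_nonneg_left e4 (by positivity)
  refine (sum_le_sum h5).trans ?_
  rw [← mul_sum]
  refine le_trans (mul_le_mul_of_nonneg_left (le_trans (sum_le_sum_of_subset_of_nonneg
    (fun m hm => mem_filter.2 ⟨(mem_filter.1 hm).1, (mem_filter.1 hm).2.1⟩) fun m _ _ =>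
      div_nonneg (prod_nonneg fun p _ => h0 p) (Nat.cast_nonneg m))
        (h3.trans (Real.exp_le_exp.2 h4))) (Real.exp_pos _).le) ?_
  rw [← Real.exp_add, ← Real.exp_log (show 0 < u ^ a by positivity), one_div, ← Real.exp_neg,
    Real.log_pow, Real.exp_le_exp]
  linarith

end Eul

theorem eul : EulS := ⟨Eul.one, Eul.two, Eul.three, Eul.four⟩

end Pool.Agent.Lib.MP_d6ddbd_nt.L
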