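import Pool.Agent.Lib.MP_d6ddbd_nt.L.Exp4

/-! The expansion of the size of the kernel in characters of the large primes. -/

open Finset Function

noncomputable section

namespace Pool.Agent.Lib.MP_d6ddbd_nt.L

namespace Ex

open G (ep al sg)
open G.CA (sg_add sg_sum abs_sg)
open G.KerAux (add_self)

theorem ins {m r : ℕ} (hr : r.Prime) (h : Squarefree (m * r)) :
    (m * r).primeFactors = insert r m.primeFactors ∧ r ∉ m.primeFactors ∧ Squarefree m := by
  obtain ⟨c, s, -⟩ := Nat.squarefree_mul_iff.1 h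
  refine ⟨?_, fun e => hr.one_lt.ne'
    (Nat.eq_one_of_dvd_coprimes c (Nat.dvd_of_mem_primeFactors e) dvd_rfl), s⟩
  rw [c.primeFactors_mul, hr.primeFactors, union_comm, insert_eq]

theorem ne_sum (S : Finset ℕ) (κ : ℕ → Fin 3) (F : ℕ → ZMod 2) (i j k : Fin 3)
    (h : ∀ (t : Fin 3) (x : ZMod 2),
      (if t ≠ i then x else 0) = (if t = j then x else 0) + if t = k then x else 0) :
    ∑ q ∈ S, (if κ q ≠ i then F q else 0) =
      ∑ q ∈ S with κ q = j, F q + ∑ q ∈ S with κ q = k, F q := by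
  rw [sum_filter, sum_filter, ← sum_add_distrib]
  exact sum_congr rfl fun q _ => h _ _

theorem main (hpar : ParS) {d : ℕ × ℕ × ℕ} (od : Odd (pr d)) {n P Q R : ℕ} (hn : n.Prime)
    (hP : P.Prime) (hQ : Q.Prime) (hR : R.Prime) (n4 : n % 4 = 1) (P4 : P % 4 = 1)
    (sq : Squarefree (d.1 * n * P * (d.2.1 * Q) * (d.2.2 * R))) (oQR : Odd (Q * R))
    (e : d.1 * n * P + d.2.1 * Q = 16 * (d.2.2 * R)) :
    ((Ker (d.1 * n * P) (d.2.1 * Q) (d.2.2 * R) Q).card : ℝ) =
      ∑ i ∈ Idx (pr d).primeFactors (cl d), si (pr d).primeFactors (cl d) i.1.1 (ex _ i.2) *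
        chi (mx (pr d).primeFactors (cl d) i.1.1 (ex _ i.2))
          (my (pr d).primeFactors (cl d) i.1.2.1 i.1.1 (ex _ i.2))
          (my (pr d).primeFactors (cl d) i.1.2.2 i.1.1 (ex _ i.2))
          (decide (psi i.1.2.1 i.1.1 = 1)) (decide (psi i.1.2.2 i.1.1 = 1)) n P Q ∧
      (Odd (d.1.primeFactors.card + d.2.2.primeFactors.card) →
        (Ker (d.1 * n * P) (d.2.1 * Q) (d.2.2 * R) Q).card = 1 ∨
          4 ≤ (Ker (d.1 * n * P) (d.2.1 * Q) (d.2.2 * R) Q).card) := by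
  have oN : Odd n := Nat.odd_iff.2 (by omega)
  have oP : Odd P := Nat.odd_iff.2 (by omega)
  obtain ⟨oQ, oR⟩ := Nat.odd_mul.1 oQR
  have e0 : d.1 * n * P * (d.2.1 * Q) * (d.2.2 * R) = pr d * n * P * R * Q := by rw [pr]; ring
  have oD : Odd (d.1 * n * P * (d.2.1 * Q) * (d.2.2 * R)) :=
    e0 ▸ (((od.mul oN).mul oP).mul oR).mul oQ
  obtain ⟨t4, m4, s4⟩ := ins hQ (e0 ▸ sq)
  obtain ⟨t3, m3, s3⟩ := ins hR s4
  obtain ⟨t2, m2, s2⟩ := ins hP s3
  obtain ⟨t1, m1, s1⟩ := ins hn s2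
  rw [t3, t2, t1] at t4 m4
  rw [t2, t1] at m3
  rw [t1] at m2
  obtain ⟨-, sAB, sC⟩ := Nat.squarefree_mul_iff.1 sq
  obtain ⟨cAB, sA, sB⟩ := Nat.squarefree_mul_iff.1 sAB
  obtain ⟨a2, a2', a⟩ := ins hP sA
  obtain ⟨a1, a1', -⟩ := ins hn a
  obtain ⟨b1, b1', -⟩ := ins hQ sB
  obtain ⟨c1, c1', -⟩ := ins hR sC
  obtain ⟨f0, f1, f2⟩ := fil s1
  obtain ⟨g0, g1, g2⟩ := fil (d := (d.1 * n * P, d.2.1 * Q, d.2.2 * R)) sq
  rw [a1] at a2 a2'
  rw [f0] at a2 a2' a1'
  rw [f1] at b1 b1'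
  rw [f2] at c1 c1'
  have eT : (pr (d.1 * n * P, d.2.1 * Q, d.2.2 * R)).primeFactors.erase Q =
      insert R (insert P (insert n (pr d).primeFactors)) := by
    rw [← erase_insert m4, ← t4, ← e0]
    rfl
  simp only at g0 g1 g2
  set col := cl (d.1 * n * P, d.2.1 * Q, d.2.2 * R)
  have k0 : ∀ p ∈ (d.1 * n * P).primeFactors, col p = 0 := fun p h =>
    (mem_filter.1 (g0.subset h)).2
  have k1 : ∀ p ∈ (d.2.1 * Q).primeFactors, col p = 1 := fun p h =>
    (mem_filter.1 (g1.subset h)).2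
  have k2 : ∀ p ∈ (d.2.2 * R).primeFactors, col p = 2 := fun p h =>
    (mem_filter.1 (g2.subset h)).2
  have hK : ∀ s, s ∈ Co (d.1 * n * P) (d.2.1 * Q) (d.2.2 * R) Q ↔
      s.1 ∈ insert R (insert P (insert n (pr d).primeFactors)) ∧ ok (col s.1) s.2 :=
    eT ▸ mem_Co sq (k1 Q (by simp [b1]))
  have pS : ∀ p ∈ (pr d).primeFactors, p.Prime ∧ Odd p := fun p h =>
    ⟨Nat.prime_of_mem_primeFactors h, od.of_dvd_nat (Nat.dvd_of_mem_primeFactors h)⟩
  set S := (pr d).primeFactors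
  set κ := cl d
  have kn : col n = 0 := k0 n (by simp [a2])
  have kP : col P = 0 := k0 P (by simp [a2])
  have kR : col R = 2 := k2 R (by simp [c1])
  have kS : ∀ p ∈ S, col p = κ p := fun p h => by
    rcases three (κ p) with k | k | k <;> rw [k]
    · exact k0 p (by simp [a2, h, k])
    · exact k1 p (by simp [b1, h, k])
    · exact k2 p (by simp [c1, h, k])
  have hc : Fintype.card (Co (d.1 * n * P) (d.2.1 * Q) (d.2.2 * R) Q) =
      3 + ∑ p ∈ S, if κ p = 1 then 2 else 1 := by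
    rw [card_K hK, sum_insert m3, sum_insert m2, sum_insert m1, kn, kP, kR,
      sum_congr rfl fun p h => by rw [kS p h]]
    simp only [show ¬ (0 : Fin 3) = 1 by decide, show ¬ (2 : Fin 3) = 1 by decide, if_false]
    ring
  obtain ⟨p1, p2⟩ := hpar (Co (d.1 * n * P) (d.2.1 * Q) (d.2.2 * R) Q)
    fun s t => Mt (d.1 * n * P) (d.2.1 * Q) s t
  refine ⟨?_, fun h => p2 (fun s t => add_comm _ _) (fun s => add_self _) ?_⟩
  swap
  · have : ∀ i : Fin 3, (if i = 1 then 2 else 1) =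
        (if i = 0 then 1 else 0) + (if i = 2 then 1 else 0) + 2 * if i = 1 then 1 else 0 := by
      decide
    rw [f0, f2, card_filter, card_filter] at h
    simp only [hc, this, sum_add_distrib, ← mul_sum]
    exact (by decide : Odd 3).add_odd (h.add_even (even_two_mul _))
  have cop : ∀ m, m.Prime → m ∉ S → ∀ p ∈ S, Odd p ∧ m.Coprime p := fun m h1 h2 p h =>
    ⟨(pS p h).2, (Nat.coprime_primes h1 (pS p h).1).2 fun k => h2 (k ▸ h)⟩
  have sym : ∀ m q, m.Prime → m % 4 = 1 → q.Prime → Odd q → q ≠ m → al q m = al m q :=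
    fun m q h1 h2 h3 h4 h5 => G.KerAux.eq_of_add (by
      rw [G.recip.2 q m h3 h1 (by rintro rfl; exact absurd h4 (by decide)) (by omega) h5, ep, ep,
        if_neg (c := m % 4 = 3) (by omega), mul_zero])
  have hA : ∀ p ∈ (d.1 * n * P).primeFactors,
      al R p = ∑ q ∈ S, (if κ q ≠ 0 then al q p else 0) + al Q p := fun p h => by
    have := cong e (Nat.dvd_of_mem_primeFactors h) sq oD
    rw [c1, b1, sum_insert c1', sum_insert b1'] at this
    rw [ne_sum S κ _ 0 1 2 (by decide)]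
    linear_combination this - add_self (∑ q ∈ S with κ q = 2, al q p)
  have hB : ∀ p ∈ (d.2.1 * Q).primeFactors,
      al R p = ∑ q ∈ S, (if κ q ≠ 1 then al q p else 0) + al n p + al P p := fun p h => by
    have := cong ((add_comm _ _).trans e) (Nat.dvd_of_mem_primeFactors h)
      (by rwa [mul_comm (d.2.1 * Q)]) (by rwa [mul_comm (d.2.1 * Q)])
    rw [c1, a2, sum_insert c1', sum_insert a2', sum_insert a1'] at this
    rw [ne_sum S κ _ 1 0 2 (by decide)]
    linear_combination this - add_self (∑ q ∈ S with κ q = 2, al q p)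
  have hw : (1 : ℝ) / 8 * ∏ p ∈ S, rw (κ p) =
      1 / 2 ^ Fintype.card (Co (d.1 * n * P) (d.2.1 * Q) (d.2.2 * R) Q) := by
    have : ∀ i, rw i = (1 / 2) ^ if i = 1 then 2 else 1 := fun i => by
      unfold rw; split_ifs <;> norm_num
    simp only [this]
    rw [hc, prod_pow_eq_pow_sum, ← one_div_pow, pow_add]
    norm_num
  have QS : Q ∉ S := fun h => m4 (by simp [h])
  have PS : P ∉ S := fun h => m2 (by simp [h])
  rw [Ker, p1]
  simp only [form hK]
  rw [pairs hK fun w => (sg (∑ p ∈ insert R (insert P (insert n S)),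
      ∑ q ∈ insert R (insert P (insert n S)),
        Nn (d.1 * n * P) (d.2.1 * Q) p q * psi (w p) (w q)) : ℝ), SF_insert m3, Idx, sum_product,
    sum_product, sum_div, kR]
  refine sum_congr rfl fun c hc' => ?_
  rw [SF_insert m2, sum_product, sum_comm, sum_div, kP]
  refine sum_congr rfl fun b hb => ?_
  rw [SF_insert m1, sum_div, kn]
  refine sum_congr rfl fun a ha => ?_
  rw [SF, sum_div, show (fun p : S => pl (col p)) = fun p : S => pl (κ p) from
    funext fun p => by rw [kS p p.2]]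
  refine sum_congr rfl fun g hg => ?_
  rw [phase (κ := κ) (Q := Q) (N := Nn (d.1 * n * P) (d.2.1 * Q)) (v := ex S g) m1 m2 m3
    (fun p h => (ex_mem g ⟨p, h⟩).symm ▸ Fintype.mem_piFinset.1 hg ⟨p, h⟩) ha hb hc'
    (fun p q h => if_neg h) (fun p h => G.recip.1 p (pS p h).1) (fun p h k => ?_)
    (fun q h => sym n q hn n4 (pS q h).1 (pS q h).2 fun k => m1 (k ▸ h))
    (fun q h => sym P q hP P4 (pS q h).1 (pS q h).2 fun k => PS (k ▸ h))
    (sym n P hn n4 hP oP fun k => m2 (by simp [k]))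
    (fun p h k => hA p (by simp [a2, h, k])) (fun p h k => hB p (by simp [b1, h, k]))
    (hA n (by simp [a2])) (hA P (by simp [a2]))]
  · simp only [sg_add]
    rw [sg_P oQ (cop Q hQ QS), sg_P oN (cop n hn m1), sg_P oP (cop P hP PS),
      sg_mul oQ oN ((Nat.coprime_primes hQ hn).2 fun k => m4 (by simp [k])),
      sg_mul oQ oP ((Nat.coprime_primes hQ hP).2 fun k => m4 (by simp [k])), si, hw, chi,
      if_pos (And.intro n4 P4)]
    simp only [decide_eq_true_eq, E0, mx, my]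
    push_cast
    ring
  · rw [Nn, if_pos rfl, rho, cAB.primeFactors_mul, sum_union cAB.disjoint_primeFactors, a2, b1,
      sum_insert a2', sum_insert a1', sum_insert b1', ne_sum S κ _ 2 0 1 (by decide)]
    ring

end Ex

open Ex in
theorem exp : ExpS := fun hpar d _ od =>
  ⟨Idx (pr d).primeFactors (cl d), inferInstance,
    fun i => si (pr d).primeFactors (cl d) i.1.1.1 (ex _ i.1.2),
    fun i => mx (pr d).primeFactors (cl d) i.1.1.1 (ex _ i.1.2),
    fun i => my (pr d).primeFactors (cl d) i.1.1.2.1 i.1.1.1 (ex _ i.1.2),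
    fun i => my (pr d).primeFactors (cl d) i.1.1.2.2 i.1.1.1 (ex _ i.1.2),
    fun i => decide (psi i.1.1.2.1 i.1.1.1 = 1), fun i => decide (psi i.1.1.2.2 i.1.1.1 = 1),
    (sum_coe_sort _ fun i : (V4 × V4 × V4) × ((pr d).primeFactors → V4) =>
      |si (pr d).primeFactors (cl d) i.1.1 (ex _ i.2)|).trans_le (size _ _),
    fun i => by
      have h := i.2
      simp only [Idx, mem_product, Fintype.mem_piFinset] at h
      exact ch (fun p hp => (ex_mem i.1.2 ⟨p, hp⟩).symm ▸ h.2 ⟨p, hp⟩) h.1.2.1 h.1.2.2 _,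
    by
      rw [Sd, ← triv fun p => Nat.prime_of_mem_primeFactors, ← sum_coe_sort (Idx _ _)],
    fun n P Q R hn hP hQ hR n4 P4 sq o e => by
      have := main hpar od hn hP hQ hR n4 P4 sq o e
      rwa [← sum_coe_sort (Idx _ _)] at this⟩

end Pool.Agent.Lib.MP_d6ddbd_nt.L
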