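import Pool.Agent.Lib.MP_d6ddbd_nt.L.St
import Pool.Agent.Lib.MP_d6ddbd_nt.G.Fin

/-! The Legendre family: the descent. -/

open Height

noncomputable section

namespace Pool.Agent.Lib.MP_d6ddbd_nt.L

namespace FinL

open G.FinAux (fin_of_inj ht_two)

variable {a b x y : ℚ}

/-- The first coordinate of the double. -/
def dl (a b x : ℚ) : ℚ := (x ^ 2 + a * b) ^ 2 / (4 * (x * (x - b) * (x + a)))

theorem ne_of (h : x * (x - b) * (x + a) ≠ 0) : x ≠ 0 ∧ x - b ≠ 0 ∧ x + a ≠ 0 :=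
  ⟨left_ne_zero_of_mul (left_ne_zero_of_mul h), right_ne_zero_of_mul (left_ne_zero_of_mul h),
    right_ne_zero_of_mul h⟩

theorem ht_dl (ha : 0 < a) (hb : 0 < b) : ∃ C : ℝ, ∀ x : ℚ, x * (x - b) * (x + a) ≠ 0 →
    C + 4 * logHeight₁ x ≤ logHeight₁ (dl a b x) := by
  obtain ⟨C1, h1⟩ := ht_two (a - b) (-(a * b)) 1 (neg_ne_zero.2 (by positivity)) one_ne_zero
  obtain ⟨C2, h2⟩ := ht_two (-2 * (a - b)) ((a + b) ^ 2) 4 (by positivity) (by norm_num)
  refine ⟨C2 + 2 * C1, fun x hx => ?_⟩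
  obtain ⟨x0, x1, x2⟩ := ne_of hx
  have a1 := h1 x
  have e : (x ^ 2 + (a - b) * x + -(a * b)) / (1 * x) = (x - b) * (x + a) / x := by ring
  rw [e] at a1
  have a2 := h2 ((x - b) * (x + a) / x)
  have e2 : (((x - b) * (x + a) / x) ^ 2 + -2 * (a - b) * ((x - b) * (x + a) / x) + (a + b) ^ 2) /
      (4 * ((x - b) * (x + a) / x)) = dl a b x := by
    unfold dl
    field_simp
    ring
  rw [e2] at a2
  linarith

theorem half (ha : 0 < a) (hb : 0 < b) (hy : y ≠ 0) (h : y ^ 2 = x * (x - b) * (x + a))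
    (hr : IsSquare x) (hs : IsSquare (x + a)) :
    ∃ u v : ℚ, v ≠ 0 ∧ v ^ 2 = u * (u - b) * (u + a) ∧ dl a b u = x := by
  obtain ⟨x0, x1, x2⟩ := ne_of (h ▸ pow_ne_zero 2 hy)
  obtain ⟨r, hr⟩ := hr
  obtain ⟨s, hs⟩ := hs
  have r0 : r ≠ 0 := fun e => x0 (by rw [hr, e, mul_zero])
  have s0 : s ≠ 0 := fun e => x2 (by rw [hs, e, mul_zero])
  obtain ⟨t, ht⟩ : ∃ t : ℚ, x - b = t ^ 2 := by
    refine ⟨y / (r * s), ?_⟩
    rw [div_pow, h, hs, eq_div_iff (by positivity)]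
    linear_combination (-(x - b) * s ^ 2) * hr
  have n1 : r + s ≠ 0 := fun h0 => ha.ne' (by linear_combination hs - hr + (s - r) * h0)
  have n2 : r + t ≠ 0 := fun h0 => hb.ne' (by linear_combination hr - ht + (r - t) * h0)
  have n3 : s + t ≠ 0 := fun h0 =>
    (add_pos ha hb).ne' (by linear_combination hs - ht + (s - t) * h0)
  have u1 : (r + s) * (r + t) + a = (r + s) * (s + t) := by linear_combination hs - hr
  have u2 : (r + s) * (r + t) - b = (r + t) * (s + t) := by linear_combination ht - hr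
  have u3 : ((r + s) * (r + t)) ^ 2 + a * b = 2 * r * ((r + s) * (r + t) * (s + t)) := by
    linear_combination b * (hs - hr) + (s ^ 2 - r ^ 2) * (hr - ht)
  refine ⟨(r + s) * (r + t), (r + s) * (r + t) * (s + t),
    mul_ne_zero (mul_ne_zero n1 n2) n3, ?_, ?_⟩
  · rw [u1, u2]
    ring
  · unfold dl
    rw [u1, u2, u3, hr]
    field_simp
    ring

theorem fin0 (ha : 0 < a) (hb : 0 < b)
    (H : ∀ x y : ℚ, y ≠ 0 → y ^ 2 = x * (x - b) * (x + a) → ∃ u v : ℚ, v ≠ 0 ∧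
      v ^ 2 = u * (u - b) * (u + a) ∧ dl a b u = dl a b x ∧ IsSquare u ∧ IsSquare (u + a)) :
    {P : ℚ × ℚ | P.2 ^ 2 = P.1 * (P.1 - b) * (P.1 + a)}.Finite := by
  let U : Set ℚ := {u | ∃ x y : ℚ, y ≠ 0 ∧ y ^ 2 = x * (x - b) * (x + a) ∧ dl a b x = u}
  have key : ∀ u ∈ U, ∃ w ∈ U, dl a b w = u ∧ w * (w - b) * (w + a) ≠ 0 := by
    rintro _ ⟨x, y, hy, hx, rfl⟩
    obtain ⟨u, v, hv, hu, e, h1, h2⟩ := H x y hy hx
    exact ⟨u, half ha hb hv hu h1 h2, e, hu ▸ pow_ne_zero 2 hv⟩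
  choose! s hs using key
  obtain ⟨C, hC⟩ := ht_dl ha hb
  have hU : U.Finite := fin_of_inj (C := C) s (fun u hu => (hs u hu).1)
    (fun u hu v hv e => by rw [← (hs u hu).2.1, e, (hs v hv).2.1])
    (fun u hu => by have := hC _ (hs u hu).2.2; rwa [(hs u hu).2.1] at this)
  obtain ⟨R, hR⟩ := (hU.image (logHeight₁ : ℚ → ℝ)).bddAbove
  have hX : ({x : ℚ | logHeight₁ x ≤ (R - C) / 4} ∪ {0, b, -a}).Finite :=
    (Northcott.finite_le _).union (Set.toFinite _)
  have hY : ∀ x : ℚ,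
      {P : ℚ × ℚ | P.2 ^ 2 = P.1 * (P.1 - b) * (P.1 + a) ∧ P.1 = x}.Finite := by
    intro x
    rcases Set.eq_empty_or_nonempty
      {P : ℚ × ℚ | P.2 ^ 2 = P.1 * (P.1 - b) * (P.1 + a) ∧ P.1 = x} with h | ⟨⟨_, y⟩, hy, rfl⟩
    · rw [h]; exact Set.finite_empty
    · rename_i x
      refine (Set.toFinite {(x, y), (x, -y)}).subset ?_
      rintro ⟨_, z⟩ ⟨hz, rfl⟩
      rcases sq_eq_sq_iff_eq_or_eq_neg.1 (show z ^ 2 = y ^ 2 from hz.trans (Eq.symm hy)) with
        rfl | rfl <;> simp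
  refine (hX.biUnion fun x _ => hY x).subset ?_
  rintro ⟨x, y⟩ hx
  simp only [Set.mem_iUnion]
  refine ⟨x, ?_, hx, rfl⟩
  have h1 : y ^ 2 = x * (x - b) * (x + a) := hx
  by_cases hy : y = 0
  · right
    have h2 : x * (x - b) * (x + a) = 0 := by rw [← h1, hy]; ring
    rcases mul_eq_zero.1 h2 with h | h
    · rcases mul_eq_zero.1 h with h | h
      · simp [h]
      · simp [sub_eq_zero.1 h]
    · simp [eq_neg_of_add_eq_zero_left h]
  · left
    have a1 := hC x (h1 ▸ pow_ne_zero 2 hy)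
    have a2 := hR ⟨dl a b x, ⟨x, y, hy, hx, rfl⟩, rfl⟩
    show logHeight₁ x ≤ _
    linarith

theorem tr0 (hx : x * (x - b) * (x + a) ≠ 0) (ha : a ≠ 0) (hb : b ≠ 0)
    (h : y ^ 2 = x * (x - b) * (x + a)) :
    (a * b * y / x ^ 2) ^ 2 = -(a * b) / x * (-(a * b) / x - b) * (-(a * b) / x + a) ∧
      dl a b (-(a * b) / x) = dl a b x := by
  obtain ⟨x0, x1, x2⟩ := ne_of hx
  have u1 : -(a * b) / x + a = a * (x - b) / x := by field_simp; ring
  have u2 : -(a * b) / x - b = -b * (x + a) / x := by field_simp; ring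
  unfold dl
  rw [u1, u2, div_pow, mul_pow, h]
  constructor <;> field_simp
  ring

theorem tr1 (hx : x * (x - b) * (x + a) ≠ 0) (hb : b ≠ 0) (hc : a + b ≠ 0)
    (h : y ^ 2 = x * (x - b) * (x + a)) :
    (b * (a + b) * y / (x - b) ^ 2) ^ 2 =
        b * (x + a) / (x - b) * (b * (x + a) / (x - b) - b) * (b * (x + a) / (x - b) + a) ∧
      dl a b (b * (x + a) / (x - b)) = dl a b x := by
  obtain ⟨x0, x1, x2⟩ := ne_of hx
  have u1 : b * (x + a) / (x - b) + a = (a + b) * x / (x - b) := by field_simp; ring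
  have u2 : b * (x + a) / (x - b) - b = b * (a + b) / (x - b) := by field_simp; ring
  unfold dl
  rw [u1, u2, div_pow, mul_pow, h]
  constructor <;> field_simp
  ring

theorem tr2 (hx : x * (x - b) * (x + a) ≠ 0) (ha : a ≠ 0) (hc : a + b ≠ 0)
    (h : y ^ 2 = x * (x - b) * (x + a)) :
    (a * (a + b) * y / (x + a) ^ 2) ^ 2 =
        -a * (x - b) / (x + a) * (-a * (x - b) / (x + a) - b) * (-a * (x - b) / (x + a) + a) ∧
      dl a b (-a * (x - b) / (x + a)) = dl a b x := by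
  obtain ⟨x0, x1, x2⟩ := ne_of hx
  have u1 : -a * (x - b) / (x + a) + a = a * (a + b) / (x + a) := by field_simp; ring
  have u2 : -a * (x - b) / (x + a) - b = -(a + b) * x / (x + a) := by field_simp; ring
  unfold dl
  rw [u1, u2, div_pow, mul_pow, h]
  constructor <;> field_simp
  ring

end FinL

open FinL in
theorem fin : FinS := by
  intro hD A B hG
  obtain ⟨C, Q, -, h0, -⟩ := id hG
  have hA : (0 : ℚ) < A := by
    exact_mod_cast Nat.pos_of_ne_zero (left_ne_zero_of_mul (left_ne_zero_of_mul h0.ne_zero))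
  have hB : (0 : ℚ) < B := by
    exact_mod_cast Nat.pos_of_ne_zero (right_ne_zero_of_mul (left_ne_zero_of_mul h0.ne_zero))
  have h := fin0 (a := A * B) (b := B ^ 2) (by positivity) (by positivity) fun x y hy h => by
    have hx : x * (x - B ^ 2) * (x + A * B) ≠ 0 := h ▸ pow_ne_zero 2 hy
    obtain ⟨x0, x1, x2⟩ := ne_of hx
    rcases hD A B hG x y hy h with e | ⟨⟨r, hr⟩, s, hs⟩ | ⟨⟨r, hr⟩, s, hs⟩ | ⟨⟨r, hr⟩, s, hs⟩
    · exact ⟨x, y, hy, h, rfl, e⟩
    · obtain ⟨a1, a2⟩ := tr0 hx (by positivity) (by positivity) h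
      refine ⟨_, _, by positivity, a1, a2, ⟨B * r / x, ?_⟩, s * y / (x * (x + A * B)), ?_⟩
      · field_simp
        linear_combination hr
      · field_simp
        linear_combination y ^ 2 * hs - A * B * (x + A * B) * h
    · obtain ⟨a1, a2⟩ := tr1 hx (by positivity) (by positivity) h
      refine ⟨_, _, by positivity, a1, a2, ⟨B * r * y / (x * (x - B ^ 2)), ?_⟩,
        s * y / ((x - B ^ 2) * (x + A * B)), ?_⟩
      · field_simp
        linear_combination y ^ 2 * hr - x * h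
      · have x3 : x + B * A ≠ 0 := by rwa [mul_comm]
        field_simp
        linear_combination y ^ 2 * hs - B * (A + B) * (x + A * B) * h
    · obtain ⟨a1, a2⟩ := tr2 hx (by positivity) (by positivity) h
      refine ⟨_, _, by positivity, a1, a2, ⟨r * y / (x * (x + A * B)), ?_⟩,
        B * s / (x + A * B), ?_⟩
      · field_simp
        linear_combination y ^ 2 * hr + A * B * x * h
      · field_simp
        linear_combination B * hs
  refine (h.preimage (f := fun P : ℚ × ℚ => (B ^ 2 * P.1, B ^ 3 * P.2)) fun P _ P' _ e => ?_).subset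
    fun P hP => ?_
  · obtain ⟨e1, e2⟩ := Prod.mk.inj e
    exact Prod.ext (mul_left_cancel₀ (by positivity) e1) (mul_left_cancel₀ (by positivity) e2)
  · have h1 : P.2 ^ 2 = P.1 * (P.1 - 1) * (P.1 + A / B) := hP
    show (B ^ 3 * P.2) ^ 2 = B ^ 2 * P.1 * (B ^ 2 * P.1 - B ^ 2) * (B ^ 2 * P.1 + A * B)
    rw [mul_pow, h1]
    field_simp

end Pool.Agent.Lib.MP_d6ddbd_nt.L
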