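import Pool.Agent.Lib.MP_d6ddbd_nt.L.St
import Pool.Agent.Lib.MP_d6ddbd_nt.G.Bil

/-! Oscillation of the Jacobi symbol along residue classes. -/

open Finset Pool.Agent.Lib.MP_164d34_nt.Fam

noncomputable section

namespace Pool.Agent.Lib.MP_d6ddbd_nt.L

open G.BilAux

namespace Jb

theorem fib {sN : Finset ℕ} (h : ∀ ν ∈ sN, ν.Prime) (w : ℕ) :
    #{x ∈ Fintype.piFinset fun _ : Fin 6 => sN | ∏ i, x i = w} ≤ 6 ^ 6 := by
  rcases {x ∈ Fintype.piFinset fun _ : Fin 6 => sN | ∏ i, x i = w}.eq_empty_or_nonempty with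
    e | ⟨z, hz⟩
  · simp [e]
  obtain ⟨z1, z2⟩ := mem_filter.1 hz
  refine (card_le_card (t := Fintype.piFinset fun _ : Fin 6 => univ.image z) fun x hx => ?_).trans ?_
  · obtain ⟨x1, x2⟩ := mem_filter.1 hx
    refine Fintype.mem_piFinset.2 fun i => ?_
    have p := h _ (Fintype.mem_piFinset.1 x1 i)
    obtain ⟨j, -, e⟩ := (p.prime.dvd_finsetProd_iff z).1
      ((x2.trans z2.symm) ▸ dvd_prod_of_mem x (mem_univ i))
    exact mem_image.2 ⟨j, mem_univ _,
      ((Nat.prime_dvd_prime_iff_eq p (h _ (Fintype.mem_piFinset.1 z1 j))).1 e).symm⟩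
  · rw [Fintype.card_piFinset, prod_const, card_univ, Fintype.card_fin]
    exact Nat.pow_le_pow_left (card_image_le.trans (by simp)) 6

theorem mom {sN s : Finset ℕ} {N E : ℕ} {g : ℕ → ℝ} (h : ∀ ν ∈ sN, ν.Prime ∧ ν ≤ N) (N1 : 1 ≤ N)
    (hg : ∀ ν, |g ν| ≤ 1) (hs : ∀ k ∈ s, Squarefree k ∧ Odd k ∧ k ≤ E) (hE : E ^ 2 ≤ N ^ 6) :
    ∑ k ∈ s, |∑ ν ∈ sN, g ν * jacobiSym ν k| ^ 12 ≤ (4 * N) ^ 12 := by
  have hs' : s ⊆ Icc 1 E := fun k hk => mem_Icc.2 ⟨(hs k hk).2.1.pos, (hs k hk).2.2⟩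
  set P := Fintype.piFinset fun _ : Fin 6 => sN with hP
  have mp : ∀ x ∈ P, ∏ i, x i ∈ range (N ^ 6 + 1) := fun x hx => mem_range.2 (Nat.lt_succ_of_le
    ((prod_le_pow_card _ _ N fun i _ => (h _ (Fintype.mem_piFinset.1 hx i)).2).trans_eq (by simp)))
  let c : ℕ → ℝ := fun w => ∑ x ∈ P with ∏ i, x i = w, ∏ i, g (x i)
  have h2 := MP_f64879_nt.ls_mul (fun w => (c w : ℂ)) (range (N ^ 6 + 1)) subset_rfl E
  have h3 : ∑ k ∈ s, |∑ ν ∈ sN, g ν * jacobiSym ν k| ^ 12 ≤ ∑ f ∈ Icc 1 E, ∑ χ ∈ prim f,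
      ‖∑ w ∈ range (N ^ 6 + 1), (c w : ℂ) * χ w‖ ^ 2 := by
    refine le_trans (sum_le_sum fun k hk => ?_) (sum_le_sum_of_subset_of_nonneg hs'
      fun _ _ _ => sum_nonneg fun _ _ => sq_nonneg _)
    have : NeZero k := ⟨(hs k hk).2.1.pos.ne'⟩
    refine le_trans (le_of_eq ?_) (single_le_sum (f := fun χ : DirichletCharacter ℂ k =>
      ‖∑ w ∈ range (N ^ 6 + 1), (c w : ℂ) * χ w‖ ^ 2) (fun _ _ => sq_nonneg _)
      (g2_prim.2 (jc_prim k (hs k hk).1 (hs k hk).2.1)))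
    have h4 : ∑ w ∈ range (N ^ 6 + 1), (c w : ℂ) * jc k w =
        (((∑ ν ∈ sN, g ν * jacobiSym ν k) ^ 6 : ℝ) : ℂ) := by
      rw [sum_pow', ← sum_fiberwise_of_maps_to mp, Complex.ofReal_sum]
      refine sum_congr rfl fun w _ => ?_
      rw [Complex.ofReal_sum, Complex.ofReal_sum, sum_mul]
      refine sum_congr rfl fun x hx => ?_
      rw [← (mem_filter.1 hx).2, Nat.cast_prod, map_prod, prod_mul_distrib]
      simp only [jc_apply]
      push_cast
      rfl
    rw [h4, Complex.norm_real, Real.norm_eq_abs, abs_pow, ← pow_mul]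
  have h4 : ∑ w ∈ range (N ^ 6 + 1), ‖(c w : ℂ)‖ ^ 2 ≤ 6 ^ 6 * N ^ 6 := by
    have a : #P ≤ N ^ 6 := by
      rw [hP, Fintype.card_piFinset, prod_const, card_univ, Fintype.card_fin]
      exact Nat.pow_le_pow_left ((card_le_card (t := Icc 1 N) fun ν hν =>
        mem_Icc.2 ⟨(h ν hν).1.one_le, (h ν hν).2⟩).trans (by simp)) 6
    rw [card_eq_sum_card_fiberwise mp] at a
    refine le_trans (sum_le_sum (g := fun w => 6 ^ 6 * (#{x ∈ P | ∏ i, x i = w} : ℝ))
      fun w _ => ?_) ?_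
    · have b : ‖(c w : ℂ)‖ ≤ #{x ∈ P | ∏ i, x i = w} := by
        rw [Complex.norm_real, Real.norm_eq_abs]
        refine (abs_sum_le_sum_abs _ _).trans ((sum_le_card_nsmul _ _ 1 fun x _ => ?_).trans
          (by simp))
        rw [abs_prod]
        exact prod_le_one (fun _ _ => abs_nonneg _) fun _ _ => hg _
      rw [sq]
      exact mul_le_mul (b.trans (by exact_mod_cast fib (fun ν hν => (h ν hν).1) w)) b
        (norm_nonneg _) (by norm_num)
    · rw [← mul_sum]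
      exact mul_le_mul_of_nonneg_left (by exact_mod_cast a) (by norm_num)
  refine h3.trans (h2.trans ((mul_le_mul_of_nonneg_left h4 (by positivity)).trans ?_))
  have e1 : (E : ℝ) ^ 2 ≤ N ^ 6 := by exact_mod_cast hE
  have e2 : (1 : ℝ) ≤ N ^ 6 := one_le_pow₀ (by exact_mod_cast N1)
  push_cast
  calc _ ≤ 22 * (4 * (N : ℝ) ^ 6) * (6 ^ 6 * N ^ 6) := by
        gcongr
        linarith
    _ = 22 * 4 * 6 ^ 6 * (N : ℝ) ^ 12 := by ring
    _ ≤ _ := by
        rw [mul_pow]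
        gcongr
        norm_num

theorem cls {Y y : ℕ} (r : ℕ) (hy : y ≤ Y) (s : ℕ) :
    (#{R ∈ range y | R % r = s} : ℝ) ≤ Y / r + 1 := by
  have : #{R ∈ range y | R % r = s} ≤ #(range (Y / r + 1)) :=
    card_le_card_of_injOn (· / r) (fun R hR => mem_coe.2 (mem_range.2 (Nat.lt_succ_of_le
      (Nat.div_le_div_right ((mem_range.1 (mem_filter.1 hR).1).le.trans hy)))))
      fun a ha b hb e => by
        rw [← Nat.div_add_mod a r, ← Nat.div_add_mod b r, (mem_filter.1 ha).2,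
          (mem_filter.1 hb).2, show a / r = b / r from e]
  rw [card_range] at this
  refine (Nat.cast_le.2 this).trans ?_
  push_cast
  exact add_le_add Nat.cast_div_le le_rfl

end Jb

open Jb in
theorem jb : JbS := by
  refine ⟨4, by norm_num, fun Y y r N sN a hr hy hY hN ha hp => ?_⟩
  rcases sN.eq_empty_or_nonempty with rfl | ⟨ν₀, h₀⟩
  · rw [sum_empty]
    positivity
  have N1 : 1 ≤ N := (hN _ h₀).1.one_le.trans (hN _ h₀).2.2
  obtain ⟨M, hM⟩ : ∃ M : ℝ, M = Y / r + 1 := ⟨_, rfl⟩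
  have M0 : 0 < M := by rw [hM]; positivity
  simp only [Var, ← hM]
  rw [sum_comm]
  refine (sum_le_card_nsmul _ _ (4 * N * M ^ (23 / 12 : ℝ)) fun s _ => ?_).trans_eq
    (by rw [card_range, nsmul_eq_mul]; ring)
  set S := {R ∈ {R ∈ range y | R % r = s} | a R ≠ 0} with hS
  have c : (#S : ℝ) ≤ M := (Nat.cast_le.2 (card_filter_le _ _)).trans (hM ▸ cls r hy s)
  let T : ℕ → ℝ := fun ν => ∑ R ∈ S, a R * jacobiSym R ν
  let g : ℕ → ℝ := fun ν => if 0 ≤ T ν then 1 else -1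
  have m := mom (s := S) (g := g) (E := Y) (fun ν h => ⟨(hN ν h).1, (hN ν h).2.2⟩) N1
    (fun ν => by simp only [g]; split_ifs <;> simp) (fun k hk => by
      obtain ⟨k1, k2⟩ := mem_filter.1 hk
      exact ⟨(hp k k2).1.squarefree, (hp k k2).1.odd_of_ne_two (hp k k2).2,
        (mem_range.1 (mem_filter.1 k1).1).le.trans hy⟩) hY
  have b : ∑ k ∈ S, |∑ ν ∈ sN, g ν * jacobiSym ν k| ≤ 4 * N * M ^ (11 / 12 : ℝ) := by
    refine le_of_pow_le_pow_left₀ (n := 12) (by norm_num) (by positivity)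
      ((pow_sum_le_card_mul_sum_pow (fun _ _ => abs_nonneg _) 11).trans ?_)
    rw [mul_pow (4 * N : ℝ), ← Real.rpow_natCast (M ^ _), ← Real.rpow_mul M0.le, mul_comm,
      show (11 / 12 : ℝ) * (12 : ℕ) = (11 : ℕ) by norm_num, Real.rpow_natCast]
    gcongr
  calc _ ≤ ∑ ν ∈ sN, M * (g ν * T ν) := sum_le_sum fun ν _ => by
        have e : ∑ R ∈ range y with R % r = s, a R * jacobiSym R ν = T ν :=
          (sum_filter_of_ne fun R _ h => left_ne_zero_of_mul h).symm
        have e1 : g ν * T ν = |T ν| := by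
          simp only [g]
          split_ifs with h
          · rw [one_mul, abs_of_nonneg h]
          · rw [neg_one_mul, abs_of_neg (not_le.1 h)]
        rw [e, e1, ← sq_abs, sq]
        refine mul_le_mul_of_nonneg_right ((abs_sum_le_sum_abs _ _).trans
          ((sum_le_card_nsmul _ _ 1 fun R _ => ?_).trans (by simpa using c))) (abs_nonneg _)
        rw [abs_mul]
        exact mul_le_one₀ (ha _) (abs_nonneg _) (abs_jac _ _)
    _ ≤ M * (4 * N * M ^ (11 / 12 : ℝ)) := by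
        rw [← mul_sum]
        refine mul_le_mul_of_nonneg_left (le_trans ?_ b) M0.le
        simp only [T, mul_sum]
        rw [sum_comm]
        refine sum_le_sum fun k hk => ?_
        have k2 := hp k (mem_filter.1 hk).2
        calc _ = a k * ∑ ν ∈ sN, g ν * jacobiSym ν k := by
              rw [mul_sum]
              refine sum_congr rfl fun ν h => ?_
              rw [jacobiSym.quadratic_reciprocity_one_mod_four (hN ν h).2.1
                (k2.1.odd_of_ne_two k2.2)]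
              ring
          _ ≤ _ := (le_abs_self _).trans (by
              rw [abs_mul]
              exact mul_le_of_le_one_left (abs_nonneg _) (ha k))
    _ = _ := by
        rw [show (23 / 12 : ℝ) = 1 + 11 / 12 by norm_num, Real.rpow_add M0, Real.rpow_one]
        ring

end Pool.Agent.Lib.MP_d6ddbd_nt.L
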