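import Pool.Agent.Lib.MP_d6ddbd_nt.L.Kap

/-! The Legendre family: the model of the primes by Ramanujan sums. -/

open Finset Filter ArithmeticFunction
open scoped ArithmeticFunction.Moebius

noncomputable section

namespace Pool.Agent.Lib.MP_d6ddbd_nt.L

namespace LamA

lemma mob {q d : ℕ} (hq : q ≠ 0) :
    ∑ r ∈ q.divisors, (if d ∣ r then (μ (q / r) : ℝ) else 0) = if q = d then 1 else 0 := by
  by_cases h : d ∣ q
  · obtain ⟨k, rfl⟩ := h
    have d0 : 0 < d := Nat.pos_of_mul_pos_right hq.bot_lt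
    have k0 : k ≠ 0 := right_ne_zero_of_mul hq
    have e := congrArg (fun F : ArithmeticFunction ℝ => F k) coe_moebius_mul_coe_zeta
    simp only [coe_mul_zeta_apply, intCoe_apply, one_apply] at e
    rw [← sum_filter, show (if d * k = d then (1 : ℝ) else 0) = if k = 1 then 1 else 0 from
      if_congr (mul_eq_left₀ d0.ne') rfl rfl, ← e, ← Nat.sum_div_divisors k fun r => (μ r : ℝ)]
    symm
    refine sum_nbij' (fun s => d * s) (fun r => r / d) (fun s hs => ?_) (fun r hr => ?_)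
      (fun s _ => Nat.mul_div_cancel_left _ d0) (fun r hr => Nat.mul_div_cancel' (mem_filter.1 hr).2)
      fun s _ => by rw [Nat.mul_div_mul_left _ _ d0]
    · exact mem_filter.2 ⟨Nat.mem_divisors.2
        ⟨Nat.mul_dvd_mul_left d (Nat.dvd_of_mem_divisors hs), hq⟩, dvd_mul_right _ _⟩
    · obtain ⟨a, s, rfl⟩ := mem_filter.1 hr
      rw [Nat.mul_div_cancel_left _ d0]
      exact Nat.mem_divisors.2 ⟨Nat.dvd_of_mul_dvd_mul_left d0 (Nat.dvd_of_mem_divisors a), k0⟩
  · rw [if_neg fun e : q = d => h (e ▸ dvd_rfl)]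
    exact sum_eq_zero fun r hr => if_neg fun e => h (e.trans (Nat.dvd_of_mem_divisors hr))

lemma reidx {M : Type} [AddCommMonoid M] (F : ℕ → M) {r : ℕ} (hr : 0 < r) (y : ℕ) :
    ∑ R ∈ range y, (if r ∣ R then F R else 0) = ∑ k ∈ range ((y + r - 1) / r), F (r * k) := by
  rw [← sum_filter]
  symm
  refine sum_nbij' (fun k => r * k) (fun R => R / r) (fun k hk => ?_) (fun R hR => ?_)
    (fun s _ => Nat.mul_div_cancel_left _ hr) (fun R hR => Nat.mul_div_cancel' (mem_filter.1 hR).2)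
    fun _ _ => rfl
  · have := (Nat.le_div_iff_mul_le hr).1 (mem_range.1 hk)
    rw [Nat.succ_mul, mul_comm] at this
    exact mem_filter.2 ⟨mem_range.2 (by omega), dvd_mul_right _ _⟩
  · obtain ⟨a, k, rfl⟩ := mem_filter.1 hR
    rw [Nat.mul_div_cancel_left _ hr]
    refine mem_range.2 ((Nat.le_div_iff_mul_le hr).2 ?_)
    have := mem_range.1 a
    rw [Nat.succ_mul, mul_comm]
    omega

lemma ceil_near {r : ℕ} (hr : 0 < r) (y : ℕ) : |(((y + r - 1) / r : ℕ) : ℝ) - y / r| ≤ 1 := by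
  have a := Nat.div_add_mod (y + r - 1) r
  have b := Nat.mod_lt (y + r - 1) hr
  generalize (y + r - 1) / r = K at a ⊢
  have r0 : (0 : ℝ) < r := by exact_mod_cast hr
  have c : (y : ℝ) ≤ r * K := by exact_mod_cast (by omega : y ≤ r * K)
  have d : (r * K : ℝ) ≤ y + r := by exact_mod_cast (by omega : r * K ≤ y + r)
  have e : (y : ℝ) / r ≤ K := by rw [div_le_iff₀ r0]; linarith
  have f : (K : ℝ) - 1 ≤ y / r := by rw [le_div_iff₀ r0]; linarith
  rw [abs_le]
  constructor <;> linarith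

lemma cnt {r : ℕ} (hr : 0 < r) (y : ℕ) :
    |∑ R ∈ range y, (if r ∣ R then (1 : ℝ) else 0) - y / r| ≤ 1 := by
  rw [reidx (fun _ => (1 : ℝ)) hr]
  simpa using ceil_near hr y

lemma geo {w : ℂ} {f r : ℕ} (hw : IsPrimitiveRoot w f) (hf : 1 ≤ f) (hr : 0 < r) (y : ℕ) :
    ‖∑ R ∈ range y, (if r ∣ R then w ^ R else 0) - (if f ∣ r then (y : ℂ) / r else 0)‖ ≤ f := by
  rw [reidx (fun R => w ^ R) hr]
  simp only [pow_mul]
  split_ifs with h
  · rw [(hw.pow_eq_one_iff_dvd r).2 h]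
    simp only [one_pow, sum_const, card_range, nsmul_eq_mul, mul_one]
    have := ceil_near hr y
    rw [← Real.norm_eq_abs, ← Complex.norm_real] at this
    push_cast at this
    exact this.trans (by exact_mod_cast hf)
  · have z1 : w ^ r ≠ 1 := fun e => h ((hw.pow_eq_one_iff_dvd r).1 e)
    have z2 : (w ^ r) ^ f = 1 := by rw [← pow_mul, mul_comm, pow_mul, hw.pow_eq_one, one_pow]
    have z3 : ‖w ^ r‖ = 1 := by rw [norm_pow, hw.norm'_eq_one (by omega), one_pow]
    rw [sub_zero, geom_sum_eq z1, pow_eq_pow_mod _ z2, ← geom_sum_eq z1]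
    refine (norm_sum_le _ _).trans ?_
    simp only [norm_pow (w ^ r), z3, one_pow, sum_const, card_range, nsmul_eq_mul, mul_one]
    exact_mod_cast (Nat.mod_lt _ hf).le

/-- The index set. -/
def T (V : ℕ) : Finset (Σ _ : ℕ, ℕ) := (Icc 1 V).sigma fun q => q.divisors

/-- The coefficients. -/
def b (x : Σ _ : ℕ, ℕ) : ℝ := (μ x.1 : ℝ) / x.1.totient * ((μ (x.1 / x.2) : ℝ) * x.2)

lemma lam_eq (V R : ℕ) : lam V R = ∑ x ∈ T V, b x * if x.2 ∣ R then 1 else 0 := by
  rw [lam, T, sum_sigma]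
  refine sum_congr rfl fun q _ => ?_
  rw [sum_filter, mul_sum]
  refine sum_congr rfl fun r _ => ?_
  rw [b]
  split_ifs <;> simp

lemma T_pos {V : ℕ} {x : Σ _ : ℕ, ℕ} (h : x ∈ T V) : 0 < x.2 :=
  Nat.pos_of_mem_divisors (mem_sigma.1 h).2

lemma sig {q : ℕ} (hq : Squarefree q) : (∑ r ∈ q.divisors, (r : ℝ)) / q.totient ≤ 2 * q - 1 := by
  rcases eq_or_ne q 1 with rfl | q1
  · norm_num
  have q2 : (2 : ℝ) ≤ q := by
    have := hq.ne_zero
    exact_mod_cast (by omega : 2 ≤ q)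
  have e := (isMultiplicative_id.natCast (R := ℝ)).prodPrimeFactors_one_add_of_squarefree hq
  simp only [natCoe_apply, id_apply] at e
  rw [← e, KapA.tot_sq hq, ← prod_div_distrib]
  have k : ∏ p ∈ q.primeFactors, (1 + (p : ℝ)) / (p - 1) ≤
      ∏ p ∈ q.primeFactors, ((p : ℝ) * if p = 2 then 3 / 2 else 1) := by
    refine prod_le_prod (fun p hp => ?_) fun p hp => ?_
    · have : (1 : ℝ) < p := by exact_mod_cast (Nat.prime_of_mem_primeFactors hp).one_lt
      exact div_nonneg (by linarith) (by linarith)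
    · split_ifs with h
      · subst h
        norm_num
      · have := (Nat.prime_of_mem_primeFactors hp).two_le
        have : (3 : ℝ) ≤ p := by exact_mod_cast (by omega : 3 ≤ p)
        rw [div_le_iff₀ (by linarith)]
        nlinarith
  rw [prod_mul_distrib, ← Nat.cast_prod, Nat.prod_primeFactors_of_squarefree hq, prod_ite_eq'] at k
  refine k.trans ?_
  split_ifs <;> linarith

lemma sum_b (V : ℕ) : ∑ x ∈ T V, |b x| ≤ V ^ 2 := by
  have h : ∀ n : ℕ, ∑ q ∈ Icc 1 n, (2 * q - 1 : ℝ) = n ^ 2 := fun n => by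
    induction n with
    | zero => simp
    | succ n ih =>
      rw [sum_Icc_succ_top (by omega), ih]
      push_cast
      ring
  rw [← h, T, sum_sigma]
  refine sum_le_sum fun q hq => ?_
  by_cases s : Squarefree q
  · refine le_trans ?_ (sig s)
    rw [sum_div]
    refine sum_le_sum fun r _ => ?_
    have a : |(μ q : ℝ)| ≤ 1 := by exact_mod_cast abs_moebius_le_one
    have c : |(μ (q / r) : ℝ)| ≤ 1 := by exact_mod_cast abs_moebius_le_one
    rw [b, abs_mul, abs_mul, abs_div, Nat.abs_cast, Nat.abs_cast]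
    calc _ ≤ 1 / (q.totient : ℝ) * (1 * r) := by gcongr
      _ = _ := by ring
  · have : (1 : ℝ) ≤ q := by exact_mod_cast (mem_Icc.1 hq).1
    simp only [b, moebius_eq_zero_of_not_squarefree s, Int.cast_zero, zero_div, zero_mul, abs_zero,
      sum_const_zero]
    linarith

lemma mean {V f : ℕ} (h1 : 1 ≤ f) (h2 : f ≤ V) :
    ∑ x ∈ T V, b x * (if f ∣ x.2 then 1 / (x.2 : ℝ) else 0) = (μ f : ℝ) / f.totient := by
  rw [T, sum_sigma]
  have : ∀ q ∈ Icc 1 V, ∑ r ∈ q.divisors, b ⟨q, r⟩ * (if f ∣ r then 1 / (r : ℝ) else 0) =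
      if q = f then (μ q : ℝ) / q.totient else 0 := fun q hq => by
    have q0 : q ≠ 0 := by have := (mem_Icc.1 hq).1; omega
    rw [← mul_boole, ← mob q0, mul_sum]
    refine sum_congr rfl fun r hr => ?_
    have : (r : ℝ) ≠ 0 := by exact_mod_cast (Nat.pos_of_mem_divisors hr).ne'
    rw [b]
    split_ifs
    · field_simp
    · simp
  rw [sum_congr rfl this, sum_ite_eq', if_pos (mem_Icc.2 ⟨h1, h2⟩)]

lemma one (V y f : ℕ) (t : ℤ) (h1 : 1 ≤ f) (h2 : f ≤ V) (ht : IsCoprime t f) :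
    ‖∑ R ∈ range y, (lam V R : ℂ) * Complex.exp (2 * Real.pi * Complex.I * (R * t / f)) -
      (μ f : ℂ) / f.totient * y‖ ≤ V ^ 3 := by
  have hw := Complex.isPrimitiveRoot_exp_of_isCoprime t f (by omega) ht
  set w := Complex.exp (2 * Real.pi * Complex.I * (t / f)) with hw'
  have e1 : ∀ R : ℕ, Complex.exp (2 * Real.pi * Complex.I * (R * t / f)) = w ^ R := fun R => by
    rw [hw', ← Complex.exp_nat_mul]
    congr 1
    ring
  have e2 : (μ f : ℂ) / f.totient * y =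
      ∑ x ∈ T V, (b x : ℂ) * if f ∣ x.2 then (y : ℂ) / x.2 else 0 := by
    have := congrArg (fun a : ℝ => (a : ℂ)) (mean h1 h2)
    simp only [Complex.ofReal_div, Complex.ofReal_intCast, Complex.ofReal_natCast] at this
    rw [← this, Complex.ofReal_sum, sum_mul]
    refine sum_congr rfl fun x _ => ?_
    split_ifs
    · push_cast
      ring
    · simp
  have e3 : ∑ R ∈ range y, (lam V R : ℂ) * Complex.exp (2 * Real.pi * Complex.I * (R * t / f)) =
      ∑ x ∈ T V, (b x : ℂ) * ∑ R ∈ range y, if x.2 ∣ R then w ^ R else 0 := by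
    simp only [e1, lam_eq, Complex.ofReal_sum, sum_mul, mul_sum]
    rw [sum_comm]
    refine sum_congr rfl fun x _ => sum_congr rfl fun R _ => ?_
    split_ifs <;> simp
  rw [e2, e3, ← sum_sub_distrib]
  refine (norm_sum_le _ _).trans ?_
  calc _ ≤ ∑ x ∈ T V, |b x| * V := sum_le_sum fun x hx => by
        rw [← mul_sub, norm_mul, Complex.norm_real, Real.norm_eq_abs]
        exact mul_le_mul_of_nonneg_left ((geo hw h1 (T_pos hx) y).trans (by exact_mod_cast h2))
          (abs_nonneg _)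
    _ ≤ V ^ 2 * V := by
        rw [← sum_mul]
        exact mul_le_mul_of_nonneg_right (sum_b V) (Nat.cast_nonneg _)
    _ = _ := by ring

lemma inv_lcm {V r s : ℕ} (hr : 0 < r) (hs : 0 < s) (h : r ≤ V) :
    1 / (r.lcm s : ℝ) = ∑ d ∈ Icc 1 V, d.totient *
      ((if d ∣ r then 1 / (r : ℝ) else 0) * if d ∣ s then 1 / (s : ℝ) else 0) := by
  have e : ∑ d ∈ Icc 1 V, (d.totient : ℝ) *
      ((if d ∣ r then 1 / (r : ℝ) else 0) * if d ∣ s then 1 / (s : ℝ) else 0) =
      ∑ d ∈ (r.gcd s).divisors, d.totient * (1 / (r : ℝ) * (1 / s)) := by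
    symm
    refine sum_subset_zero_on_sdiff (fun d hd => ?_) (fun d hd => ?_) fun d hd => ?_
    · exact mem_Icc.2 ⟨Nat.pos_of_mem_divisors hd, (Nat.le_of_dvd hr
        ((Nat.dvd_of_mem_divisors hd).trans (Nat.gcd_dvd_left _ _))).trans h⟩
    · have := (mem_sdiff.1 hd).2
      rw [Nat.mem_divisors, Nat.dvd_gcd_iff] at this
      split_ifs with a c
      · exact (this ⟨⟨a, c⟩, (Nat.gcd_pos_of_pos_left _ hr).ne'⟩).elim
      all_goals simp
    · have := Nat.dvd_gcd_iff.1 (Nat.dvd_of_mem_divisors hd)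
      rw [if_pos this.1, if_pos this.2]
  have g : (r.gcd s : ℝ) * r.lcm s = r * s := by exact_mod_cast Nat.gcd_mul_lcm r s
  have l : (r.lcm s : ℝ) ≠ 0 := by exact_mod_cast (Nat.lcm_pos hr hs).ne'
  have r0 : (r : ℝ) ≠ 0 := by exact_mod_cast hr.ne'
  have s0 : (s : ℝ) ≠ 0 := by exact_mod_cast hs.ne'
  rw [e, ← sum_mul, ← Nat.cast_sum, Nat.sum_totient]
  field_simp
  linarith

lemma orth (V : ℕ) : ∑ x ∈ T V, ∑ x' ∈ T V, b x * b x' * (1 / (x.2.lcm x'.2 : ℝ)) =
    ∑ d ∈ Icc 1 V, d.totient * ((μ d : ℝ) / d.totient) ^ 2 := by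
  have e : ∀ d ∈ Icc 1 V, (d.totient : ℝ) * ((μ d : ℝ) / d.totient) ^ 2 =
      ∑ x ∈ T V, ∑ x' ∈ T V, b x * b x' * (d.totient *
        ((if d ∣ x.2 then 1 / (x.2 : ℝ) else 0) * if d ∣ x'.2 then 1 / (x'.2 : ℝ) else 0)) := by
    intro d hd
    rw [← mean (mem_Icc.1 hd).1 (mem_Icc.1 hd).2, sq, sum_mul_sum, mul_sum]
    refine sum_congr rfl fun x _ => ?_
    rw [mul_sum]
    exact sum_congr rfl fun x' _ => by ring
  rw [sum_congr rfl e, sum_comm (s := Icc 1 V)]
  refine sum_congr rfl fun x hx => ?_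
  rw [sum_comm (s := Icc 1 V)]
  refine sum_congr rfl fun x' hx' => ?_
  have := mem_sigma.1 hx
  rw [← mul_sum, ← inv_lcm (T_pos hx) (T_pos hx')
    ((Nat.divisor_le this.2).trans (mem_Icc.1 this.1).2)]

lemma inv_tot (V : ℕ) : ∑ d ∈ Icc 1 V, d.totient * ((μ d : ℝ) / d.totient) ^ 2 ≤
    (1 + Real.log V) ^ 2 := by
  have h1 : ∀ d ∈ Icc 1 V, (d.totient : ℝ) * ((μ d : ℝ) / d.totient) ^ 2 ≤
      ∑ x ∈ d.divisorsAntidiagonal, 1 / (x.1 : ℝ) * (1 / x.2) := fun d hd => by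
    have d0 : 0 < d := (mem_Icc.1 hd).1
    have t0 : (0 : ℝ) < d.totient := by exact_mod_cast Nat.totient_pos.2 d0
    have d1 : (0 : ℝ) < d := by exact_mod_cast d0
    have a : (μ d : ℝ) ^ 2 ≤ 1 := by
      rw [sq_le_one_iff_abs_le_one]
      exact_mod_cast abs_moebius_le_one
    have c : d ≤ d.divisors.card * d.totient := by
      nth_rw 1 [← Nat.sum_totient d]
      exact sum_le_card_nsmul _ _ _ fun r hr => Nat.le_of_dvd (Nat.totient_pos.2 d0)
        (Nat.totient_dvd_of_dvd (Nat.dvd_of_mem_divisors hr))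
    have c' : (d : ℝ) ≤ d.divisors.card * d.totient := by exact_mod_cast c
    have e : ∑ x ∈ d.divisorsAntidiagonal, 1 / (x.1 : ℝ) * (1 / x.2) = d.divisors.card / d := by
      rw [sum_congr rfl (g := fun _ => 1 / (d : ℝ)) fun x hx => by
        rw [← (Nat.mem_divisorsAntidiagonal.1 hx).1, Nat.cast_mul, one_div_mul_one_div],
        Nat.sum_divisorsAntidiagonal fun _ _ => 1 / (d : ℝ), sum_const, nsmul_eq_mul, mul_one_div]
    rw [e, le_div_iff₀ d1]
    calc _ = (μ d : ℝ) ^ 2 * (d / d.totient) := by field_simp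
      _ ≤ 1 * (d / d.totient) := by gcongr
      _ ≤ _ := by rw [one_mul, div_le_iff₀ t0]; exact c'
  have h2 : ∑ d ∈ Icc 1 V, 1 / (d : ℝ) ≤ 1 + Real.log V := by
    have := harmonic_le_one_add_log V
    rw [harmonic_eq_sum_Icc] at this
    push_cast at this
    simpa using this
  refine (sum_le_sum h1).trans (le_trans ?_ (pow_le_pow_left₀ (by positivity) h2 2))
  rw [sq, sum_mul_sum, ← sum_product', ← sum_biUnion]
  · refine sum_le_sum_of_subset_of_nonneg (fun x hx => ?_) fun _ _ _ => by positivity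
    obtain ⟨d, hd, hx⟩ := mem_biUnion.1 hx
    have d2 := (mem_Icc.1 hd).2
    have a := Nat.fst_mem_divisors_of_mem_antidiagonal hx
    have c := Nat.snd_mem_divisors_of_mem_antidiagonal hx
    exact mem_product.2 ⟨mem_Icc.2 ⟨Nat.pos_of_mem_divisors a, (Nat.divisor_le a).trans d2⟩,
      mem_Icc.2 ⟨Nat.pos_of_mem_divisors c, (Nat.divisor_le c).trans d2⟩⟩
  · intro d _ d' _ e
    exact disjoint_left.2 fun x a c =>
      e ((Nat.mem_divisorsAntidiagonal.1 a).1.symm.trans (Nat.mem_divisorsAntidiagonal.1 c).1)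

lemma sq_le (V Y : ℕ) : ∑ R ∈ range Y, lam V R ^ 2 ≤ Y * (1 + Real.log V) ^ 2 + V ^ 4 := by
  have e1 : ∑ R ∈ range Y, lam V R ^ 2 = ∑ x ∈ T V, ∑ x' ∈ T V,
      b x * b x' * ∑ R ∈ range Y, if x.2.lcm x'.2 ∣ R then (1 : ℝ) else 0 := by
    simp only [lam_eq, sq, sum_mul_sum]
    simp only [mul_sum]
    rw [sum_comm]
    refine sum_congr rfl fun x _ => ?_
    rw [sum_comm]
    refine sum_congr rfl fun x' _ => sum_congr rfl fun R _ => ?_
    simp only [Nat.lcm_dvd_iff]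
    by_cases a : x.2 ∣ R <;> by_cases c : x'.2 ∣ R <;> simp [a, c]
  have e2 : ∑ R ∈ range Y, lam V R ^ 2 ≤ ∑ x ∈ T V, ∑ x' ∈ T V,
      (Y * (b x * b x' * (1 / (x.2.lcm x'.2 : ℝ))) + |b x| * |b x'|) := by
    rw [e1]
    refine sum_le_sum fun x hx => sum_le_sum fun x' hx' => ?_
    have k := cnt (Nat.lcm_pos (T_pos hx) (T_pos hx')) Y
    have k2 := mul_le_mul_of_nonneg_left k (abs_nonneg (b x * b x'))
    rw [← abs_mul, mul_one] at k2
    have k3 := (le_abs_self _).trans k2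
    rw [← abs_mul, ← sub_le_iff_le_add']
    refine le_of_eq_of_le ?_ k3
    ring
  simp only [sum_add_distrib, ← mul_sum] at e2
  rw [← sum_mul] at e2
  have e3 := orth V
  have e4 := sum_b V
  have e5 : 0 ≤ ∑ x ∈ T V, |b x| := sum_nonneg fun _ _ => abs_nonneg _
  have e6 := mul_le_mul_of_nonneg_left (e3.le.trans (inv_tot V)) (Nat.cast_nonneg Y : (0 : ℝ) ≤ Y)
  have e7 := mul_le_mul e4 e4 e5 (by positivity)
  calc _ ≤ _ := e2
    _ ≤ Y * (1 + Real.log V) ^ 2 + V ^ 2 * V ^ 2 := add_le_add e6 e7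
    _ = _ := by ring

lemma th_sq {u : ℝ} (hu : 0 ≤ u) {Y : ℕ} (h : (Y : ℝ) ≤ Real.exp (u + 5)) :
    ∑ R ∈ range Y, th R ^ 2 ≤ Y * (u + 5) ^ 2 := by
  have := sum_le_card_nsmul (range Y) (fun R => th R ^ 2) ((u + 5) ^ 2) fun R hR => by
    rw [th]
    split_ifs with p
    · have a : (R : ℝ) ≤ Y := by exact_mod_cast (mem_range.1 hR).le
      have c : (0 : ℝ) < R := by exact_mod_cast p.pos
      exact pow_le_pow_left₀ (Real.log_natCast_nonneg R)
        ((Real.log_le_iff_le_exp c).2 (a.trans h)) 2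
    · rw [zero_pow two_ne_zero]
      positivity
  simpa using this

end LamA

open LamA in
theorem lam' : LamS := by
  refine ⟨one, fun a => ?_⟩
  have k1 : ∀ᶠ u : ℝ in atTop, u ^ (4 * a) ≤ Real.exp (9 / 10 * u) := by
    have := (isLittleO_pow_exp_pos_mul_atTop (4 * a) (b := 9 / 10) (by norm_num)).eventuallyLE
    filter_upwards [this] with u hu
    rw [Real.norm_eq_abs, Real.norm_eq_abs, abs_of_pos (Real.exp_pos _)] at hu
    exact (le_abs_self _).trans hu
  have k2 : ∀ᶠ u : ℝ in atTop, a * Real.log u ≤ u / 2 := by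
    have := (Real.isLittleO_log_id_atTop.const_mul_left (a : ℝ)).bound (c := 1 / 2) (by norm_num)
    filter_upwards [this, eventually_ge_atTop 0] with u hu h0
    rw [Real.norm_eq_abs, Real.norm_eq_abs, id, abs_of_nonneg h0] at hu
    linarith [le_abs_self (a * Real.log u)]
  filter_upwards [k1, k2, eventually_ge_atTop 13] with u h1 h2 h3 Y hY hY'
  have u0 : 0 ≤ u := by linarith
  have v1 : (VV u a : ℝ) ≤ u ^ a := Nat.floor_le (by positivity)
  have v0 : (0 : ℝ) < VV u a := by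
    exact_mod_cast Nat.floor_pos.2 (one_le_pow₀ (by linarith))
  have v2 : Real.log (VV u a) ≤ u / 2 := by
    refine le_trans ?_ h2
    rw [← Real.log_pow]
    exact Real.log_le_log v0 v1
  have v3 : (VV u a : ℝ) ^ 4 ≤ Y := by
    refine le_trans ?_ (h1.trans hY)
    rw [mul_comm, pow_mul]
    gcongr
  have v4 : (1 + Real.log (VV u a)) ^ 2 ≤ u ^ 2 :=
    pow_le_pow_left₀ (by linarith [Real.log_natCast_nonneg (VV u a)]) (by linarith) 2
  have y0 : (0 : ℝ) ≤ Y := Nat.cast_nonneg Y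
  have s1 := th_sq u0 hY'
  have s2 := sq_le (VV u a) Y
  have s3 : ∑ R ∈ range Y, (th R - lam (VV u a) R) ^ 2 ≤
      2 * ∑ R ∈ range Y, th R ^ 2 + 2 * ∑ R ∈ range Y, lam (VV u a) R ^ 2 := by
    rw [mul_sum, mul_sum, ← sum_add_distrib]
    exact sum_le_sum fun R _ => by nlinarith [sq_nonneg (th R + lam (VV u a) R)]
  have s4 := mul_le_mul_of_nonneg_left v4 y0
  have s5 := mul_le_mul_of_nonneg_left (show (u + 5) ^ 2 ≤ 2 * u ^ 2 by nlinarith) y0
  have s6 := mul_le_mul_of_nonneg_left (show 1 ≤ u ^ 2 by nlinarith) y0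
  linarith

end Pool.Agent.Lib.MP_d6ddbd_nt.L
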