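import Pool.Agent.Lib.MP_d6ddbd_nt.L.St

/-! From pairs of integers to rational parameters. -/

open Finset Filter

noncomputable section

namespace Pool.Agent.Lib.MP_d6ddbd_nt.L

namespace Last

theorem neg_div {t : ℚ} (h : t.num < 0) : -((t.num.natAbs : ℚ) / t.den) = t := by
  rw [← Int.cast_natCast, Int.ofNat_natAbs_of_nonpos h.le, Int.cast_neg, _root_.neg_div, neg_neg,
    Rat.num_div_den]

theorem num_den {A B : ℕ} (h : Good A B) :
    (-((A : ℚ) / B)).num = -A ∧ (-((A : ℚ) / B)).den = B ∧ 0 < A := by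
  obtain ⟨C, Q, -, h2, -⟩ := h
  have h3 : Squarefree (A * B) := h2.of_mul_left
  have hA : 0 < A := Nat.pos_of_ne_zero (left_ne_zero_of_mul h3.ne_zero)
  have hB : (0 : ℤ) < B := by exact_mod_cast Nat.pos_of_ne_zero (right_ne_zero_of_mul h3.ne_zero)
  have hc : Nat.Coprime (A : ℤ).natAbs (B : ℤ).natAbs := Nat.coprime_of_squarefree_mul h3
  have e1 := Rat.num_div_eq_of_coprime hB hc
  have e2 := Rat.den_div_eq_of_coprime hB hc
  simp only [Int.cast_natCast] at e1 e2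
  exact ⟨by rw [Rat.neg_num, e1], by rw [Rat.neg_den]; exact_mod_cast e2, hA⟩

end Last

open Last in
theorem last : FinalR := by
  rintro hD hF ⟨G, hG, hI⟩ ⟨c, hc, hH⟩
  refine ⟨G, hG, fun t ht => ?_, c, hc, hH.mono fun H h => h.trans_eq ?_⟩
  · obtain ⟨h1, h2⟩ := (hI _ _).1 ht
    have := hF hD _ _ h2
    simpa only [← sub_neg_eq_add, Last.neg_div h1] using this
  · rw [← Set.InjOn.ncard_image (f := fun x : ℕ × ℕ => -((x.1 : ℚ) / x.2)) fun x hx y hy e => ?_]
    · congr 2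
      ext t
      constructor
      · rintro ⟨x, ⟨a1, a2, a3⟩, rfl⟩
        obtain ⟨b1, b2, b3⟩ := num_den a3
        simp only [Set.mem_ofPred_eq, b1, b2, hI, Int.natAbs_neg, Int.natAbs_natCast]
        exact ⟨a1, a2, by omega, a3⟩
      · rintro ⟨a1, a2, a3⟩
        obtain ⟨h1, h2⟩ := (hI _ _).1 a3
        exact ⟨(t.num.natAbs, t.den), ⟨a1, a2, h2⟩, Last.neg_div h1⟩
    · obtain ⟨b1, b2, -⟩ := num_den hx.2.2
      obtain ⟨b3, b4, -⟩ := num_den hy.2.2
      have e' : -((x.1 : ℚ) / x.2) = -((y.1 : ℚ) / y.2) := e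
      rw [e'] at b1 b2
      exact Prod.ext (by omega) (by omega)

end Pool.Agent.Lib.MP_d6ddbd_nt.L
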