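import Pool.Agent.Lib.MP_d6ddbd_nt.L.St

/-! The dispersion lemma. -/

open Finset

noncomputable section

namespace Pool.Agent.Lib.MP_d6ddbd_nt.L

namespace Ld

/-- The Schur test. -/
theorem schur {α β : Type} (S : Finset α) (T : Finset β) (k : α → β → ℝ) (a : α → ℝ) (b : β → ℝ)
    (C : ℝ) (hk : ∀ s t, 0 ≤ k s t) (hr : ∀ s ∈ S, ∑ t ∈ T, k s t ≤ C)
    (hc : ∀ t ∈ T, ∑ s ∈ S, k s t ≤ C) :
    |∑ s ∈ S, ∑ t ∈ T, k s t * a s * b t| ≤ C / 2 * (∑ s ∈ S, a s ^ 2 + ∑ t ∈ T, b t ^ 2) := by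
  have h1 : |∑ s ∈ S, ∑ t ∈ T, k s t * a s * b t| ≤
      ∑ s ∈ S, ∑ t ∈ T, (k s t * (a s ^ 2 / 2) + k s t * (b t ^ 2 / 2)) := by
    refine (abs_sum_le_sum_abs _ _).trans (sum_le_sum fun s _ => ?_)
    refine (abs_sum_le_sum_abs _ _).trans (sum_le_sum fun t _ => ?_)
    have h0 := hk s t
    rw [abs_le]
    constructor
    · nlinarith [mul_nonneg h0 (sq_nonneg (a s + b t))]
    · nlinarith [mul_nonneg h0 (sq_nonneg (a s - b t))]
  have h2 : ∑ s ∈ S, ∑ t ∈ T, k s t * (a s ^ 2 / 2) ≤ ∑ s ∈ S, C * (a s ^ 2 / 2) := by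
    refine sum_le_sum fun s hs => ?_
    rw [← sum_mul]
    exact mul_le_mul_of_nonneg_right (hr s hs) (by positivity)
  have h3 : ∑ s ∈ S, ∑ t ∈ T, k s t * (b t ^ 2 / 2) ≤ ∑ t ∈ T, C * (b t ^ 2 / 2) := by
    rw [sum_comm]
    refine sum_le_sum fun t ht => ?_
    rw [← sum_mul]
    exact mul_le_mul_of_nonneg_right (hc t ht) (by positivity)
  simp only [sum_add_distrib] at h1
  have h4 : C / 2 * (∑ s ∈ S, a s ^ 2 + ∑ t ∈ T, b t ^ 2) =
      ∑ s ∈ S, C * (a s ^ 2 / 2) + ∑ t ∈ T, C * (b t ^ 2 / 2) := by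
    rw [mul_add, mul_sum, mul_sum]
    congr 1 <;> exact sum_congr rfl fun _ _ => by ring
  linarith

/-- A form supported on the fibres of a map is nonnegative. -/
theorem fib_nonneg (S : Finset ℕ) (c : ℕ) (x : ℕ → ℝ) :
    0 ≤ ∑ i ∈ S, ∑ j ∈ S, if i % c = j % c then x i * x j else 0 := by
  have h : ∑ i ∈ S, ∑ j ∈ S, (if i % c = j % c then x i * x j else 0) =
      ∑ a ∈ S.image (· % c), (∑ i ∈ S, if i % c = a then x i else 0) ^ 2 := by
    simp only [sq, sum_mul_sum]
    rw [sum_comm (s := S.image (· % c))]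
    refine sum_congr rfl fun i hi => ?_
    rw [sum_comm (s := S.image (· % c))]
    refine sum_congr rfl fun j _ => ?_
    rw [sum_eq_single (i % c)]
    · by_cases h : i % c = j % c
      · simp [h]
      · have h' : ¬ j % c = i % c := fun e => h e.symm
        simp [h, h']
    · intro a _ ha
      have : ¬ i % c = a := fun e => ha e.symm
      simp [this]
    · intro h
      exact absurd (mem_image_of_mem (· % c) hi) h
  rw [h]
  exact sum_nonneg fun _ _ => sq_nonneg _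

/-- The triangular weight. -/
def wP (L : ℕ) (P : ℤ) : ℝ := (2 * L + 1 - |(P : ℝ)|) / (L + 1)

/-- The range of the extended variable. -/
def IP (L : ℕ) : Finset ℤ := Icc (-(2 * L : ℤ)) (2 * L)

theorem wP_nonneg {L : ℕ} {P : ℤ} (h : P ∈ IP L) : 0 ≤ wP L P := by
  unfold IP at h
  rw [mem_Icc] at h
  unfold wP
  have h1 : |(P : ℝ)| ≤ 2 * L := by
    rw [abs_le]
    constructor
    · have : ((-(2 * L : ℤ) : ℤ) : ℝ) ≤ P := by exact_mod_cast h.1
      push_cast at this
      linarith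
    · exact_mod_cast h.2
  exact div_nonneg (by linarith) (by positivity)

theorem wP_le (L : ℕ) (P : ℤ) : wP L P ≤ 2 := by
  unfold wP
  rw [div_le_iff₀ (by positivity)]
  have := abs_nonneg (P : ℝ)
  linarith

theorem one_le_wP {L P : ℕ} (h : P ≤ L) : 1 ≤ wP L P := by
  unfold wP
  rw [le_div_iff₀ (by positivity)]
  have : (P : ℝ) ≤ L := by exact_mod_cast h
  rw [Int.cast_natCast, abs_of_nonneg (by positivity)]
  linarith

/-- The kernel of a pair. -/
def Kr (c w L : ℕ) (x x' : ℤ) (R R' : ℕ) : ℝ := ∑ P ∈ IP L,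
  if (w : ℤ) ∣ c * R - x * P ∧ (c * R - x * P : ℤ) = c * R' - x' * P then wP L P else 0

theorem Kr_nonneg (c w L : ℕ) (x x' : ℤ) (R R' : ℕ) : 0 ≤ Kr c w L x x' R R' := by
  unfold Kr
  refine sum_nonneg fun P hP => ?_
  split_ifs
  · exact wP_nonneg hP
  · exact le_rfl

theorem Kr_symm (c w L : ℕ) (x x' : ℤ) (R R' : ℕ) : Kr c w L x x' R R' = Kr c w L x' x R' R := by
  unfold Kr
  refine sum_congr rfl fun P _ => ?_
  refine if_congr ⟨fun h => ⟨h.2 ▸ h.1, h.2.symm⟩, fun h => ⟨h.2 ▸ h.1, h.2.symm⟩⟩ rfl rfl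

theorem cls_card {w L : ℕ} (hw : 1 ≤ w) (hL : w ≤ L) {x : ℤ} (hx : IsCoprime x w) (y : ℤ) :
    (((IP L).filter fun P => (w : ℤ) ∣ y - x * P).card : ℝ) ≤ 5 * (L / w) := by
  have hw0 : (0 : ℤ) < w := by exact_mod_cast hw
  have h1 : ((IP L).filter fun P => (w : ℤ) ∣ y - x * P).card ≤ (range (4 * L / w + 1)).card := by
    refine card_le_card_of_injOn (fun P => (P + 2 * L).toNat / w) ?_ ?_
    · intro P hP
      have hP' := (mem_filter.1 (mem_coe.1 hP)).1
      unfold IP at hP'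
      rw [mem_Icc] at hP'
      rw [mem_coe, mem_range, Nat.lt_succ_iff]
      exact Nat.div_le_div_right (by omega)
    · intro P hP Q hQ h
      obtain ⟨hP1, hP2⟩ := mem_filter.1 (mem_coe.1 hP)
      obtain ⟨hQ1, hQ2⟩ := mem_filter.1 (mem_coe.1 hQ)
      unfold IP at hP1 hQ1
      rw [mem_Icc] at hP1 hQ1
      have h2 : (w : ℤ) ∣ x * (Q - P) := by
        have := dvd_sub hP2 hQ2
        rwa [show y - x * P - (y - x * Q) = x * (Q - P) by ring] at this
      have h3 : (w : ℤ) ∣ Q - P := hx.symm.dvd_of_dvd_mul_left h2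
      simp only at h
      obtain ⟨a, ha⟩ : ∃ a : ℕ, P + 2 * L = a := ⟨(P + 2 * L).toNat, by omega⟩
      obtain ⟨b, hb⟩ : ∃ b : ℕ, Q + 2 * L = b := ⟨(Q + 2 * L).toNat, by omega⟩
      rw [ha, hb, Int.toNat_natCast, Int.toNat_natCast] at h
      have h4 : a % w = b % w := by
        have : a ≡ b [MOD w] := by
          rw [Nat.modEq_iff_dvd]
          rwa [show (b : ℤ) - a = Q - P by omega]
        exact this
      have h5 : a = b := by rw [← Nat.div_add_mod a w, ← Nat.div_add_mod b w, h, h4]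
      omega
  rw [card_range] at h1
  have h2 : ((4 * L / w : ℕ) : ℝ) ≤ 4 * (L / w) := by
    have := @Nat.cast_div_le ℝ _ _ _ (4 * L) w
    push_cast at this
    rwa [mul_div_assoc] at this
  have h3 : (1 : ℝ) ≤ L / w := by
    rw [le_div_iff₀ (by exact_mod_cast hw), one_mul]
    exact_mod_cast hL
  have h4 : (((IP L).filter fun P => (w : ℤ) ∣ y - x * P).card : ℝ) ≤ (4 * L / w : ℕ) + 1 := by
    exact_mod_cast h1
  linarith

theorem Kr_row {c w L : ℕ} (hc : 1 ≤ c) (hw : 1 ≤ w) (hL : w ≤ L) {x : ℤ} (hx : IsCoprime x w)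
    (x' : ℤ) (Y R : ℕ) : ∑ R' ∈ range Y, Kr c w L x x' R R' ≤ 10 * (L / w) := by
  unfold Kr
  rw [sum_comm]
  have h1 : ∀ P ∈ IP L, (∑ R' ∈ range Y, if (w : ℤ) ∣ c * R - x * P ∧
      (c * R - x * P : ℤ) = c * (R' : ℕ) - x' * P then wP L P else 0) ≤
      if (w : ℤ) ∣ c * R - x * P then 2 else 0 := by
    intro P hP
    by_cases h : (w : ℤ) ∣ c * R - x * P
    · simp only [h, true_and, if_true]
      rw [← sum_filter, sum_const, nsmul_eq_mul]
      have h2 : ((range Y).filter fun R' : ℕ =>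
          (c * R - x * P : ℤ) = c * (R' : ℕ) - x' * P).card ≤ 1 := by
        rw [card_le_one]
        intro a ha b hb
        have ha' := (mem_filter.1 ha).2
        have hb' := (mem_filter.1 hb).2
        have h3 : (c : ℤ) * a = c * b := by linarith
        have h4 : (c : ℤ) ≠ 0 := by exact_mod_cast (by omega : c ≠ 0)
        exact_mod_cast mul_left_cancel₀ h4 h3
      have h3 : (((range Y).filter fun R' : ℕ =>
          (c * R - x * P : ℤ) = c * (R' : ℕ) - x' * P).card : ℝ) ≤ 1 := by exact_mod_cast h2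
      have h4 := wP_nonneg hP
      have h5 := wP_le L P
      nlinarith
    · simp [h]
  refine (sum_le_sum h1).trans ?_
  rw [← sum_filter, sum_const, nsmul_eq_mul]
  have := cls_card hw hL hx (c * R)
  linarith

/-- The sum of a pair. -/
def SS (c w L Y : ℕ) (x x' : ℤ) (g g' : ℕ → ℝ) : ℝ :=
  ∑ R ∈ range Y, ∑ R' ∈ range Y, Kr c w L x x' R R' * g R * g' R'

theorem SS_symm (c w L Y : ℕ) (x x' : ℤ) (g g' : ℕ → ℝ) :
    SS c w L Y x x' g g' = SS c w L Y x' x g' g := by
  unfold SS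
  rw [sum_comm]
  refine sum_congr rfl fun R _ => sum_congr rfl fun R' _ => ?_
  rw [Kr_symm]
  ring

theorem SS_near {c w L : ℕ} (hc : 1 ≤ c) (hw : 1 ≤ w) (hL : w ≤ L) {x x' : ℤ}
    (hx : IsCoprime x w) (hx' : IsCoprime x' w) (Y : ℕ) (g g' : ℕ → ℝ) (G : ℝ)
    (hg : ∑ R ∈ range Y, g R ^ 2 ≤ G) (hg' : ∑ R ∈ range Y, g' R ^ 2 ≤ G) :
    |SS c w L Y x x' g g'| ≤ 10 * (L / w) * G := by
  have h := schur (range Y) (range Y) (Kr c w L x x') g g' (10 * (L / w)) (Kr_nonneg c w L x x')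
    (fun R _ => Kr_row hc hw hL hx x' Y R) (fun R' _ => by
      rw [sum_congr rfl fun R _ => Kr_symm c w L x x' R R']
      exact Kr_row hc hw hL hx' x Y R')
  refine h.trans ?_
  have h0 : (0 : ℝ) ≤ L / w := by positivity
  nlinarith

/-- The relation between the two variables of a distant pair. -/
def Rel (c w d : ℕ) (x : ℤ) (R R' : ℕ) : Prop :=
  ∃ P : ℤ, (R : ℤ) - R' = d * P ∧ (w : ℤ) ∣ c * R - x * P

open Classical in
theorem Kr_far {c w L d : ℕ} (hc : 1 ≤ c) (hd : 1 ≤ d) {x x' : ℤ} (hx : x = x' + c * d)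
    (R R' : ℕ) : Kr c w L x x' R R' = (if Rel c w d x R R' then 1 else 0) *
      ((min R R' + (2 * L + 1) * d - max R R' : ℕ) / ((L + 1) * d : ℝ)) := by
  have hc0 : (c : ℤ) ≠ 0 := by exact_mod_cast (by omega : c ≠ 0)
  have hd0 : (d : ℤ) ≠ 0 := by exact_mod_cast (by omega : d ≠ 0)
  have hdr : (0 : ℝ) < d := by exact_mod_cast hd
  have key : ∀ P : ℤ, ((c * R - x * P : ℤ) = c * R' - x' * P) ↔ (R : ℤ) - R' = d * P := by
    intro P
    constructor
    · intro h
      apply mul_left_cancel₀ hc0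
      rw [hx] at h
      linarith
    · intro h
      rw [hx]
      have : (c : ℤ) * (R - R') = c * (d * P) := by rw [h]
      linarith
  unfold Kr
  by_cases h : Rel c w d x R R'
  · rw [if_pos h, one_mul]
    obtain ⟨P, hP, hw⟩ := h
    have h1 : ∀ Q : ℤ, ((w : ℤ) ∣ c * R - x * Q ∧ (c * R - x * Q : ℤ) = c * R' - x' * Q) ↔
        Q = P := by
      intro Q
      rw [key]
      constructor
      · intro h
        exact mul_left_cancel₀ hd0 (h.2.symm.trans hP)
      · rintro rfl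
        exact ⟨hw, hP⟩
    simp only [h1]
    rw [sum_ite_eq']
    have h2 : ((max R R' : ℕ) : ℤ) - (min R R' : ℕ) = d * |P| := by
      have h3 : ((max R R' : ℕ) : ℤ) - (min R R' : ℕ) = |(R : ℤ) - R'| := by
        rcases le_total R R' with h | h
        · rw [max_eq_right h, min_eq_left h, abs_of_nonpos (by omega)]
          ring
        · rw [max_eq_left h, min_eq_right h, abs_of_nonneg (by omega)]
      rw [h3, hP, abs_mul, abs_of_nonneg (by positivity : (0 : ℤ) ≤ d)]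
    split_ifs with hI
    · have h3 : |P| ≤ 2 * L := by
        unfold IP at hI
        rw [mem_Icc] at hI
        exact abs_le.2 hI
      have h4 : (d : ℤ) * |P| ≤ d * (2 * L) := mul_le_mul_of_nonneg_left h3 (by positivity)
      have h5 : ((min R R' + (2 * L + 1) * d - max R R' : ℕ) : ℤ) = (2 * L + 1 - |P|) * d := by
        rw [Nat.cast_sub (by zify at *; nlinarith)]
        push_cast at h2 ⊢
        linarith
      have h6 : ((min R R' + (2 * L + 1) * d - max R R' : ℕ) : ℝ) =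
          (2 * L + 1 - |(P : ℝ)|) * d := by exact_mod_cast h5
      rw [h6]
      unfold wP
      field_simp
    · have h3 : 2 * (L : ℤ) + 1 ≤ |P| := by
        unfold IP at hI
        rw [mem_Icc, ← abs_le] at hI
        omega
      have h4 : (d : ℤ) * (2 * L + 1) ≤ d * |P| := mul_le_mul_of_nonneg_left h3 (by positivity)
      have h5 : min R R' + (2 * L + 1) * d - max R R' = 0 := by
        rw [Nat.sub_eq_zero_iff_le]
        zify at *
        nlinarith
      rw [h5]
      simp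
  · rw [if_neg h, zero_mul]
    refine sum_eq_zero fun P _ => if_neg fun h' => h ⟨P, (key P).1 h'.2, h'.1⟩

theorem Rel_mod (c w d : ℕ) (x : ℤ) (R R' : ℕ) :
    Rel c w d x R R' ↔ Rel c w d x (R % (d * w)) (R' % (d * w)) := by
  have h1 : (R : ℤ) = (R % (d * w) : ℕ) + d * w * (R / (d * w) : ℕ) := by
    exact_mod_cast (Nat.mod_add_div R (d * w)).symm
  have h2 : (R' : ℤ) = (R' % (d * w) : ℕ) + d * w * (R' / (d * w) : ℕ) := by
    exact_mod_cast (Nat.mod_add_div R' (d * w)).symm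
  generalize R % (d * w) = s at *
  generalize R' % (d * w) = s' at *
  generalize ((R / (d * w) : ℕ) : ℤ) = a at *
  generalize ((R' / (d * w) : ℕ) : ℤ) = a' at *
  unfold Rel
  rw [h1, h2]
  constructor
  · rintro ⟨P, hP, hw⟩
    refine ⟨P - w * (a - a'), by linarith, ?_⟩
    have : (c : ℤ) * s - x * (P - w * (a - a')) =
      c * (s + d * w * a) - x * P + w * (x * (a - a') - c * d * a) := by ring
    rw [this]
    exact dvd_add hw (dvd_mul_right _ _)
  · rintro ⟨P, hP, hw⟩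
    refine ⟨P + w * (a - a'), by linarith, ?_⟩
    have : (c : ℤ) * (s + d * w * a) - x * (P + w * (a - a')) =
      c * s - x * P + w * (c * d * a - x * (a - a')) := by ring
    rw [this]
    exact dvd_add hw (dvd_mul_right _ _)

theorem eq_of_dvd {r a b : ℕ} (ha : a < r) (hb : b < r) (h : (r : ℤ) ∣ (a : ℤ) - b) : a = b := by
  have h1 : b ≡ a [MOD r] := by rwa [Nat.modEq_iff_dvd]
  exact (Nat.ModEq.eq_of_lt_of_lt h1 hb ha).symm

open Classical in
theorem Rel_row {c w d : ℕ} {x : ℤ} (hx : IsCoprime x w) (s : ℕ) :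
    ∑ s' ∈ range (d * w), (if Rel c w d x s s' then (1 : ℝ) else 0) ≤ 1 := by
  rw [← sum_filter, sum_const, nsmul_eq_mul, mul_one]
  have : ((range (d * w)).filter fun s' => Rel c w d x s s').card ≤ 1 := by
    rw [card_le_one]
    intro a ha b hb
    obtain ⟨ha1, P, hP, hP'⟩ := mem_filter.1 ha
    obtain ⟨hb1, Q, hQ, hQ'⟩ := mem_filter.1 hb
    have h2 : (w : ℤ) ∣ x * (Q - P) := by
      have := dvd_sub hP' hQ'
      rwa [show c * s - x * P - (c * s - x * Q) = x * (Q - P) by ring] at this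
    obtain ⟨t, ht⟩ : (w : ℤ) ∣ Q - P := hx.symm.dvd_of_dvd_mul_left h2
    refine eq_of_dvd (mem_range.1 ha1) (mem_range.1 hb1) ⟨t, ?_⟩
    push_cast
    have : (d : ℤ) * (Q - P) = d * (w * t) := by rw [ht]
    linarith
  exact_mod_cast this

open Classical in
theorem Rel_col {c w d : ℕ} {x x' : ℤ} (hxx : x = x' + c * d) (hx : IsCoprime x' w) (s' : ℕ) :
    ∑ s ∈ range (d * w), (if Rel c w d x s s' then (1 : ℝ) else 0) ≤ 1 := by
  rw [← sum_filter, sum_const, nsmul_eq_mul, mul_one]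
  have : ((range (d * w)).filter fun s => Rel c w d x s s').card ≤ 1 := by
    rw [card_le_one]
    intro a ha b hb
    obtain ⟨ha1, P, hP, hP'⟩ := mem_filter.1 ha
    obtain ⟨hb1, Q, hQ, hQ'⟩ := mem_filter.1 hb
    have h2 : (w : ℤ) ∣ x' * (P - Q) := by
      have := dvd_sub hQ' hP'
      have ea : (a : ℤ) = s' + d * P := by linarith
      have eb : (b : ℤ) = s' + d * Q := by linarith
      rwa [show c * b - x * Q - (c * a - x * P) = x' * (P - Q) by rw [ea, eb, hxx]; ring] at this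
    obtain ⟨t, ht⟩ : (w : ℤ) ∣ P - Q := hx.symm.dvd_of_dvd_mul_left h2
    refine eq_of_dvd (mem_range.1 ha1) (mem_range.1 hb1) ⟨t, ?_⟩
    push_cast
    have : (d : ℤ) * (P - Q) = d * (w * t) := by rw [ht]
    linarith
  exact_mod_cast this

theorem fib (Y r : ℕ) (hr : 0 < r) (k : ℕ → ℝ) (a : ℕ → ℝ) :
    ∑ R ∈ range Y, k (R % r) * a R =
      ∑ s ∈ range r, k s * ∑ R ∈ range Y with R % r = s, a R := by
  rw [← sum_fiberwise_of_maps_to (t := range r) (g := fun R => R % r)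
    (fun R _ => mem_range.2 (Nat.mod_lt R hr))]
  refine sum_congr rfl fun s _ => ?_
  rw [mul_sum]
  refine sum_congr rfl fun R hR => ?_
  rw [(mem_filter.1 hR).2]

open Classical in
theorem cls {c w d : ℕ} (hw : 1 ≤ w) (hd : 1 ≤ d) {x x' : ℤ} (hxx : x = x' + c * d)
    (hx : IsCoprime x w) (hx' : IsCoprime x' w) (Y : ℕ) (a b : ℕ → ℝ) :
    |∑ R ∈ range Y, ∑ R' ∈ range Y, (if Rel c w d x R R' then (1 : ℝ) else 0) * a R * b R'| ≤
      1 / 2 * (Var a (d * w) Y + Var b (d * w) Y) := by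
  have hr : 0 < d * w := Nat.mul_pos hd hw
  have h := schur (range (d * w)) (range (d * w))
    (fun s s' => if Rel c w d x s s' then (1 : ℝ) else 0)
    (fun s => ∑ R ∈ range Y with R % (d * w) = s, a R)
    (fun s => ∑ R ∈ range Y with R % (d * w) = s, b R) 1
    (fun _ _ => by split_ifs <;> norm_num) (fun s _ => Rel_row hx s)
    (fun s _ => Rel_col hxx hx' s)
  unfold Var
  refine le_trans (le_of_eq ?_) h
  congr 1
  have h1 : ∀ R, ∑ R' ∈ range Y, (if Rel c w d x R R' then (1 : ℝ) else 0) * a R * b R' =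
      (∑ s' ∈ range (d * w), (if Rel c w d x (R % (d * w)) s' then (1 : ℝ) else 0) *
        ∑ R' ∈ range Y with R' % (d * w) = s', b R') * a R := by
    intro R
    rw [← fib Y (d * w) hr (fun s' => if Rel c w d x (R % (d * w)) s' then (1 : ℝ) else 0) b,
      sum_mul]
    refine sum_congr rfl fun R' _ => ?_
    rw [if_congr (Rel_mod c w d x R R') rfl rfl]
    ring
  rw [sum_congr rfl fun R _ => h1 R]
  rw [fib Y (d * w) hr (fun s => ∑ s' ∈ range (d * w),
    (if Rel c w d x s s' then (1 : ℝ) else 0) * ∑ R' ∈ range Y with R' % (d * w) = s', b R') a]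
  refine sum_congr rfl fun s _ => ?_
  rw [sum_mul]
  exact sum_congr rfl fun _ _ => by ring

/-- The restriction to a window. -/
def win (g : ℕ → ℝ) (n t R : ℕ) : ℝ := if R ≤ t ∧ t < R + n then g R else 0

theorem Var_nonneg (g : ℕ → ℝ) (r y : ℕ) : 0 ≤ Var g r y := sum_nonneg fun _ _ => sq_nonneg _

theorem Var_win (g : ℕ → ℝ) (r Y n t : ℕ) (ht : t < Y + n) :
    Var (win g n t) r Y ≤ 2 * Var g r (min (t + 1) Y) + 2 * Var g r (t + 1 - n) := by
  unfold Var
  rw [mul_sum, mul_sum, ← sum_add_distrib]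
  refine sum_le_sum fun s _ => ?_
  have h : ∀ y ≤ Y, ∑ R ∈ range y with R % r = s, g R =
      ∑ R ∈ range Y with R % r = s, if R < y then g R else 0 := by
    intro y hy
    rw [← sum_filter]
    refine sum_congr ?_ fun _ _ => rfl
    ext R
    simp only [mem_filter, mem_range]
    omega
  have h1 : ∑ R ∈ range Y with R % r = s, win g n t R =
      ∑ R ∈ range (min (t + 1) Y) with R % r = s, g R -
        ∑ R ∈ range (t + 1 - n) with R % r = s, g R := by
    rw [h _ (min_le_right _ _), h (t + 1 - n) (by omega), ← sum_sub_distrib]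
    refine sum_congr rfl fun R hR => ?_
    have hR' := mem_range.1 (mem_filter.1 hR).1
    unfold win
    split_ifs <;> first | omega | simp
  rw [h1]
  nlinarith [sq_nonneg (∑ R ∈ range (min (t + 1) Y) with R % r = s, g R +
    ∑ R ∈ range (t + 1 - n) with R % r = s, g R)]

theorem Var_sum (g : ℕ → ℝ) (r Y n : ℕ) :
    ∑ t ∈ range (Y + n), Var (win g n t) r Y ≤
      4 * ∑ y ∈ range (Y + 1), Var g r y + 2 * n * Var g r Y := by
  refine (sum_le_sum fun t ht => Var_win g r Y n t (mem_range.1 ht)).trans ?_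
  rw [sum_add_distrib, ← mul_sum, ← mul_sum]
  have h0 : Var g r 0 = 0 := by simp [Var]
  have h1 : ∑ t ∈ range (Y + n), Var g r (min (t + 1) Y) =
      ∑ y ∈ range (Y + 1), Var g r y + n * Var g r Y := by
    rw [sum_range_add, sum_range_succ', h0, add_zero]
    congr 1
    · exact sum_congr rfl fun t ht => by rw [min_eq_left (mem_range.1 ht)]
    · rw [sum_congr rfl fun t _ => by rw [min_eq_right (by omega : Y ≤ Y + t + 1)]]
      simp
  have h2 : ∑ t ∈ range (Y + n), Var g r (t + 1 - n) = ∑ y ∈ range (Y + 1), Var g r y := by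
    rw [add_comm Y n, sum_range_add, sum_range_succ', h0, add_zero]
    rw [sum_eq_zero fun t ht => by
      rw [show t + 1 - n = 0 by have := mem_range.1 ht; omega, h0], zero_add]
    exact sum_congr rfl fun t _ => by rw [show n + t + 1 - n = t + 1 by omega]
  rw [h1, h2]
  linarith

theorem tent (Y n R R' : ℕ) (hR : R < Y) (a b : ℕ → ℝ) :
    ((min R R' + n - max R R' : ℕ) : ℝ) * a R * b R' =
      ∑ t ∈ range (Y + n), win a n t R * win b n t R' := by
  have h : ∀ t, win a n t R * win b n t R' =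
      if max R R' ≤ t ∧ t < min R R' + n then a R * b R' else 0 := by
    intro t
    unfold win
    split_ifs <;> first | omega | simp
  simp only [h]
  rw [← sum_filter, sum_const, nsmul_eq_mul, mul_assoc]
  congr 2
  rw [← Nat.card_Ico]
  congr 1
  ext t
  simp only [mem_filter, mem_range, mem_Ico]
  omega

/-- The bound attached to one variable of a distant pair. -/
def XX (g : ℕ → ℝ) (L d r Y : ℕ) : ℝ :=
  (∑ y ∈ range (Y + 1), Var g r y) / (L * d) + Var g r Y

open Classical in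
theorem SS_far {c w L d : ℕ} (hc : 1 ≤ c) (hw : 1 ≤ w) (hL : 1 ≤ L) (hd : 1 ≤ d) {x x' : ℤ}
    (hxx : x = x' + c * d) (hx : IsCoprime x w) (hx' : IsCoprime x' w) (Y : ℕ) (g g' : ℕ → ℝ) :
    |SS c w L Y x x' g g'| ≤ 2 * (XX g L d (d * w) Y + XX g' L d (d * w) Y) := by
  have hdr : (0 : ℝ) < d := by exact_mod_cast hd
  have hLr : (0 : ℝ) < L := by exact_mod_cast hL
  set n := (2 * L + 1) * d with hn
  have h1 : SS c w L Y x x' g g' = (∑ t ∈ range (Y + n), ∑ R ∈ range Y, ∑ R' ∈ range Y,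
      (if Rel c w d x R R' then (1 : ℝ) else 0) * win g n t R * win g' n t R') /
        ((L + 1) * d : ℝ) := by
    unfold SS
    rw [sum_comm (s := range (Y + n)), sum_div]
    refine sum_congr rfl fun R hR => ?_
    rw [sum_comm (s := range (Y + n)), sum_div]
    refine sum_congr rfl fun R' _ => ?_
    rw [Kr_far hc hd hxx, ← hn]
    simp only [mul_assoc]
    rw [← mul_sum, ← tent Y n R R' (mem_range.1 hR)]
    ring
  have h2 : ∀ f : ℕ → ℝ, (∑ t ∈ range (Y + n), Var (win f n t) (d * w) Y) / ((L + 1) * d : ℝ) ≤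
      4 * XX f L d (d * w) Y := by
    intro f
    rw [div_le_iff₀ (by positivity)]
    refine (Var_sum f (d * w) Y n).trans ?_
    unfold XX
    have h3 : 0 ≤ ∑ y ∈ range (Y + 1), Var f (d * w) y :=
      sum_nonneg fun _ _ => Var_nonneg _ _ _
    have h4 := Var_nonneg f (d * w) Y
    generalize ∑ y ∈ range (Y + 1), Var f (d * w) y = A at *
    generalize Var f (d * w) Y = B at *
    have h5 : A ≤ A / (L * d) * ((L + 1) * d) := by
      rw [div_mul_eq_mul_div, le_div_iff₀ (by positivity)]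
      exact mul_le_mul_of_nonneg_left (by nlinarith) h3
    have h6 : (n : ℝ) = (2 * L + 1) * d := by rw [hn]; push_cast; ring
    rw [h6]
    nlinarith [mul_nonneg h4 hdr.le]
  rw [h1, abs_div, abs_of_pos (by positivity : (0 : ℝ) < (L + 1) * d)]
  refine (div_le_div_of_nonneg_right ((abs_sum_le_sum_abs _ _).trans
    (sum_le_sum fun t _ => cls hw hd hxx hx hx' Y _ _)) (by positivity)).trans ?_
  rw [← mul_sum, sum_add_distrib, mul_div_assoc, add_div]
  linarith [h2 g, h2 g']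

/-- The value at the quotient, for integer arguments. -/
def hh (c w Y : ℕ) (x : ℤ) (g : ℕ → ℝ) (P Q : ℤ) : ℝ :=
  ∑ R ∈ range Y, if (c * R - x * P : ℤ) = w * Q then g R else 0

theorem hh_eq {c : ℕ} (hc : 1 ≤ c) (w Y x : ℕ) (g : ℕ → ℝ) (P Q : ℕ)
    (h : x * P + w * Q < c * Y) :
    (if c ∣ x * P + w * Q then g ((x * P + w * Q) / c) else 0) = hh c w Y x g P Q := by
  unfold hh
  have key : ∀ R : ℕ, ((c * R - x * P : ℤ) = w * Q) ↔ x * P + w * Q = c * R := by
    intro R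
    constructor
    · intro h
      zify
      linarith
    · intro h
      zify at h
      linarith
  simp only [key]
  split_ifs with hd
  · obtain ⟨R, hR⟩ := hd
    rw [hR, Nat.mul_div_cancel_left R hc, sum_eq_single R, if_pos rfl]
    · intro b _ hb
      exact if_neg fun e => hb (Nat.eq_of_mul_eq_mul_left hc e).symm
    · intro hn
      rw [hR] at h
      exact absurd (mem_range.2 (Nat.lt_of_mul_lt_mul_left h)) hn
  · exact (sum_eq_zero fun R _ => if_neg fun e => hd ⟨R, e⟩).symm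

theorem hh_pair {c w L Y : ℕ} (hw : 1 ≤ w) (x x' : ℤ) (g g' : ℕ → ℝ) (T : Finset ℤ)
    (hT : ∀ R ∈ range Y, ∀ P ∈ IP L, (c * (R : ℕ) - x * P) / w ∈ T) :
    ∑ P ∈ IP L, ∑ Q ∈ T, wP L P * (hh c w Y x g P Q * hh c w Y x' g' P Q) =
      SS c w L Y x x' g g' := by
  have hw0 : (w : ℤ) ≠ 0 := by exact_mod_cast (by omega : w ≠ 0)
  unfold SS Kr hh
  simp only [sum_mul_sum]
  simp only [mul_sum, sum_mul]
  have h1 : ∀ P ∈ IP L, (∑ Q ∈ T, ∑ R ∈ range Y, ∑ R' ∈ range Y, wP L P *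
      ((if (c * R - x * P : ℤ) = w * Q then g R else 0) *
        if (c * R' - x' * P : ℤ) = w * Q then g' R' else 0)) =
      ∑ R ∈ range Y, ∑ R' ∈ range Y, (if (w : ℤ) ∣ c * R - x * P ∧
        (c * R - x * P : ℤ) = c * R' - x' * P then wP L P else 0) * g R * g' R' := by
    intro P hP
    rw [sum_comm]
    refine sum_congr rfl fun R hR => ?_
    rw [sum_comm]
    refine sum_congr rfl fun R' _ => ?_
    split_ifs with h
    · obtain ⟨⟨Q, hQ⟩, h2⟩ := h
      have hQT : Q ∈ T := by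
        have := hT R hR P hP
        rwa [hQ, Int.mul_ediv_cancel_left Q hw0] at this
      rw [sum_eq_single Q, if_pos hQ, if_pos (h2 ▸ hQ), mul_assoc]
      · intro b _ hb
        rw [if_neg fun e => hb (mul_left_cancel₀ hw0 (e.symm.trans hQ))]
        simp
      · intro hn
        exact absurd hQT hn
    · rw [zero_mul, zero_mul]
      refine sum_eq_zero fun Q _ => ?_
      split_ifs with h1 h2
      · exact absurd ⟨⟨Q, h1⟩, h1.trans h2.symm⟩ h
      all_goals simp
  rw [sum_congr rfl h1, sum_comm]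
  refine sum_congr rfl fun R _ => ?_
  rw [sum_comm]

theorem hh_zero {c w Y v ν ν' P : ℕ} (hP : (v * P).Coprime c) (hν : ν % c ≠ ν' % c)
    (g g' : ℕ → ℝ) (Q : ℤ) :
    hh c w Y (v * ν : ℕ) g P Q * hh c w Y (v * ν' : ℕ) g' P Q = 0 := by
  unfold hh
  rw [sum_mul_sum]
  refine sum_eq_zero fun R _ => sum_eq_zero fun R' _ => ?_
  split_ifs with h1 h2
  · exfalso
    apply hν
    have h3 : (c : ℤ) ∣ ((v * P : ℕ) : ℤ) * ((ν' : ℤ) - ν) := by
      refine ⟨(R' : ℤ) - R, ?_⟩
      push_cast at h1 h2 ⊢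
      linarith
    have h4 : (c : ℤ) ∣ (ν' : ℤ) - ν :=
      (Nat.isCoprime_iff_coprime.2 hP).symm.dvd_of_dvd_mul_left h3
    exact Nat.modEq_iff_dvd.2 h4
  all_goals simp

theorem expand {c v w L Y : ℕ} (hc : 1 ≤ c) (hw : 1 ≤ w) (sN sA sB : Finset ℕ) (γ : ℕ → ℝ)
    (g : ℕ → ℕ → ℝ) (hA : ∀ P ∈ sA, P ≤ L ∧ (v * P).Coprime c)
    (hY : ∀ ν ∈ sN, ∀ P ∈ sA, ∀ Q ∈ sB, v * ν * P + w * Q < c * Y) :
    ∑ P ∈ sA, ∑ Q ∈ sB, (∑ ν ∈ sN, γ ν *
        if c ∣ v * ν * P + w * Q then g ν ((v * ν * P + w * Q) / c) else 0) ^ 2 ≤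
      ∑ ν ∈ sN, ∑ ν' ∈ sN, if ν % c = ν' % c then
        γ ν * γ ν' * SS c w L Y (v * ν : ℕ) (v * ν' : ℕ) (g ν) (g ν') else 0 := by
  classical
  set T : Finset ℤ := sB.image (fun Q : ℕ => (Q : ℤ)) ∪ (sN ×ˢ range Y ×ˢ IP L).image
    fun z => (c * (z.2.1 : ℕ) - ((v * z.1 : ℕ) : ℤ) * z.2.2) / w with hT
  set Φ : ℤ → ℤ → ℝ := fun P Q => ∑ ν ∈ sN, ∑ ν' ∈ sN, if ν % c = ν' % c then
    (γ ν * hh c w Y (v * ν : ℕ) (g ν) P Q) * (γ ν' * hh c w Y (v * ν' : ℕ) (g ν') P Q) else 0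
    with hΦ
  have hΦ0 : ∀ P Q, 0 ≤ Φ P Q := fun P Q => fib_nonneg sN c _
  have h1 : ∀ P ∈ sA, ∀ Q ∈ sB, (∑ ν ∈ sN, γ ν *
      if c ∣ v * ν * P + w * Q then g ν ((v * ν * P + w * Q) / c) else 0) ^ 2 = Φ P Q := by
    intro P hP Q hQ
    rw [sum_congr rfl fun ν hν => by rw [hh_eq hc w Y (v * ν) (g ν) P Q (hY ν hν P hP Q hQ)],
      sq, sum_mul_sum]
    refine sum_congr rfl fun ν _ => sum_congr rfl fun ν' _ => ?_
    split_ifs with h
    · rfl
    · rw [mul_mul_mul_comm, hh_zero (hA P hP).2 h, mul_zero]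
  have h2 : ∑ P ∈ sA, ∑ Q ∈ sB, Φ P Q ≤ ∑ P ∈ IP L, ∑ Q ∈ T, wP L P * Φ P Q := by
    calc ∑ P ∈ sA, ∑ Q ∈ sB, Φ P Q ≤ ∑ P ∈ sA, ∑ Q ∈ T, wP L P * Φ P Q := by
          refine sum_le_sum fun P hP => ?_
          rw [← mul_sum]
          have h3 : ∑ Q ∈ sB, Φ P Q ≤ ∑ Q ∈ T, Φ P Q := by
            rw [← sum_image (s := sB) (g := fun Q : ℕ => (Q : ℤ)) (f := fun Q => Φ P Q)
              fun a _ b _ e => Nat.cast_injective e]
            exact sum_le_sum_of_subset_of_nonneg subset_union_left fun _ _ _ => hΦ0 _ _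
          exact h3.trans (le_mul_of_one_le_left (sum_nonneg fun _ _ => hΦ0 _ _)
            (one_le_wP (hA P hP).1))
      _ ≤ _ := by
          rw [← sum_image (s := sA) (g := fun P : ℕ => (P : ℤ))
            (f := fun P => ∑ Q ∈ T, wP L P * Φ P Q) fun a _ b _ e => Nat.cast_injective e]
          refine sum_le_sum_of_subset_of_nonneg ?_ fun P hP _ =>
            sum_nonneg fun _ _ => mul_nonneg (wP_nonneg hP) (hΦ0 _ _)
          intro P hP
          obtain ⟨a, ha, rfl⟩ := mem_image.1 hP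
          have := (hA a ha).1
          unfold IP
          rw [mem_Icc]
          omega
  rw [sum_congr rfl fun P hP => sum_congr rfl fun Q hQ => h1 P hP Q hQ]
  refine h2.trans (le_of_eq ?_)
  simp only [hΦ, mul_sum]
  rw [sum_congr rfl fun P _ => sum_comm, sum_comm]
  refine sum_congr rfl fun ν hν => ?_
  rw [sum_congr rfl fun P _ => sum_comm, sum_comm]
  refine sum_congr rfl fun ν' _ => ?_
  split_ifs with h
  · rw [← hh_pair hw _ _ (g ν) (g ν') T fun R hR P hP => mem_union_right _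
      (mem_image.2 ⟨(ν, R, P), mem_product.2 ⟨hν, mem_product.2 ⟨hR, hP⟩⟩, rfl⟩), mul_sum]
    refine sum_congr rfl fun P _ => ?_
    rw [mul_sum]
    exact sum_congr rfl fun Q _ => by ring
  · simp

theorem pairs {c N : ℕ} (hc : 1 ≤ c) (sN : Finset ℕ) (hN : ∀ ν ∈ sN, ν ≤ N) (F : ℕ → ℕ → ℝ)
    (h0 : ∀ a b, 0 ≤ F a b) (hs : ∀ a b, F a b = F b a) :
    ∑ a ∈ sN, ∑ b ∈ sN, (if a % c = b % c then F a b else 0) ≤
      2 * ∑ k ∈ range (N / c + 1), ∑ a ∈ sN, ∑ b ∈ sN, if a = b + c * k then F a b else 0 := by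
  have h1 : ∀ a ∈ sN, ∀ b, b ≤ a → a % c = b % c →
      F a b ≤ ∑ k ∈ range (N / c + 1), if a = b + c * k then F a b else 0 := by
    intro a ha b hb h
    obtain ⟨k, hk⟩ := (Nat.modEq_iff_dvd' hb).1 (Eq.symm h : b ≡ a [MOD c])
    have hk' : k ∈ range (N / c + 1) := by
      rw [mem_range, Nat.lt_succ_iff, Nat.le_div_iff_mul_le hc]
      have := hN a ha
      rw [mul_comm]
      omega
    have := single_le_sum (f := fun k => if a = b + c * k then F a b else 0)
      (fun k _ => by split_ifs; exacts [h0 a b, le_rfl]) hk'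
    rwa [if_pos (by omega)] at this
  have h2 : ∀ a b, 0 ≤ ∑ k ∈ range (N / c + 1), if a = b + c * k then F a b else 0 :=
    fun a b => sum_nonneg fun k _ => by split_ifs; exacts [h0 a b, le_rfl]
  have h3 : ∑ k ∈ range (N / c + 1), ∑ a ∈ sN, ∑ b ∈ sN, (if a = b + c * k then F a b else 0) =
      ∑ a ∈ sN, ∑ b ∈ sN, ∑ k ∈ range (N / c + 1), if a = b + c * k then F a b else 0 := by
    rw [sum_comm]
    exact sum_congr rfl fun a _ => sum_comm
  rw [h3, two_mul]
  nth_rewrite 3 [sum_comm]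
  rw [← sum_add_distrib]
  refine sum_le_sum fun a ha => ?_
  rw [← sum_add_distrib]
  refine sum_le_sum fun b hb => ?_
  split_ifs with h
  · rcases le_total b a with hab | hab
    · linarith [h1 a ha b hab h, h2 b a]
    · linarith [h1 b hb a hab h.symm, h2 a b, hs a b]
  · linarith [h2 a b, h2 b a]

theorem shift_le (sN : Finset ℕ) (m : ℕ) (F : ℕ → ℕ → ℝ) (X : ℕ → ℝ) (hX : ∀ a ∈ sN, 0 ≤ X a)
    (h : ∀ a ∈ sN, ∀ b ∈ sN, a = b + m → F a b ≤ X a + X b) :
    ∑ a ∈ sN, ∑ b ∈ sN, (if a = b + m then F a b else 0) ≤ 2 * ∑ a ∈ sN, X a := by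
  have h1 : ∑ a ∈ sN, ∑ b ∈ sN, (if a = b + m then F a b else 0) ≤
      ∑ a ∈ sN, ∑ b ∈ sN, ((if b = a - m then X a else 0) + if a = b + m then X b else 0) := by
    refine sum_le_sum fun a ha => sum_le_sum fun b hb => ?_
    by_cases e : a = b + m
    · rw [if_pos e, if_pos e, if_pos (by omega)]
      exact h a ha b hb e
    · rw [if_neg e, if_neg e, add_zero]
      split_ifs
      exacts [hX a ha, le_rfl]
  refine h1.trans ?_
  simp only [sum_add_distrib]
  rw [two_mul, sum_comm (f := fun a b => if a = b + m then X b else 0)]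
  refine add_le_add (sum_le_sum fun a ha => ?_) (sum_le_sum fun a ha => ?_) <;>
  · rw [sum_ite_eq']
    split_ifs
    exacts [le_rfl, hX a ha]

end Ld

open Ld in
/-- The dispersion lemma. -/
theorem ld : LdS := by
  intro c v w L N K Y sN sA sB β γ g G hc hv hw hL hN hA hY
  have hcs := sum_mul_sq_le_sq_mul_sq (sA ×ˢ sB) (fun z => β z.1 z.2) fun z => ∑ ν ∈ sN, γ ν *
    if c ∣ v * ν * z.1 + w * z.2 then g ν ((v * ν * z.1 + w * z.2) / c) else 0
  simp only [sum_product] at hcs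
  refine hcs.trans (mul_le_mul_of_nonneg_left ?_
    (sum_nonneg fun _ _ => sum_nonneg fun _ _ => sq_nonneg _))
  refine (expand (L := L) hc hw sN sA sB γ g hA hY).trans ?_
  set F : ℕ → ℕ → ℝ := fun a b => |SS c w L Y (v * a : ℕ) (v * b : ℕ) (g a) (g b)| with hF
  have h1 : (∑ ν ∈ sN, ∑ ν' ∈ sN, if ν % c = ν' % c then
      γ ν * γ ν' * SS c w L Y (v * ν : ℕ) (v * ν' : ℕ) (g ν) (g ν') else 0) ≤
      ∑ a ∈ sN, ∑ b ∈ sN, if a % c = b % c then F a b else 0 := by
    refine sum_le_sum fun a ha => sum_le_sum fun b hb => ?_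
    split_ifs
    · refine (le_abs_self _).trans ?_
      rw [abs_mul, abs_mul]
      exact mul_le_of_le_one_left (abs_nonneg _)
        (mul_le_one₀ (hN a ha).2.2.1 (abs_nonneg _) (hN b hb).2.2.1)
    · exact le_rfl
  refine h1.trans ((pairs hc sN (fun ν h => (hN ν h).1) F (fun _ _ => abs_nonneg _)
    fun a b => by simp only [hF]; rw [SS_symm]).trans ?_)
  have hco : ∀ a ∈ sN, IsCoprime ((v * a : ℕ) : ℤ) w :=
    fun a ha => Nat.isCoprime_iff_coprime.2 (hN a ha).2.1
  have hG : ∀ a ∈ sN, 0 ≤ G := fun a ha =>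
    (sum_nonneg fun _ _ => sq_nonneg _).trans (hN a ha).2.2.2
  have hLw : (0 : ℝ) ≤ L / w := by positivity
  have hnear : ∀ k, ∑ a ∈ sN, ∑ b ∈ sN, (if a = b + c * k then F a b else 0) ≤
      10 * sN.card * (L / w) * G := by
    intro k
    refine (shift_le sN (c * k) F (fun _ => 5 * (L / w) * G)
      (fun a ha => by have := hG a ha; positivity) fun a ha b hb _ => ?_).trans (le_of_eq ?_)
    · have := SS_near hc hw hL (hco a ha) (hco b hb) Y (g a) (g b) G (hN a ha).2.2.2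
        (hN b hb).2.2.2
      simp only [hF]
      linarith
    · rw [sum_const, nsmul_eq_mul]
      ring
  have hX0 : ∀ k a, 0 ≤ (∑ y ∈ range (Y + 1), Var (g a) (v * w * k) y) / (L * v * k : ℝ) +
      Var (g a) (v * w * k) Y := fun k a =>
    add_nonneg (div_nonneg (sum_nonneg fun _ _ => Var_nonneg _ _ _) (by positivity))
      (Var_nonneg _ _ _)
  have hfar : ∀ k ∈ Ioc K (N / c), ∑ a ∈ sN, ∑ b ∈ sN, (if a = b + c * k then F a b else 0) ≤
      4 * ∑ ν ∈ sN, ((∑ y ∈ range (Y + 1), Var (g ν) (v * w * k) y) / (L * v * k) +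
        Var (g ν) (v * w * k) Y) := by
    intro k hk
    have hk1 : 1 ≤ k := by have := (mem_Ioc.1 hk).1; omega
    refine (shift_le sN (c * k) F (fun a => 2 * ((∑ y ∈ range (Y + 1), Var (g a) (v * w * k) y) /
      (L * v * k) + Var (g a) (v * w * k) Y)) (fun a _ => mul_nonneg zero_le_two (hX0 k a))
      fun a ha b hb e => ?_).trans (le_of_eq ?_)
    · have := SS_far (L := L) (d := v * k) hc hw (hw.trans hL) (Nat.mul_pos hv hk1)
        (x := (v * a : ℕ)) (x' := (v * b : ℕ)) (by rw [e]; push_cast; ring) (hco a ha) (hco b hb)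
        Y (g a) (g b)
      unfold XX at this
      rw [show v * k * w = v * w * k by ring, Nat.cast_mul v k, ← mul_assoc (L : ℝ)] at this
      simp only [hF]
      linarith
    · rw [← mul_sum]
      ring
  have hsub : range (N / c + 1) ⊆ range (K + 1) ∪ Ioc K (N / c) := by
    intro k hk
    simp only [mem_union, mem_range, mem_Ioc] at hk ⊢
    omega
  have hdis : Disjoint (range (K + 1)) (Ioc K (N / c)) := by
    rw [disjoint_left]
    intro k h1 h2
    simp only [mem_range, mem_Ioc] at h1 h2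
    omega
  have h2 := sum_le_sum_of_subset_of_nonneg
    (f := fun k => ∑ a ∈ sN, ∑ b ∈ sN, if a = b + c * k then F a b else 0) hsub
    fun k _ _ => sum_nonneg fun a _ => sum_nonneg fun b _ => by
      split_ifs
      exacts [abs_nonneg _, le_rfl]
  rw [sum_union hdis] at h2
  have h3 := sum_le_sum fun k (_ : k ∈ range (K + 1)) => hnear k
  rw [sum_const, card_range, nsmul_eq_mul] at h3
  have h4 := sum_le_sum hfar
  rw [← mul_sum] at h4
  have h5 : 0 ≤ ∑ k ∈ Ioc K (N / c), ∑ ν ∈ sN,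
      ((∑ y ∈ range (Y + 1), Var (g ν) (v * w * k) y) / (L * v * k : ℝ) +
        Var (g ν) (v * w * k) Y) := sum_nonneg fun k _ => sum_nonneg fun a _ => hX0 k a
  have h6 : 0 ≤ (sN.card : ℝ) * (K + 1) * (L / w) * G := by
    rcases sN.eq_empty_or_nonempty with rfl | ⟨a, ha⟩
    · simp
    · have := hG a ha
      positivity
  push_cast at h3
  nlinarith

end Pool.Agent.Lib.MP_d6ddbd_nt.L
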