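import Pool.Agent.Lib.MP_d6ddbd_nt.L.St
import Pool.Agent.Lib.MP_d6ddbd_nt.G.CaseA
import Pool.Agent.Lib.MP_d6ddbd_nt.G.Bil
import Pool.Agent.Lib.MP_d6ddbd_nt.G.Box
import Pool.Agent.Lib.MP_d6ddbd_nt.G.Brg

/-! Two linked labels that occur at primes which are not tiny. -/

open Finset Filter Function

noncomputable section

namespace Pool.Agent.Lib.MP_d6ddbd_nt.L

open G (al sg AL)
open G.CA G.Brg

namespace M1a

theorem sg_AL {m k : ℕ} (hm : Squarefree m) (hk : Squarefree k) (pm : Odd m) (pk : Odd k)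
    (h : m.Coprime k) : sg (AL m k) = jacobiSym m k := by
  conv_rhs => rw [← Nat.prod_primeFactors_of_squarefree hm, jac_left]
  rw [AL, sg_sum]
  refine prod_congr rfl fun p hp => ?_
  conv_rhs => rw [← Nat.prod_primeFactors_of_squarefree hk,
    jac_right _ _ fun q hq => (Nat.prime_of_mem_primeFactors hq).ne_zero]
  rw [sg_sum]
  refine prod_congr rfl fun q hq => ?_
  have hc : p.Coprime q := (h.coprime_dvd_left (Nat.dvd_of_mem_primeFactors hp)).coprime_dvd_right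
    (Nat.dvd_of_mem_primeFactors hq)
  rw [al, G.KerAux.jac_ps (pm.of_dvd_nat (Nat.dvd_of_mem_primeFactors hp))
    (pk.of_dvd_nat (Nat.dvd_of_mem_primeFactors hq))]
  rcases jacobiSym.eq_one_or_neg_one (a := p) (b := q) (by rwa [Int.gcd_natCast_natCast]) with
    e | e <;> simp [e, sg]

theorem in0 {α β : ℕ → ℝ} (ha : ∀ m, |α m| ≤ 1) (hb : ∀ k, |β k| ≤ 1)
    (ga : ∀ m, α m ≠ 0 → Squarefree m ∧ Odd m) (gb : ∀ k, β k ≠ 0 → Squarefree k ∧ Odd k)
    {C Y : ℝ} (hC : 0 ≤ C) (hB : ∀ (α β : ℕ → ℝ) (T Y : ℝ), 2 ≤ Y → 2 ≤ T →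
    (∀ m, |α m| ≤ 1) → (∀ k, |β k| ≤ 1) → (∀ m, α m ≠ 0 → Squarefree m ∧ Odd m ∧ Y < m) →
    (∀ k, β k ≠ 0 → Squarefree k ∧ Odd k ∧ Y < k) →
    |∑ m ∈ Icc 1 ⌊T⌋₊, ∑ k ∈ Icc 1 ⌊T⌋₊ with ((m * k : ℕ) : ℝ) ≤ T, α m * β k * jacobiSym m k| ≤
      C * T * Real.log T ^ 2 / Y ^ (1 / 8 : ℝ))
    (hY : 2 ≤ Y) {s t : Finset ℕ} (hs : ∀ m ∈ s, Y < m) (ht : ∀ k ∈ t, Y < k) {X D : ℕ}
    (hX : X ≤ D) :
    |∑ k ∈ t, ∑ m ∈ s, if m * k ≤ X then α m * β k * jacobiSym m k else 0| ≤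
      C * Real.log D ^ 2 / Y ^ (1 / 8 : ℝ) * X := by
  have s1 : ∀ m ∈ s, 2 ≤ m := fun m hm => by exact_mod_cast hY.trans (hs m hm).le
  have t1 : ∀ k ∈ t, 2 ≤ k := fun k hk => by exact_mod_cast hY.trans (ht k hk).le
  by_cases hT : 2 ≤ X
  swap
  · rw [sum_eq_zero, abs_zero]
    · positivity
    refine fun k hk => sum_eq_zero fun m hm => if_neg fun e => hT ?_
    nlinarith [s1 m hm, t1 k hk]
  have hT' : (2 : ℝ) ≤ X := by exact_mod_cast hT
  have key := hB (fun m => if m ∈ s then α m else 0) (fun k => if k ∈ t then β k else 0) X Y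
    hY hT' (fun m => by split_ifs <;> simp [ha]) (fun k => by split_ifs <;> simp [hb])
    (fun m hm => by
      by_cases e : m ∈ s
      · rw [if_pos e] at hm
        exact ⟨(ga m hm).1, (ga m hm).2, hs m e⟩
      · exact absurd (if_neg e) hm)
    (fun k hk => by
      by_cases e : k ∈ t
      · rw [if_pos e] at hk
        exact ⟨(gb k hk).1, (gb k hk).2, ht k e⟩
      · exact absurd (if_neg e) hk)
  have e : (∑ k ∈ t, ∑ m ∈ s, if m * k ≤ X then α m * β k * jacobiSym m k else 0) =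
      ∑ m ∈ Icc 1 X, ∑ k ∈ Icc 1 X with m * k ≤ X,
        (if m ∈ s then α m else 0) * (if k ∈ t then β k else 0) * jacobiSym m k := by
    rw [sum_comm]
    simp only [sum_filter, ← sum_product']
    refine sum_congr_of_eq_on_inter ?_ ?_ ?_
    · rintro ⟨m, k⟩ h1 h2
      refine if_neg fun e => h2 ?_
      rw [mem_product] at h1 ⊢
      have a1 := s1 _ h1.1
      have a2 := t1 _ h1.2
      exact ⟨mem_Icc.2 ⟨by omega, by nlinarith⟩, mem_Icc.2 ⟨by omega, by nlinarith⟩⟩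
    · rintro ⟨m, k⟩ - h2
      rw [mem_product, not_and_or] at h2
      rcases h2 with e | e <;> simp [show _ from e]
    · rintro ⟨m, k⟩ h1 -
      rw [mem_product] at h1
      simp only [if_pos h1.1, if_pos h1.2]
  simp only [Nat.floor_natCast, Nat.cast_le] at key
  rw [e]
  refine key.trans ?_
  have l0 : 0 ≤ Real.log X := Real.log_nonneg (by linarith)
  have l1 : Real.log X ≤ Real.log D := Real.log_le_log (by linarith) (by exact_mod_cast hX)
  calc _ ≤ C * X * Real.log D ^ 2 / Y ^ (1 / 8 : ℝ) := by gcongr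
    _ = _ := by ring

theorem tele {n : ℕ} (hn : 1 ≤ n) (L : ℕ) : (if n ≤ L then (n : ℝ)⁻¹ else 0) =
    (if n ≤ L then (L : ℝ)⁻¹ else 0) +
      ∑ l ∈ range L, if n ≤ l then ((l : ℝ) * (l + 1))⁻¹ else 0 := by
  induction L with
  | zero => simp [show ¬ n ≤ 0 by omega]
  | succ L ih =>
    rw [sum_range_succ]
    by_cases h : n ≤ L
    · have : (L : ℝ) ≠ 0 := by exact_mod_cast (by omega : L ≠ 0)
      simp only [if_pos h, if_pos (Nat.le_succ_of_le h)] at ih ⊢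
      rw [ih]
      push_cast
      field_simp
      ring
    · simp only [if_neg h, zero_add, add_zero] at ih ⊢
      rw [← ih, add_zero]
      split_ifs with h'
      exacts [by rw [show n = L + 1 by omega], rfl]

theorem in1 {s t : Finset ℕ} {a : ℕ → ℕ → ℝ} {B : ℝ} {L D : ℕ} (hD : 1 ≤ D) (hL : L ≤ D)
    (hB : 0 ≤ B) (h1 : ∀ k ∈ t, ∀ m ∈ s, 1 ≤ m * k)
    (h : ∀ X ≤ D, |∑ k ∈ t, ∑ m ∈ s, if m * k ≤ X then a m k else 0| ≤ B * X) :
    |∑ k ∈ t, ∑ m ∈ s, (if m * k ≤ L then ((m * k : ℕ) : ℝ)⁻¹ else 0) * a m k| ≤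
      B * (2 + Real.log D) := by
  have e : ∑ k ∈ t, ∑ m ∈ s, (if m * k ≤ L then ((m * k : ℕ) : ℝ)⁻¹ else 0) * a m k =
      (L : ℝ)⁻¹ * (∑ k ∈ t, ∑ m ∈ s, if m * k ≤ L then a m k else 0) + ∑ l ∈ range L,
        ((l : ℝ) * (l + 1))⁻¹ * ∑ k ∈ t, ∑ m ∈ s, if m * k ≤ l then a m k else 0 := by
    simp only [mul_sum]
    rw [sum_comm (s := range L), ← sum_add_distrib]
    refine sum_congr rfl fun k hk => ?_
    rw [sum_comm (s := range L), ← sum_add_distrib]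
    refine sum_congr rfl fun m hm => ?_
    rw [tele (h1 k hk m hm), add_mul, sum_mul]
    simp only [ite_mul, mul_ite, zero_mul, mul_zero]
  have a1 : |(L : ℝ)⁻¹ * (∑ k ∈ t, ∑ m ∈ s, if m * k ≤ L then a m k else 0)| ≤ B := by
    rw [abs_mul, abs_of_nonneg (by positivity)]
    refine (mul_le_mul_of_nonneg_left (h L hL) (by positivity)).trans ?_
    rw [mul_comm, mul_assoc]
    exact mul_le_of_le_one_right hB mul_inv_le_one
  have a2 := G.Box.harm_one (s := Icc 1 L) (Y := D) (by exact_mod_cast hD) fun k hk =>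
    ⟨(mem_Icc.1 hk).1, by exact_mod_cast (mem_Icc.1 hk).2.trans hL⟩
  rw [← Ico_add_one_right_eq_Icc, sum_Ico_eq_sum_range, Nat.add_sub_cancel] at a2
  rw [e, show B * (2 + Real.log D) = B + B * (1 + Real.log D) by ring]
  refine (abs_add_le _ _).trans (add_le_add a1 ((abs_sum_le_sum_abs _ _).trans
    (le_trans (sum_le_sum fun l hl => ?_) ((mul_sum _ _ _).ge.trans
      (mul_le_mul_of_nonneg_left a2 hB)))))
  rw [abs_mul, abs_of_nonneg (by positivity)]
  refine (mul_le_mul_of_nonneg_left (h l ((mem_range.1 hl).le.trans hL)) (by positivity)).trans ?_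
  rw [mul_inv, mul_comm (l : ℝ)⁻¹, mul_assoc, mul_comm, add_comm, Nat.cast_add, Nat.cast_one,
    add_comm]
  refine mul_le_mul_of_nonneg_right ?_ (by positivity)
  rw [mul_comm, mul_assoc]
  exact mul_le_of_le_one_right hB mul_inv_le_one

variable {V : Type} [Fintype V] [LinearOrder V]

/-- The phase of a tuple. -/
def Φ (ψ : V → V → ZMod 2) (N : V → ℕ) : ZMod 2 := ∑ u, ∑ v, AL (N u) (N v) * ψ u v

theorem phase (ψ : V → V → ZMod 2) (N : V → ℕ) {u v : V} (h : u ≠ v) (h1 : ψ u v = 1)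
    (h0 : ψ v u = 0) (m k : ℕ) : Φ ψ (up N u v m k) =
      Φ ψ (up N u v m 1) + (Φ ψ (up N u v 1 k) - Φ ψ (up N u v 1 1)) + AL m k := by
  have e : ∀ m k, Φ ψ (up N u v m k) = AL m m * ψ u u + AL m k +
      ∑ b ∈ (univ.erase u).erase v, AL m (N b) * ψ u b + (AL k k * ψ v v +
      ∑ b ∈ (univ.erase u).erase v, AL k (N b) * ψ v b) +
      ∑ a ∈ (univ.erase u).erase v, (AL (N a) m * ψ a u + AL (N a) k * ψ a v +
        ∑ b ∈ (univ.erase u).erase v, AL (N a) (N b) * ψ a b) := by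
    intro m k
    have i := fun x a => sum_up N h m k fun b y => AL x y * ψ a b
    simp only [Φ, i]
    rw [sum_up N h m k fun a x => AL x m * ψ a u + AL x k * ψ a v +
      ∑ b ∈ (univ.erase u).erase v, AL x (N b) * ψ a b]
    simp only [h1, h0, mul_zero, mul_one, zero_add]
  simp only [e, AL_one, one_AL, sum_add_distrib, zero_mul, sum_const_zero]
  ring

/-- The summand attached to a tuple. -/
def gg (ψ : V → V → ZMod 2) (D : ℕ) (N : V → ℕ) : ℝ :=
  if ∏ a, N a ∈ (Icc 1 D).filter fun m => Squarefree m ∧ Odd m then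
    (sg (Φ ψ N) : ℝ) / (∏ a, N a : ℕ) else 0

theorem boxb : ∃ C : ℝ, 0 ≤ C ∧ ∀ (ψ : V → V → ZMod 2) (D : ℕ) (Y : ℝ) (t : V → Finset ℕ)
    (u v : V), 1 ≤ D → 2 ≤ Y → (∀ a, t a ⊆ Icc 1 D) → ψ u v = 1 → ψ v u = 0 →
    (∀ m ∈ t u, Y < m) → (∀ k ∈ t v, Y < k) → |∑ N ∈ Fintype.piFinset t, gg ψ D N| ≤
      C * Real.log D ^ 2 / Y ^ (1 / 8 : ℝ) * (2 + Real.log D) *
        (1 + Real.log D) ^ Fintype.card V := by
  obtain ⟨C, hC, hB⟩ := G.bil
  refine ⟨C, hC, fun ψ D Y t u v hD hY ht h1 h0 hu hv => ?_⟩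
  have h : u ≠ v := by
    rintro rfl
    exact absurd (h1.symm.trans h0) (by decide)
  have D1 : (1 : ℝ) ≤ D := by exact_mod_cast hD
  have l0 := Real.log_nonneg D1
  set t' := update (update t u {1}) v {1} with ht'
  have tu : t' u = {1} := by simp [ht', h]
  have tv : t' v = {1} := by simp [ht']
  have ta : ∀ a, t' a ⊆ Icc 1 D := fun a => by
    by_cases hu : a = u
    · simp [hu, tu, hD]
    by_cases hv : a = v
    · simp [hv, tv, hD]
    simpa [ht', hu, hv] using ht a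
  rw [box t u, box _ v, update_of_ne h.symm, ← ht']
  refine (abs_sum_le_sum_abs _ _).trans ((sum_le_sum fun N hN => ?_).trans
    ((mul_sum _ _ _).ge.trans (mul_le_mul_of_nonneg_left (G.Box.harm t' D1 fun a k hk =>
      ⟨(mem_Icc.1 (ta a hk)).1, by exact_mod_cast (mem_Icc.1 (ta a hk)).2⟩) (by positivity))))
  rw [Fintype.mem_piFinset] at hN
  have nu : N u = 1 := by simpa [tu] using hN u
  have nv : N v = 1 := by simpa [tv] using hN v
  obtain ⟨M, eM⟩ : ∃ M, M = ∏ a ∈ (univ.erase u).erase v, N a := ⟨_, rfl⟩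
  have hM : 1 ≤ M := eM ▸ one_le_prod' fun a _ => (mem_Icc.1 (ta a (hN a))).1
  have h2 : ∀ k ∈ t v, ∀ m ∈ t u, 1 ≤ m * k := fun k hk m hm =>
    Nat.mul_pos (mem_Icc.1 (ht u hm)).1 (mem_Icc.1 (ht v hk)).1
  have key := in1 hD (Nat.div_le_self D M) (by positivity) h2 fun X hX => in0
    (α := fun m => if Squarefree (m * M) ∧ Odd (m * M) then sg (Φ ψ (up N u v m 1)) else 0)
    (β := fun k => if Squarefree (k * M) ∧ Odd (k * M) then
      sg (Φ ψ (up N u v 1 k) - Φ ψ (up N u v 1 1)) else 0)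
    (fun m => by split_ifs <;> simp [abs_sg]) (fun m => by split_ifs <;> simp [abs_sg])
    (fun m hm => by
      have := of_not_not fun e => hm (if_neg e)
      exact ⟨this.1.of_mul_left, (Nat.odd_mul.1 this.2).1⟩)
    (fun m hm => by
      have := of_not_not fun e => hm (if_neg e)
      exact ⟨this.1.of_mul_left, (Nat.odd_mul.1 this.2).1⟩) hC hB hY hu hv hX
  rw [prod_two h, nu, nv, one_mul, one_mul, ← eM]
  refine le_of_eq_of_le ?_ (mul_le_mul_of_nonneg_right key (by positivity))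
  rw [← abs_of_nonneg (show 0 ≤ (M : ℝ)⁻¹ by positivity), ← abs_mul, sum_mul]
  refine congrArg _ (sum_congr rfl fun k hk => ?_)
  rw [sum_mul]
  refine sum_congr rfl fun m hm => ?_
  change gg ψ D (up N u v m k) = _
  rw [gg, prod_two h, up_u, up_v N h, prod_congr rfl fun a ha => up_er N ha m k, ← eM]
  have h3 := h2 k hk m hm
  have : NeZero k := ⟨(mem_Icc.1 (ht v hk)).1.trans_lt' zero_lt_one |>.ne'⟩
  simp only [mem_filter, mem_Icc, Nat.le_div_iff_mul_le hM, Nat.squarefree_mul_iff, Nat.odd_mul,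
    Nat.coprime_mul_iff_left]
  by_cases c : m.Coprime k
  swap
  · rw [jacobiSym.eq_zero_iff_not_coprime.2 (by rwa [Int.gcd_natCast_natCast])]
    simp [c]
  by_cases c1 : (m.Coprime M ∧ Squarefree m ∧ Squarefree M) ∧ Odd m ∧ Odd M
  swap
  · rw [if_neg c1, if_neg (by tauto)]
    simp
  by_cases c2 : (k.Coprime M ∧ Squarefree k ∧ Squarefree M) ∧ Odd k ∧ Odd M
  swap
  · rw [if_neg c2, if_neg (by tauto)]
    simp
  rw [if_pos c1, if_pos c2]
  by_cases c3 : m * k * M ≤ D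
  swap
  · rw [if_neg c3, if_neg (by tauto)]
    simp
  rw [if_pos c3, if_pos ⟨⟨Nat.mul_pos h3 hM, c3⟩, by tauto⟩, phase ψ N h h1 h0 m k, sg_add, sg_add,
    sg_AL c1.1.2.1 c2.1.2.1 c1.2.1 c2.2.1 c]
  push_cast
  ring

theorem cop {N : V → ℕ} (h : Squarefree (∏ a, N a)) {u v : V} (huv : u ≠ v) :
    (N u).Coprime (N v) := by
  rw [prod_two huv] at h
  exact Nat.coprime_of_squarefree_mul h.of_mul_left

theorem ex_nf {N : V → ℕ} {n : ℕ} (h : Squarefree n) (hn : ∏ u, N u = n) :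
    ∃ f : n.primeFactors → V, nf _ f = N := by
  have hd : ∀ u, N u ∣ n := fun u => hn ▸ dvd_prod_of_mem N (mem_univ u)
  have h0 : ∀ p : n.primeFactors, ∃ u, (p : ℕ) ∣ N u := fun p => by
    obtain ⟨u, -, hu⟩ := (Prime.dvd_finsetProd_iff (Nat.prime_of_mem_primeFactors p.2).prime _).1
      ((Nat.dvd_of_mem_primeFactors p.2).trans hn.symm.dvd)
    exact ⟨u, hu⟩
  choose f hf using h0
  refine ⟨f, funext fun u => ?_⟩
  rw [nf, ← Nat.prod_primeFactors_of_squarefree (h.squarefree_of_dvd (hd u))]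
  refine prod_congr ?_ fun _ _ => rfl
  ext p
  rw [mem_fb]
  constructor
  · rintro ⟨h1, rfl⟩
    exact Nat.mem_primeFactors.2 ⟨Nat.prime_of_mem_primeFactors h1, hf ⟨p, h1⟩,
      (h.squarefree_of_dvd (hd _)).ne_zero⟩
  · intro hp
    have h3 := Nat.primeFactors_mono (hd u) h.ne_zero hp
    refine ⟨h3, by_contra fun hne => (Nat.prime_of_mem_primeFactors hp).one_lt.ne'
      (Nat.eq_one_of_dvd_coprimes (cop (hn ▸ h) hne) (hf ⟨p, h3⟩)
        (Nat.dvd_of_mem_primeFactors hp))⟩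

theorem bridge (ψ : V → V → ZMod 2) (D : ℕ) (c : (V → ℕ) → ℝ) :
    ∑ m ∈ (Icc 1 D).filter fun m => Squarefree m ∧ Odd m,
      (∑ f : m.primeFactors → V, c (nf _ f) * sg (Φ ψ (nf _ f))) / m =
    ∑ N ∈ Fintype.piFinset fun _ => Icc 1 D, c N * gg ψ D N := by
  simp only [gg, mul_ite, mul_zero]
  rw [← sum_filter]
  refine Eq.trans (sum_congr rfl fun n hn => ?_) (sum_fiberwise_of_maps_to
    (g := fun N : V → ℕ => ∏ a, N a) (fun N hN => (mem_filter.1 hN).2) _)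
  have hn' := hn
  simp only [mem_filter, mem_Icc] at hn'
  obtain ⟨⟨n1, hX⟩, hsq, -⟩ := hn'
  have hp : ∀ p ∈ n.primeFactors, p.Prime := fun p => Nat.prime_of_mem_primeFactors
  have hpr : ∀ f : n.primeFactors → V, ∏ u, nf _ f u = n := fun f => by
    rw [prod_nf, Nat.prod_primeFactors_of_squarefree hsq]
  rw [sum_div]
  refine sum_bij (fun f _ => nf _ f) (fun f _ => ?_) (fun f _ g _ e => ?_) (fun N hN => ?_)
    fun f _ => by rw [hpr, mul_div_assoc]
  · refine mem_filter.2 ⟨mem_filter.2 ⟨Fintype.mem_piFinset.2 fun u => ?_, (hpr f).symm ▸ hn⟩,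
      hpr f⟩
    have h1 : nf _ f u ∣ n := (dvd_prod_of_mem _ (mem_univ u)).trans (hpr f).dvd
    exact mem_Icc.2 ⟨Nat.pos_of_dvd_of_pos h1 n1, (Nat.le_of_dvd n1 h1).trans hX⟩
  · funext p
    have h1 : (p : ℕ) ∈ fb _ g (f p) := by
      rw [← pf_nf hp, ← e, pf_nf hp]
      exact mem_fb.2 ⟨p.2, rfl⟩
    exact (mem_fb.1 h1).2.symm
  · obtain ⟨f, rfl⟩ := ex_nf hsq (mem_filter.1 hN).2
    exact ⟨f, mem_univ _, rfl⟩

theorem types : ∃ C : ℝ, 0 ≤ C ∧ ∀ (ψ : V → V → ZMod 2) (D W : ℕ) (Y : ℝ)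
    (τ : ℕ → ℕ × Bool) (c : (V → ℕ × Bool) → ℝ), 1 ≤ D → 2 ≤ Y → (∀ t, |c t| ≤ 1) →
    (∀ m, 1 ≤ m → (τ m).2 = true → Y < m) → (∀ t, c t ≠ 0 → (∀ a, (t a).1 < W) ∧
      ∃ u v, ψ u v = 1 ∧ ψ v u = 0 ∧ (t u).2 = true ∧ (t v).2 = true) →
    |∑ N ∈ Fintype.piFinset fun _ => Icc 1 D, c (fun a => τ (N a)) * gg ψ D N| ≤
      (2 * W) ^ Fintype.card V * (C * Real.log D ^ 2 / Y ^ (1 / 8 : ℝ) * (2 + Real.log D) *
        (1 + Real.log D) ^ Fintype.card V) := by
  obtain ⟨C, hC, hB⟩ := boxb (V := V)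
  refine ⟨C, hC, fun ψ D W Y τ c hD hY h1 h2 h3 => ?_⟩
  have l0 := Real.log_natCast_nonneg D
  have e : ∑ N ∈ Fintype.piFinset fun _ => Icc 1 D, c (fun a => τ (N a)) * gg ψ D N =
      ∑ t ∈ Fintype.piFinset fun _ : V => range W ×ˢ (univ : Finset Bool), c t *
        ∑ N ∈ Fintype.piFinset fun a => (Icc 1 D).filter fun m => τ m = t a, gg ψ D N := by
    have : ∀ t : V → ℕ × Bool, (Fintype.piFinset fun a => (Icc 1 D).filter fun m => τ m = t a) =
        (Fintype.piFinset fun _ => Icc 1 D).filter fun N => (fun a => τ (N a)) = t := fun t => by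
      ext N
      simp only [Fintype.mem_piFinset, mem_filter, funext_iff, forall_and]
    simp only [this, sum_filter, mul_sum, mul_ite, mul_zero]
    rw [sum_comm]
    refine sum_congr rfl fun N _ => ?_
    rw [sum_ite_eq]
    split_ifs with h
    · rfl
    · rw [of_not_not fun e => h (Fintype.mem_piFinset.2 fun a =>
        mem_product.2 ⟨mem_range.2 ((h3 _ e).1 a), mem_univ _⟩), zero_mul]
  rw [e]
  have e' : ((Fintype.piFinset fun _ : V => range W ×ˢ (univ : Finset Bool)).card : ℝ) =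
      (2 * W) ^ Fintype.card V := by simp [mul_comm]
  rw [← e', ← nsmul_eq_mul]
  refine (abs_sum_le_sum_abs _ _).trans (sum_le_card_nsmul _ _ _ fun t _ => ?_)
  by_cases h : c t = 0
  · rw [h, zero_mul, abs_zero]
    positivity
  obtain ⟨-, u, v, a1, a0, a2, a3⟩ := h3 t h
  rw [abs_mul]
  exact (mul_le_of_le_one_left (abs_nonneg _) (h1 t)).trans (hB ψ D Y _ u v hD hY
    (fun _ => filter_subset _ _) a1 a0
    (fun m hm => h2 m (mem_Icc.1 (mem_filter.1 hm).1).1 (by rw [(mem_filter.1 hm).2, a2]))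
    fun m hm => h2 m (mem_Icc.1 (mem_filter.1 hm).1).1 (by rw [(mem_filter.1 hm).2, a3]))

theorem prod_fb (S : Finset ℕ) (f : S → V) (g : V → ℝ) :
    ∏ u, g u ^ (fb S f u).card = ∏ p : S, g (f p) := by
  rw [← Finset.prod_fiberwise univ f]
  refine prod_congr rfl fun u _ => ?_
  rw [fb, card_map, ← prod_const]
  exact prod_congr rfl fun p hp => by rw [(mem_filter.1 hp).2]

theorem phi_nf (ψ : V → V → ZMod 2) {S : Finset ℕ} (hp : ∀ p ∈ S, p.Prime) (f : S → V) :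
    Φ ψ (nf S f) = ∑ p : S, ∑ q : S, al p q * ψ (f p) (f q) := by
  simp only [Φ, AL, pf_nf hp, sum_mul]
  rw [← sum_fb S f fun p u => ∑ q : S, al p q * ψ u (f q)]
  refine sum_congr rfl fun u _ => ?_
  rw [sum_comm]
  exact sum_congr rfl fun p _ => sum_fb S f fun q v => al p q * ψ u v

open Classical in
/-- The type of a number. -/
def ty (u : ℝ) (m : ℕ) : ℕ × Bool :=
  (m.primeFactors.card, decide (∃ p ∈ m.primeFactors, u ^ 800 < (p : ℕ)))

/-- The number of primes of a colour. -/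
def oc (t : Lb → ℕ × Bool) (i : Fin 3) : ℕ := ∑ k, if k.1 = i then (t k).1 else 0

open Classical in
/-- The weight of a type. -/
def cf (u : ℝ) (z : V4 × V4 × V4) (t : Lb → ℕ × Bool) : ℝ :=
  if (∃ k, (t k).2 = true ∧ ∃ k', (t k').2 = true ∧ br k.2 k'.2 = 1) ∧
    (∀ k, k ∉ Wl z → (t k).1 = 0) ∧ ((∑ k, (t k).1 : ℕ) : ℝ) ≤ 10 * Real.log u ∧
      Odd (oc t 0 + oc t 2) ∧ oc t 2 + KK u ≤ oc t 0 then ∏ k, rw k.1 ^ (t k).1 else 0

theorem term [LinearOrder Lb] (u : ℝ) (z : V4 × V4 × V4) {S : Finset ℕ} (hp : ∀ p ∈ S, p.Prime)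
    (f : S → Lb) :
    (if ∃ k ∈ Med u S f, ∃ k' ∈ Med u S f, br k.2 k'.2 = 1 then tm u z S f else 0) =
      cf u z (fun k => ty u (nf S f k)) * sg (Φ (fun k k' => psi k'.2 k.2) (nf S f)) := by
  have a1 : ∀ k, (ty u (nf S f k)).2 = true ↔ k ∈ Med u S f := fun k => by
    simp only [ty, pf_nf hp, decide_eq_true_eq, mem_fb, Med, mem_image, mem_filter, mem_univ,
      true_and]
    exact ⟨fun ⟨p, ⟨h, e⟩, h'⟩ => ⟨⟨p, h⟩, h', e⟩, fun ⟨p, h', e⟩ => ⟨p, ⟨p.2, e⟩, h'⟩⟩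
  have a2 : ∀ k, (ty u (nf S f k)).1 = (fb S f k).card := fun k => by rw [ty, pf_nf hp]
  have a3 : (∀ k, k ∉ Wl z → (fb S f k).card = 0) ↔ ∀ p, f p ∈ Wl z :=
    ⟨fun h p => of_not_not fun e => card_ne_zero_of_mem (mem_fb.2 ⟨p.2, rfl⟩) (h _ e),
      fun h k e => card_eq_zero.2 (eq_empty_of_forall_notMem fun p hp =>
        e ((mem_fb.1 hp).2 ▸ h _))⟩
  have a4 : ∑ k, (fb S f k).card = S.card := by
    simp only [card_eq_sum_ones]
    rw [sum_fb S f fun _ _ => 1, Finset.sum_coe_sort S fun _ => 1]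
  have a5 : ∀ i, oc (fun k => ty u (nf S f k)) i = om S f i := fun i => by
    rw [om, card_filter, ← sum_fb S f fun _ k => if k.1 = i then 1 else 0]
    simp [oc, a2]
  simp only [cf, a1, a2, a3, a4, a5, prod_fb S f fun k => rw k.1, phi_nf _ hp, tm, Io,
    ite_mul, zero_mul]
  by_cases h : ∃ k ∈ Med u S f, ∃ k' ∈ Med u S f, br k.2 k'.2 = 1
  · rw [if_pos h]
    split_ifs with h1 h2 h2
    exacts [rfl, absurd ⟨h, h1⟩ h2, absurd h2.2 h1, rfl]
  · rw [if_neg h, if_neg fun e => h e.1]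

end M1a

open M1a in
theorem m1 : M1S := by
  intro z _ ε hε
  let _ : LinearOrder Lb := LinearOrder.lift' (Fintype.equivFin Lb) (Equiv.injective _)
  obtain ⟨C, hC, hB⟩ := types (V := Lb)
  filter_upwards [eventually_ge_atTop 3, eventually_ge_atTop (4 ^ 48 * C / ε),
    (Real.isLittleO_log_id_atTop.bound (show (0 : ℝ) < 1 / 10 by norm_num))] with u u3 uε ul
  have u0 : 0 < u := by linarith
  have u1 : 1 ≤ u := by linarith
  have D1 : 1 ≤ DD u := Nat.le_floor (by simpa using by positivity)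
  have l0 := Real.log_natCast_nonneg (DD u)
  have l1 : Real.log (DD u) ≤ u / 200 := by
    rw [Real.log_le_iff_le_exp (by exact_mod_cast D1)]
    exact Nat.floor_le (Real.exp_pos _).le
  rw [GG, sum_congr rfl fun m _ => by
    rw [sum_congr rfl fun f _ => term u z (fun p => Nat.prime_of_mem_primeFactors) f], Sq,
    bridge (fun k k' : Lb => psi k'.2 k.2) (DD u) fun N => cf u z fun k => ty u (N k)]
  refine (hB _ (DD u) (⌊u⌋₊ + 1) (u ^ 800) (ty u) (cf u z) D1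
    (le_trans (by linarith) (le_self_pow₀ u1 (by norm_num))) (fun t => ?_) (fun m m1 h => ?_)
    fun t h => ?_).trans ?_
  · unfold cf
    split_ifs
    · rw [abs_prod]
      refine prod_le_one (fun _ _ => abs_nonneg _) fun k _ => ?_
      rw [abs_pow]
      refine pow_le_one₀ (abs_nonneg _) ?_
      unfold rw
      split_ifs <;> norm_num [abs_of_nonneg]
    · simp
  · obtain ⟨p, hp, h'⟩ := of_decide_eq_true h
    exact h'.trans_le (by exact_mod_cast Nat.le_of_mem_primeFactors hp)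
  · obtain ⟨⟨k, a1, k', a2, a3⟩, -, a4, -⟩ := of_not_not fun e => h (if_neg e)
    refine ⟨fun a => Nat.lt_succ_of_le (Nat.le_floor (le_trans ?_ (a4.trans ?_))), ?_⟩
    · exact_mod_cast single_le_sum (f := fun k => (t k).1) (fun _ _ => Nat.zero_le _) (mem_univ a)
    · rw [Real.norm_eq_abs, id, Real.norm_of_nonneg u0.le] at ul
      linarith [le_abs_self (Real.log u)]
    · have : ∀ x y : ZMod 2, x + y = 1 → x = 1 ∧ y = 0 ∨ y = 1 ∧ x = 0 := by decide
      rw [br] at a3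
      rcases this _ _ a3 with b | b
      exacts [⟨k', k, b.1, b.2, a2, a1⟩, ⟨k, k', b.1, b.2, a1, a2⟩]
  have eY : (u ^ 800) ^ (1 / 8 : ℝ) = u ^ 100 := by
    rw [← Real.rpow_natCast, ← Real.rpow_mul u0.le, ← Real.rpow_natCast]
    norm_num
  have a1 : ((⌊u⌋₊ + 1 : ℕ) : ℝ) ≤ 2 * u := by
    push_cast
    linarith [Nat.floor_le u0.le]
  rw [eY, show Fintype.card Lb = 48 by simp [Fintype.card_prod]]
  rw [div_le_iff₀ hε] at uε
  calc _ ≤ (2 * (2 * u)) ^ 48 * (C * u ^ 2 / u ^ 100 * u * u ^ 48) := by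
        gcongr <;> linarith
    _ = 4 ^ 48 * C / u := by field_simp; ring
    _ ≤ ε * 1 := by rw [div_le_iff₀ u0]; linarith
    _ ≤ _ := by gcongr; exact one_le_pow₀ u1

end Pool.Agent.Lib.MP_d6ddbd_nt.L
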