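import Pool.Agent.Lib.MP_d6ddbd_nt.L.St

/-! The main planes: a tiny prime with a label outside the plane. -/

open Finset Filter

noncomputable section

namespace Pool.Agent.Lib.MP_d6ddbd_nt.L

open G (ep al sg ps)

namespace M3Aux

theorem sg_add (a b : ZMod 2) : sg (a + b) = sg a * sg b := by revert a b; decide

theorem abs_sg (a : ZMod 2) : |(sg a : ℝ)| = 1 := by
  unfold sg
  split_ifs <;> simp

theorem al_left {l : ℕ} (hl : l % 4 = 1) (q : ℕ) :
    al l q = if jacobiSym q l = -1 then 1 else 0 := by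
  have h : jacobiSym (ps q) l = jacobiSym q l := by
    unfold ps
    split_ifs
    · rw [jacobiSym.neg _ (Nat.odd_iff.2 (by omega)), ZMod.χ₄_nat_one_mod_four hl, one_mul]
    · rfl
  rw [al, h]

theorem al_symm {l q : ℕ} (hl : l % 4 = 1) (hq : Odd q) : al q l = al l q := by
  have h : ps l = l := if_neg (by omega)
  rw [al_left hl, al, h, jacobiSym.quadratic_reciprocity_one_mod_four hl hq]

theorem sg_sum {ι : Type} {l : ℕ} (hl : l % 4 = 1) (e : ι → ℕ) (X : Finset ι)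
    (h : jacobiSym ((∏ q ∈ X, e q : ℕ) : ℤ) l ≠ 0) :
    sg (∑ q ∈ X, al l (e q)) = jacobiSym ((∏ q ∈ X, e q : ℕ) : ℤ) l := by
  classical
  induction X using Finset.induction_on with
  | empty => simp [sg]
  | insert a X ha ih =>
    rw [prod_insert ha, Nat.cast_mul, jacobiSym.mul_left] at h ⊢
    rw [sum_insert ha, sg_add, ih (right_ne_zero_of_mul h), al_left hl]
    congr 1
    rcases jacobiSym.trichotomy (e a) l with k | k | k
    · exact absurd k (left_ne_zero_of_mul h)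
    · rw [k]
      decide
    · rw [k]
      decide

theorem psi_add (a b c d : V4) : psi (a + b) (c + d) = psi a c + psi b c + psi a d + psi b d := by
  simp only [psi, Prod.fst_add, Prod.snd_add]
  ring

theorem psi_M : ∀ (i : Fin 3), ∀ v ∈ plM i, ∀ w ∈ plM i, psi v w = 0 := by decide

theorem add_M : ∀ (i : Fin 3), ∀ v ∈ plM i, ∀ w : V4, w + v ∈ plM i ↔ w ∈ plM i := by decide

theorem gen_M : ∀ i : Fin 3, ∃ a ∈ plM i, ∃ b ∈ plM i, ∀ w, w ∉ plM i →
    br w a = 1 ∨ br w b = 1 := by decide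

theorem c0 : ∀ (i : Fin 3) (c : V4),
    (univ.filter fun v : V4 => v ∈ plM i ∧ v + c ∈ plA).card ≤ 2 := by decide

theorem c1 : ∀ i : Fin 3, (univ.filter fun v : V4 => v ∈ plM i).card ≤ 4 := by decide

theorem c2 : ∀ i : Fin 3, (univ.filter fun v : V4 => v ∈ plM i ∧ v ∈ plC).card ≤ 2 := by decide

theorem rw_nonneg (i : Fin 3) : 0 ≤ rw i := by
  unfold rw
  split_ifs <;> norm_num

/-- the shift of the phase -/
theorem ph_shift {S : Finset ℕ} (hS : ∀ p ∈ S, Odd p) (c : S → Fin 3) (v : S → V4) (l : S)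
    (hl : (l : ℕ) % 4 = 1) {a : V4} (ha : psi a a = 0) :
    Ph S (fun p => (c p, (v + Pi.single l a : S → V4) p)) =
      Ph S (fun p => (c p, v p)) + ∑ q : S, al l q * br (v q) a := by
  have z1 : ∀ w, psi 0 w = 0 := fun w => by simp [psi]
  have z2 : ∀ w, psi w 0 = 0 := fun w => by simp [psi]
  have k1 : ∀ (q : S) w, psi ((Pi.single l a : S → V4) q) w = if q = l then psi a w else 0 :=
    fun q w => by rw [Pi.single_apply, apply_ite (psi · w), z1]
  have k2 : ∀ (q : S) w, psi w ((Pi.single l a : S → V4) q) = if q = l then psi w a else 0 :=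
    fun q w => by rw [Pi.single_apply, apply_ite (psi w), z2]
  simp only [Ph, Pi.add_apply, psi_add, mul_add, sum_add_distrib, br]
  simp only [k2, k1, ha, ite_self, mul_ite, mul_zero, sum_ite_eq', sum_ite_irrel, mem_univ, if_true,
    sum_const_zero, add_zero, al_symm hl (hS _ (Subtype.prop _))]
  ring

/-- cancellation by a shift of one vector -/
theorem cancel {S : Type} [Fintype S] [DecidableEq S] (F : (S → Lb) → ℝ) (L : S → Prop)
    [DecidablePred L] (a : V4) (h : ∀ (c : S → Fin 3) (v : S → V4) (l : S), L l → c l = 1 →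
      F (fun p => (c p, (v + Pi.single l a : S → V4) p)) = -F fun p => (c p, v p)) :
    ∑ f, F f = ∑ f, if ∃ l, L l ∧ (f l).1 = 1 then 0 else F f := by
  rw [← (Equiv.arrowProdEquivProdArrow S (fun _ => Fin 3) fun _ => V4).symm.sum_comp,
    ← (Equiv.arrowProdEquivProdArrow S (fun _ => Fin 3) fun _ => V4).symm.sum_comp
      fun f => if ∃ l, L l ∧ (f l).1 = 1 then 0 else F f,
    Fintype.sum_prod_type, Fintype.sum_prod_type]
  refine sum_congr rfl fun c _ => ?_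
  change ∑ v : S → V4, F (fun p => (c p, v p)) =
    ∑ v : S → V4, if ∃ l, L l ∧ c l = 1 then 0 else F fun p => (c p, v p)
  split_ifs with hc
  · obtain ⟨l, l1, l2⟩ := hc
    have k := Equiv.sum_comp (Equiv.addRight (Pi.single l a : S → V4))
      fun v : S → V4 => F fun p => (c p, v p)
    simp only [Equiv.coe_addRight, h c _ l l1 l2, sum_neg_distrib] at k
    rw [sum_const_zero]
    linarith
  · rfl

/-- the product of the tiny primes whose label is linked to `a` -/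
def xf (u : ℝ) (a : V4) (S : Finset ℕ) (f : S → Lb) : ℕ :=
  ∏ q ∈ univ.filter fun q : S => ¬ u ^ 800 < (q : ℕ) ∧ br (f q).2 a = 1, (q : ℕ)

/-- the weight of a prime -/
def gw (u : ℝ) (x p : ℕ) : ℝ :=
  if u ^ 800 < p then if p % 4 = 1 ∧ jacobiSym x p = -1 then 2 else 3 else 20

theorem gw_nonneg (u : ℝ) (x p : ℕ) : 0 ≤ gw u x p := by
  unfold gw
  split_ifs <;> norm_num

theorem med_iff {u : ℝ} {S : Finset ℕ} {f : S → Lb} {Y : Finset V4} :
    (∀ k ∈ Med u S f, k.2 ∈ Y) ↔ ∀ p : S, u ^ 800 < (p : ℕ) → (f p).2 ∈ Y := by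
  simp only [Med, forall_mem_image, mem_filter, mem_univ, true_and]

theorem mem_Wl {z : V4 × V4 × V4} {k : Lb} : k ∈ Wl z ↔
    (psi k.2 k.2 = 0 ∧ br z.2.1 k.2 = 0 ∧ br z.2.2 k.2 = 0) ∧
      (k.1 = 0 → k.2 + z.1 ∈ plA) ∧ (k.1 = 2 → k.2 ∈ plC) := by
  simp only [Wl, mem_filter, mem_univ, true_and]

theorem flip {u : ℝ} {z : V4 × V4 × V4} {i : Fin 3} (h1 : z.2.1 ∈ plM i) (h2 : z.2.2 ∈ plM i)
    {a : V4} (ha : a ∈ plM i) {S : Finset ℕ} (hS : ∀ p ∈ S, Odd p) (c : S → Fin 3) (v : S → V4)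
    (l : S) (l1 : u ^ 800 < (l : ℕ)) (l2 : (l : ℕ) % 4 = 1) (l3 : c l = 1)
    (l4 : jacobiSym (xf u a S fun p => (c p, v p)) l = -1) :
    tmP u z (plM i) S (fun p => (c p, (v + Pi.single l a : S → V4) p)) =
      -tmP u z (plM i) S fun p => (c p, v p) := by
  have k0 : ∀ p : S, (v + Pi.single l a : S → V4) p ∈ plM i ↔ v p ∈ plM i := fun p => by
    rw [Pi.add_apply, Pi.single_apply]
    split_ifs
    · exact add_M i a ha _
    · rw [add_zero]
  simp only [tmP, med_iff, k0]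
  split_ifs with hm
  · have k1 : ∀ w ∈ plM i, (c l, w) ∈ Wl z := fun w hw => by
      rw [mem_Wl, l3]
      simp [br, psi_M i _ hw _ hw, psi_M i _ hw _ h1, psi_M i _ hw _ h2, psi_M i _ h1 _ hw,
        psi_M i _ h2 _ hw]
    have k2 : ∀ p : S, (c p, (v + Pi.single l a : S → V4) p) ∈ Wl z ↔ (c p, v p) ∈ Wl z := by
      intro p
      by_cases hp : p = l
      · subst hp
        exact iff_of_true (k1 _ ((k0 _).2 (hm _ l1))) (k1 _ (hm _ l1))
      · rw [Pi.add_apply, Pi.single_eq_of_ne hp, add_zero]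
    have k3 : ∑ q : S, al l q * br (v q) a =
        ∑ q ∈ univ.filter fun q : S => ¬ u ^ 800 < (q : ℕ) ∧ br (v q) a = 1, al l q := by
      rw [sum_filter]
      refine sum_congr rfl fun q _ => ?_
      by_cases hq : u ^ 800 < (q : ℕ)
      · simp [hq, br, psi_M i _ (hm q hq) _ ha, psi_M i _ ha _ (hm q hq)]
      · have : ∀ t : ZMod 2, t = 0 ∨ t = 1 := by decide
        rcases this (br (v q) a) with e | e <;> simp [hq, e]
    have k4 : sg (∑ q : S, al l q * br (v q) a) = -1 := by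
      rw [k3, sg_sum l2 (fun q : S => (q : ℕ)) _ (l4.trans_ne (by decide))]
      exact l4
    have k5 : Io u S (fun p => (c p, (v + Pi.single l a : S → V4) p)) ↔
        Io u S fun p => (c p, v p) := Iff.rfl
    unfold tm
    by_cases e : (∀ p : S, (c p, v p) ∈ Wl z) ∧ Io u S fun p => (c p, v p)
    · rw [if_pos e, if_pos ⟨fun p => (k2 p).2 (e.1 p), k5.2 e.2⟩,
        ph_shift hS c v l l2 (psi_M i _ ha _ ha), sg_add, k4]
      simp [wg]
    · rw [if_neg e, if_neg fun h => e ⟨fun p => (k2 p).1 (h.1 p), k5.1 h.2⟩, neg_zero]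
  · simp

theorem wsum (u : ℝ) (x p : ℕ) (i : Fin 3) (c : V4) :
    ∑ k : Lb, (if u ^ 800 < p → (k.2 ∈ plM i ∧ (k.1 = 0 → k.2 + c ∈ plA) ∧
      (k.1 = 2 → k.2 ∈ plC) ∧ ¬ ((p % 4 = 1 ∧ jacobiSym x p = -1) ∧ k.1 = 1)) then rw k.1 else 0) ≤
      gw u x p := by
  have a0 : ((univ.filter fun v : V4 => v ∈ plM i ∧ v + c ∈ plA).card : ℝ) ≤ 2 := by
    exact_mod_cast c0 i c
  have a1 : ((univ.filter fun v : V4 => v ∈ plM i).card : ℝ) ≤ 4 := by exact_mod_cast c1 i
  have a2 : ((univ.filter fun v : V4 => v ∈ plM i ∧ v ∈ plC).card : ℝ) ≤ 2 := by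
    exact_mod_cast c2 i
  rw [Fintype.sum_prod_type, Fin.sum_univ_three, gw]
  by_cases h : u ^ 800 < p
  · by_cases h' : p % 4 = 1 ∧ jacobiSym x p = -1
    · simp only [h, h', rw, ← sum_filter, sum_const, nsmul_eq_mul]
      simp
      linarith
    · simp only [h, h', rw, ← sum_filter, sum_const, nsmul_eq_mul]
      rw [filter_mem_eq_inter, univ_inter] at a1
      simp
      linarith
  · simp [h, rw]
    norm_num

theorem fixed {u : ℝ} {z : V4 × V4 × V4} {i : Fin 3} (h1 : z.2.1 ∈ plM i) (h2 : z.2.2 ∈ plM i)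
    {a : V4} (ha : a ∈ plM i) {S : Finset ℕ} (hS : ∀ p ∈ S, Odd p) (R : (S → Lb) → Prop)
    [DecidablePred R] (hR : ∀ f f' : S → Lb, (∀ q : S, ¬ u ^ 800 < (q : ℕ) → f q = f' q) →
      R f → R f') (x : ℕ) :
    |∑ f, if R f ∧ xf u a S f = x then tmP u z (plM i) S f else 0| ≤ ∏ p ∈ S, gw u x p := by
  classical
  rw [cancel _ (fun l : S => u ^ 800 < (l : ℕ) ∧ (l : ℕ) % 4 = 1 ∧ jacobiSym x l = -1) a
    fun c v l hl l3 => ?_]
  · refine (abs_sum_le_sum_abs _ _).trans (le_trans ?_ ((prod_le_prod (s := univ)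
      (fun p _ => sum_nonneg fun k _ => ?_) fun (p : S) _ => wsum u x p i z.1).trans_eq
        (prod_coe_sort S (gw u x))))
    · rw [prod_univ_sum, Fintype.piFinset_univ]
      refine sum_le_sum fun f _ => ?_
      have k0 : 0 ≤ ∏ p : S, if u ^ 800 < (p : ℕ) → ((f p).2 ∈ plM i ∧
          ((f p).1 = 0 → (f p).2 + z.1 ∈ plA) ∧ ((f p).1 = 2 → (f p).2 ∈ plC) ∧
          ¬ (((p : ℕ) % 4 = 1 ∧ jacobiSym x p = -1) ∧ (f p).1 = 1)) then rw (f p).1 else 0 :=
        prod_nonneg fun p _ => by split_ifs <;> simp [rw_nonneg]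
      unfold tmP tm
      split_ifs with e1 e2 e3 e4 <;> try simpa using k0
      rw [abs_mul, abs_sg, mul_one, wg, abs_of_nonneg (prod_nonneg fun p _ => rw_nonneg _)]
      refine (prod_congr rfl fun p _ => (if_pos fun hp => ?_).symm).le
      exact ⟨med_iff.1 e3 p hp, (mem_Wl.1 (e4.1 p)).2.1, (mem_Wl.1 (e4.1 p)).2.2,
        fun h => e1 ⟨p, ⟨hp, h.1⟩, h.2⟩⟩
    · split_ifs <;> simp [rw_nonneg]
  · have k1 : ∀ q : S, ¬ u ^ 800 < (q : ℕ) → (v + Pi.single l a : S → V4) q = v q := by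
      intro q hq
      rw [Pi.add_apply, Pi.single_eq_of_ne (by rintro rfl; exact hq hl.1), add_zero]
    have k2 : xf u a S (fun p => (c p, (v + Pi.single l a : S → V4) p)) =
        xf u a S fun p => (c p, v p) := by
      unfold xf
      refine prod_congr (filter_congr fun q _ => and_congr_right fun hq => ?_) fun _ _ => rfl
      simp only [k1 q hq]
    have k3 : R (fun p => (c p, (v + Pi.single l a : S → V4) p)) ↔ R fun p => (c p, v p) :=
      ⟨hR _ _ fun q hq => by simp only [k1 q hq], hR _ _ fun q hq => by simp only [k1 q hq]⟩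
    simp only [k2, k3]
    split_ifs with e
    · exact flip h1 h2 ha hS c v l hl.1 hl.2.1 l3 (e.2 ▸ hl.2.2)
    · simp

/-- the possible values of `xf` -/
def Xs (u : ℝ) : Finset ℕ := (Icc 1 (DD u)).filter fun x => Squarefree x ∧
  (∀ p ∈ x.primeFactors, (p : ℝ) ≤ u ^ 800) ∧ Odd x ∧ 1 < x

theorem xf_mem {u : ℝ} {a : V4} {m : ℕ} (hm : m ∈ Sq u) (f : m.primeFactors → Lb)
    (h : ∃ q : m.primeFactors, ¬ u ^ 800 < (q : ℕ) ∧ br (f q).2 a = 1) :
    xf u a _ f ∈ (Xs u).filter (· ∣ m) := by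
  obtain ⟨m1, m2, m3⟩ := mem_filter.1 hm
  have m0 : 0 < m := (mem_Icc.1 m1).1
  have hd : xf u a _ f ∣ m := by
    conv_rhs => rw [← Nat.prod_primeFactors_of_squarefree m2, ← prod_coe_sort]
    exact prod_dvd_prod_of_subset _ _ _ (subset_univ _)
  have x0 : 0 < xf u a _ f := Nat.pos_of_dvd_of_pos hd m0
  refine mem_filter.2 ⟨mem_filter.2 ⟨mem_Icc.2 ⟨x0, (Nat.le_of_dvd m0 hd).trans (mem_Icc.1 m1).2⟩,
    m2.squarefree_of_dvd hd, fun p hp => ?_, m3.of_dvd_nat hd, ?_⟩, hd⟩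
  · have p1 := Nat.prime_of_mem_primeFactors hp
    obtain ⟨q, q1, q2⟩ := (p1.prime.dvd_finsetProd_iff _).1 (Nat.dvd_of_mem_primeFactors hp)
    rw [(Nat.prime_dvd_prime_iff_eq p1 (Nat.prime_of_mem_primeFactors q.2)).1 q2]
    exact not_lt.1 (mem_filter.1 q1).2.1
  · obtain ⟨q, hq⟩ := h
    exact (Nat.prime_of_mem_primeFactors q.2).one_lt.trans_le (Nat.le_of_dvd x0
      (dvd_prod_of_mem (fun q : m.primeFactors => (q : ℕ)) (mem_filter.2 ⟨mem_univ q, hq⟩)))

theorem one {u : ℝ} {z : V4 × V4 × V4} {i : Fin 3} (h1 : z.2.1 ∈ plM i) (h2 : z.2.2 ∈ plM i)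
    {a : V4} (ha : a ∈ plM i) {m : ℕ} (hm : m ∈ Sq u) (R : (m.primeFactors → Lb) → Prop)
    [DecidablePred R] (hR : ∀ f f' : m.primeFactors → Lb,
      (∀ q : m.primeFactors, ¬ u ^ 800 < (q : ℕ) → f q = f' q) → R f → R f')
    (hR' : ∀ f, R f → ∃ q : m.primeFactors, ¬ u ^ 800 < (q : ℕ) ∧ br (f q).2 a = 1) :
    |∑ f, if R f then tmP u z (plM i) _ f else 0| ≤
      ∑ x ∈ (Xs u).filter (· ∣ m), ∏ p ∈ m.primeFactors, gw u x p := by
  have hS : ∀ p ∈ m.primeFactors, Odd p := fun p hp =>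
    (mem_filter.1 hm).2.2.of_dvd_nat (Nat.dvd_of_mem_primeFactors hp)
  refine le_trans ?_ (sum_le_sum fun x _ => fixed h1 h2 ha hS R hR x)
  refine le_trans (le_of_eq ?_) (abs_sum_le_sum_abs _ _)
  rw [sum_comm]
  congr 1
  refine sum_congr rfl fun f _ => ?_
  by_cases h : R f
  · simp only [h, true_and, if_true, sum_ite_eq, xf_mem hm f (hR' f h)]
  · simp [h]

theorem two {u : ℝ} {z : V4 × V4 × V4} {i : Fin 3} (h1 : z.2.1 ∈ plM i) (h2 : z.2.2 ∈ plM i)
    {m : ℕ} (hm : m ∈ Sq u) :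
    |∑ f : m.primeFactors → Lb, if ∀ p, (f p).2 ∈ plM i then 0 else tmP u z (plM i) _ f| ≤
      2 * ∑ x ∈ (Xs u).filter (· ∣ m), ∏ p ∈ m.primeFactors, gw u x p := by
  classical
  obtain ⟨a, ha, b, hb, hab⟩ := gen_M i
  have t : ∀ (e : V4) (f f' : m.primeFactors → Lb),
      (∀ q : m.primeFactors, ¬ u ^ 800 < (q : ℕ) → f q = f' q) →
      (∃ q : m.primeFactors, ¬ u ^ 800 < (q : ℕ) ∧ br (f q).2 e = 1) →
      ∃ q : m.primeFactors, ¬ u ^ 800 < (q : ℕ) ∧ br (f' q).2 e = 1 :=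
    fun e f f' h ⟨q, q1, q2⟩ => ⟨q, q1, h q q1 ▸ q2⟩
  have k1 := one h1 h2 ha hm
    (fun f => ∃ q : m.primeFactors, ¬ u ^ 800 < (q : ℕ) ∧ br (f q).2 a = 1) (t a) fun f h => h
  have k2 := one h1 h2 hb hm
    (fun f => (¬ ∃ q : m.primeFactors, ¬ u ^ 800 < (q : ℕ) ∧ br (f q).2 a = 1) ∧
      ∃ q : m.primeFactors, ¬ u ^ 800 < (q : ℕ) ∧ br (f q).2 b = 1)
    (fun f f' h h' => ⟨fun k => h'.1 (t a f' f (fun q hq => (h q hq).symm) k), t b f f' h h'.2⟩)
    fun f h => h.2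
  rw [two_mul]
  refine le_trans (le_of_eq ?_) ((abs_add_le _ _).trans (add_le_add k1 k2))
  rw [← sum_add_distrib]
  congr 1
  refine sum_congr rfl fun f _ => ?_
  have n : ∀ e ∈ plM i, (∀ p, (f p).2 ∈ plM i) →
      ¬ ∃ q : m.primeFactors, ¬ u ^ 800 < (q : ℕ) ∧ br (f q).2 e = 1 := by
    rintro e he h ⟨q, -, q2⟩
    rw [br, psi_M i _ (h q) _ he, psi_M i _ he _ (h q)] at q2
    exact absurd q2 (by decide)
  by_cases h : ∀ p, (f p).2 ∈ plM i
  · rw [if_pos h, if_neg (n a ha h), if_neg fun k => n b hb h k.2, add_zero]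
  · rw [if_neg h]
    by_cases e1 : ∃ q : m.primeFactors, ¬ u ^ 800 < (q : ℕ) ∧ br (f q).2 a = 1
    · rw [if_pos e1, if_neg fun k => k.1 e1, add_zero]
    · rw [if_neg e1, zero_add]
      split_ifs with e2
      · rfl
      · obtain ⟨p, hp⟩ := not_forall.1 h
        refine if_neg fun k => ?_
        have k' : ¬ u ^ 800 < (p : ℕ) := fun k' => hp (med_iff.1 k p k')
        exact (hab _ hp).elim (fun e => e1 ⟨p, k', e⟩) fun e => e2 ⟨e1, p, k', e⟩

theorem split {u : ℝ} {x : ℕ} (hx : x ∈ Xs u) :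
    ∑ m ∈ (Sq u).filter (x ∣ ·), (∏ p ∈ m.primeFactors, gw u x p) / m ≤
      20 ^ x.primeFactors.card / x *
        ∑ m ∈ Icc 1 (DD u) with Squarefree m, (∏ p ∈ m.primeFactors, gw u x p) / m := by
  obtain ⟨-, -, x2, -, x4⟩ := mem_filter.1 hx
  have k : ∀ m ∈ (Sq u).filter (x ∣ ·), (∏ p ∈ m.primeFactors, gw u x p) / m =
      20 ^ x.primeFactors.card / x * ((∏ p ∈ (m / x).primeFactors, gw u x p) / (m / x : ℕ)) := by
    intro m hm
    obtain ⟨hm, n, rfl⟩ := mem_filter.1 hm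
    have c := Nat.coprime_of_squarefree_mul (mem_filter.1 hm).2.1
    rw [Nat.mul_div_cancel_left _ (by omega), c.primeFactors_mul,
      prod_union c.disjoint_primeFactors, Nat.cast_mul, mul_div_mul_comm, ← prod_const]
    congr 2
    exact prod_congr rfl fun p hp => if_neg (not_lt.2 (x2 p hp))
  rw [sum_congr rfl k, ← mul_sum]
  refine mul_le_mul_of_nonneg_left ?_ (by positivity)
  rw [← sum_image (g := fun m => m / x)
    (f := fun n : ℕ => (∏ p ∈ n.primeFactors, gw u x p) / (n : ℝ)) fun a ha b hb h =>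
      (Nat.div_left_inj (mem_filter.1 ha).2 (mem_filter.1 hb).2).1 h]
  refine sum_le_sum_of_subset_of_nonneg (fun n hn => ?_) fun n _ _ =>
    div_nonneg (prod_nonneg fun p _ => gw_nonneg _ _ _) (Nat.cast_nonneg _)
  obtain ⟨m, hm, rfl⟩ := mem_image.1 hn
  obtain ⟨hm, hd⟩ := mem_filter.1 hm
  obtain ⟨m1, m2, -⟩ := mem_filter.1 hm
  exact mem_filter.2 ⟨mem_Icc.2 ⟨Nat.div_pos (Nat.le_of_dvd (mem_Icc.1 m1).1 hd) (by omega),
    (Nat.div_le_self _ _).trans (mem_Icc.1 m1).2⟩, m2.squarefree_of_dvd (Nat.div_dvd_of_dvd hd)⟩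

theorem expo (u : ℝ) (x D : ℕ) : ∑ p ∈ PP D, gw u x p / p ≤
    20 * ∑ p ∈ (PP D).filter (fun p : ℕ => (p : ℝ) ≤ u ^ 800), 1 / (p : ℝ) +
      3 * ∑ p ∈ PP D, 1 / (p : ℝ) -
      ∑ p ∈ (PP D).filter (fun p : ℕ => u ^ 800 < p ∧ p % 4 = 1 ∧ jacobiSym x p = -1),
        1 / (p : ℝ) := by
  rw [sum_filter, sum_filter, mul_sum, mul_sum, ← sum_add_distrib, ← sum_sub_distrib]
  refine sum_le_sum fun p _ => ?_
  have h : (0 : ℝ) ≤ 1 / p := by positivity
  rw [div_eq_mul_one_div, gw]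
  by_cases h1 : u ^ 800 < p
  · rw [if_pos h1, if_neg (not_le.2 h1)]
    by_cases h2 : p % 4 = 1 ∧ jacobiSym x p = -1
    · rw [if_pos h2, if_pos ⟨h1, h2⟩]
      linarith
    · rw [if_neg h2, if_neg fun k => h2 k.2]
      linarith
  · rw [if_neg h1, if_pos (not_lt.1 h1), if_neg fun k => h1 k.1]
    linarith

theorem small (K : ℝ) : ∀ᶠ u : ℝ in atTop, 1 ≤ u ∧ 0 ≤ Real.log (Real.log u) ∧
    40 * Real.log (Real.log u) + K ≤ Real.log u / 10 := by
  have h : ∀ᶠ t : ℝ in atTop, 0 ≤ Real.log t ∧ 40 * Real.log t + K ≤ t / 10 := by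
    filter_upwards [Real.isLittleO_log_id_atTop.bound (c := 1 / 800) (by norm_num),
      eventually_ge_atTop 1, eventually_ge_atTop (20 * K)] with t h1 h2 h3
    rw [id, Real.norm_of_nonneg (Real.log_nonneg h2), Real.norm_of_nonneg (by linarith)] at h1
    exact ⟨Real.log_nonneg h2, by linarith⟩
  exact (eventually_ge_atTop 1).and (Real.tendsto_log_atTop.eventually h)

end M3Aux

open M3Aux in
theorem m3 : M3S := by
  rintro ⟨E1, -, ⟨C, E3⟩, E4⟩ hC z - i h1 h2 ε hε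
  filter_upwards [E3, E4 1, hC, small (43 * |C| - Real.log (ε / 4))] with u ⟨e1, e2⟩ e4 ⟨_, e5⟩
    ⟨u1, u2, u3⟩
  have c1 := le_abs_self C
  have c0 := abs_nonneg C
  have l0 := Real.log_nonneg u1
  obtain ⟨A, hA⟩ : ∃ A, A = 20 * (Real.log (Real.log u) + |C|) := ⟨_, rfl⟩
  obtain ⟨B, hB⟩ : ∃ B, B = 3 * (Real.log u + |C|) := ⟨_, rfl⟩
  have k1 : ∀ x ∈ Xs u, ∑ m ∈ (Sq u).filter (x ∣ ·), (∏ p ∈ m.primeFactors, gw u x p) / m ≤
      20 ^ x.primeFactors.card / x * Real.exp (A + B - Real.log u / 10) +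
        (if Real.exp (u ^ (1 / 4 : ℝ)) < x then 20 ^ x.primeFactors.card / (x : ℝ) else 0) *
          Real.exp (A + B) := by
    intro x hx
    obtain ⟨-, x1, -, x3, x4⟩ := mem_filter.1 hx
    refine ((split hx).trans (mul_le_mul_of_nonneg_left ((E1 _ _ (gw_nonneg u x)).trans
      (Real.exp_le_exp.2 (expo u x _))) (by positivity))).trans ?_
    split_ifs with h
    · refine le_add_of_nonneg_of_le (by positivity) (mul_le_mul_of_nonneg_left
        (Real.exp_le_exp.2 ?_) (by positivity))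
      have : 0 ≤ ∑ p ∈ (PP (DD u)).filter
          (fun p : ℕ => u ^ 800 < p ∧ p % 4 = 1 ∧ jacobiSym x p = -1), 1 / (p : ℝ) := by positivity
      linarith
    · rw [zero_mul, add_zero]
      refine mul_le_mul_of_nonneg_left (Real.exp_le_exp.2 ?_) (by positivity)
      linarith [e5 x x1 x3 x4 (not_lt.1 h)]
  have k2 : ∑ x ∈ Xs u, 20 ^ x.primeFactors.card / (x : ℝ) ≤ Real.exp A := by
    have h0 : ∀ p : ℕ, (0 : ℝ) ≤ if (p : ℝ) ≤ u ^ 800 then 20 else 0 := fun p => by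
      split_ifs <;> norm_num
    refine le_trans ?_ ((E1 (DD u) _ h0).trans (Real.exp_le_exp.2 ?_))
    · refine le_trans (sum_le_sum fun x hx => ?_) (sum_le_sum_of_subset_of_nonneg
        (monotone_filter_right _ fun x _ hx => hx.1) fun n _ _ =>
          div_nonneg (prod_nonneg fun p _ => h0 p) (Nat.cast_nonneg _))
      rw [prod_congr rfl fun p hp => if_pos ((mem_filter.1 hx).2.2.1 p hp), prod_const]
    · rw [sum_filter] at e2
      have : ∑ p ∈ PP (DD u), (if (p : ℝ) ≤ u ^ 800 then 20 else 0) / (p : ℝ) =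
          20 * ∑ p ∈ PP (DD u), if (p : ℝ) ≤ u ^ 800 then 1 / (p : ℝ) else 0 := by
        rw [mul_sum]
        exact sum_congr rfl fun p _ => by split_ifs <;> ring
      linarith
  have k3 : ∑ x ∈ Xs u, (if Real.exp (u ^ (1 / 4 : ℝ)) < x then
      20 ^ x.primeFactors.card / (x : ℝ) else 0) ≤ Real.exp (A - Real.log u / 10) := by
    rw [← sum_filter]
    refine ((sum_le_sum_of_subset_of_nonneg (fun x hx => ?_) fun n _ _ => by positivity).trans
      e4).trans ?_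
    · obtain ⟨hx, x5⟩ := mem_filter.1 hx
      obtain ⟨x0, x1, x2, -⟩ := mem_filter.1 hx
      exact mem_filter.2 ⟨x0, x1, x2, x5⟩
    · rw [pow_one, one_div, ← Real.exp_log (inv_pos.2 (zero_lt_one.trans_le u1)), Real.log_inv,
        Real.exp_le_exp]
      have : 0 ≤ A := by rw [hA]; positivity
      linarith
  have k4 : Real.exp (2 * A + B - Real.log u / 10) ≤ ε / 4 * u ^ 3 := by
    rw [← Real.exp_log (by positivity : 0 < ε / 4 * u ^ 3),
      Real.log_mul (by positivity) (by positivity), Real.log_pow, Real.exp_le_exp]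
    push_cast
    linarith
  calc _ ≤ ∑ m ∈ Sq u, 2 * ∑ x ∈ (Xs u).filter (· ∣ m),
        (∏ p ∈ m.primeFactors, gw u x p) / m := by
        refine (abs_sum_le_sum_abs _ _).trans (sum_le_sum fun m hm => ?_)
        rw [abs_div, Nat.abs_cast, ← sum_div, ← mul_div_assoc]
        exact div_le_div_of_nonneg_right (two h1 h2 hm) (Nat.cast_nonneg _)
    _ = 2 * ∑ x ∈ Xs u, ∑ m ∈ (Sq u).filter (x ∣ ·), (∏ p ∈ m.primeFactors, gw u x p) / m := by
        rw [← mul_sum]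
        simp only [sum_filter]
        rw [sum_comm]
    _ ≤ 2 * (Real.exp A * Real.exp (A + B - Real.log u / 10) +
        Real.exp (A - Real.log u / 10) * Real.exp (A + B)) := by
        refine mul_le_mul_of_nonneg_left ((sum_le_sum k1).trans ?_) zero_le_two
        rw [sum_add_distrib, ← sum_mul, ← sum_mul]
        gcongr
    _ = 4 * Real.exp (2 * A + B - Real.log u / 10) := by
        rw [← Real.exp_add, ← Real.exp_add]
        ring_nf
    _ ≤ _ := by linarith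

end Pool.Agent.Lib.MP_d6ddbd_nt.L
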