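import Pool.Agent.Lib.MP_d6ddbd_nt.L.St
import Pool.Agent.Lib.MP_d6ddbd_nt.G.Ker

/-! The plane of `A`. -/

open Finset Filter

noncomputable section

namespace Pool.Agent.Lib.MP_d6ddbd_nt.L

open G (ep al sg)

namespace M5a

open Classical in
theorem invol {A ι : Type} [Fintype A] (T : A → ℝ) (φ : ι → A → A) (bad : ι → A → Prop)
    (h1 : ∀ p f, φ p (φ p f) = f) (h2 : ∀ p q f, bad q (φ p f) ↔ bad q f)
    (h3 : ∀ p f, bad p f → T (φ p f) = -T f) :
    ∑ f, T f = ∑ f, if ∃ p, bad p f then 0 else T f := by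
  let π : (ι → Prop) → A → A := fun P f => if h : ∃ p, P p then φ h.choose f else f
  have a1 : ∀ P f, π P (π P f) = f := fun P f => by
    simp only [π]
    split_ifs
    exacts [h1 _ _, rfl]
  have a2 : ∀ P f, (fun q => bad q (π P f)) = fun q => bad q f := fun P f => funext fun q => by
    simp only [π]
    split_ifs
    exacts [propext (h2 _ _ _), rfl]
  have a3 : Function.Involutive fun f => π (fun q => bad q f) f := fun f => by
    simp only [a2, a1]
  have a4 := a3.bijective.sum_comp T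
  have a5 : ∑ f, (T f + T (π (fun q => bad q f) f)) =
      ∑ f, 2 * if ∃ p, bad p f then 0 else T f := sum_congr rfl fun f _ => by
    simp only [π]
    split_ifs with h
    · rw [h3 _ _ h.choose_spec]; ring
    · ring
  rw [sum_add_distrib, a4, ← mul_sum] at a5
  linarith

theorem pA : ∀ v ∈ plA, ∀ w ∈ plA, br v w = 0 ∧ psi w w = 0 := by decide

theorem c0 : ∀ c ∈ plC, ∀ s ∈ plA, s + c ∈ plA → c = 0 := by decide

theorem cA : ∀ c ∈ plC, c ∈ plA → c = 0 := by decide

theorem mA {v : V4} : v ∈ plA ↔ v.2.2.1 = v.1 ∧ v.2.2.2 = v.2.1 := mem_filter_univ _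

theorem wl_A {z : V4 × V4 × V4} (hz : z ∈ Trip) (hs : z.2.1 ∈ plA) {k : Lb} (h1 : k.1 ≠ 2)
    (h2 : k.2 ∈ plA) : k ∈ Wl z := by
  obtain ⟨-, a, b, c, -⟩ := mem_filter.1 hz
  have e := c0 _ a _ hs b
  rw [e, add_zero] at c
  exact mem_filter.2 ⟨mem_filter.2 ⟨mem_univ _, (pA _ hs _ h2).2, (pA _ hs _ h2).1,
    (pA _ c _ h2).1⟩, fun _ => by rwa [e, add_zero], fun j => absurd j h1⟩

theorem aa (x y : ZMod 2) : x + y + y = x := by revert x y; decide

variable {S : Finset ℕ} {u : ℝ} {z : V4 × V4 × V4}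

/-- Shift of the primed coordinates. -/
def fl (δ : S → ZMod 2) (f : S → Lb) (q : S) : Lb :=
  ((f q).1, (f q).2.1, (f q).2.2.1 + δ q, (f q).2.2.2.1, (f q).2.2.2.2 + δ q)

theorem fl_fl (δ : S → ZMod 2) (f : S → Lb) : fl δ (fl δ f) = f :=
  funext fun q => by simp only [fl, aa]

/-- The coefficient of the primed coordinate. -/
def cc (f : S → Lb) (p : S) : ZMod 2 := ∑ q : S, (al p q * (f q).2.1 + al q p * (f q).2.2.2.1)

theorem ph_fl (f : S → Lb) (p : S) :
    Ph S (fl (fun q => if q = p then 1 else 0) f) = Ph S f + cc f p := by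
  have : ∀ r q : S, al r q * psi (fl (fun q => if q = p then 1 else 0) f q).2
      (fl (fun q => if q = p then 1 else 0) f r).2 = al r q * psi (f q).2 (f r).2 +
      ((if r = p then al r q * (f q).2.1 else 0) + if q = p then al r q * (f r).2.2.2.1 else 0) :=
    fun r q => by
      simp only [fl, psi]
      split_ifs <;> ring
  simp only [Ph, this, sum_add_distrib, sum_ite_eq', mem_univ, if_true, cc]
  rw [sum_comm (f := fun r q : S => if r = p then al r q * (f q).2.1 else 0)]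
  simp only [sum_ite_eq', mem_univ, if_true]

/-- The support of the terms. -/
def Cd (u : ℝ) (z : V4 × V4 × V4) (f : S → Lb) : Prop :=
  (∀ p : S, u ^ 800 < (p : ℕ) → (f p).2 ∈ plA) ∧ (∀ p, f p ∈ Wl z) ∧ Io u S f

open Classical in
theorem tmP_eq (f : S → Lb) :
    tmP u z plA S f = if Cd u z f then wg S f * (sg (Ph S f) : ℝ) else 0 := by
  have : (∀ k ∈ Med u S f, k.2 ∈ plA) ↔ ∀ p : S, u ^ 800 < (p : ℕ) → (f p).2 ∈ plA := by
    simp only [Med, forall_mem_image, mem_filter, mem_univ, true_and]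
  simp only [tmP, tm, Cd, this]
  split_ifs <;> tauto

theorem cd_fl (hz : z ∈ Trip) (hs : z.2.1 ∈ plA) {f : S → Lb} {p : S} (h1 : u ^ 800 < (p : ℕ))
    (h2 : (f p).1 ≠ 2) (h : Cd u z f) : Cd u z (fl (fun q => if q = p then 1 else 0) f) := by
  have a : ∀ q : S, u ^ 800 < (q : ℕ) → (fl (fun q => if q = p then 1 else 0) f q).2 ∈ plA :=
    fun q k => mA.2 ⟨(mA.1 (h.1 q k)).1, congrArg (· + _) (mA.1 (h.1 q k)).2⟩
  refine ⟨a, fun q => ?_, h.2.2⟩
  by_cases e : q = p
  · exact wl_A hz hs (e ▸ h2) (a q (e ▸ h1))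
  · simpa only [fl, if_neg e, add_zero] using h.2.1 q

/-- The contribution of the tiny primes. -/
def tau (u : ℝ) (f : S → Lb) (p : S) : ZMod 2 :=
  ∑ q ∈ univ.filter fun q : S => ¬ u ^ 800 < (q : ℕ), (al p q * (f q).2.1 + al q p * (f q).2.2.2.1)

/-- The amount of the shift. -/
def de (u : ℝ) (e : ZMod 2) (f : S → Lb) (q : S) : ZMod 2 :=
  if u ^ 800 < (q : ℕ) ∧ (f q).1 ≠ 2 then e + tau u f q else 0

/-- Shift of the other coordinates. -/
def sf (u : ℝ) (e : ZMod 2) (f : S → Lb) (q : S) : Lb :=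
  ((f q).1, (f q).2.1 + de u e f q, (f q).2.2.1, (f q).2.2.2.1 + de u e f q, (f q).2.2.2.2)

theorem sf_sf (e : ZMod 2) : Function.Involutive (sf (S := S) u e) := fun f => by
  have a : tau u (sf u e f) = tau u f := funext fun p => sum_congr rfl fun q k => by
    simp only [sf, de, if_neg fun j : _ ∧ (f q).1 ≠ 2 => (mem_filter.1 k).2 j.1, add_zero]
  have b : de u e (sf u e f) = de u e f := funext fun q => by rw [de, a]; rfl
  funext q
  rw [sf, b]
  simp only [sf, aa]

/-- The weights. -/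
def WW (u : ℝ) (p : ℕ) (k : Lb) : ℝ := if u ^ 800 < p then
  (if k.2 ∈ plA ∧ (k.1 = 2 → k.2 = 0) ∧ (p % 4 ≠ 1 → k.2.1 = 0) then rw k.1 else 0) else rw k.1

theorem rw_nn (i : Fin 3) : 0 ≤ rw i := by unfold rw; split_ifs <;> norm_num

theorem WW_nn (u : ℝ) (p : ℕ) (k : Lb) : 0 ≤ WW u p k := by
  unfold WW
  split_ifs
  exacts [rw_nn _, le_rfl, rw_nn _]

theorem cc_eq (hS : ∀ p ∈ S, p.Prime ∧ p ≠ 2) {f : S → Lb} (h : Cd u z f) {p : S}
    (h1 : u ^ 800 < (p : ℕ)) (h3 : (p : ℕ) % 4 ≠ 1) : cc f p = (f p).2.1 +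
      ((∑ q ∈ univ.filter fun q : S => u ^ 800 < (q : ℕ), ep q * (f q).2.1) + tau u f p) := by
  have e : ep p = 1 := if_pos ((G.KerAux.odd_cases
    ((hS _ p.2).1.odd_of_ne_two (hS _ p.2).2)).resolve_left h3)
  rw [cc, ← sum_filter_add_sum_filter_not _ fun q : S => u ^ 800 < (q : ℕ), ← add_assoc,
    sum_congr rfl (g := fun q => (if q = p then (f q).2.1 else 0) + ep q * (f q).2.1) fun q k => ?_,
    sum_add_distrib, sum_ite_eq', if_pos (by simpa using h1), tau]
  rw [(mA.1 (h.1 q (mem_filter.1 k).2)).1, ← add_mul]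
  split_ifs with j
  · rw [j, e, G.KerAux.add_self, zero_mul, one_mul, G.KerAux.add_self]
  · rw [G.recip.2 _ _ (hS _ p.2).1 (hS _ q.2).1 (hS _ p.2).2 (hS _ q.2).2
      fun t => j (Subtype.ext t.symm), e, one_mul, zero_add]

theorem inner (hS : ∀ p ∈ S, p.Prime ∧ p ≠ 2) (hz : z ∈ Trip) (hs : z.2.1 ∈ plA) :
    |∑ f, tmP u z plA S f| ≤ 2 * ∑ f : S → Lb, ∏ p : S, WW u p (f p) := by
  classical
  rw [invol _ (fun p : S => fl fun q => if q = p then 1 else 0)
    (fun p f => u ^ 800 < (p : ℕ) ∧ (f p).1 ≠ 2 ∧ cc f p ≠ 0) (fun _ _ => fl_fl _ _)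
    (fun _ _ _ => Iff.rfl) fun p f ⟨h1, h2, h3⟩ => ?_]
  · refine (abs_sum_le_sum_abs _ _).trans ((sum_le_sum (g := fun f => ∑ e : ZMod 2,
      ∏ p : S, WW u p (sf u e f p)) fun f _ => ?_).trans_eq ?_)
    · have nn : ∀ e : ZMod 2, 0 ≤ ∏ p : S, WW u p (sf u e f p) := fun e =>
        prod_nonneg fun p _ => WW_nn _ _ _
      rw [tmP_eq]
      split_ifs with j h
      · exact abs_zero.trans_le (sum_nonneg fun e _ => nn e)
      swap
      · exact abs_zero.trans_le (sum_nonneg fun e _ => nn e)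
      refine le_trans (le_of_eq ?_) (single_le_sum (fun e _ => nn e)
        (mem_univ (∑ q ∈ univ.filter fun q : S => u ^ 800 < (q : ℕ), ep q * (f q).2.1)))
      have a : ∀ x, |sg x| = 1 := by decide
      rw [abs_mul, ← Int.cast_abs, a, Int.cast_one, mul_one, wg,
        abs_of_nonneg (prod_nonneg fun p _ => rw_nn _)]
      refine prod_congr rfl fun p _ => ?_
      rw [WW]
      split_ifs with k1 k2
      · rfl
      · refine absurd ?_ k2
        have m := mA.1 (h.1 p k1)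
        by_cases c : (f p).1 = 2
        · have v := cA _ ((mem_filter.1 (h.2.1 p)).2.2 c) (h.1 p k1)
          simp [sf, de, c, v, mA]
        refine ⟨mA.2 ⟨congrArg (· + _) m.1, m.2⟩, fun t => absurd t c, fun t => ?_⟩
        simp only [sf, de, if_pos (And.intro k1 c)]
        rw [← cc_eq hS h k1 t]
        exact not_not.1 fun n => j ⟨p, k1, c, n⟩
      · rfl
    · rw [sum_comm, sum_congr rfl fun e _ =>
        (sf_sf e).bijective.sum_comp fun f : S → Lb => ∏ p : S, WW u p (f p)]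
      simp
  · have a : ∀ x y : ZMod 2, y ≠ 0 → sg (x + y) = -sg x := by decide
    rw [tmP_eq, tmP_eq, ph_fl, a _ _ h3]
    by_cases h : Cd u z f
    · rw [if_pos h, if_pos (cd_fl hz hs h1 h2 h), Int.cast_neg, mul_neg]
      rfl
    · rw [if_neg h, if_neg fun t => h (fl_fl _ f ▸ cd_fl hz hs h1 h2 t), neg_zero]

theorem sum_WW (u : ℝ) (p : ℕ) : ∑ k, WW u p k ≤
    (if (p : ℝ) ≤ u ^ 800 then 20 else 0) + 2 + if p % 4 = 1 then 3 / 2 else 0 := by
  have a : ∀ (P : V4 → Prop) [DecidablePred P] (r : ℝ) (n : ℕ), (univ.filter P).card = n →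
      ∑ v, (if P v then r else 0) = n * r := fun P _ r n h => by
    rw [← sum_filter, sum_const, h, nsmul_eq_mul]
  have r0 : rw 0 = 1 / 2 := if_neg (by decide)
  have r1 : rw 1 = 1 / 4 := if_pos rfl
  have r2 : rw 2 = 1 / 2 := if_neg (by decide)
  unfold WW
  by_cases h : u ^ 800 < p
  · simp only [if_pos h, if_neg h.not_ge, Fintype.sum_prod_type (α₁ := Fin 3), Fin.sum_univ_three]
    by_cases j : p % 4 = 1
    · simp only [j, ne_eq, not_true_eq_false, false_imp_iff, and_true, if_true]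
      rw [a _ _ 4 (by decide), a _ _ 4 (by decide), a _ _ 1 (by decide)]
      norm_num [r0, r1, r2]
    · simp only [j, ne_eq, not_false_eq_true, true_imp_iff, if_false]
      rw [a _ _ 2 (by decide), a _ _ 2 (by decide), a _ _ 1 (by decide)]
      norm_num [r0, r1, r2]
  · simp only [if_neg h, if_pos (not_lt.1 h), Fintype.sum_prod_type (α₁ := Fin 3),
      Fin.sum_univ_three, sum_const, card_univ, Fintype.card_prod, ZMod.card]
    split_ifs <;> norm_num [r0, r1, r2]

end M5a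

open M5a in
theorem m5 : M5S := fun eu ch z hz hs ε hε => by
  obtain ⟨-, e2, ⟨C, e3⟩, -⟩ := eu
  filter_upwards [e3, ch, eventually_gt_atTop 1, Real.tendsto_log_atTop.eventually_ge_atTop
    (20 * (22 * C + 20 * Real.log 400 - Real.log (ε / 2)))] with u h1 h2 h3 h4
  have a1 : |GG u (tmP u z plA)| ≤ 2 * GG u fun S f => ∏ p : S, WW u p (f p) := by
    rw [GG, GG, mul_sum]
    refine (abs_sum_le_sum_abs _ _).trans (sum_le_sum fun m k => ?_)
    rw [abs_div, Nat.abs_cast, ← mul_div_assoc]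
    refine div_le_div_of_nonneg_right (inner (fun p j => ⟨Nat.prime_of_mem_primeFactors j,
      fun t => ?_⟩) hz hs) m.cast_nonneg
    exact (Nat.not_even_iff_odd.2 (mem_filter.1 k).2.2)
      (even_iff_two_dvd.2 (t ▸ Nat.dvd_of_mem_primeFactors j))
  have a2 : ∑ p ∈ PP (DD u), (∑ k, WW u p k) / p ≤
      20 * ∑ p ∈ (PP (DD u)).filter (fun p : ℕ => (p : ℝ) ≤ u ^ 800), 1 / (p : ℝ) +
      2 * ∑ p ∈ PP (DD u), 1 / (p : ℝ) + 3 / 2 * ∑ p ∈ PP (DD u) with p % 4 = 1, 1 / (p : ℝ) := by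
    rw [sum_filter, sum_filter, mul_sum, mul_sum, mul_sum, ← sum_add_distrib, ← sum_add_distrib]
    refine sum_le_sum fun p _ =>
      (div_le_div_of_nonneg_right (sum_WW u p) p.cast_nonneg).trans_eq ?_
    split_ifs <;> ring
  have l0 := Real.log_pos h3
  have a3 := Real.log_le_sub_one_of_pos (div_pos l0 (by norm_num : (0 : ℝ) < 400))
  rw [Real.log_div l0.ne' (by norm_num)] at a3
  have a4 := (e2 u (WW u) (WW_nn u)).trans (Real.exp_le_exp.2 (show _ ≤ (3 : ℕ) * Real.log u +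
    Real.log (ε / 2) by push_cast; linarith [h1.1, h1.2, h2.1]))
  rw [Real.exp_add, Real.exp_nat_mul, Real.exp_log (by linarith), Real.exp_log (by linarith)] at a4
  linarith

end Pool.Agent.Lib.MP_d6ddbd_nt.L
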