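import Pool.Agent.Lib.MP_d6ddbd_nt.L.St

/-! The Legendre family: assembly of the first moment over the small primes. -/

set_option autoImplicit false

open Finset Filter

noncomputable section

namespace Pool.Agent.Lib.MP_d6ddbd_nt.L

open G (ep al sg)

namespace Ma

/-- The six planes. -/
def Y (j : Fin 6) : Finset V4 := ![plA, plC, plE, plM 0, plM 1, plM 2] j

theorem l1 : ∀ a : V4, psi a a = 0 → ∃ j, a ∈ Y j ∧ 0 ∈ Y j := by decide +kernel

/-- The singular vectors. -/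
def Sg : Finset V4 := univ.filter fun a => psi a a = 0

theorem mem_Sg {a : V4} (h : psi a a = 0) : a ∈ Sg := mem_filter.2 ⟨mem_univ _, h⟩

theorem l2 : ∀ a ∈ Sg.erase 0, ∀ b ∈ (Sg.erase 0).erase a, br a b = 0 →
    ∃ j, Sg.filter (fun c => br a c = 0 ∧ br b c = 0) ⊆ Y j := by decide +kernel

theorem l3 : ∀ j, ∀ a ∈ Y j, ∀ b ∈ Y j, br a b ≠ 1 := by decide +kernel

theorem l4 : ∀ z ∈ Trip, br z.2.1 z.2.2 = 0 := by decide +kernel

theorem l5 : ∀ a b : V4, br a b = br b a := fun _ _ => add_comm _ _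

theorem l6 : ∀ a : V4, br a a = 0 := by decide +kernel

theorem plane {T : Set V4} (h1 : ∀ a ∈ T, psi a a = 0) (h2 : ∀ a ∈ T, ∀ b ∈ T, br a b = 0) :
    ∃ j, ∀ a ∈ T, a ∈ Y j := by
  by_cases h : ∃ a ∈ T, ∃ b ∈ T, a ≠ 0 ∧ b ≠ 0 ∧ a ≠ b
  · obtain ⟨a, ha, b, hb, a0, b0, ab⟩ := h
    obtain ⟨j, hj⟩ := l2 a (mem_erase.2 ⟨a0, mem_Sg (h1 a ha)⟩) b
      (mem_erase.2 ⟨ab.symm, mem_erase.2 ⟨b0, mem_Sg (h1 b hb)⟩⟩) (h2 a ha b hb)
    exact ⟨j, fun c hc => hj (mem_filter.2 ⟨mem_Sg (h1 c hc), h2 a ha c hc, h2 b hb c hc⟩)⟩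
  · push Not at h
    by_cases h3 : ∃ a ∈ T, a ≠ 0
    · obtain ⟨a, ha, a0⟩ := h3
      obtain ⟨j, j1, j2⟩ := l1 a (h1 a ha)
      refine ⟨j, fun c hc => ?_⟩
      by_cases c0 : c = 0
      · rwa [c0]
      · rwa [← h a ha c hc a0 c0]
    · push Not at h3
      obtain ⟨j, j1, -⟩ := l1 0 (by decide)
      exact ⟨j, fun c hc => by rwa [h3 c hc]⟩

/-- Four times the weight of a colour. -/
def nw (i : Fin 3) : ℕ := if i = 1 then 1 else 2

theorem sum_rw (U : Finset Lb) : ∑ k ∈ U, rw k.1 = ((∑ k ∈ U, nw k.1 : ℕ) : ℝ) / 4 := by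
  rw [Nat.cast_sum, sum_div]
  refine sum_congr rfl fun k _ => ?_
  unfold rw nw
  split_ifs <;> norm_num

theorem rw_le {U : Finset Lb} (h : ∑ k ∈ U, nw k.1 ≤ 10) : ∑ k ∈ U, rw k.1 ≤ 5 / 2 := by
  have : ((∑ k ∈ U, nw k.1 : ℕ) : ℝ) ≤ 10 := by exact_mod_cast h
  rw [sum_rw]
  linarith

/-- The labels in two different planes. -/
def U2 (i j : Fin 6) : Finset Lb := univ.filter fun k => i ≠ j ∧ k.2 ∈ Y i ∧ k.2 ∈ Y j

theorem l7 : ∀ i j, ∑ k ∈ U2 i j, nw k.1 ≤ 10 := by decide +kernel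

/-- The admissible labels in a plane. -/
def U1 (c : V4) (j : Fin 6) : Finset Lb := univ.filter fun k =>
  k.2 ∈ Y j ∧ (k.1 = 0 → k.2 + c ∈ plA) ∧ (k.1 = 2 → k.2 ∈ plC)

theorem l8 : ∀ c, ∑ k ∈ U1 c 2, nw k.1 ≤ 10 := by decide +kernel

theorem l9 : ∀ c (j : Fin 6) (i : Fin 3), 3 ≤ j → ∑ k ∈ U1 c j with k.1 = i, nw k.1 ≤ 4 := by
  decide +kernel

/-- The number of main planes that contain the labels of the large primes. -/
def nm (z : V4 × V4 × V4) (j : Fin 6) : ℕ := if 3 ≤ j ∧ z.2.1 ∈ Y j ∧ z.2.2 ∈ Y j then 1 else 0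

theorem l10 : ∑ z ∈ Trip, ∑ j, nm z j = 24 := by decide +kernel

theorem rw_nonneg (i : Fin 3) : 0 ≤ rw i := by
  unfold rw
  split_ifs <;> norm_num

theorem wg_nonneg (S : Finset ℕ) (f : S → Lb) : 0 ≤ wg S f := prod_nonneg fun _ _ => rw_nonneg _

theorem abs_sg (x : ZMod 2) : |(sg x : ℝ)| = 1 := by
  unfold sg
  split_ifs <;> simp

variable {u : ℝ} {z : V4 × V4 × V4}

theorem tm_cases (S : Finset ℕ) (f : S → Lb) :
    tm u z S f = 0 ∨ ((∀ p, f p ∈ Wl z) ∧ Io u S f) ∧ |tm u z S f| = wg S f := by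
  unfold tm
  split_ifs with h
  · exact Or.inr ⟨h, by rw [abs_mul, abs_sg, mul_one, abs_of_nonneg (wg_nonneg S f)]⟩
  · exact Or.inl rfl

theorem GG_mono {F G : (S : Finset ℕ) → (S → Lb) → ℝ} (h : ∀ S f, F S f ≤ G S f) :
    GG u F ≤ GG u G :=
  sum_le_sum fun _ _ => div_le_div_of_nonneg_right (sum_le_sum fun f _ => h _ f) (Nat.cast_nonneg _)

theorem GG_add (F G : (S : Finset ℕ) → (S → Lb) → ℝ) :
    GG u (fun S f => F S f + G S f) = GG u F + GG u G := by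
  simp only [GG, sum_add_distrib, add_div]

theorem GG_sum {ι : Type} (s : Finset ι) (F : ι → (S : Finset ℕ) → (S → Lb) → ℝ) :
    GG u (fun S f => ∑ i ∈ s, F i S f) = ∑ i ∈ s, GG u (F i) := by
  unfold GG
  rw [sum_comm]
  refine sum_congr rfl fun m _ => ?_
  rw [sum_comm, sum_div]

theorem med_mem {S : Finset ℕ} {f : S → Lb} {k : Lb} (h : k ∈ Med u S f) : ∃ p, f p = k := by
  obtain ⟨p, -, e⟩ := mem_image.1 h
  exact ⟨p, e⟩

/-- The term of a plane. -/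
def tj (u : ℝ) (z : V4 × V4 × V4) (j : Fin 6) (S : Finset ℕ) (f : S → Lb) : ℝ :=
  if z.2.1 ∈ Y j ∧ z.2.2 ∈ Y j then tmP u z (Y j) S f else 0

/-- The overcount. -/
def ov (u : ℝ) (U : Finset Lb) (S : Finset ℕ) (f : S → Lb) : ℝ :=
  if Med u S f ⊆ U then wg S f else 0

theorem ov_nonneg (U : Finset Lb) (S : Finset ℕ) (f : S → Lb) : 0 ≤ ov u U S f := by
  unfold ov
  split_ifs
  · exact wg_nonneg S f
  · exact le_rfl

theorem point (hz : z ∈ Trip) (S : Finset ℕ) (f : S → Lb) :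
    tm u z S f ≤ (if ∃ k ∈ Med u S f, ∃ k' ∈ Med u S f, br k.2 k'.2 = 1 then tm u z S f else 0) +
      (∑ j, tj u z j S f + ∑ i, ∑ j, ov u (U2 i j) S f) := by
  have h0 : ∀ i, 0 ≤ ∑ j, ov u (U2 i j) S f := fun i => sum_nonneg fun j _ => ov_nonneg _ S f
  have h1 : 0 ≤ ∑ i, ∑ j, ov u (U2 i j) S f := sum_nonneg fun i _ => h0 i
  rcases tm_cases (u := u) (z := z) S f with h | ⟨⟨hW, -⟩, h⟩
  · simpa [tj, tmP, h] using h1
  split_ifs with hl
  · obtain ⟨k, hk, k', hk', e⟩ := hl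
    have : ∑ j, tj u z j S f = 0 := sum_eq_zero fun j _ => by
      have : ¬ ∀ k ∈ Med u S f, k.2 ∈ Y j := fun hh => l3 j _ (hh k hk) _ (hh k' hk') e
      simp only [tj, tmP, if_neg this, ite_self]
    linarith
  obtain ⟨-, -, -, z4, z5⟩ := (mem_filter.1 hz).2
  have hM : ∀ k ∈ Med u S f, psi k.2 k.2 = 0 ∧ br z.2.1 k.2 = 0 ∧ br z.2.2 k.2 = 0 := fun k hk => by
    obtain ⟨p, rfl⟩ := med_mem hk
    exact (mem_filter.1 (mem_filter.1 (hW p)).1).2
  have two : ∀ x : ZMod 2, x ≠ 1 → x = 0 := by decide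
  obtain ⟨i, hi⟩ := plane (T := {a | a = z.2.1 ∨ a = z.2.2 ∨ ∃ k ∈ Med u S f, k.2 = a})
    (by
      rintro a (rfl | rfl | ⟨k, hk, rfl⟩)
      exacts [z4, z5, (hM k hk).1])
    (by
      have e := l4 z hz
      rintro a (rfl | rfl | ⟨k, hk, rfl⟩) b (rfl | rfl | ⟨k', hk', rfl⟩)
      exacts [l6 _, e, (hM k' hk').2.1, (l5 _ _).trans e, l6 _, (hM k' hk').2.2,
        (l5 _ _).trans (hM k hk).2.1, (l5 _ _).trans (hM k hk).2.2,
        two _ fun e => hl ⟨k, hk, k', hk', e⟩])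
  have i1 : ∀ k ∈ Med u S f, k.2 ∈ Y i := fun k hk => hi _ (Or.inr (Or.inr ⟨k, hk, rfl⟩))
  have i2 : tj u z i S f = tm u z S f := by
    rw [tj, if_pos ⟨hi _ (Or.inl rfl), hi _ (Or.inr (Or.inl rfl))⟩, tmP, if_pos i1]
  have i3 : ∀ j ∈ univ.erase i, 0 ≤ tj u z j S f + ov u (U2 i j) S f := fun j hj => by
    have o := ov_nonneg (u := u) (U2 i j) S f
    unfold tj tmP
    split_ifs with c1 c2
    · have hs : Med u S f ⊆ U2 i j := fun k hk =>
        mem_filter.2 ⟨mem_univ _, (ne_of_mem_erase hj).symm, i1 k hk, c2 k hk⟩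
      rw [ov, if_pos hs, ← h]
      linarith [neg_abs_le (tm u z S f)]
    · rwa [zero_add]
    · rwa [zero_add]
  have i4 := sum_nonneg i3
  have i5 := add_sum_erase univ (fun j => tj u z j S f + ov u (U2 i j) S f) (mem_univ i)
  have i6 := single_le_sum (fun i _ => h0 i) (mem_univ i)
  have i7 := ov_nonneg (u := u) (U2 i i) S f
  rw [sum_add_distrib (s := univ), i2] at i5
  linarith

/-- The mass of the family. -/
def Z (u : ℝ) : ℝ := ∑ d ∈ Fam u, 1 / (pr d : ℝ)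

theorem main (hB : BrS) {j : Fin 6} (hj : 3 ≤ j) :
    GG u (fun S f => if ∀ p, (f p).2 ∈ Y j then tmP u z (Y j) S f else 0) ≤ Z u := by
  classical
  have h1 := hB u fun S f => ∏ p : S, if f p ∈ U1 z.1 j then rw (f p).1 else 0
  refine (GG_mono fun S f => ?_).trans (h1.symm.trans_le (sum_le_sum fun d _ => ?_))
  · have h2 : 0 ≤ ∏ p : S, if f p ∈ U1 z.1 j then rw (f p).1 else 0 :=
      prod_nonneg fun p _ => by
        split_ifs
        exacts [rw_nonneg _, le_rfl]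
    have h3 : 0 ≤ if Io u S f then ∏ p : S, if f p ∈ U1 z.1 j then rw (f p).1 else 0 else 0 := by
      split_ifs
      exacts [h2, le_rfl]
    by_cases c1 : ∀ p, (f p).2 ∈ Y j
    · rw [if_pos c1, tmP]
      by_cases c2 : ∀ k ∈ Med u S f, k.2 ∈ Y j
      · rw [if_pos c2]
        rcases tm_cases (u := u) (z := z) S f with h | ⟨⟨hW, hI⟩, h⟩
        · rwa [h]
        · have hm : ∀ p, f p ∈ U1 z.1 j := fun p =>
            mem_filter.2 ⟨mem_univ _, c1 p, (mem_filter.1 (hW p)).2⟩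
          rw [if_pos hI, prod_congr rfl fun p _ => if_pos (hm p)]
          exact (le_abs_self _).trans h.le
      · rwa [if_neg c2]
    · rwa [if_neg c1]
  · refine div_le_div_of_nonneg_right ?_ (Nat.cast_nonneg _)
    rw [← prod_univ_sum (fun p : (pr d).primeFactors => univ.filter fun k : Lb => k.1 = cl d p)
      fun _ k => if k ∈ U1 z.1 j then rw k.1 else 0]
    refine prod_le_one (fun p _ => sum_nonneg fun k _ => ?_) fun p _ => ?_
    · split_ifs
      exacts [rw_nonneg _, le_rfl]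
    · have h2 : ((∑ k ∈ U1 z.1 j with k.1 = cl d p, nw k.1 : ℕ) : ℝ) ≤ 4 := by
        exact_mod_cast l9 z.1 j (cl d p) hj
      rw [← sum_filter, filter_comm, filter_univ_mem, sum_rw]
      linarith

theorem plane_le (hE : EulS) (hC : ChS) (hB : BrS) (h2 : M2S) (h3 : M3S) (h4 : M4S) (h5 : M5S)
    (hz : z ∈ Trip) (j : Fin 6) {ε : ℝ} (hε : 0 < ε) :
    ∀ᶠ u : ℝ in atTop, GG u (tj u z j) ≤ nm z j * Z u + ε * u ^ 3 := by
  by_cases c : z.2.1 ∈ Y j ∧ z.2.2 ∈ Y j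
  swap
  · filter_upwards [eventually_ge_atTop 0] with u hu
    have : GG u (tj u z j) = 0 := by simp [GG, tj, if_neg c]
    rw [this, nm, if_neg fun h => c h.2, Nat.cast_zero, zero_mul, zero_add]
    positivity
  have e : ∀ u, tj u z j = tmP u z (Y j) := fun u => by
    funext S f
    exact if_pos c
  have mn : ∀ i : Fin 3, 3 ≤ j → Y j = plM i →
      ∀ᶠ u : ℝ in atTop, GG u (tj u z j) ≤ nm z j * Z u + ε * u ^ 3 := fun i hj hi => by
    filter_upwards [h3 hE hC z hz i (hi ▸ c.1) (hi ▸ c.2) ε hε] with u hu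
    rw [← hi] at hu
    have h6 : tmP u z (Y j) = fun S f => (if ∀ p, (f p).2 ∈ Y j then tmP u z (Y j) S f else 0) +
        (if ∀ p, (f p).2 ∈ Y j then 0 else tmP u z (Y j) S f) := by
      funext S f
      split_ifs <;> simp
    rw [e, nm, if_pos ⟨hj, c⟩, Nat.cast_one, one_mul, h6, GG_add]
    exact add_le_add (main hB hj) ((le_abs_self _).trans hu)
  have sm : ¬ 3 ≤ j → (∀ᶠ u : ℝ in atTop, GG u (tmP u z (Y j)) ≤ ε * u ^ 3) →
      ∀ᶠ u : ℝ in atTop, GG u (tj u z j) ≤ nm z j * Z u + ε * u ^ 3 := fun hj h => by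
    filter_upwards [h] with u hu
    rwa [e, nm, if_neg fun h => hj h.1, Nat.cast_zero, zero_mul, zero_add]
  fin_cases j
  · exact sm (by decide) ((h5 hE hC z hz c.1 ε hε).mono fun u hu => (le_abs_self _).trans hu)
  · exact sm (by decide) ((h4 hE z hz ε hε).mono fun u hu => (le_abs_self _).trans hu)
  · refine sm (by decide) ((h2 hE (U1 z.1 2) (rw_le (l8 _)) ε hε).mono fun u hu =>
      (GG_mono fun S f => ?_).trans hu)
    have o := ov_nonneg (u := u) (U1 z.1 2) S f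
    change _ ≤ ov u (U1 z.1 2) S f
    unfold tmP
    split_ifs with c1
    · rcases tm_cases (u := u) (z := z) S f with h | ⟨⟨hW, -⟩, h⟩
      · rwa [h]
      · have hs : Med u S f ⊆ U1 z.1 2 := fun k hk => by
          refine mem_filter.2 ⟨mem_univ _, c1 k hk, ?_⟩
          obtain ⟨p, rfl⟩ := med_mem hk
          exact (mem_filter.1 (hW p)).2
        rw [ov, if_pos hs]
        exact (le_abs_self _).trans h.le
    · exact o
  · exact mn 0 (by decide) rfl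
  · exact mn 1 (by decide) rfl
  · exact mn 2 (by decide) rfl

theorem one (hE : EulS) (hC : ChS) (hB : BrS) (h1 : M1S) (h2 : M2S) (h3 : M3S) (h4 : M4S)
    (h5 : M5S) (hz : z ∈ Trip) {ε : ℝ} (hε : 0 < ε) :
    ∀ᶠ u : ℝ in atTop, GG u (tm u z) ≤ ((∑ j, nm z j : ℕ) : ℝ) * Z u + 43 * (ε * u ^ 3) := by
  filter_upwards [h1 z hz ε hε,
    eventually_all.2 fun j => plane_le hE hC hB h2 h3 h4 h5 hz j hε,
    eventually_all.2 fun i => eventually_all.2 fun j => h2 hE (U2 i j) (rw_le (l7 i j)) ε hε]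
    with u a1 a2 a3
  refine (GG_mono (point hz)).trans ?_
  rw [GG_add, GG_add, GG_sum, GG_sum]
  have b1 := sum_le_sum fun j (_ : j ∈ univ) => a2 j
  have b2 : ∑ i, GG u (fun S f => ∑ j, ov u (U2 i j) S f) ≤ ∑ _i : Fin 6, ∑ _j : Fin 6, ε * u ^ 3 :=
    sum_le_sum fun i _ => by
      rw [GG_sum]
      exact sum_le_sum fun j _ => a3 i j
  rw [sum_add_distrib, ← sum_mul, ← Nat.cast_sum] at b1
  simp only [sum_const, card_univ, Fintype.card_fin, nsmul_eq_mul, Nat.cast_ofNat] at b1 b2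
  linarith [le_abs_self (GG u fun S f =>
    if ∃ k ∈ Med u S f, ∃ k' ∈ Med u S f, br k.2 k'.2 = 1 then tm u z S f else 0)]

theorem sd_eq (hB : BrS) (u : ℝ) :
    ∑ d ∈ Fam u, Sd d / (pr d : ℝ) = 1 / 8 * ∑ z ∈ Trip, GG u (tm u z) := by
  classical
  have h0 : ∀ d, Sd d / (pr d : ℝ) = 1 / 8 * ∑ z ∈ Trip, (∑ f ∈ Fintype.piFinset
      fun p : (pr d).primeFactors => (Wl z).filter fun k => k.1 = cl d p,
        wg _ f * (sg (Ph _ f) : ℝ)) / (pr d : ℝ) := fun d => by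
    rw [Sd, mul_div_assoc, sum_div]
  rw [sum_congr rfl fun d _ => h0 d, ← mul_sum, sum_comm]
  refine congrArg _ (sum_congr rfl fun z _ => ?_)
  have h1 := hB u fun S f => if ∀ p, f p ∈ Wl z then wg S f * (sg (Ph S f) : ℝ) else 0
  have h2 : tm u z = fun S f => if Io u S f then
      (if ∀ p, f p ∈ Wl z then wg S f * (sg (Ph S f) : ℝ) else 0) else 0 := by
    funext S f
    unfold tm
    by_cases c1 : ∀ p, f p ∈ Wl z <;> by_cases c2 : Io u S f <;> simp [c1, c2]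
  rw [h2, ← h1]
  refine sum_congr rfl fun d _ => ?_
  rw [← sum_filter]
  refine congrArg (· / (pr d : ℝ)) (sum_congr ?_ fun _ _ => rfl)
  ext f
  simp only [Fintype.mem_piFinset, mem_filter, mem_univ, true_and, forall_and]
  exact and_comm

end Ma

open Ma in
theorem ma : MaS := by
  intro hE hC hB h1 h2 h3 h4 h5 hz
  obtain ⟨c, hc, h⟩ := hz hE hB
  refine ⟨c / 2, half_pos hc, ?_⟩
  have hε : 0 < c / (43 * 1024) := by positivity
  filter_upwards [h, eventually_ge_atTop 0, (eventually_all_finset Trip).2 fun z hz =>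
    one hE hC hB h1 h2 h3 h4 h5 hz hε] with u a1 a2 a3
  have b1 := sum_le_sum a3
  have b2 : (Trip.card : ℝ) ≤ 4096 := by
    have : Trip.card ≤ 4096 := (card_le_univ _).trans_eq (by simp)
    exact_mod_cast this
  have b3 : 0 ≤ c * u ^ 3 := by positivity
  rw [sum_add_distrib, ← sum_mul, ← Nat.cast_sum, l10, sum_const, nsmul_eq_mul] at b1
  have b4 := mul_le_mul_of_nonneg_right b2 b3
  have b5 : ∑ d ∈ Fam u, (4 - Sd d) / (pr d : ℝ) = 4 * Z u - ∑ d ∈ Fam u, Sd d / (pr d : ℝ) := by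
    rw [Z, mul_sum, ← sum_sub_distrib]
    exact sum_congr rfl fun d _ => by ring
  change c * u ^ 3 ≤ Z u at a1
  rw [b5, sd_eq hB]
  push_cast at b1
  nlinarith

end Pool.Agent.Lib.MP_d6ddbd_nt.L
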