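import Pool.Agent.Lib.MP_d6ddbd_nt.L.Br

/-! The Legendre family: the mass of the family. -/

open Finset Filter

noncomputable section

namespace Pool.Agent.Lib.MP_d6ddbd_nt.L

namespace Mz

open Br

lemma sum_om (S : Finset ℕ) (a b : ℝ) :
    ∑ f : S → Lb, a ^ om S f 0 * b ^ om S f 2 = 16 ^ S.card * (a + 1 + b) ^ S.card := by
  have h := Finset.prod_univ_sum (fun _ : S => (univ : Finset Lb)) fun _ k => ![a, 1, b] k.1
  have e : ∑ k : Lb, ![a, 1, b] k.1 = 16 * (a + 1 + b) := by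
    rw [Fintype.sum_prod_type]
    simp [Fin.sum_univ_three]
    ring
  rw [Fintype.piFinset_univ, e, prod_const, card_univ, Fintype.card_coe, mul_pow] at h
  rw [h]
  refine sum_congr rfl fun f _ => ?_
  rw [← Finset.prod_fiberwise univ (fun p => (f p).1), Fin.prod_univ_three]
  have k : ∀ i, ∏ p : S with (f p).1 = i, ![a, 1, b] (f p).1 = ![a, 1, b] i ^ om S f i := fun i => by
    rw [om, ← prod_const]
    exact prod_congr rfl fun p hp => by rw [(mem_filter.1 hp).2]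
  rw [k, k, k]
  simp

lemma pw {r B : ℝ} (hr : 1 ≤ r) (hB : 0 < B) {K : ℕ} (hK : r ^ K ≤ 1.1) (a b : ℕ) :
    4 * B * ((r ^ a * r⁻¹ ^ b - (-r) ^ a * (-r⁻¹) ^ b) / 2
      - 1.1 * ((1 ^ a * 1 ^ b - (-1) ^ a * (-1) ^ b) / 2) - B * ((r ^ 2) ^ a * (r⁻¹ ^ 2) ^ b))
      ≤ if Odd (a + b) ∧ b + K ≤ a then 1 else 0 := by
  have r0 : 0 < r := by linarith
  have e1 : (-r) ^ a * (-r⁻¹) ^ b = (-1) ^ (a + b) * (r ^ a * r⁻¹ ^ b) := by
    rw [neg_pow r, neg_pow r⁻¹]; ring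
  have e2 : (r ^ 2) ^ a * (r⁻¹ ^ 2) ^ b = (r ^ a * r⁻¹ ^ b) ^ 2 := by ring
  have e3 : a ≤ b + K → r ^ a * r⁻¹ ^ b ≤ 1.1 := fun h => by
    rw [inv_pow, ← div_eq_mul_inv, div_le_iff₀ (by positivity)]
    calc r ^ a ≤ r ^ (b + K) := pow_le_pow_right₀ hr h
      _ = r ^ K * r ^ b := by ring
      _ ≤ _ := by gcongr
  rw [e1, e2, ← pow_add (-1 : ℝ), one_pow, one_pow]
  generalize r ^ a * r⁻¹ ^ b = Y at *
  have p1 : 0 ≤ B * (B * Y ^ 2) := by positivity
  rcases Nat.even_or_odd (a + b) with h | h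
  · rw [h.neg_one_pow, if_neg fun k => (Nat.not_odd_iff_even.2 h) k.1]
    nlinarith
  · rw [h.neg_one_pow]
    split_ifs with k
    · nlinarith [sq_nonneg (2 * B * Y - 1)]
    · have := e3 (by by_contra c; exact k ⟨h, by omega⟩)
      nlinarith [mul_le_mul_of_nonneg_left this hB.le]

lemma small {x : ℝ} (hx : |x| ≤ 3 / 2) {k : ℕ} (hk : 7 ≤ k) : |x ^ k| ≤ 3 ^ k / 100 := by
  have h1 : (2 : ℝ) ^ 7 ≤ 2 ^ k := pow_le_pow_right₀ (by norm_num) hk
  rw [abs_pow]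
  refine (pow_le_pow_left₀ (abs_nonneg _) hx k).trans ?_
  rw [div_pow]
  exact div_le_div_of_nonneg_left (by positivity) (by norm_num) (by linarith)

/-- The proportion of good colourings. -/
def c0 : ℝ := 4 * (0.03 * Real.exp (-14)) * 0.04

lemma c0_pos : 0 < c0 := by unfold c0; positivity

lemma col (S : Finset ℕ) {δ : ℝ} {K : ℕ} (h0 : 0 < δ) (h1 : δ ≤ 1 / 4) (hK : (1 + δ) ^ K ≤ 1.1)
    (k1 : 1 ≤ S.card * δ ^ 2) (k2 : S.card * δ ^ 2 ≤ 10) :
    16 ^ S.card * (c0 * 3 ^ S.card) ≤ ∑ f : S → Lb,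
      if Odd (om S f 0 + om S f 2) ∧ om S f 2 + K ≤ om S f 0 then (1 : ℝ) else 0 := by
  have hB : (0 : ℝ) < 0.03 * Real.exp (-14) := by positivity
  refine le_trans ?_ (sum_le_sum fun f _ => pw (by linarith) hB hK (om S f 0) (om S f 2))
  simp only [← mul_sum, sum_sub_distrib, ← sum_div, sum_om]
  generalize S.card = k at *
  have hk : 7 ≤ k := by
    have : (7 : ℝ) ≤ k := by nlinarith [Nat.cast_nonneg (α := ℝ) k, mul_le_mul h1 h1 h0.le]
    exact_mod_cast this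
  have kp : (0 : ℝ) ≤ k := Nat.cast_nonneg k
  obtain ⟨s, hs⟩ : ∃ s, s = (1 + δ)⁻¹ := ⟨_, rfl⟩
  have s1 : s * (1 + δ) = 1 := by rw [hs]; field_simp
  have s0 : 0 < s := by rw [hs]; positivity
  have s2 : 4 / 5 ≤ s := by nlinarith
  have s3 : s ≤ 1 := by nlinarith
  have s4 : s = 1 - δ * s := by linarith
  rw [← hs]
  have p3 : (0 : ℝ) < 3 ^ k := by positivity
  have a1 : 3 ^ k * (1 + 4 / 15) ≤ (1 + δ + 1 + s) ^ k := by
    have e : 1 + δ + 1 + s = 3 * (1 + δ ^ 2 * s / 3) := by linear_combination (1 - δ) * s1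
    have := one_add_mul_le_pow (a := δ ^ 2 * s / 3) (le_trans (by norm_num) (by positivity :
      (0 : ℝ) ≤ δ ^ 2 * s / 3)) k
    rw [e, mul_pow]
    gcongr
    nlinarith [mul_le_mul k1 s2 (by norm_num) (by positivity)]
  have a2 := abs_le.1 (small (x := -(1 + δ) + 1 + -s) (abs_le.2 ⟨by linarith, by linarith⟩) hk)
  have a3 := abs_le.1 (small (x := -1 + 1 + -1) (abs_le.2 ⟨by norm_num, by norm_num⟩) hk)
  have a4 : ((1 + δ) ^ 2 + 1 + s ^ 2) ^ k ≤ 3 ^ k * Real.exp 14 := by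
    have e : (1 + δ) ^ 2 + 1 + s ^ 2 = 3 + (δ * (1 + s)) ^ 2 := by
      rw [show δ * (1 + s) = 1 + δ - s by linarith]
      linear_combination 2 * s1
    have e1 : (δ * (1 + s)) ^ 2 ≤ (δ * 2) ^ 2 := by gcongr; linarith
    have e2 : (1 + δ) ^ 2 + 1 + s ^ 2 ≤ 3 * Real.exp (4 / 3 * δ ^ 2) := by
      nlinarith [Real.add_one_le_exp (4 / 3 * δ ^ 2)]
    refine (pow_le_pow_left₀ (by positivity) e2 k).trans ?_
    rw [mul_pow, ← Real.exp_nat_mul]
    gcongr
    linarith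
  have a5 : 0.03 * Real.exp (-14) * ((1 + δ) ^ 2 + 1 + s ^ 2) ^ k ≤ 0.03 * 3 ^ k := by
    refine (mul_le_mul_of_nonneg_left a4 hB.le).trans (le_of_eq ?_)
    rw [Real.exp_neg]
    field_simp
  have a6 : ((1 : ℝ) + 1 + 1) ^ k = 3 ^ k := by norm_num
  have a7 : 0.04 * 3 ^ k ≤ ((1 + δ + 1 + s) ^ k - (-(1 + δ) + 1 + -s) ^ k) / 2
      - 1.1 * ((3 ^ k - (-1 + 1 + -1) ^ k) / 2)
      - 0.03 * Real.exp (-14) * ((1 + δ) ^ 2 + 1 + s ^ 2) ^ k := by linarith [a2.2, a3.1]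
  have := mul_le_mul_of_nonneg_left a7 (by positivity :
    (0 : ℝ) ≤ 16 ^ k * (4 * (0.03 * Real.exp (-14))))
  rw [a6, c0]
  linarith

lemma card_cl (d : ℕ × ℕ × ℕ) (S : Finset ℕ) : ∑ _f ∈ Fintype.piFinset (fun p : S =>
    univ.filter fun k : Lb => k.1 = cl d p), (1 / 16 ^ S.card : ℝ) = 1 := by
  have h : ∀ i : Fin 3, (univ.filter fun k : Lb => k.1 = i).card = 16 := by decide
  rw [sum_const, Fintype.card_piFinset]
  simp [h]

/-- Reciprocals of multiples. -/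
def ee (q n : ℕ) : ℝ := if q ∣ n then 1 / n else 0

lemma ee_nonneg (q n : ℕ) : 0 ≤ ee q n := by unfold ee; split_ifs <;> positivity

/-- Numbers prime to six. -/
def AA (N : ℕ) : Finset ℕ := (Icc 1 N).filter fun n => Nat.Coprime 6 n

lemma sum_ee (N : ℕ) {q : ℕ} (hq : 0 < q) : ∑ n ∈ AA N, ee q n ≤ (∑ n ∈ AA N, ee 1 n) / q := by
  simp only [ee, one_dvd, if_true]
  rw [← sum_filter, sum_div]
  refine (sum_le_sum_of_subset_of_nonneg (t := (AA N).image (q * ·)) (fun n hn => ?_)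
    fun _ _ _ => by positivity).trans (le_of_eq ?_)
  · obtain ⟨h1, c, rfl⟩ := mem_filter.1 hn
    obtain ⟨h2, h3⟩ := mem_filter.1 h1
    obtain ⟨h4, h5⟩ := mem_Icc.1 h2
    exact mem_image.2 ⟨c, mem_filter.2 ⟨mem_Icc.2 ⟨Nat.pos_of_mul_pos_left h4,
      (Nat.le_mul_of_pos_left c hq).trans h5⟩, h3.coprime_mul_left_right⟩, rfl⟩
  · rw [sum_image fun a _ b _ h => Nat.eq_of_mul_eq_mul_left hq h]
    refine sum_congr rfl fun n _ => ?_
    push_cast
    rw [div_div, mul_comm]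

/-- The weight of the triples whose product is divisible by the square of `p`. -/
def bad (p : ℕ) (d : ℕ × ℕ × ℕ) : ℝ :=
  ee (p * p) d.1 * ee 1 d.2.1 * ee 1 d.2.2 + ee 1 d.1 * ee (p * p) d.2.1 * ee 1 d.2.2
    + ee 1 d.1 * ee 1 d.2.1 * ee (p * p) d.2.2 + ee p d.1 * ee p d.2.1 * ee 1 d.2.2
    + ee p d.1 * ee 1 d.2.1 * ee p d.2.2 + ee 1 d.1 * ee p d.2.1 * ee p d.2.2

lemma bad_nonneg (p : ℕ) (d : ℕ × ℕ × ℕ) : 0 ≤ bad p d := by
  have := ee_nonneg
  unfold bad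
  repeat' apply add_nonneg
  all_goals exact mul_nonneg (mul_nonneg (this _ _) (this _ _)) (this _ _)

lemma tri (A : Finset ℕ) (x y z : ℕ → ℝ) : ∑ d ∈ A ×ˢ A ×ˢ A, x d.1 * y d.2.1 * z d.2.2
    = (∑ n ∈ A, x n) * (∑ n ∈ A, y n) * ∑ n ∈ A, z n := by
  rw [mul_assoc, sum_mul_sum _ _ y, sum_mul]
  simp only [sum_product, mul_sum, mul_assoc]

lemma sum_bad (N : ℕ) {p : ℕ} (hp : 0 < p) :
    ∑ d ∈ AA N ×ˢ AA N ×ˢ AA N, bad p d ≤ 6 * (∑ n ∈ AA N, ee 1 n) ^ 3 * (1 / (p : ℝ) ^ 2) := by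
  simp only [bad, sum_add_distrib, tri]
  have h1 := sum_ee N hp
  have h2 := sum_ee N (Nat.mul_pos hp hp)
  have n0 : 0 ≤ ∑ n ∈ AA N, ee 1 n := sum_nonneg fun _ _ => ee_nonneg _ _
  have n1 : 0 ≤ ∑ n ∈ AA N, ee p n := sum_nonneg fun _ _ => ee_nonneg _ _
  generalize ∑ n ∈ AA N, ee 1 n = H at *
  generalize ∑ n ∈ AA N, ee p n = E at *
  generalize ∑ n ∈ AA N, ee (p * p) n = G at *
  have h3 : G * H * H ≤ H ^ 3 * (1 / (p : ℝ) ^ 2) :=
    calc G * H * H ≤ H / (p * p : ℕ) * H * H := by gcongr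
      _ = _ := by push_cast; ring
  have h4 : E * E * H ≤ H ^ 3 * (1 / (p : ℝ) ^ 2) :=
    calc E * E * H ≤ H / p * (H / p) * H := by gcongr
      _ = _ := by ring
  linarith

lemma le_bad {p : ℕ} (hp : p.Prime) {d : ℕ × ℕ × ℕ} (h : p * p ∣ pr d) :
    ee 1 d.1 * ee 1 d.2.1 * ee 1 d.2.2 ≤ bad p d := by
  have cp : ∀ {x}, ¬ p ∣ x → (p * p).Coprime x := fun hx =>
    Nat.Coprime.mul_left (hp.coprime_iff_not_dvd.2 hx) (hp.coprime_iff_not_dvd.2 hx)
  have e : ∀ {q n}, q ∣ n → ee q n = ee 1 n := fun hq => by simp [ee, hq]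
  have n : ∀ a b c, 0 ≤ ee a d.1 * ee b d.2.1 * ee c d.2.2 := fun _ _ _ =>
    mul_nonneg (mul_nonneg (ee_nonneg _ _) (ee_nonneg _ _)) (ee_nonneg _ _)
  have n1 := n (p * p) 1 1
  have n2 := n 1 (p * p) 1
  have n3 := n 1 1 (p * p)
  have n4 := n p p 1
  have n5 := n p 1 p
  have n6 := n 1 p p
  unfold bad
  unfold pr at h
  by_cases k1 : p ∣ d.1 <;> by_cases k2 : p ∣ d.2.1
  · rw [e k1, e k2] at *; linarith
  · by_cases k3 : p ∣ d.2.2
    · rw [e k1, e k3] at *; linarith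
    · rw [e ((cp k2).dvd_of_dvd_mul_right ((cp k3).dvd_of_dvd_mul_right h))] at *; linarith
  · by_cases k3 : p ∣ d.2.2
    · rw [e k2, e k3] at *; linarith
    · rw [e ((cp k1).dvd_of_dvd_mul_left ((cp k3).dvd_of_dvd_mul_right h))] at *; linarith
  · rw [e (((cp k1).mul_right (cp k2)).dvd_of_dvd_mul_left h)] at *; linarith

lemma sum_sq (N : ℕ) :
    ∑ j ∈ range N, 1 / ((2 * j + 5 : ℕ) : ℝ) ^ 2 ≤ 1 / 8 - 1 / (4 * ((N : ℝ) + 2)) := by
  induction N with
  | zero => norm_num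
  | succ N ih =>
    rw [sum_range_succ]
    have : 1 / ((2 * N + 5 : ℕ) : ℝ) ^ 2 ≤ 1 / (4 * (N + 2)) - 1 / (4 * (((N + 1 : ℕ) : ℝ) + 2)) := by
      push_cast
      rw [div_sub_div _ _ (by positivity) (by positivity), div_le_div_iff₀ (by positivity)
        (by positivity)]
      nlinarith [Nat.cast_nonneg (α := ℝ) N]
    linarith

lemma co6 {N : ℕ} {d : ℕ × ℕ × ℕ} (hd : d ∈ AA N ×ˢ AA N ×ˢ AA N) :
    Nat.Coprime 6 (pr d) ∧ d.1 ∈ Icc 1 N ∧ d.2.1 ∈ Icc 1 N ∧ d.2.2 ∈ Icc 1 N := by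
  simp only [AA, mem_product, mem_filter] at hd
  exact ⟨(hd.1.2.mul_right hd.2.1.2).mul_right hd.2.2.2, hd.1.1, hd.2.1.1, hd.2.2.1⟩

lemma sieve (N : ℕ) : (∑ n ∈ AA N, ee 1 n) ^ 3 / 4 ≤
    ∑ d ∈ (AA N ×ˢ AA N ×ˢ AA N).filter fun d => Squarefree (pr d), 1 / (pr d : ℝ) := by
  have h1 : ∑ d ∈ AA N ×ˢ AA N ×ˢ AA N, ee 1 d.1 * ee 1 d.2.1 * ee 1 d.2.2 ≤
      ∑ d ∈ AA N ×ˢ AA N ×ˢ AA N, ((if Squarefree (pr d) then 1 / (pr d : ℝ) else 0)
        + ∑ j ∈ range N, bad (2 * j + 5) d) := by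
    refine sum_le_sum fun d hd => ?_
    split_ifs with h
    · refine le_add_of_le_of_nonneg (le_of_eq ?_) (sum_nonneg fun _ _ => bad_nonneg _ _)
      simp [ee, pr]
      ring
    · rw [Nat.squarefree_iff_prime_squarefree] at h
      push Not at h
      obtain ⟨p, hp, h⟩ := h
      obtain ⟨c, c1, c2, c3⟩ := co6 hd
      have h2 : p ∣ pr d := (dvd_mul_left _ _).trans h
      have h3 : Nat.Coprime 6 p := c.coprime_dvd_right h2
      have h4 : p ≤ N := by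
        have k : ∀ x ∈ Icc 1 N, p ∣ x → p ≤ N := fun x hx k =>
          (Nat.le_of_dvd (mem_Icc.1 hx).1 k).trans (mem_Icc.1 hx).2
        rcases hp.dvd_mul.1 h2 with k1 | k1
        · rcases hp.dvd_mul.1 k1 with k1 | k1
          exacts [k _ c1 k1, k _ c2 k1]
        · exact k _ c3 k1
      have h5 : ¬ 2 ∣ p := fun k => by
        simpa using Nat.eq_one_of_dvd_coprimes h3 (by norm_num : 2 ∣ 6) k
      have h6 : ¬ 3 ∣ p := fun k => by
        simpa using Nat.eq_one_of_dvd_coprimes h3 (by norm_num : 3 ∣ 6) k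
      have h7 := hp.two_le
      obtain ⟨j, rfl⟩ : ∃ j, p = 2 * j + 5 := ⟨(p - 5) / 2, by omega⟩
      rw [zero_add]
      exact (le_bad hp h).trans (single_le_sum (f := fun j => bad (2 * j + 5) d)
        (fun _ _ => bad_nonneg _ _) (mem_range.2 (by omega)))
  rw [tri, sum_add_distrib, ← sum_filter, sum_comm] at h1
  have h2 := sum_le_sum (s := range N) fun j _ => sum_bad N (p := 2 * j + 5) (by omega)
  rw [← mul_sum] at h2
  have n0 : 0 ≤ ∑ n ∈ AA N, ee 1 n := sum_nonneg fun _ _ => ee_nonneg _ _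
  have h3 : ∑ j ∈ range N, 1 / ((2 * j + 5 : ℕ) : ℝ) ^ 2 ≤ 1 / 8 :=
    (sum_sq N).trans (sub_le_self _ (by positivity))
  have h4 := mul_le_mul_of_nonneg_left h3 (by positivity : 0 ≤ 6 * (∑ n ∈ AA N, ee 1 n) ^ 3)
  linarith

lemma harm (J : ℕ) : Real.log (J + 1) / 6 ≤ ∑ n ∈ AA (6 * J), ee 1 n := by
  have h1 := log_add_one_le_harmonic J
  refine le_trans ?_ (sum_le_sum_of_subset_of_nonneg (s := (range J).image (6 * · + 1))
    (fun n hn => ?_) fun _ _ _ => ee_nonneg _ _)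
  · rw [sum_image fun a _ b _ h => by simpa using h]
    push_cast [harmonic] at h1
    refine (div_le_div_of_nonneg_right h1 (by norm_num)).trans ?_
    rw [sum_div]
    refine sum_le_sum fun j _ => ?_
    simp only [ee, one_dvd, if_true]
    push_cast
    rw [inv_eq_one_div, div_div]
    exact one_div_le_one_div_of_le (by positivity) (by linarith)
  · obtain ⟨j, hj, rfl⟩ := mem_image.1 hn
    have := mem_range.1 hj
    exact mem_filter.2 ⟨mem_Icc.2 ⟨by omega, by omega⟩, by simp⟩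

lemma low {u : ℝ} (hu : 3000 ≤ u) :
    (u / 6000) ^ 3 / 4 ≤ ∑ m ∈ Sq u, (3 : ℝ) ^ m.primeFactors.card / m := by
  classical
  obtain ⟨J, hJ⟩ : ∃ J, J = ⌊Real.exp (u / 1000)⌋₊ := ⟨_, rfl⟩
  have j1 : (J : ℝ) ≤ Real.exp (u / 1000) := hJ ▸ Nat.floor_le (Real.exp_pos _).le
  have j2 : u / 1000 ≤ Real.log (J + 1) := by
    rw [Real.le_log_iff_exp_le (by positivity), hJ]
    exact (Nat.lt_floor_add_one _).le
  have j3 : (6 * J) ^ 3 ≤ DD u := by
    refine Nat.le_floor ?_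
    have e : Real.exp (u / 200) = Real.exp (u / 1000) ^ 3 * Real.exp (u / 1500) ^ 3 := by
      rw [← mul_pow, ← Real.exp_add, ← Real.exp_nat_mul]; congr 1; push_cast; ring
    have : (6 : ℝ) ≤ Real.exp (u / 1500) := by
      have h1 := Real.quadratic_le_exp_of_nonneg (x := 1) (by norm_num)
      have h2 : Real.exp 1 * Real.exp 1 ≤ Real.exp (u / 1500) := by
        rw [← Real.exp_add]; exact Real.exp_le_exp.2 (by linarith)
      nlinarith
    rw [e]
    push_cast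
    rw [mul_pow, mul_comm]
    gcongr
  have h1 := fib' u ((AA (6 * J) ×ˢ AA (6 * J) ×ˢ AA (6 * J)).filter fun d => Squarefree (pr d))
    (fun d hd => ?_) fun S _ => 1 / 16 ^ S.card
  · simp only [card_cl] at h1
    refine le_trans ?_ ((sieve (6 * J)).trans (h1.le.trans (sum_le_sum fun m _ => ?_)))
    · have : u / 6000 ≤ ∑ n ∈ AA (6 * J), ee 1 n := le_trans (by linarith) (harm J)
      gcongr
    · gcongr
      have h2 := sum_om m.primeFactors 1 1
      simp only [one_pow, mul_one] at h2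
      calc _ ≤ ∑ _f : m.primeFactors → Lb, (1 : ℝ) / 16 ^ m.primeFactors.card :=
            sum_le_sum fun f _ => by
              beta_reduce
              split_ifs <;> first | rfl | positivity
        _ = _ := by rw [← sum_div, h2]; field_simp; norm_num
  · obtain ⟨h2, hs⟩ := mem_filter.1 hd
    obtain ⟨c, c1, c2, c3⟩ := co6 h2
    refine mem_filter.2 ⟨mem_Icc.2 ⟨Nat.pos_of_ne_zero hs.ne_zero, le_trans ?_ j3⟩, hs,
      Nat.coprime_two_left.1 (c.coprime_dvd_left (by norm_num))⟩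
    calc pr d ≤ 6 * J * (6 * J) * (6 * J) := Nat.mul_le_mul
          (Nat.mul_le_mul (mem_Icc.1 c1).2 (mem_Icc.1 c2).2) (mem_Icc.1 c3).2
      _ = _ := by ring

open Classical in
lemma one_m {u : ℝ} (hu : 13 ^ 4 ≤ Real.log u) (S : Finset ℕ) :
    c0 * (3 ^ S.card - Real.exp (0.7 * Real.log u) * (3 / 2) ^ S.card
      - Real.exp (-6 * Real.log u) * 6 ^ S.card)
      ≤ ∑ f : S → Lb, if Io u S f then (1 : ℝ) / 16 ^ S.card else 0 := by
  have n0 : (0 : ℝ) ≤ ∑ f : S → Lb, if Io u S f then (1 : ℝ) / 16 ^ S.card else 0 :=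
    sum_nonneg fun f _ => by split_ifs <;> positivity
  have l1 := Real.log_two_gt_d9
  have l2 := Real.log_two_lt_d9
  have e2 : (2 : ℝ) ^ S.card = Real.exp (S.card * Real.log 2) := by
    rw [Real.exp_nat_mul, Real.exp_log (by norm_num)]
  have p1 : 0 ≤ Real.exp (0.7 * Real.log u) * (3 / 2) ^ S.card := by positivity
  have p2 : 0 ≤ Real.exp (-6 * Real.log u) * 6 ^ S.card := by positivity
  have kp : (0 : ℝ) ≤ S.card := Nat.cast_nonneg _
  rcases lt_or_ge (S.card : ℝ) (Real.log u) with h1 | h1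
  · refine le_trans (mul_nonpos_of_nonneg_of_nonpos c0_pos.le ?_) n0
    have : (3 : ℝ) ^ S.card ≤ Real.exp (0.7 * Real.log u) * (3 / 2) ^ S.card := by
      rw [show (3 : ℝ) ^ S.card = 2 ^ S.card * (3 / 2) ^ S.card by rw [← mul_pow]; norm_num, e2]
      exact mul_le_mul_of_nonneg_right (Real.exp_le_exp.2 (by nlinarith)) (by positivity)
    linarith
  rcases lt_or_ge (10 * Real.log u) S.card with h2 | h2
  · refine le_trans (mul_nonpos_of_nonneg_of_nonpos c0_pos.le ?_) n0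
    have : (3 : ℝ) ^ S.card ≤ Real.exp (-6 * Real.log u) * 6 ^ S.card := by
      rw [show (6 : ℝ) ^ S.card = 2 ^ S.card * 3 ^ S.card by rw [← mul_pow]; norm_num, e2,
        ← mul_assoc, ← Real.exp_add]
      exact le_mul_of_one_le_left (by positivity) (Real.one_le_exp (by nlinarith))
    linarith
  obtain ⟨t, ht⟩ : ∃ t, t = Real.log u ^ (1 / 4 : ℝ) := ⟨_, rfl⟩
  have L0 : 0 < Real.log u := by linarith
  have t0 : 0 < t := ht ▸ Real.rpow_pos_of_pos L0 _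
  have t4 : t ^ 4 = Real.log u := by
    rw [ht, ← Real.rpow_natCast, ← Real.rpow_mul L0.le]; norm_num
  have t1 : 13 ≤ t := le_of_pow_le_pow_left₀ (n := 4) (by norm_num) t0.le (t4 ▸ hu)
  have hK : (KK u : ℝ) ≤ t + 1 := by
    rw [KK, ← ht]; exact (Nat.ceil_lt_add_one t0.le).le
  have e4 : (1 / t ^ 2) ^ 2 = 1 / Real.log u := by rw [← t4]; ring
  have h3 := col S (δ := 1 / t ^ 2) (K := KK u) (by positivity)
    (one_div_le_one_div_of_le (by norm_num) (by nlinarith)) ?_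
    (by rw [e4, mul_one_div, le_div_iff₀ L0]; linarith)
    (by rw [e4, mul_one_div, div_le_iff₀ L0]; linarith)
  · have h4 : ∑ f : S → Lb, (if Io u S f then (1 : ℝ) / 16 ^ S.card else 0) = (∑ f : S → Lb,
        if Odd (om S f 0 + om S f 2) ∧ om S f 2 + KK u ≤ om S f 0 then (1 : ℝ) else 0)
          / 16 ^ S.card := by
      rw [sum_div]
      refine sum_congr rfl fun f _ => ?_
      simp only [Io, h2, true_and]
      split_ifs <;> simp
    rw [h4, le_div_iff₀ (by positivity), mul_comm]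
    refine le_trans ?_ h3
    have := c0_pos
    gcongr
    linarith
  · have a1 : 1 + 1 / t ^ 2 ≤ Real.exp (1 / t ^ 2) := by linarith [Real.add_one_le_exp (1 / t ^ 2)]
    refine (pow_le_pow_left₀ (by positivity) a1 _).trans ?_
    rw [← Real.exp_nat_mul]
    have a2 : (KK u : ℝ) * (1 / t ^ 2) ≤ 0.09 := by
      rw [mul_one_div, div_le_iff₀ (by positivity)]
      nlinarith
    refine (Real.exp_le_exp.2 a2).trans
      ((Real.exp_bound_div_one_sub_of_interval (by norm_num) (by norm_num)).trans (by norm_num))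

end Mz

open Mz in
theorem mz : MzS := by
  classical
  rintro ⟨h1, -, ⟨C, hC⟩, -⟩ hB
  have c1 := c0_pos
  refine ⟨c0 * (1 / 6000 ^ 3 / 8), by positivity, ?_⟩
  filter_upwards [hC, eventually_ge_atTop 3000, Real.tendsto_log_atTop.eventually_ge_atTop (13 ^ 4),
    Real.tendsto_log_atTop.eventually_ge_atTop (10 * |C| + 100)] with u hu u1 u2 u3
  have h2 := hB u fun S _ => 1 / 16 ^ S.card
  simp only [card_cl] at h2
  rw [h2]
  have h3 : ∀ h : ℝ, 0 ≤ h → ∑ m ∈ Sq u, h ^ m.primeFactors.card / m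
      ≤ Real.exp (h * (Real.log u + C)) := fun h h0 => by
    have k := h1 (DD u) (fun _ => h) fun _ => h0
    simp only [prod_const] at k
    refine (sum_le_sum_of_subset_of_nonneg (fun m hm => ?_) fun _ _ _ => by positivity).trans
      (k.trans (Real.exp_le_exp.2 (le_trans (le_of_eq ?_) (mul_le_mul_of_nonneg_left hu.1 h0))))
    · exact mem_filter.2 ⟨(mem_filter.1 hm).1, (mem_filter.1 hm).2.1⟩
    · rw [mul_sum]
      exact sum_congr rfl fun _ _ => by ring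
  have h4 : ∑ m ∈ Sq u, c0 * (3 ^ m.primeFactors.card
      - Real.exp (0.7 * Real.log u) * (3 / 2) ^ m.primeFactors.card
      - Real.exp (-6 * Real.log u) * 6 ^ m.primeFactors.card) / m
      ≤ GG u fun S f => if Io u S f then 1 / 16 ^ S.card else 0 :=
    sum_le_sum fun m _ => div_le_div_of_nonneg_right (by convert one_m u2 _) (by positivity)
  refine le_trans ?_ h4
  simp only [mul_div_assoc, sub_div, ← mul_sum, sum_sub_distrib]
  rw [mul_assoc]
  refine mul_le_mul_of_nonneg_left ?_ c1.le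
  have e3 : u ^ 3 = Real.exp (3 * Real.log u) := by
    rw [show (3 : ℝ) = (3 : ℕ) by norm_num, Real.exp_nat_mul, Real.exp_log (by linarith)]
  have k : ∀ x y : ℝ, x + y + 40 ≤ 3 * Real.log u →
      Real.exp x * Real.exp y ≤ 1 / 6000 ^ 3 / 16 * u ^ 3 := fun x y h => by
    have a1 : (2.5 : ℝ) ^ 40 ≤ Real.exp 40 := by
      rw [show (40 : ℝ) = (40 : ℕ) * 1 by norm_num, Real.exp_nat_mul]
      exact pow_le_pow_left₀ (by norm_num) (by linarith [Real.exp_one_gt_d9]) _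
    have a2 : Real.exp x * Real.exp y * Real.exp 40 ≤ u ^ 3 := by
      rw [e3, ← Real.exp_add, ← Real.exp_add]; exact Real.exp_le_exp.2 h
    have a3 : 0 < Real.exp x * Real.exp y := by positivity
    norm_num at a1 ⊢
    nlinarith
  have a1 := le_abs_self C
  have a2 := abs_nonneg C
  have b1 := (mul_le_mul_of_nonneg_left (h3 (3 / 2) (by norm_num))
    (Real.exp_pos (0.7 * Real.log u)).le).trans (k _ _ (by linarith))
  have b2 := (mul_le_mul_of_nonneg_left (h3 6 (by norm_num))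
    (Real.exp_pos (-6 * Real.log u)).le).trans (k _ _ (by linarith))
  have b3 := low u1
  rw [div_pow] at b3
  linarith

end Pool.Agent.Lib.MP_d6ddbd_nt.L
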