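import Pool.Agent.Lib.MP_d6ddbd_nt.L.St
import Pool.Agent.Lib.MP_d6ddbd_nt.G.Par

/-! Kernels of matrices over `ZMod 2`. -/

open Finset Module Matrix

noncomputable section

namespace Pool.Agent.Lib.MP_d6ddbd_nt.L

open G (sg)

namespace Par

theorem sg_add (a b : ZMod 2) : sg (a + b) = sg a * sg b := by revert a b; decide

theorem sg_sum {ι : Type} (s : Finset ι) (f : ι → ZMod 2) :
    sg (∑ i ∈ s, f i) = ∏ i ∈ s, sg (f i) :=
  Finset.cons_induction rfl (fun a s h ih => by rw [sum_cons, prod_cons, sg_add, ih]) s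

theorem sum_sg (v : ZMod 2) : ∑ a : ZMod 2, sg (a * v) = if v = 0 then 2 else 0 := by
  revert v; decide

theorem orth {ι : Type} [Fintype ι] [DecidableEq ι] (v : ι → ZMod 2) :
    ∑ y : ι → ZMod 2, sg (∑ s, y s * v s) = if ∀ s, v s = 0 then 2 ^ Fintype.card ι else 0 := by
  simp only [sg_sum]
  rw [← Fintype.piFinset_univ, ← prod_univ_sum (fun _ => univ) fun s a => sg (a * v s)]
  simp only [sum_sg]
  split_ifs with h
  · simp [h]
  · obtain ⟨s, hs⟩ := not_forall.1 h
    exact prod_eq_zero (mem_univ s) (if_neg hs)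

end Par

open Par in
theorem par : ParS := by
  intro ι _ _ M
  refine ⟨?_, fun h1 h2 h3 => ?_⟩
  · have e : ∀ x : ι → ZMod 2, ∑ y : ι → ZMod 2, (sg (∑ s, ∑ t, y s * M s t * x t) : ℝ) =
        (if ∀ s, ∑ t, M s t * x t = 0 then 1 else 0) * 2 ^ Fintype.card ι := fun x => by
      have := congrArg (Int.cast (R := ℝ)) (orth fun s => ∑ t, M s t * x t)
      simp only [mul_assoc, ← mul_sum]
      rw [Int.cast_sum] at this
      rw [this]
      split_ifs <;> simp
    simp only [e]
    rw [← sum_mul, mul_div_cancel_right₀ _ (by positivity), sum_boole]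
  · have d : Matrix.diag (Matrix.of M) = 0 := funext h2
    have := (G.ParAux.sym_par (Matrix.of M) h1 0 (by rw [d, mulVec_zero])).1 (dotProduct_zero _)
    obtain ⟨m, hm⟩ := (Nat.even_add.1 this).1 h3
    have hc := Module.natCard_eq_pow_finrank (K := ZMod 2)
      (V := LinearMap.ker (Matrix.of M).mulVecLin)
    rw [Nat.card_zmod, hm] at hc
    have e : (univ.filter fun x : ι → ZMod 2 => ∀ s, ∑ t, M s t * x t = 0).card = 2 ^ (m + m) := by
      rw [← hc, ← Nat.card_eq_finsetCard]
      refine Nat.card_congr (Equiv.subtypeEquivRight fun x => ?_)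
      rw [mem_filter, LinearMap.mem_ker, funext_iff]
      exact and_iff_right (mem_univ _)
    rw [e]
    rcases m with _ | m
    · exact Or.inl rfl
    · exact Or.inr (le_trans (by norm_num : 4 ≤ 2 ^ 2)
        (Nat.pow_le_pow_right (by norm_num) (by omega)))

end Pool.Agent.Lib.MP_d6ddbd_nt.L
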