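import Pool.Agent.Lib.MP_d6ddbd_nt.L.Swc

/-! Siegel-Walfisz in additive form. -/

namespace Pool.Agent.Lib.MP_d6ddbd_nt.L

open Complex Finset
open scoped ArithmeticFunction.Moebius

namespace SwbAux

theorem ind {r : ℕ} (hr : r ≠ 0) (b : ℕ) :
    (if b.Coprime r then (1 : ℂ) else 0) = ∑ d ∈ r.divisors, if d ∣ b then (μ d : ℂ) else 0 := by
  have h1 := congrArg (fun f : ArithmeticFunction ℂ => f (Nat.gcd b r))
    (ArithmeticFunction.coe_moebius_mul_coe_zeta (R := ℂ))
  simp only [ArithmeticFunction.coe_mul_zeta_apply, ArithmeticFunction.one_apply,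
    ArithmeticFunction.intCoe_apply] at h1
  have h2 : r.divisors.filter (fun d => d ∣ b) = (Nat.gcd b r).divisors := by
    ext d
    simp only [mem_filter, Nat.mem_divisors, Nat.dvd_gcd_iff]
    have h3 : Nat.gcd b r ≠ 0 := Nat.gcd_ne_zero_right hr
    tauto
  rw [← sum_filter, h2, h1]

theorem sum_dvd (g : ℕ → ℂ) {d : ℕ} (k : ℕ) (hd : 0 < d) :
    ∑ b ∈ range (d * k), (if d ∣ b then g b else 0) = ∑ c ∈ range k, g (d * c) := by
  rw [← sum_filter]
  refine (sum_nbij (fun c => d * c) (fun c hc => ?_) (fun c _ c' _ h => ?_) (fun b hb => ?_)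
    fun _ _ => rfl).symm
  · exact mem_filter.2 ⟨mem_range.2 (Nat.mul_lt_mul_of_pos_left (mem_range.1 hc) hd),
      Dvd.intro _ rfl⟩
  · exact Nat.eq_of_mul_eq_mul_left hd h
  · rw [mem_coe, mem_filter, mem_range] at hb
    obtain ⟨h1, c, rfl⟩ := hb
    exact ⟨c, mem_coe.2 (mem_range.2 (Nat.lt_of_mul_lt_mul_left h1)), rfl⟩

/-- The sum of the primitive roots of unity. -/
theorem ram {r : ℕ} (hr : r ≠ 0) {ζ : ℂ} (hζ : IsPrimitiveRoot ζ r) :
    ∑ b ∈ range r with b.Coprime r, ζ ^ b = (μ r : ℂ) := by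
  have h1 : ∀ b ∈ range r, (if b.Coprime r then ζ ^ b else 0) =
      ∑ d ∈ r.divisors, (μ d : ℂ) * (if d ∣ b then ζ ^ b else 0) := fun b _ => by
    rw [← boole_mul, ind hr b, sum_mul]
    refine sum_congr rfl fun d _ => ?_
    split_ifs <;> simp
  rw [sum_filter, sum_congr rfl h1, sum_comm, sum_eq_single r]
  · have := sum_dvd (fun b => ζ ^ b) 1 (Nat.pos_of_ne_zero hr)
    rw [mul_one] at this
    rw [← mul_sum, this]
    simp
  · intro d hd hdr
    obtain ⟨k, hk⟩ := (Nat.mem_divisors.1 hd).1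
    have hd0 : 0 < d := Nat.pos_of_mem_divisors hd
    have hk1 : 1 < k := by
      rcases Nat.lt_or_ge 1 k with h | h
      · exact h
      · interval_cases k <;> omega
    have h3 := sum_dvd (fun b => ζ ^ b) k hd0
    rw [← hk] at h3
    rw [← mul_sum, h3]
    simp only [pow_mul]
    rw [(hζ.pow (Nat.pos_of_ne_zero hr) hk).geom_sum_eq_zero hk1, mul_zero]
  · exact fun h => absurd (Nat.mem_divisors_self r hr) h

/-- The expansion in characters. -/
theorem orth {f : ℕ} [NeZero f] {ζ : ℂ} (hζ : IsPrimitiveRoot ζ f) (R : ℕ) :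
    ∑ χ : DirichletCharacter ℂ f, (∑ r ∈ range f with r.Coprime f, χ (r : ZMod f)⁻¹ * ζ ^ r) * χ R =
      f.totient * if R.Coprime f then ζ ^ R else 0 := by
  have h1 : ∀ r ∈ (range f).filter (fun r => r.Coprime f),
      ∑ χ : DirichletCharacter ℂ f, χ (r : ZMod f)⁻¹ * ζ ^ r * χ R =
        if R % f = r then f.totient * ζ ^ r else 0 := fun r hr => by
    obtain ⟨h2, h3⟩ := mem_filter.1 hr
    have h4 := DirichletCharacter.sum_char_inv_mul_char_eq ℂ
      ((ZMod.isUnit_iff_coprime r f).2 h3) (R : ZMod f)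
    simp only [mul_right_comm _ (ζ ^ r)]
    rw [← sum_mul, h4, ite_mul, zero_mul]
    refine if_congr ?_ rfl rfl
    rw [ZMod.natCast_eq_natCast_iff', Nat.mod_eq_of_lt (mem_range.1 h2), eq_comm]
  simp only [sum_mul]
  rw [sum_comm, sum_congr rfl h1, sum_ite_eq, mul_ite, mul_zero, ← pow_eq_pow_mod R hζ.pow_eq_one]
  refine if_congr ?_ rfl rfl
  rw [mem_filter, mem_range, and_iff_right (Nat.mod_lt _ (NeZero.pos f)), Nat.Coprime,
    ← Nat.gcd_rec, Nat.gcd_comm]

theorem red {f y : ℕ} [NeZero f] {ζ : ℂ} (hζ : IsPrimitiveRoot ζ f) {E : ℝ}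
    (h : ∀ χ : DirichletCharacter ℂ f,
      ‖∑ R ∈ range y, χ R * (th R : ℂ) - if χ = 1 then (y : ℂ) else 0‖ ≤ E) :
    ‖∑ R ∈ range y, (th R : ℂ) * ζ ^ R - (μ f : ℂ) / f.totient * y‖ ≤
      f * (1 * Real.log y) + f * E := by
  classical
  have z1 : ‖ζ‖ = 1 := hζ.norm'_eq_one (NeZero.ne f)
  have E0 : 0 ≤ E := (norm_nonneg _).trans (h 1)
  have p0 : 0 < f.totient := Nat.totient_pos.2 (NeZero.pos f)
  have p1 : (f.totient : ℂ) ≠ 0 := by exact_mod_cast p0.ne'
  set τ : DirichletCharacter ℂ f → ℂ := fun χ =>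
    ∑ r ∈ range f with r.Coprime f, χ (r : ZMod f)⁻¹ * ζ ^ r with hτ
  have t1 : τ 1 = μ f := by
    rw [← ram (NeZero.ne f) hζ]
    refine sum_congr rfl fun r hr => ?_
    obtain ⟨u, hu⟩ := (ZMod.isUnit_iff_coprime r f).2 (mem_filter.1 hr).2
    rw [← hu, ZMod.inv_coe_unit, MulChar.one_apply_coe, one_mul]
  have t2 : ∀ χ, ‖τ χ‖ ≤ f.totient := fun χ => by
    refine (norm_sum_le_of_le (n := fun _ => 1) _ fun r _ => ?_).trans ?_
    · rw [norm_mul, norm_pow, z1, one_pow, mul_one]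
      exact χ.norm_le_one _
    · rw [sum_const, nsmul_one, Nat.totient_eq_card_coprime]
      simp only [Nat.coprime_comm, le_refl]
  have h1 := SwcAux.bad (y := y) (NeZero.ne f) (fun R => if R.Coprime f then 0 else ζ ^ R) (c := 1)
    (fun n => by split_ifs <;> simp [z1]) fun n hn => if_pos hn
  have e : ∑ R ∈ range y, (th R : ℂ) * ζ ^ R - (μ f : ℂ) / f.totient * y =
      ∑ R ∈ range y, (if R.Coprime f then 0 else ζ ^ R) * (th R : ℂ) +
        ∑ χ : DirichletCharacter ℂ f, τ χ / f.totient *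
          (∑ R ∈ range y, χ R * (th R : ℂ) - if χ = 1 then (y : ℂ) else 0) := by
    have e1 : ∑ χ : DirichletCharacter ℂ f, τ χ / f.totient * ∑ R ∈ range y, χ R * (th R : ℂ) =
        ∑ R ∈ range y, (if R.Coprime f then ζ ^ R else 0) * (th R : ℂ) := by
      simp only [mul_sum]
      rw [sum_comm]
      refine sum_congr rfl fun R _ => ?_
      rw [← mul_div_cancel_left₀ (if R.Coprime f then ζ ^ R else 0) p1, ← orth hζ R, sum_div,
        sum_mul]
      exact sum_congr rfl fun χ _ => by ring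
    simp only [mul_sub, sum_sub_distrib, mul_ite, mul_zero, sum_ite_eq', mem_univ, if_true]
    rw [e1, t1, ← add_sub_assoc, ← sum_add_distrib]
    congr 1
    refine sum_congr rfl fun R _ => ?_
    split_ifs <;> ring
  rw [e]
  refine norm_add_le_of_le h1 ((norm_sum_le_of_le (n := fun _ => E) _ fun χ _ => ?_).trans ?_)
  · rw [norm_mul, norm_div, Complex.norm_natCast]
    exact (mul_le_of_le_one_left (norm_nonneg _)
      ((div_le_one (by exact_mod_cast p0)).2 (t2 χ))).trans (h χ)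
  · rw [sum_const, nsmul_eq_mul, card_univ, ← Nat.card_eq_fintype_card,
      DirichletCharacter.card_eq_totient_of_hasEnoughRootsOfUnity]
    gcongr
    exact f.totient_le

theorem unif (hp : PntS) (hc : SwcS) (a b : ℕ) : ∃ C : ℝ, 0 ≤ C ∧ ∀ (Y y f : ℕ) [NeZero f],
    3 ≤ Y → y ≤ Y → (f : ℝ) ≤ Real.log Y ^ b → ∀ χ : DirichletCharacter ℂ f,
      ‖∑ R ∈ range y, χ R * (th R : ℂ) - if χ = 1 then (y : ℂ) else 0‖ ≤
        C * Y / Real.log Y ^ a := by
  obtain ⟨C₁, h1, hp⟩ := hp a
  obtain ⟨C₂, h2, hc⟩ := hc a (2 * b)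
  refine ⟨2 * Real.exp 2 * (2 ^ (a + 1) * (a + 1).factorial) + (C₁ + C₂) * 2 ^ a +
    2 * (2 ^ (a + b + 1) * (a + b + 1).factorial), by positivity, fun Y y f _ hY hy hf χ => ?_⟩
  have Y3 : (3 : ℝ) ≤ Y := by exact_mod_cast hY
  have yY : (y : ℝ) ≤ Y := by exact_mod_cast hy
  have u1 : 1 ≤ Real.log Y := by
    rw [Real.le_log_iff_exp_le (by linarith)]; linarith [Real.exp_one_lt_d9]
  have l0 : 0 ≤ Real.log y := Real.log_natCast_nonneg y
  have l1 : Real.log y ≤ Real.log Y := by
    rcases y.eq_zero_or_pos with rfl | h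
    · simpa using le_trans zero_le_one u1
    · exact Real.log_le_log (by positivity) yY
  rw [add_mul, add_mul, add_div, add_div]
  rcases le_total (y : ℝ) (Real.exp (Real.log Y / 2 + 2)) with h | h
  · refine le_add_of_le_of_nonneg (le_add_of_le_of_nonneg ?_ (by positivity)) (by positivity)
    have b1 : ‖∑ R ∈ range y, χ R * (th R : ℂ)‖ ≤ y * Real.log y := by
      refine (norm_sum_le_of_le (n := fun _ => Real.log y) _ fun R hR => ?_).trans (by simp)
      obtain ⟨c1, c2⟩ := SwcAux.th_le (mem_range.1 hR)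
      rw [norm_mul, norm_real, Real.norm_of_nonneg c1]
      exact (mul_le_of_le_one_left c1 (χ.norm_le_one _)).trans c2
    have b2 : ‖if χ = 1 then (y : ℂ) else 0‖ ≤ y := by split_ifs <;> simp
    have b3 := PntAux.pow_le_exp (a + 1) (show 0 ≤ Real.log Y by linarith)
    have b4 : Real.exp (Real.log Y / 2) * Real.exp (Real.log Y / 2) = Y := by
      rw [← Real.exp_add, add_halves, Real.exp_log (by linarith)]
    refine (norm_sub_le_of_le b1 b2).trans ?_
    rw [le_div_iff₀ (by positivity)]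
    rw [Real.exp_add] at h
    calc _ ≤ (y * Real.log Y + y * Real.log Y) * Real.log Y ^ a := by
          gcongr
          exact le_mul_of_one_le_right (by positivity) u1
      _ = 2 * y * Real.log Y ^ (a + 1) := by ring
      _ ≤ 2 * (Real.exp (Real.log Y / 2) * Real.exp 2) *
          (2 ^ (a + 1) * (a + 1).factorial * Real.exp (Real.log Y / 2)) := by gcongr
      _ = _ := by nth_rewrite 3 [← b4]; ring
  have y0 : (0 : ℝ) < y := (Real.exp_pos _).trans_le h
  have l2 := (Real.le_log_iff_exp_le y0).2 h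
  have y3 : 3 ≤ y := by
    have := Real.add_one_le_exp (Real.log Y / 2 + 2)
    exact_mod_cast (show (3 : ℝ) ≤ y by linarith)
  have b1 : ∀ C : ℝ, 0 ≤ C → C ≤ C₁ + C₂ →
      C * y / Real.log y ^ a ≤ (C₁ + C₂) * 2 ^ a * Y / Real.log Y ^ a := fun C c0 c1 => by
    calc _ ≤ (C₁ + C₂) * Y / (Real.log Y / 2) ^ a := by gcongr; linarith
      _ = _ := by rw [div_pow]; field_simp
  rw [add_assoc]
  refine le_add_of_nonneg_of_le (by positivity) ?_
  split_ifs with h3
  · subst h3
    have b2 := SwcAux.bad (y := y) (NeZero.ne f)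
      (fun R => (1 : DirichletCharacter ℂ f) R - 1) (c := 2)
      (fun n => (norm_sub_le _ _).trans (by
        rw [norm_one]
        linarith [(1 : DirichletCharacter ℂ f).norm_le_one n])) fun n hn => by
        rw [MulChar.one_apply ((ZMod.isUnit_iff_coprime n f).2 hn), sub_self]
    have e : ∑ R ∈ range y, (1 : DirichletCharacter ℂ f) R * (th R : ℂ) - y =
        ((∑ R ∈ range y, th R - y : ℝ) : ℂ) +
          ∑ R ∈ range y, ((1 : DirichletCharacter ℂ f) R - 1) * (th R : ℂ) := by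
      simp only [sub_mul, sum_sub_distrib, one_mul]
      push_cast
      ring
    rw [e]
    refine norm_add_le_of_le ?_ (b2.trans ?_)
    · rw [norm_real, Real.norm_eq_abs]
      exact (hp y y3).trans (b1 _ h1 (by linarith))
    · have b3 := SwcAux.pw (a + b + 1) (y := Y) (by linarith)
      rw [le_div_iff₀ (by positivity)]
      calc _ ≤ Real.log Y ^ b * (2 * Real.log Y) * Real.log Y ^ a := by gcongr
        _ = 2 * Real.log Y ^ (a + b + 1) := by ring
        _ ≤ _ := by rw [mul_assoc]; gcongr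
  · rw [sub_zero]
    refine le_add_of_le_of_nonneg ((hc y f χ y3 (hf.trans ?_) h3).trans (b1 _ h2 (by linarith)))
      (by positivity)
    rw [pow_mul]
    gcongr
    nlinarith

end SwbAux

theorem swb : SwbS := fun hp hc a b => by
  obtain ⟨C, hC, h⟩ := SwbAux.unif hp hc (a + b) b
  refine ⟨2 ^ (a + b + 1) * (a + b + 1).factorial + C, by positivity,
    fun Y y f t hY hy hf hb ht => ?_⟩
  have : NeZero f := ⟨by omega⟩
  have Y3 : (3 : ℝ) ≤ Y := by exact_mod_cast hY
  have u1 : 1 ≤ Real.log Y := by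
    rw [Real.le_log_iff_exp_le (by linarith)]; linarith [Real.exp_one_lt_d9]
  have l0 : 0 ≤ Real.log y := Real.log_natCast_nonneg y
  have l1 : Real.log y ≤ Real.log Y := by
    rcases y.eq_zero_or_pos with rfl | h
    · simpa using le_trans zero_le_one u1
    · exact Real.log_le_log (by positivity) (by exact_mod_cast hy)
  have h1 := SwbAux.red (isPrimitiveRoot_exp_of_isCoprime t f (by omega) ht) (h Y y f hY hy hb)
  simp only [← exp_nat_mul] at h1
  rw [sum_congr rfl fun R _ => by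
    rw [show 2 * Real.pi * I * (R * t / f) = R * (2 * Real.pi * I * (t / f)) by ring], add_mul,
    add_div]
  refine h1.trans (add_le_add ?_ ?_)
  · have b3 := SwcAux.pw (a + b + 1) (y := Y) (by linarith)
    rw [le_div_iff₀ (by positivity)]
    calc _ ≤ Real.log Y ^ b * (1 * Real.log Y) * Real.log Y ^ a := by gcongr
      _ = Real.log Y ^ (a + b + 1) := by ring
      _ ≤ _ := b3
  · calc _ ≤ Real.log Y ^ b * (C * Y / Real.log Y ^ (a + b)) := by gcongr
      _ = _ := by field_simp; ring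

end Pool.Agent.Lib.MP_d6ddbd_nt.L
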