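import Pool.Agent.Lib.MP_d6ddbd_nt.L.St

/-! The evaluation of the model of the primes. -/

open Finset Filter ArithmeticFunction
open scoped ArithmeticFunction.Moebius

noncomputable section

namespace Pool.Agent.Lib.MP_d6ddbd_nt.L

open MP_f64879_nt (W Mx M0)

namespace Ts

/-- the linear functional behind the model. -/
def Lm (V : ℕ) (D : ℕ → ℝ) : ℝ := ∑ q ∈ Icc 1 V, (μ q : ℝ) / q.totient *
  ∑ r ∈ q.divisors, (μ (q / r) : ℝ) * r * D r

theorem Lm_sum {ι : Type} (V : ℕ) (s : Finset ι) (c : ι → ℝ) (D : ι → ℕ → ℝ) :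
    ∑ i ∈ s, c i * Lm V (D i) = Lm V fun r => ∑ i ∈ s, c i * D i r := by
  simp only [Lm, mul_sum]
  rw [sum_comm]
  refine sum_congr rfl fun q _ => ?_
  rw [sum_comm]
  exact sum_congr rfl fun r _ => sum_congr rfl fun i _ => by ring

theorem Lm_sub (V : ℕ) (t : ℝ) (D D' : ℕ → ℝ) :
    Lm V D - t * Lm V D' = Lm V fun r => D r - t * D' r := by
  simp only [Lm, mul_sum, ← sum_sub_distrib]
  exact sum_congr rfl fun q _ => sum_congr rfl fun r _ => by ring

theorem Lm_le {V : ℕ} {D e : ℕ → ℝ} (h : ∀ r ∈ Icc 1 V, |D r| ≤ e r) :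
    |Lm V D| ≤ V ^ 2 * ∑ r ∈ Icc 1 V, e r := by
  have m1 : ∀ n, |(μ n : ℝ)| ≤ 1 := fun n => by exact_mod_cast abs_moebius_le_one
  have h1 : ∀ q ∈ Icc 1 V, |(μ q : ℝ) / q.totient * ∑ r ∈ q.divisors, (μ (q / r) : ℝ) * r * D r| ≤
      V * ∑ r ∈ Icc 1 V, e r := fun q hq => by
    obtain ⟨q1, q2⟩ := mem_Icc.1 hq
    have t1 : (1 : ℝ) ≤ q.totient := by exact_mod_cast Nat.totient_pos.2 q1
    have sb : q.divisors ⊆ Icc 1 V := fun r hr =>
      mem_Icc.2 ⟨Nat.pos_of_mem_divisors hr, (Nat.divisor_le hr).trans q2⟩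
    rw [abs_mul, abs_div, Nat.abs_cast]
    refine (mul_le_of_le_one_left (abs_nonneg _) (div_le_one_of_le₀ ((m1 q).trans t1)
      (by positivity))).trans ((abs_sum_le_sum_abs _ _).trans ?_)
    refine (sum_le_sum_of_subset_of_nonneg sb fun _ _ _ => abs_nonneg _).trans ?_
    rw [mul_sum]
    refine sum_le_sum fun r hr => ?_
    have r2 : (r : ℝ) ≤ V := by exact_mod_cast (mem_Icc.1 hr).2
    rw [abs_mul, abs_mul, Nat.abs_cast]
    exact mul_le_mul ((mul_le_of_le_one_left (by positivity) (m1 _)).trans r2) (h r hr)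
      (abs_nonneg _) (by positivity)
  refine (abs_sum_le_sum_abs _ _).trans ((sum_le_sum h1).trans_eq ?_)
  rw [sum_const, Nat.card_Icc, nsmul_eq_mul, Nat.add_sub_cancel]
  ring

theorem Rw_eq (V : ℕ) (d : ℕ × ℕ × ℕ) (n P Q : ℕ) : Rw (lam V) d n P Q =
    Lm V fun r => if 16 * d.2.2 * r ∣ d.1 * n * P + d.2.1 * Q then 1 else 0 := by
  rw [Rw]
  split_ifs with h
  · simp only [lam, Lm, sum_filter, Nat.dvd_div_iff_mul_dvd h, mul_ite, mul_one, mul_zero]
  · have : ∀ r, ¬ 16 * d.2.2 * r ∣ d.1 * n * P + d.2.1 * Q := fun r h' =>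
      h (dvd_of_mul_right_dvd h')
    simp [Lm, this]

theorem kap_eq (V : ℕ) (d : ℕ × ℕ × ℕ) : kap V d =
    Lm V fun r => if r.Coprime (d.1 * d.2.1) then ((16 * d.2.2 * r).totient : ℝ)⁻¹ else 0 := by
  simp only [kap, Lm, sum_filter, mul_ite, mul_zero, div_eq_mul_inv]

theorem cls {m A b : ℕ} (hm : 1 ≤ m) (hA : A.Coprime m) (hb : b.Coprime m) :
    ∃ r : ℕ, r.Coprime m ∧ ∀ Q, m ∣ A + b * Q ↔ Q ≡ r [MOD m] := by
  have : NeZero m := ⟨by omega⟩
  refine ⟨_, ZMod.val_coe_unit_coprime (-((ZMod.unitOfCoprime b hb)⁻¹ * ZMod.unitOfCoprime A hA)),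
    fun Q => ?_⟩
  rw [← ZMod.natCast_eq_zero_iff, ← ZMod.natCast_eq_natCast_iff, ZMod.natCast_zmod_val,
    Units.val_neg, Units.val_mul, ← mul_neg, Units.eq_inv_mul_iff_mul_eq, eq_neg_iff_add_eq_zero,
    ZMod.coe_unitOfCoprime, ZMod.coe_unitOfCoprime, add_comm A]
  push_cast
  rfl

/-- the estimate for progressions. -/
def Bv (s : ℝ) (E : ℕ → ℝ) : Prop := (∀ m, 0 ≤ E m) ∧
  ∀ m x r : ℕ, 1 ≤ m → r.Coprime m → Squarefree x → Odd x → x.Coprime m →
    |∑ n ∈ range (Mx s) with n ≡ r [MOD m], wt s n * jacobiSym n x -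
      if x = 1 then M0 s / m.totient else 0| ≤ x * E (m * x)

theorem wt_nonneg (s : ℝ) (n : ℕ) : 0 ≤ wt s n := by
  rw [wt]
  split_ifs
  · exact mul_nonneg (Real.log_natCast_nonneg n) (MP_f64879_nt.W_nonneg s n)
  · exact le_rfl

theorem wt_supp {s : ℝ} {n : ℕ} (h : wt s n ≠ 0) : n.Prime ∧ Real.exp (s - 1) < n := by
  rw [wt] at h
  split_ifs at h with hp
  · refine ⟨hp, (Real.lt_log_iff_exp_lt (by exact_mod_cast hp.pos)).1 ?_⟩
    by_contra h1
    rw [W, MP_f64879_nt.bp_zero (le_abs.2 (.inr (by linarith [not_lt.1 h1])))] at h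
    simp at h
  · exact absurd rfl h

theorem inner {s : ℝ} {E : ℕ → ℝ} {V n P x : ℕ} {d : ℕ × ℕ × ℕ} (hs : Squarefree (pr d))
    (ho : Odd (pr d)) (hx : x ∣ d.1 * d.2.1) (hE : Bv s E) (hn : n.Prime) (hP : P.Prime)
    (n1 : 16 * pr d * V < n) (P1 : 16 * pr d * V < P) (Q1 : ∀ Q, wt s Q ≠ 0 → 16 * pr d * V < Q) :
    |∑ Q ∈ range (Mx s), wt s Q * jacobiSym Q x * Rw (lam V) d n P Q -
      (if x = 1 then M0 s else 0) * kap V d| ≤
        V ^ 2 * ∑ r ∈ Icc 1 V, x * E (16 * r * (d.2.2 * x)) := by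
  simp only [Rw_eq, kap_eq, Lm_sum, Lm_sub]
  refine Lm_le fun r hr => ?_
  obtain ⟨r1, r2⟩ := mem_Icc.1 hr
  obtain ⟨d1, d2, d3⟩ := d
  simp only [pr] at *
  have p0 : 0 < d1 * d2 * d3 := ho.pos
  have p3 : 0 < d3 := Nat.pos_of_mul_pos_left p0
  have p12 : 0 < d1 * d2 := Nat.pos_of_mul_pos_right p0
  have c3 : (d1 * d2).Coprime d3 := Nat.coprime_of_squarefree_mul hs
  have s12 : Squarefree (d1 * d2) := hs.of_mul_left
  have c12 : d1.Coprime d2 := Nat.coprime_of_squarefree_mul s12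
  have o12 : Odd (d1 * d2) := Nat.Odd.of_mul_left ho
  have lt : 16 * d3 * r ≤ 16 * (d1 * d2 * d3) * V :=
    Nat.mul_le_mul (Nat.mul_le_mul_left _ (Nat.le_mul_of_pos_left _ p12)) r2
  have m0 : 0 < 16 * d3 * r := by positivity
  by_cases hc : r.Coprime (d1 * d2)
  · have c16 : (d1 * d2).Coprime 16 :=
      Nat.Coprime.pow_right 4 (Nat.coprime_two_right.2 o12)
    have cm : (d1 * d2).Coprime (16 * d3 * r) := (c16.mul_right c3).mul_right hc.symm
    have big : ∀ l, l.Prime → 16 * (d1 * d2 * d3) * V < l → l.Coprime (16 * d3 * r) :=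
      fun l h1 h2 => h1.coprime_iff_not_dvd.2 (Nat.not_dvd_of_pos_of_lt m0 (lt.trans_lt h2))
    obtain ⟨r0, c0, h0⟩ := cls m0 ((cm.coprime_mul_right.mul_left (big n hn n1)).mul_left
      (big P hP P1)) cm.coprime_mul_left
    have h1 := hE.2 _ x r0 m0 c0 (s12.squarefree_of_dvd hx) (o12.of_dvd_nat hx)
      (cm.coprime_dvd_left hx)
    rw [show 16 * r * (d3 * x) = 16 * d3 * r * x by ring]
    convert h1 using 2
    simp only [h0, sum_filter, mul_ite, mul_one, mul_zero, if_pos hc, ite_mul, zero_mul,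
      div_eq_mul_inv]
  · rw [if_neg hc, mul_zero, sub_zero, sum_eq_zero, abs_zero]
    · exact mul_nonneg (Nat.cast_nonneg _) (hE.1 _)
    intro Q _
    by_cases hQ : wt s Q = 0
    · rw [hQ, zero_mul, zero_mul]
    rw [if_neg, mul_zero]
    intro h
    obtain ⟨l, hl, l1, l2⟩ := Nat.Prime.not_coprime_iff_dvd.1 hc
    have l3 : l ∣ d1 * n * P + d2 * Q := (l1.mul_left _).trans h
    have l4 : l ≤ 16 * (d1 * d2 * d3) * V :=
      ((Nat.le_of_dvd r1 l1).trans (Nat.le_mul_of_pos_left _ (by positivity))).trans lt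
    have big : ∀ k, k.Prime → 16 * (d1 * d2 * d3) * V < k → ¬ l ∣ k := fun k h1 h2 h3 => by
      have := (Nat.prime_dvd_prime_iff_eq hl h1).1 h3
      omega
    have nb : l ∣ d1 → ¬ l ∣ d2 := fun h1 h2 => hl.one_lt.ne' (Nat.eq_one_of_dvd_coprimes c12 h1 h2)
    rcases hl.dvd_mul.1 l2 with h1 | h1
    · exact (hl.dvd_mul.1 ((Nat.dvd_add_right ((h1.mul_right _).mul_right _)).1 l3)).elim (nb h1)
        (big Q (wt_supp hQ).1 (Q1 Q hQ))
    · rcases hl.dvd_mul.1 ((Nat.dvd_add_left (h1.mul_right _)).1 l3) with h2 | h2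
      · exact (hl.dvd_mul.1 h2).elim (nb · h1) (big n hn n1)
      · exact big P hP P1 h2

/-- the weight on the primes that are one modulo four. -/
def aw (s : ℝ) (y n : ℕ) : ℝ := if n % 4 = 1 then wt s n * jacobiSym n y else 0

theorem aw_le (s : ℝ) (y n : ℕ) : |aw s y n| ≤ wt s n := by
  rw [aw]
  split_ifs
  · rw [abs_mul, abs_of_nonneg (wt_nonneg s n)]
    refine mul_le_of_le_one_right (wt_nonneg s n) ?_
    rcases jacobiSym.trichotomy n y with h | h | h <;> simp [h]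
  · simpa using wt_nonneg s n

theorem aw_sum {s : ℝ} {E : ℕ → ℝ} {y : ℕ} (hE : Bv s E) (hs : Squarefree y) (ho : Odd y) :
    |∑ n ∈ range (Mx s), aw s y n - if y = 1 then M0 s / 2 else 0| ≤ y * E (4 * y) := by
  have h := hE.2 4 y 1 (by norm_num) (by norm_num) hs ho
    (Nat.Coprime.pow_right 2 (Nat.coprime_two_right.2 ho))
  rw [sum_filter, show Nat.totient 4 = 2 by decide] at h
  exact h

theorem pt {u U : ℝ} {j V x y z : ℕ} {d : ℕ × ℕ × ℕ} {E1 E2 E3 : ℕ → ℝ} (hs : Squarefree (pr d))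
    (ho : Odd (pr d)) (hc : Ch d x y z) (h1 : Bv j E1) (h2 : Bv (sP u j d) E2)
    (h3 : Bv (sQ u d) E3) (hb : ∀ s ∈ ({(j : ℝ), sP u j d, sQ u d} : Set ℝ),
      (∑ n ∈ range (Mx s), wt s n ≤ M0 s ∧ M0 s ≤ U) ∧ ∀ n, wt s n ≠ 0 → 16 * pr d * V < n) :
    |TT (lam V) u j d (chi x y z false false) -
      if x = 1 ∧ y = 1 ∧ z = 1 then kap V d * MM u j d / 4 else 0| ≤
      U ^ 2 * (V ^ 2 * ∑ r ∈ Icc 1 V, x * E3 (16 * r * (d.2.2 * x)) +
        |kap V d| * (y * E1 (4 * y) + z * E2 (4 * z))) := by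
  obtain ⟨⟨a1, a2⟩, a3⟩ := hb j (by simp)
  obtain ⟨⟨b1, b2⟩, b3⟩ := hb (sP u j d) (by simp)
  obtain ⟨⟨c1, c2⟩, c3⟩ := hb (sQ u d) (by simp)
  have n0 : ∀ s, 0 ≤ ∑ n ∈ range (Mx s), wt s n := fun s => sum_nonneg fun n _ => wt_nonneg s n
  have a0 := (n0 _).trans a1
  have c0 := (n0 _).trans c1
  have U0 := a0.trans a2
  have dv : d.2.1 * d.2.2 ∣ pr d := ⟨d.1, by rw [pr]; ring⟩
  have e1 := aw_sum h1 (hs.squarefree_of_dvd (hc.2.1.trans dv)) (ho.of_dvd_nat (hc.2.1.trans dv))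
  have e2 := aw_sum h2 (hs.squarefree_of_dvd (hc.2.2.trans dv)) (ho.of_dvd_nat (hc.2.2.trans dv))
  set ε := (V : ℝ) ^ 2 * ∑ r ∈ Icc 1 V, x * E3 (16 * r * (d.2.2 * x)) with hε
  have ε0 : 0 ≤ ε := mul_nonneg (sq_nonneg _)
    (sum_nonneg fun r _ => mul_nonneg (Nat.cast_nonneg _) (h3.1 _))
  set κ := (if x = 1 then M0 (sQ u d) else 0) * kap V d with hκ
  have κ1 : |κ| ≤ U * |kap V d| := by
    rw [abs_mul]
    refine mul_le_mul_of_nonneg_right ?_ (abs_nonneg _)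
    split_ifs
    · rwa [abs_of_nonneg c0]
    · rwa [abs_zero]
  set A := ∑ n ∈ range (Mx j), aw j y n with hA
  set B := ∑ n ∈ range (Mx (sP u j d)), aw (sP u j d) z n with hB
  have B1 : |B| ≤ U :=
    (abs_sum_le_sum_abs _ _).trans ((sum_le_sum fun n _ => aw_le _ _ n).trans (b1.trans b2))
  have k1 : |TT (lam V) u j d (chi x y z false false) - κ * (A * B)| ≤ U ^ 2 * ε := by
    rw [hA, hB, sum_mul_sum, TT]
    simp only [mul_sum, ← sum_sub_distrib]
    refine (abs_sum_le_sum_abs _ _).trans ((sum_le_sum fun n _ => (abs_sum_le_sum_abs _ _).trans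
      (sum_le_sum (g := fun P => wt j n * wt (sP u j d) P * ε) fun P _ => ?_)).trans ?_)
    · have e : ∑ Q ∈ range (Mx (sQ u d)), wt j n * wt (sP u j d) P * wt (sQ u d) Q *
          chi x y z false false n P Q * Rw (lam V) d n P Q - κ * (aw j y n * aw (sP u j d) z P) =
          aw j y n * aw (sP u j d) z P * (∑ Q ∈ range (Mx (sQ u d)),
            wt (sQ u d) Q * jacobiSym Q x * Rw (lam V) d n P Q - κ) := by
        rw [mul_sub, mul_comm κ, mul_sum]
        congr 1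
        refine sum_congr rfl fun Q _ => ?_
        by_cases q1 : n % 4 = 1 <;> by_cases q2 : P % 4 = 1 <;> simp [chi, aw, q1, q2]
        ring
      rw [e, abs_mul, abs_mul]
      by_cases q1 : wt j n = 0
      · simp [aw, q1]
      by_cases q2 : wt (sP u j d) P = 0
      · simp [aw, q2]
      exact mul_le_mul (mul_le_mul (aw_le _ _ _) (aw_le _ _ _) (abs_nonneg _) (wt_nonneg _ _))
        (inner hs ho hc.1 h3 (wt_supp q1).1 (wt_supp q2).1 (a3 n q1) (b3 P q2) c3) (abs_nonneg _)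
        (mul_nonneg (wt_nonneg _ _) (wt_nonneg _ _))
    · simp only [← sum_mul, ← mul_sum]
      rw [sq]
      exact mul_le_mul_of_nonneg_right (mul_le_mul (a1.trans a2) (b1.trans b2) (n0 _) U0) ε0
  set a := if y = 1 then M0 j / 2 else 0 with ha
  set b := if z = 1 then M0 (sP u j d) / 2 else 0 with hb'
  have a4 : |a| ≤ U := by
    rw [ha]
    split_ifs
    · rw [abs_of_nonneg (by positivity)]; linarith
    · rwa [abs_zero]
  have e3 : (if x = 1 ∧ y = 1 ∧ z = 1 then kap V d * MM u j d / 4 else 0) = κ * (a * b) := by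
    rw [hκ, ha, hb', MM]
    by_cases q1 : x = 1 <;> by_cases q2 : y = 1 <;> by_cases q3 : z = 1 <;> simp [q1, q2, q3]
    ring
  have k2 : |A * B - a * b| ≤ U * (y * E1 (4 * y) + z * E2 (4 * z)) := by
    rw [show A * B - a * b = B * (A - a) + a * (B - b) by ring, mul_add]
    refine (abs_add_le _ _).trans (add_le_add ?_ ?_) <;> rw [abs_mul]
    · exact mul_le_mul B1 e1 (abs_nonneg _) U0
    · exact mul_le_mul a4 e2 (abs_nonneg _) U0
  rw [e3]
  refine (abs_sub_le _ (κ * (A * B)) _).trans ?_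
  rw [← mul_sub, abs_mul, mul_add]
  exact add_le_add k1 ((mul_le_mul κ1 k2 (abs_nonneg _) (by positivity)).trans_eq (by ring))

theorem tau {u : ℝ} (hu : 1 ≤ u) {d : ℕ × ℕ × ℕ} (hd : d ∈ Tri u) :
    ((pr d).divisors.card : ℝ) ≤ u ^ 7 := by
  obtain ⟨-, hs, -, -, h⟩ := mem_filter.1 hd
  have h1 : (pr d).divisors.card ≤ 2 ^ (pr d).primeFactors.card := by
    rw [Nat.card_divisors hs.ne_zero]
    exact prod_le_pow_card _ _ _ fun p _ => Nat.succ_le_succ (hs.natFactorization_le_one p)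
  calc ((pr d).divisors.card : ℝ) ≤ 2 ^ (pr d).primeFactors.card := by exact_mod_cast h1
    _ = Real.exp ((pr d).primeFactors.card * Real.log 2) := by
      rw [Real.exp_nat_mul, Real.exp_log two_pos]
    _ ≤ Real.exp ((7 : ℕ) * Real.log u) := by
      refine Real.exp_le_exp.2 ?_
      have := Real.log_two_lt_d9
      have := Real.log_nonneg hu
      push_cast
      nlinarith [Real.log_pos one_lt_two]
    _ = _ := by rw [Real.exp_nat_mul, Real.exp_log (by linarith)]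

theorem kap_le {u : ℝ} (hu : 1 ≤ u) {d : ℕ × ℕ × ℕ} (hd : d ∈ Tri u) (V : ℕ) :
    |kap V d| ≤ V ^ 3 * u ^ 7 / d.2.2 := by
  have hs : pr d ≠ 0 := (mem_filter.1 hd).2.1.ne_zero
  have dv : d.2.2 ∣ pr d := Dvd.intro_left _ rfl
  have p3 : 0 < d.2.2 := Nat.pos_of_dvd_of_pos dv hs.bot_lt
  rw [kap_eq]
  refine (Lm_le (e := fun _ => u ^ 7 / d.2.2) fun r hr => ?_).trans_eq ?_
  · split_ifs
    · have m0 : 0 < 16 * d.2.2 * r := by have := (mem_Icc.1 hr).1; positivity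
      have t0 := Nat.totient_pos.2 m0
      have h1 : d.2.2 ≤ (pr d).divisors.card * (16 * d.2.2 * r).totient := by
        conv_lhs => rw [← Nat.sum_totient d.2.2]
        refine (sum_le_card_nsmul _ _ _ fun e he => Nat.le_of_dvd t0 (Nat.totient_dvd_of_dvd
          (((Nat.dvd_of_mem_divisors he).mul_left 16).mul_right r))).trans ?_
        exact Nat.mul_le_mul_right _ (card_le_card (Nat.divisors_subset_of_dvd hs dv))
      rw [abs_inv, Nat.abs_cast, inv_eq_one_div, div_le_div_iff₀ (by positivity) (by positivity),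
        one_mul]
      exact le_trans (by exact_mod_cast h1) (mul_le_mul_of_nonneg_right (tau hu hd) (by positivity))
    · rw [abs_zero]
      positivity
  · rw [sum_const, Nat.card_Icc, nsmul_eq_mul, Nat.add_sub_cancel]
    ring

theorem fib {u : ℝ} (hu : 1 ≤ u) {F : ℕ → ℝ} (hF : ∀ m, 0 ≤ F m) {m : ℕ × ℕ × ℕ → ℕ}
    (hm : ∀ d ∈ Tri u, m d ∣ pr d) : ∑ d ∈ Tri u, m d * F (m d) / pr d ≤
      u ^ 14 * (2 * u) * ∑ m ∈ Icc 1 (DD u), F m := by
  have p0 : ∀ d ∈ Tri u, 0 < pr d ∧ pr d ≤ DD u := fun d hd =>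
    ⟨(mem_filter.1 hd).2.2.1.pos, (mem_filter.1 hd).2.2.2.1⟩
  rw [← sum_fiberwise_of_maps_to (g := fun d => (m d, pr d / m d))
    (t := Icc 1 (DD u) ×ˢ Icc 1 (DD u)) fun d hd => ?_]
  swap
  · obtain ⟨h1, h2⟩ := p0 d hd
    have h3 := Nat.le_of_dvd h1 (hm d hd)
    have h4 := Nat.pos_of_dvd_of_pos (hm d hd) h1
    exact mem_product.2 ⟨mem_Icc.2 ⟨h4, h3.trans h2⟩,
      mem_Icc.2 ⟨Nat.div_pos h3 h4, (Nat.div_le_self _ _).trans h2⟩⟩
  have h1 : ∀ c ∈ Icc 1 (DD u) ×ˢ Icc 1 (DD u), ∑ d ∈ Tri u with (m d, pr d / m d) = c,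
      m d * F (m d) / pr d ≤ u ^ 14 * (F c.1 * (c.2 : ℝ)⁻¹) := by
    rintro ⟨k, l⟩ hc
    have k0 : 0 < k := (mem_Icc.1 (mem_product.1 hc).1).1
    have e : ∀ d ∈ (Tri u).filter fun d => (m d, pr d / m d) = (k, l), m d = k ∧ pr d = k * l :=
      fun d hd => by
        obtain ⟨h1, h2⟩ := mem_filter.1 hd
        obtain ⟨rfl, rfl⟩ := Prod.mk.inj h2
        exact ⟨rfl, (Nat.mul_div_cancel' (hm d h1)).symm⟩
    rw [sum_congr rfl (g := fun _ => F k * (l : ℝ)⁻¹) fun d hd => by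
      rw [(e d hd).1, (e d hd).2]; push_cast; field_simp, sum_const, nsmul_eq_mul]
    refine mul_le_mul_of_nonneg_right ?_ (mul_nonneg (hF _) (by positivity))
    rcases ((Tri u).filter fun d => (m d, pr d / m d) = (k, l)).eq_empty_or_nonempty with
      h | ⟨d0, h0⟩
    · rw [h, card_empty, Nat.cast_zero]
      positivity
    have t := tau hu (mem_filter.1 h0).1
    have h2 : ((Tri u).filter fun d => (m d, pr d / m d) = (k, l)).card ≤
        ((pr d0).divisors ×ˢ (pr d0).divisors).card := by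
      refine card_le_card_of_injOn (fun d => (d.1, d.2.1)) (fun d hd => ?_) fun d hd d' hd' h => ?_
      · have h3 := (p0 _ (mem_filter.1 h0).1).1.ne'
        have h4 : pr d0 = d.1 * d.2.1 * d.2.2 := (e _ h0).2.trans (e d hd).2.symm
        exact mem_coe.2 (mem_product.2 ⟨Nat.mem_divisors.2 ⟨⟨_, h4.trans (mul_assoc _ _ _)⟩, h3⟩,
          Nat.mem_divisors.2 ⟨⟨d.1 * d.2.2, h4.trans (by ring)⟩, h3⟩⟩)
      · obtain ⟨h3, h4⟩ := Prod.mk.inj h
        have h5 : pr d = pr d' := (e d hd).2.trans (e d' hd').2.symm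
        have h6 := (p0 _ (mem_filter.1 hd').1).1
        rw [pr, pr, h3, h4] at h5
        exact Prod.ext h3 (Prod.ext h4 (Nat.eq_of_mul_eq_mul_left (Nat.pos_of_mul_pos_right h6) h5))
    rw [card_product] at h2
    calc _ ≤ ((pr d0).divisors.card : ℝ) * (pr d0).divisors.card := by exact_mod_cast h2
      _ ≤ u ^ 7 * u ^ 7 := by gcongr
      _ = _ := by ring
  refine (sum_le_sum h1).trans ?_
  rw [← mul_sum, sum_product' (f := fun k l : ℕ => F k * (l : ℝ)⁻¹), ← sum_mul_sum, mul_assoc,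
    mul_comm (2 * u)]
  refine mul_le_mul_of_nonneg_left (mul_le_mul_of_nonneg_left ?_ (sum_nonneg fun _ _ => hF _))
    (by positivity)
  have h2 := harmonic_le_one_add_log (DD u)
  rw [harmonic_eq_sum_Icc] at h2
  push_cast at h2
  have h3 : Real.log (DD u) ≤ u / 200 := by
    refine (Real.log_le_iff_le_exp ?_).2 (Nat.floor_le (Real.exp_pos _).le)
    exact_mod_cast Nat.floor_pos.2 (Real.one_le_exp (by positivity))
  linarith

theorem dil {G : ℕ → ℝ} (hG : ∀ m, 0 ≤ G m) {k : ℕ} (hk : 1 ≤ k) (D : ℕ) :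
    ∑ m ∈ Icc 1 D, G (k * m) ≤ ∑ m ∈ Icc 1 (k * D), G m := by
  rw [← sum_image (g := fun m => k * m) fun _ _ _ _ h => Nat.eq_of_mul_eq_mul_left hk h]
  refine sum_le_sum_of_subset_of_nonneg (fun x hx => ?_) fun _ _ _ => hG _
  obtain ⟨m, hm, rfl⟩ := mem_image.1 hx
  exact mem_Icc.2 ⟨Nat.mul_pos hk (mem_Icc.1 hm).1, Nat.mul_le_mul_left _ (mem_Icc.1 hm).2⟩

end Ts

open Ts in
theorem ts : TsR := by
  intro hB a c
  obtain ⟨C, C0, hC⟩ := hB (3 * a + 26 + c)
  set b := 3 * a + 26 + c with hb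
  have hC' : ∀ s : ℝ, ∃ E : ℕ → ℝ, 3 ≤ s → (∑ n ∈ range (Mx s), wt s n ≤ M0 s ∧ M0 s ≤ C * s) ∧
      Bv s E ∧ ∀ D : ℕ, (D : ℝ) ≤ Real.exp (s / 10) → ∑ m ∈ Icc 1 D, E m ≤ C / s ^ b := fun s => by
    by_cases h : 3 ≤ s
    · obtain ⟨h1, h2, E, h3, h4, h5⟩ := hC s h
      exact ⟨E, fun _ => ⟨⟨h2, h1⟩, ⟨h3, h4⟩, h5⟩⟩
    · exact ⟨0, fun h' => absurd h' h⟩
  choose E hE using hC'
  filter_upwards [eventually_ge_atTop 10, eventually_ge_atTop (6 * C ^ 3 * 3 ^ b),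
    (isLittleO_pow_exp_pos_mul_atTop a (b := 1 / 40) (by norm_num)).bound
      (c := 1 / 16) (by norm_num)] with u u1 u2 u3 j hj x y z hch
  have u0 : 0 < u := by linarith
  have u4 : 1 ≤ u := by linarith
  rw [Real.norm_of_nonneg (by positivity), Real.norm_of_nonneg (by positivity)] at u3
  set Z := u ^ a with hZ
  have Z1 : 1 ≤ Z := one_le_pow₀ u4
  set V := VV u a with hV
  have V1 : (V : ℝ) ≤ Z := Nat.floor_le (by positivity)
  have D1 : (DD u : ℝ) ≤ Real.exp (u / 200) := Nat.floor_le (Real.exp_pos _).le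
  have D2 : 16 * Z * DD u ≤ Real.exp (u / 30) := by
    refine (mul_le_mul (b := Real.exp (1 / 40 * u)) (by linarith) D1 (by positivity)
      (by positivity)).trans ?_
    rw [← Real.exp_add]
    exact Real.exp_le_exp.2 (by linarith)
  have j1 : 7 / 20 * u ≤ j := Nat.ceil_le.1 (mem_Icc.1 hj).1
  have j2 : (j : ℝ) ≤ 2 / 5 * u := (Nat.le_floor_iff (by positivity)).1 (mem_Icc.1 hj).2
  set I := range (⌊u / 200⌋₊ + 1) with hI
  have sc : ∀ t : ℝ, 7 / 20 * u ≤ t → ∀ i ∈ I, u / 3 ≤ t - i := fun t ht i hi => by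
    have : (i : ℝ) ≤ u / 200 :=
      (Nat.le_floor_iff (by positivity)).1 (Nat.lt_succ_iff.1 (mem_range.1 hi))
    linarith
  have hl : ∀ k : ℕ, 1 ≤ k → k ≤ DD u → lg k ∈ I := fun k h1 h2 => by
    refine mem_range.2 (Nat.lt_succ_of_le (Nat.floor_le_floor ?_))
    exact (Real.log_le_iff_le_exp (by exact_mod_cast h1)).2 (le_trans (by exact_mod_cast h2) D1)
  let G : ℝ → ℕ → ℝ := fun t m => ∑ i ∈ I, E (t - i) m
  have E0 : ∀ t : ℝ, 7 / 20 * u ≤ t → ∀ i ∈ I, ∀ m, 0 ≤ E (t - i) m := fun t ht i hi =>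
    (hE _ (by linarith [sc t ht i hi])).2.1.1
  have G0 : ∀ t : ℝ, 7 / 20 * u ≤ t → ∀ m, 0 ≤ G t m := fun t ht m =>
    sum_nonneg fun i hi => E0 t ht i hi m
  have G1 : ∀ t : ℝ, 7 / 20 * u ≤ t → ∀ i ∈ I, ∀ m, E (t - i) m ≤ G t m := fun t ht i hi m =>
    single_le_sum (f := fun i : ℕ => E (t - i) m) (fun i hi => E0 t ht i hi m) hi
  set K := u * (C / (u / 3) ^ b) with hK
  have K0 : 0 ≤ K := by positivity
  have G2 : ∀ t : ℝ, 7 / 20 * u ≤ t → ∀ k : ℕ, 1 ≤ k → (k : ℝ) ≤ 16 * Z →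
      ∑ m ∈ Icc 1 (DD u), G t (k * m) ≤ K := fun t ht k k1 k2 => by
    refine (dil (G0 t ht) k1 _).trans ?_
    rw [sum_comm]
    refine (sum_le_card_nsmul _ _ (C / (u / 3) ^ b) fun i hi => ?_).trans ?_
    · have := sc t ht i hi
      refine ((hE _ (by linarith)).2.2 _ ?_).trans (by gcongr)
      push_cast
      exact ((mul_le_mul_of_nonneg_right k2 (by positivity)).trans D2).trans
        (Real.exp_le_exp.2 (by linarith))
    · rw [nsmul_eq_mul, hI, card_range]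
      refine mul_le_mul_of_nonneg_right ?_ (by positivity)
      push_cast
      linarith [Nat.floor_le (show 0 ≤ u / 200 by positivity)]
  have t2 : 7 / 20 * u ≤ u - j := by linarith
  have t3 : 7 / 20 * u ≤ u := by linarith
  have dv : ∀ d : ℕ × ℕ × ℕ, d.2.1 * d.2.2 ∣ pr d := fun d => ⟨d.1, by rw [pr]; ring⟩
  have h1 : ∀ d ∈ Tri u, |TT (lam V) u j d (chi (x d) (y d) (z d) false false) -
      if x d = 1 ∧ y d = 1 ∧ z d = 1 then kap V d * MM u j d / 4 else 0| / (d.1 * d.2.1 : ℝ) ≤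
      (C * u) ^ 2 * (Z ^ 2 * (((d.2.2 * x d : ℕ) : ℝ) *
        (∑ r ∈ Icc 1 V, G u (16 * r * (d.2.2 * x d))) / pr d) + Z ^ 3 * u ^ 7 *
        (y d * G j (4 * y d) / pr d + z d * G (u - j) (4 * z d) / pr d)) := by
    intro d hd
    obtain ⟨q0, q1, q2, q3, -⟩ := mem_filter.1 hd
    simp only [mem_product, mem_Icc] at q0
    obtain ⟨⟨a1, a2⟩, ⟨b1, b2⟩, c1, -⟩ := q0
    have i0 : 0 ∈ I := mem_range.2 (Nat.succ_pos _)
    have s1 := sc j j1 0 i0
    have s2 := sc _ t2 _ (hl _ a1 a2)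
    have s3 := sc _ t3 _ (hl _ b1 b2)
    have g1 := G1 j j1 0 i0
    have g2 := G1 _ t2 _ (hl _ a1 a2)
    have g3 := G1 _ t3 _ (hl _ b1 b2)
    rw [Nat.cast_zero, sub_zero] at s1 g1
    have hp := pt (U := C * u) (V := V) q1 q2 (hch d hd) (hE j (by linarith)).2.1
      (hE (sP u j d) (by rw [sP]; linarith)).2.1 (hE (sQ u d) (by rw [sQ]; linarith)).2.1 (by
        have : ∀ s, u / 3 ≤ s → s ≤ u → (∑ n ∈ range (Mx s), wt s n ≤ M0 s ∧ M0 s ≤ C * u) ∧
            ∀ n, wt s n ≠ 0 → 16 * pr d * V < n := fun s h1 h2 => by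
          obtain ⟨⟨h3, h4⟩, -⟩ := hE s (by linarith)
          refine ⟨⟨h3, h4.trans (by gcongr)⟩, fun n hn => ?_⟩
          have h5 : (pr d : ℝ) ≤ DD u := by exact_mod_cast q3
          have h6 : (16 * pr d * V : ℝ) ≤ 16 * Z * DD u := by rw [mul_right_comm]; gcongr
          exact_mod_cast ((h6.trans D2).trans (Real.exp_le_exp.2 (by linarith))).trans_lt
            (wt_supp hn).2
        rintro s (rfl | rfl | rfl)
        · exact this _ s1 (by linarith)
        · exact this _ s2 (by rw [sP]; linarith [Nat.cast_nonneg (α := ℝ) (lg d.1)])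
        · exact this _ s3 (by rw [sQ]; linarith [Nat.cast_nonneg (α := ℝ) (lg d.2.1)]))
    have p1 : (0 : ℝ) < d.1 := by exact_mod_cast a1
    have p2 : (0 : ℝ) < d.2.1 := by exact_mod_cast b1
    have p3 : (0 : ℝ) < d.2.2 := by exact_mod_cast c1
    have kl : |kap V d| ≤ Z ^ 3 * u ^ 7 / d.2.2 := (kap_le u4 hd V).trans (by gcongr)
    have e1 := E0 _ t2 _ (hl _ a1 a2)
    have e3 := E0 _ t3 _ (hl _ b1 b2)
    have e0 := (hE j (by linarith)).2.1.1
    rw [div_le_iff₀ (by positivity)]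
    refine hp.trans (le_of_le_of_eq (b := (C * u) ^ 2 * (Z ^ 2 *
      ∑ r ∈ Icc 1 V, x d * G u (16 * r * (d.2.2 * x d)) + Z ^ 3 * u ^ 7 / d.2.2 *
        (y d * G j (4 * y d) + z d * G (u - j) (4 * z d)))) ?_ ?_)
    · refine mul_le_mul_of_nonneg_left (add_le_add (mul_le_mul (by gcongr)
        (sum_le_sum fun r _ => mul_le_mul_of_nonneg_left (g3 _) (by positivity))
        (sum_nonneg fun r _ => mul_nonneg (by positivity) (e3 _)) (by positivity))
        (mul_le_mul kl (add_le_add (mul_le_mul_of_nonneg_left (g1 _) (by positivity))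
          (mul_le_mul_of_nonneg_left (g2 _) (by positivity)))
          (add_nonneg (mul_nonneg (by positivity) (e0 _)) (mul_nonneg (by positivity) (e1 _)))
          (by positivity))) (sq_nonneg _)
    · rw [← mul_sum, pr]
      push_cast
      field_simp
  refine (sum_le_sum h1).trans ?_
  rw [← mul_sum, sum_add_distrib, ← mul_sum, ← mul_sum, sum_add_distrib]
  have f1 := fib u4 (F := fun m => G j (4 * m)) (fun _ => G0 _ j1 _)
    fun d hd => (hch d hd).2.1.trans (dv d)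
  have f2 := fib u4 (F := fun m => G (u - j) (4 * m)) (fun _ => G0 _ t2 _)
    fun d hd => (hch d hd).2.2.trans (dv d)
  have f3 := fib u4 (F := fun m => ∑ r ∈ Icc 1 V, G u (16 * r * m))
    (fun _ => sum_nonneg fun _ _ => G0 _ t3 _) (m := fun d => d.2.2 * x d) fun d hd => by
      rw [pr, mul_comm]
      exact Nat.mul_dvd_mul_right (hch d hd).1 _
  have k1 := G2 j j1 4 (by norm_num) (by push_cast; linarith)
  have k2 := G2 _ t2 4 (by norm_num) (by push_cast; linarith)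
  have k3 : ∑ m ∈ Icc 1 (DD u), ∑ r ∈ Icc 1 V, G u (16 * r * m) ≤ Z * K := by
    rw [sum_comm]
    refine (sum_le_card_nsmul _ _ K fun r hr => G2 _ t3 _ ?_ ?_).trans ?_
    · have := (mem_Icc.1 hr).1
      omega
    · have : (r : ℝ) ≤ V := by exact_mod_cast (mem_Icc.1 hr).2
      push_cast
      linarith
    · rw [Nat.card_Icc, nsmul_eq_mul, Nat.add_sub_cancel]
      gcongr
  have u7 : 1 ≤ u ^ 7 := one_le_pow₀ u4
  calc _ ≤ (C * u) ^ 2 * (Z ^ 2 * u ^ 7 * (u ^ 14 * (2 * u) * (Z * K)) +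
        Z ^ 3 * u ^ 7 * (u ^ 14 * (2 * u) * K + u ^ 14 * (2 * u) * K)) := by
        refine mul_le_mul_of_nonneg_left (add_le_add (mul_le_mul (le_mul_of_one_le_right
          (by positivity) u7) (f3.trans (by gcongr)) (sum_nonneg fun d _ => div_nonneg (mul_nonneg
            (by positivity) (sum_nonneg fun _ _ => G0 _ t3 _)) (by positivity)) (by positivity))
          (mul_le_mul_of_nonneg_left (add_le_add (f1.trans (by gcongr)) (f2.trans (by gcongr)))
            (by positivity))) (sq_nonneg _)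
    _ = 6 * C ^ 3 * 3 ^ b / u * (1 / u ^ c) := by
        rw [hK, hZ, div_pow, hb]
        field_simp
        ring
    _ ≤ _ := mul_le_of_le_one_left (by positivity) (div_le_one_of_le₀ u2 u0.le)

end Pool.Agent.Lib.MP_d6ddbd_nt.L
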