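import Pool.Agent.Lib.MP_d6ddbd_nt.L.St
import Pool.Agent.Lib.MP_f64879_nt.Low

/-! The Legendre family: the weighted number of good members. -/

open Finset Filter

namespace Pool.Agent.Lib.MP_d6ddbd_nt.L

open MP_f64879_nt (W Mx M0 W_nonneg W_small M0_ge)

namespace Wg

variable {u : ℝ} {j n P Q R : ℕ} {d : ℕ × ℕ × ℕ}

theorem arith (hs : Squarefree (pr d)) (ho : Odd (pr d)) (pn : n.Prime) (pP : P.Prime)
    (pQ : Q.Prime) (pR : R.Prime) (h1 : pr d < n) (h2 : 2 < n) (h3 : n < P) (h4 : P < Q)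
    (h5 : P < R) (e : d.1 * n * P + d.2.1 * Q = 16 * (d.2.2 * R)) :
    Squarefree (d.1 * n * P * (d.2.1 * Q) * (d.2.2 * R)) ∧ Odd (Q * R) ∧
      Odd (d.1 * n * P * (d.2.1 * Q) * (d.2.2 * R)) ∧ Q ∈ (d.2.1 * Q).primeFactors := by
  have m0 := hs.ne_zero
  have c : ∀ {a p : ℕ}, a ≠ 0 → a < p → p.Prime → a.Coprime p := fun a b c =>
    (Nat.coprime_of_lt_prime a b c).symm
  have cQ : (pr d * n * P).Coprime Q := ((c m0 (by omega) pQ).mul_left
    (c pn.ne_zero (by omega) pQ)).mul_left (c pP.ne_zero h4 pQ)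
  have ne : Q ≠ R := by
    rintro rfl
    have a : Q ∣ d.1 * n * P := (Nat.dvd_add_left (Dvd.intro_left _ rfl)).1
      (e ▸ (Dvd.intro_left _ rfl).mul_left 16)
    exact (pQ.coprime_iff_not_dvd.1 cQ.symm) (a.trans ⟨d.2.1 * d.2.2, by rw [pr]; ring⟩)
  have e1 : d.1 * n * P * (d.2.1 * Q) * (d.2.2 * R) = pr d * n * P * Q * R := by rw [pr]; ring
  have oQ := pQ.odd_of_ne_two (by omega)
  have oR := pR.odd_of_ne_two (by omega)
  rw [e1]
  refine ⟨(Nat.squarefree_mul ((((c m0 (by omega) pR).mul_left (c pn.ne_zero (by omega) pR)).mul_left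
    (c pP.ne_zero h5 pR)).mul_left ((Nat.coprime_primes pQ pR).2 ne))).2 ⟨(Nat.squarefree_mul cQ).2
    ⟨(Nat.squarefree_mul ((c m0 (by omega) pP).mul_left (c pn.ne_zero h3 pP))).2
    ⟨(Nat.squarefree_mul (c m0 h1 pn)).2 ⟨hs, pn.squarefree⟩, pP.squarefree⟩, pQ.squarefree⟩,
    pR.squarefree⟩, oQ.mul oR, (((ho.mul (pn.odd_of_ne_two (by omega))).mul
      (pP.odd_of_ne_two (by omega))).mul oQ).mul oR,
    Nat.mem_primeFactors.2 ⟨pQ, Dvd.intro_left _ rfl, mul_ne_zero ?_ pQ.ne_zero⟩⟩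
  intro h
  exact m0 (by simp [pr, h])

theorem wt_nn (s : ℝ) (n : ℕ) : 0 ≤ wt s n := by
  unfold wt
  split_ifs
  exacts [mul_nonneg (Real.log_natCast_nonneg n) (W_nonneg s n), le_rfl]

theorem wt_ne {s : ℝ} (h : wt s n ≠ 0) : n.Prime ∧ Real.exp (s - 1) < n := by
  unfold wt at h
  split_ifs at h with h1
  · exact ⟨h1, not_le.1 fun a => h (by rw [W_small a, mul_zero])⟩
  · exact (h rfl).elim

theorem mx {s : ℝ} (h : n ∈ range (Mx s)) : (n : ℝ) ≤ Real.exp (s + 1) :=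
  (Nat.le_floor_iff (Real.exp_pos _).le).1 (Nat.lt_succ_iff.1 (mem_range.1 h))

theorem rw_nn : 0 ≤ Rw th d n P Q := by
  unfold Rw th
  split_ifs
  exacts [Real.log_natCast_nonneg _, le_rfl, le_rfl]

theorem rw_ne (h : Rw th d n P Q ≠ 0) :
    ∃ R : ℕ, R.Prime ∧ d.1 * n * P + d.2.1 * Q = 16 * (d.2.2 * R) := by
  unfold Rw th at h
  split_ifs at h with h1 h2
  · exact ⟨_, h2, by rw [← mul_assoc, Nat.mul_div_cancel' h1]⟩
  all_goals exact (h rfl).elim

theorem tri (h : d ∈ Tri u) : (1 ≤ d.1 ∧ (d.1 : ℝ) ≤ Real.exp (u / 200)) ∧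
    (1 ≤ d.2.1 ∧ (d.2.1 : ℝ) ≤ Real.exp (u / 200)) ∧ (1 ≤ d.2.2 ∧ (d.2.2 : ℝ) ≤ Real.exp (u / 200)) ∧
    Squarefree (pr d) ∧ Odd (pr d) ∧ (pr d : ℝ) ≤ Real.exp (u / 200) ∧
    ((pr d).primeFactors.card : ℝ) ≤ 10 * Real.log u := by
  simp only [Tri, mem_filter, mem_product, mem_Icc, DD, Nat.le_floor_iff (Real.exp_pos _).le] at h
  exact ⟨h.1.1, h.1.2.1, h.1.2.2, h.2⟩

theorem lg_le {a : ℕ} (h : 1 ≤ a ∧ (a : ℝ) ≤ Real.exp (u / 200)) : (lg a : ℝ) ≤ u / 200 :=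
  (Nat.floor_le (Real.log_natCast_nonneg a)).trans
    ((Real.log_le_iff_le_exp (by exact_mod_cast h.1)).2 h.2)

theorem jr (hu : 0 ≤ u) (h : j ∈ Jr u) : 7 / 20 * u ≤ j ∧ (j : ℝ) ≤ 2 / 5 * u := by
  rw [Jr, mem_Icc, Nat.ceil_le, Nat.le_floor_iff (by positivity)] at h
  exact h

theorem size (hu : 100 ≤ u) (hj : j ∈ Jr u) (hd : d ∈ Tri u) (n1 : n ∈ range (Mx j))
    (n2 : Real.exp (j - 1) < n) (p1 : P ∈ range (Mx (sP u j d))) (p2 : Real.exp (sP u j d - 1) < P)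
    (q2 : Real.exp (sQ u d - 1) < Q) (e : d.1 * n * P + d.2.1 * Q = 16 * (d.2.2 * R)) :
    pr d < n ∧ 2 < n ∧ n < P ∧ P < Q ∧ P < R := by
  obtain ⟨d1, d2, d3, -, -, d4, -⟩ := tri hd
  obtain ⟨j1, j2⟩ := jr (by linarith) hj
  have l1 := lg_le d1
  have l2 := lg_le d2
  have l0 : (0 : ℝ) ≤ lg d.1 := Nat.cast_nonneg _
  have a := mx p1
  rw [sP] at a p2
  rw [sQ] at q2
  have b : (Q : ℝ) ≤ 16 * (d.2.2 * R) := by
    have : Q ≤ 16 * (d.2.2 * R) := by nlinarith [d2.1, Nat.zero_le (d.1 * n * P)]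
    exact_mod_cast this
  refine ⟨Nat.cast_lt.1 ((d4.trans (Real.exp_le_exp.2 (by linarith))).trans_lt n2),
    (Nat.cast_lt (α := ℝ)).1 ?_, Nat.cast_lt.1 (((mx n1).trans
      (Real.exp_le_exp.2 (by linarith))).trans_lt p2),
    Nat.cast_lt.1 ((a.trans (Real.exp_le_exp.2 (by linarith))).trans_lt q2),
    (Nat.cast_lt (α := ℝ)).1 ?_⟩
  · have := Real.add_one_le_exp ((j : ℝ) - 1)
    push_cast
    linarith
  · refine not_le.1 fun h => ?_
    have c : 16 * ((d.2.2 : ℝ) * R) ≤ Real.exp 15 * (Real.exp (u / 200) *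
        Real.exp (u - j - lg d.1 + 1)) := by
      have := Real.add_one_le_exp 15
      gcongr
      exacts [by linarith, d3.2, h.trans a]
    rw [← Real.exp_add, ← Real.exp_add] at c
    have := Real.exp_lt_exp.1 (q2.trans_le (b.trans c))
    linarith

theorem tt_sum {I : Type} [Fintype I] (σ : I → ℝ) (φ : I → ℕ → ℕ → ℕ → ℝ) :
    ∑ i, σ i * TT th u j d (φ i) = TT th u j d fun n P Q => ∑ i, σ i * φ i n P Q := by
  simp only [TT, mul_sum, sum_mul]
  refine sum_comm.trans (sum_congr rfl fun n _ => sum_comm.trans (sum_congr rfl fun P _ =>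
    sum_comm.trans (sum_congr rfl fun Q _ => sum_congr rfl fun i _ => by ring)))

open Classical in
/-- the weight of the good members with given small parts. -/
noncomputable def X (u : ℝ) (j : ℕ) (d : ℕ × ℕ × ℕ) : ℝ :=
  ∑ n ∈ range (Mx j), ∑ P ∈ range (Mx (sP u j d)), ∑ Q ∈ range (Mx (sQ u d)),
    if Good (d.1 * n * P) (d.2.1 * Q) then wF u j d n P Q else 0

theorem chi1 : chi 1 1 1 false false n P Q = if n % 4 = 1 ∧ P % 4 = 1 then 1 else 0 := by
  simp [chi]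

theorem wF_nn : 0 ≤ wF u j d n P Q := by
  refine mul_nonneg (mul_nonneg (mul_nonneg (mul_nonneg (wt_nn _ _) (wt_nn _ _)) (wt_nn _ _)) ?_) rw_nn
  rw [chi1]
  split_ifs <;> norm_num

theorem X_nn : 0 ≤ X u j d := sum_nonneg fun _ _ => sum_nonneg fun _ _ => sum_nonneg fun _ _ => by
  split_ifs
  exacts [wF_nn, le_rfl]

/-- the error for one character. -/
noncomputable def er (u : ℝ) (j : ℕ) (d : ℕ × ℕ × ℕ) (k : ℝ) (x y z : ℕ) (e e' : Bool) : ℝ :=
  |TT th u j d (chi x y z e e') -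
    if x = 1 ∧ y = 1 ∧ z = 1 ∧ e = false ∧ e' = false then k * MM u j d / 4 else 0|

theorem one (hP : ParS) (hE : ExpS) (hu : 100 ≤ u) (hj : j ∈ Jr u) (hd : d ∈ Fam u) (k : ℝ) :
    ∃ x y z e e', Ch d x y z ∧ (4 - Sd d) * (k * MM u j d / 4) - (4 * er u j d k 1 1 1 false false +
      8 * 4 ^ (pr d).primeFactors.card * er u j d k x y z e e') ≤ 3 * X u j d := by
  obtain ⟨h1, h2, -⟩ := mem_filter.1 hd
  obtain ⟨-, -, -, hs, ho, -⟩ := tri h1
  obtain ⟨I, _, σ, x, y, z, e, e', s1, s2, s3, s4⟩ := hE hP d hs ho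
  have a : 4 * TT th u j d (chi 1 1 1 false false) -
      ∑ i, σ i * TT th u j d (chi (x i) (y i) (z i) (e i) (e' i)) ≤ 3 * X u j d := by
    rw [tt_sum, TT, TT, X, mul_sum, mul_sum, ← sum_sub_distrib]
    refine sum_le_sum fun n hn => ?_
    rw [mul_sum, mul_sum, ← sum_sub_distrib]
    refine sum_le_sum fun P hP => ?_
    rw [mul_sum, mul_sum, ← sum_sub_distrib]
    refine sum_le_sum fun Q _ => ?_
    by_cases c : wt j n ≠ 0 ∧ wt (sP u j d) P ≠ 0 ∧ wt (sQ u d) Q ≠ 0 ∧ Rw th d n P Q ≠ 0 ∧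
      n % 4 = 1 ∧ P % 4 = 1
    · obtain ⟨c1, c2, c3, c4, c5⟩ := c
      obtain ⟨R, pR, eR⟩ := rw_ne c4
      obtain ⟨t1, t2, t3, t4, t5⟩ := size hu hj h1 hn (wt_ne c1).2 hP (wt_ne c2).2 (wt_ne c3).2 eR
      obtain ⟨r1, r2, r3, r4⟩ := arith hs ho (wt_ne c1).1 (wt_ne c2).1 (wt_ne c3).1 pR t1 t2 t3 t4
        t5 eR
      obtain ⟨k1, k2⟩ := s4 n P Q R (wt_ne c1).1 (wt_ne c2).1 (wt_ne c3).1 pR c5.1 c5.2 r1 r2 eR
      have w := wF_nn (u := u) (j := j) (d := d) (n := n) (P := P) (Q := Q)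
      rw [← k1]
      rcases k2 h2 with k | k
      · rw [if_pos ⟨_, Q, eR, r1, r3, r4, k⟩, k, wF, chi1, if_pos c5]
        exact le_of_eq (by push_cast; ring)
      · have k3 : (4 : ℝ) ≤ (Ker (d.1 * n * P) (d.2.1 * Q) (d.2.2 * R) Q).card := by exact_mod_cast k
        have w1 := w
        rw [wF, chi1, if_pos c5] at w1
        rw [chi1, if_pos c5]
        refine le_trans (b := 0) (by nlinarith) ?_
        split_ifs
        exacts [by positivity, by simp]
    · have w : ∀ x y z e e', wt j n * wt (sP u j d) P * wt (sQ u d) Q * chi x y z e e' n P Q *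
          Rw th d n P Q = 0 := fun x y z e e' => by
        by_contra h
        simp only [mul_eq_zero, not_or] at h
        exact c ⟨h.1.1.1.1, h.1.1.1.2, h.1.1.2, h.2, by_contra fun h1 => h.1.2 (if_neg h1)⟩
      rw [wF, w, ite_self, mul_sum, sum_mul, sum_eq_zero fun i _ => by
        linear_combination σ i * w (x i) (y i) (z i) (e i) (e' i)]
      simp
  have b : ∃ x' y' z' f f', Ch d x' y' z' ∧ ∀ i, er u j d k (x i) (y i) (z i) (e i) (e' i) ≤
      er u j d k x' y' z' f f' := by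
    rcases isEmpty_or_nonempty I with h | h
    · exact ⟨1, 1, 1, false, false, ⟨one_dvd _, one_dvd _, one_dvd _⟩, h.elim⟩
    · obtain ⟨i, -, hi⟩ := exists_max_image univ
        (fun i => er u j d k (x i) (y i) (z i) (e i) (e' i)) univ_nonempty
      exact ⟨_, _, _, _, _, s2 i, fun l => hi l (mem_univ l)⟩
  obtain ⟨x', y', z', f, f', b1, b2⟩ := b
  refine ⟨x', y', z', f, f', b1, le_trans ?_ a⟩
  have c1 : k * MM u j d / 4 - er u j d k 1 1 1 false false ≤
      TT th u j d (chi 1 1 1 false false) := by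
    rw [er, if_pos ⟨rfl, rfl, rfl, rfl, rfl⟩]
    linarith [neg_abs_le (TT th u j d (chi 1 1 1 false false) - k * MM u j d / 4)]
  have c2 : ∑ i, σ i * TT th u j d (chi (x i) (y i) (z i) (e i) (e' i)) ≤
      Sd d * (k * MM u j d / 4) + (∑ i, |σ i|) * er u j d k x' y' z' f f' := by
    rw [← s3, sum_mul, sum_mul, ← sum_add_distrib]
    refine sum_le_sum fun i _ => ?_
    have := (le_abs_self _).trans ((abs_mul _ _).trans_le
      (mul_le_mul_of_nonneg_left (b2 i) (abs_nonneg (σ i))))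
    split_ifs at this ⊢ <;> linarith
  linarith [mul_le_mul_of_nonneg_right s1 (show 0 ≤ er u j d k x' y' z' f f' from abs_nonneg _)]

theorem pw (hu : 1 ≤ u) {w : ℕ} (h : (w : ℝ) ≤ 10 * Real.log u) : (4 : ℝ) ^ w ≤ u ^ 14 := by
  have a : (4 : ℝ) ^ w = Real.exp (w * (2 * Real.log 2)) := by
    rw [Real.exp_nat_mul, two_mul, Real.exp_add, Real.exp_log two_pos]
    norm_num
  have b := Real.log_two_lt_d9
  have c := Real.log_nonneg hu
  rw [a, ← Real.exp_log (zero_lt_one.trans_le hu), ← Real.exp_nat_mul]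
  refine Real.exp_le_exp.2 ?_
  push_cast
  nlinarith [Nat.cast_nonneg (α := ℝ) w]

end Wg

open Wg

theorem wg' : WgR := by
  intro hP hE hQ ⟨c, c0, hM⟩
  obtain ⟨s0, hs⟩ := eventually_atTop.1 M0_ge
  refine ⟨c / 10 ^ 10, by positivity, ?_⟩
  filter_upwards [hQ 20, hM, eventually_ge_atTop 100, eventually_ge_atTop (3 * |s0|),
    eventually_ge_atTop (10 ^ 10 / c)] with u ⟨κ, k1, k2⟩ m hu h2 h3
  have u1 : (1 : ℝ) ≤ u := by linarith
  have cj : u / 30 ≤ (Jr u).card := by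
    have a := Nat.ceil_lt_add_one (show 0 ≤ 7 / 20 * u by positivity)
    have b := Nat.lt_floor_add_one (2 / 5 * u)
    rw [Jr, Nat.card_Icc, Nat.cast_sub ((Nat.cast_le (α := ℝ)).1 (by push_cast; linarith))]
    push_cast
    linarith
  refine le_trans ?_ (card_nsmul_le_sum (Jr u) _ (c * u ^ 3 / 10 ^ 8) fun j hj => ?_)
  · rw [nsmul_eq_mul]
    refine le_trans ?_ (mul_le_mul_of_nonneg_right cj (by positivity))
    have : 0 ≤ c * u ^ 4 := by positivity
    linarith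
  obtain ⟨j1, j2⟩ := jr (by linarith) hj
  have ch : ∀ d, ∃ x y z e e', Ch d x y z ∧ (d ∈ Fam u → (4 - Sd d) * (κ d * MM u j d / 4) -
      (4 * er u j d (κ d) 1 1 1 false false + 8 * 4 ^ (pr d).primeFactors.card *
        er u j d (κ d) x y z e e') ≤ 3 * X u j d) := fun d => by
    by_cases h : d ∈ Fam u
    · obtain ⟨x, y, z, e, e', a, b⟩ := one hP hE hu hj h (κ d)
      exact ⟨x, y, z, e, e', a, fun _ => b⟩
    · exact ⟨1, 1, 1, false, false, ⟨one_dvd _, one_dvd _, one_dvd _⟩, fun a => (h a).elim⟩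
  choose x y z e e' x1 x2 using ch
  have e1 := k2 j hj x y z e e' fun d _ => x1 d
  have e0 := k2 j hj (fun _ => 1) (fun _ => 1) (fun _ => 1) (fun _ => false) (fun _ => false)
    fun d _ => ⟨one_dvd _, one_dvd _, one_dvd _⟩
  have sub : Fam u ⊆ Tri u := filter_subset _ _
  have p : ∀ d ∈ Fam u, 1 / 10800000 * ((4 - Sd d) / pr d) -
      (4 * (er u j d (κ d) 1 1 1 false false / (d.1 * d.2.1)) +
        8 * u ^ 14 * (er u j d (κ d) (x d) (y d) (z d) (e d) (e' d) / (d.1 * d.2.1))) ≤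
      3 * (X u j d / (d.1 * d.2.1)) := fun d hd => by
    obtain ⟨d1, d2, d3, -, -, -, d4⟩ := tri (sub hd)
    have l1 := lg_le d1
    have l2 := lg_le d2
    have s1 := le_abs_self s0
    have a1 := hs j (by linarith)
    have a2 := hs (sP u j d) (by rw [sP]; linarith)
    have a3 := hs (sQ u d) (by rw [sQ]; linarith)
    have p1 : (0 : ℝ) < d.1 := by exact_mod_cast d1.1
    have p2 : (0 : ℝ) < d.2.1 := by exact_mod_cast d2.1
    have p3 : (0 : ℝ) < d.2.2 := by exact_mod_cast d3.1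
    have a4 : 1 / (100 * d.2.2 : ℝ) * (1 / 30 * (1 / 30) * (1 / 30)) ≤ κ d * MM u j d := by
      have := k1 d (sub hd)
      have : 0 ≤ κ d := le_trans (by positivity) this
      rw [MM]
      gcongr
    have a5 := x2 d hd
    have a6 := mul_le_mul_of_nonneg_right (pw u1 d4)
      (show 0 ≤ er u j d (κ d) (x d) (y d) (z d) (e d) (e' d) from abs_nonneg _)
    have a7 : 0 ≤ er u j d (κ d) 1 1 1 false false := abs_nonneg _
    have a8 : 0 ≤ u ^ 14 * er u j d (κ d) (x d) (y d) (z d) (e d) (e' d) :=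
      mul_nonneg (by positivity) (abs_nonneg _)
    have a9 : (4 - Sd d) * (1 / (10800000 * d.2.2)) - (4 * er u j d (κ d) 1 1 1 false false +
        8 * u ^ 14 * er u j d (κ d) (x d) (y d) (z d) (e d) (e' d)) ≤ 3 * X u j d := by
      rcases le_total 0 (4 - Sd d) with h | h
      · have := mul_le_mul_of_nonneg_left (show 1 / (10800000 * d.2.2 : ℝ) ≤ κ d * MM u j d / 4 by
          refine le_trans (le_of_eq ?_) (div_le_div_of_nonneg_right a4 zero_le_four)
          field_simp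
          norm_num) h
        linarith
      · have := mul_nonpos_of_nonpos_of_nonneg h (show 0 ≤ 1 / (10800000 * d.2.2 : ℝ) by positivity)
        linarith [X_nn (u := u) (j := j) (d := d)]
    refine (le_of_eq ?_).trans ((div_le_div_of_nonneg_right a9 (mul_pos p1 p2).le).trans_eq ?_)
    · rw [pr]
      push_cast
      field_simp
    · ring
  have q := sum_le_sum p
  rw [sum_sub_distrib, sum_add_distrib, ← mul_sum, ← mul_sum, ← mul_sum, ← mul_sum] at q
  have f : ∀ F : ℕ × ℕ × ℕ → ℝ, (∀ d, 0 ≤ F d) → ∑ d ∈ Fam u, F d / (d.1 * d.2.1) ≤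
      ∑ d ∈ Tri u, F d / (d.1 * d.2.1) := fun F h =>
    sum_le_sum_of_subset_of_nonneg sub fun d _ _ => div_nonneg (h d) (by positivity)
  have f0 := (f (fun d => er u j d (κ d) 1 1 1 false false) fun _ => abs_nonneg _).trans e0
  have f1 := mul_le_mul_of_nonneg_left ((f (fun d => er u j d (κ d) (x d) (y d) (z d) (e d) (e' d))
    fun _ => abs_nonneg _).trans e1) (show 0 ≤ 8 * u ^ 14 by positivity)
  have f2 := f (X u j) fun _ => X_nn
  have g0 : 1 / u ^ 20 ≤ 1 := (div_le_one (by positivity)).2 (one_le_pow₀ u1)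
  have g1 : 8 * u ^ 14 * (1 / u ^ 20) ≤ 8 := by
    rw [mul_one_div, div_le_iff₀ (by positivity)]
    gcongr
    norm_num
  have g2 : 10 ^ 10 ≤ c * u ^ 3 := by
    rw [div_le_iff₀' c0] at h3
    refine h3.trans ?_
    gcongr
    exact le_self_pow₀ u1 three_ne_zero
  refine le_trans ?_ f2
  linarith

end Pool.Agent.Lib.MP_d6ddbd_nt.L
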