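import Pool.Agent.Lib.MP_d6ddbd_nt.L.Top
import Pool.Agent.Lib.MP_d6ddbd_nt.L.Desc
import Pool.Agent.Lib.MP_d6ddbd_nt.L.Fin
import Pool.Agent.Lib.MP_d6ddbd_nt.L.Par
import Pool.Agent.Lib.MP_d6ddbd_nt.L.Exp
import Pool.Agent.Lib.MP_d6ddbd_nt.L.Comp
import Pool.Agent.Lib.MP_d6ddbd_nt.L.Eul
import Pool.Agent.Lib.MP_d6ddbd_nt.L.Ch
import Pool.Agent.Lib.MP_d6ddbd_nt.L.Br
import Pool.Agent.Lib.MP_d6ddbd_nt.L.M1
import Pool.Agent.Lib.MP_d6ddbd_nt.L.M24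
import Pool.Agent.Lib.MP_d6ddbd_nt.L.M3
import Pool.Agent.Lib.MP_d6ddbd_nt.L.M5
import Pool.Agent.Lib.MP_d6ddbd_nt.L.Mz
import Pool.Agent.Lib.MP_d6ddbd_nt.L.Ma
import Pool.Agent.Lib.MP_d6ddbd_nt.L.Pnt
import Pool.Agent.Lib.MP_d6ddbd_nt.L.Swb
import Pool.Agent.Lib.MP_d6ddbd_nt.L.Lam
import Pool.Agent.Lib.MP_d6ddbd_nt.L.Bda
import Pool.Agent.Lib.MP_d6ddbd_nt.L.Ld
import Pool.Agent.Lib.MP_d6ddbd_nt.L.Jb
import Pool.Agent.Lib.MP_d6ddbd_nt.L.Bv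
import Pool.Agent.Lib.MP_d6ddbd_nt.L.Ej
import Pool.Agent.Lib.MP_d6ddbd_nt.L.En
import Pool.Agent.Lib.MP_d6ddbd_nt.L.Ts
import Pool.Agent.Lib.MP_d6ddbd_nt.L.Eq
import Pool.Agent.Lib.MP_d6ddbd_nt.L.Wg
import Pool.Agent.Lib.MP_d6ddbd_nt.L.Cnt
import Pool.Agent.Lib.MP_d6ddbd_nt.L.Last

/-! The Legendre family: a positive proportion of the fibres has finitely many rational points. -/

namespace Pool.Agent.Lib.MP_d6ddbd_nt.L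

theorem final : FinalS :=
  top desc fin par exp comp eul ch br' m1 m2 m3 m4 m5 mz ma pnt swc swb lam' bda ld jb bv' kap' ej
    en ts eq' wg' cnt last

end Pool.Agent.Lib.MP_d6ddbd_nt.L
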