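import Pool.Agent.Lib.MP_d6ddbd_nt.G.Stmt
import Pool.Agent.Lib.MP_f64879_nt.BV

/-!
The Legendre family `y ^ 2 = x (x - 1) (x + A / B)`: definitions.
-/

open Finset Filter ArithmeticFunction
open scoped ArithmeticFunction.Moebius

noncomputable section

namespace Pool.Agent.Lib.MP_d6ddbd_nt.L

open G (ep al sg)
open MP_f64879_nt (W Mx M0)

/-! ### The linear system of the descent -/

/-- The symbol of `A B / p` modulo `p`, additively. -/
def rho (A B p : ℕ) : ZMod 2 := ∑ q ∈ (A * B).primeFactors, al q p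

/-- The symbol of `p` modulo `q`, and `rho` on the diagonal. -/
def Nn (A B q p : ℕ) : ZMod 2 := if q = p then rho A B p else al p q

/-- The valuation of `X` for a coordinate of type `t`. -/
def ci (t : Fin 3) : ZMod 2 := if t = 2 then 0 else 1

/-- The valuation of `X + A B` for a coordinate of type `t`. -/
def ck (t : Fin 3) : ZMod 2 := if t = 1 then 0 else 1

/-- The coordinates of the system; the prime `Q` of `B` is dropped. -/
def Co (A B C Q : ℕ) : Finset (ℕ × Fin 3) :=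
  A.primeFactors ×ˢ {0} ∪ (B.primeFactors.erase Q ×ˢ {1, 2} ∪ C.primeFactors ×ˢ {2})

/-- The alternating matrix of the system. -/
def Mt (A B : ℕ) (s t : ℕ × Fin 3) : ZMod 2 :=
  Nn A B s.1 t.1 * ci s.2 * ck t.2 + Nn A B t.1 s.1 * ci t.2 * ck s.2

/-- The solutions of the system (the `2`-Selmer group modulo torsion). -/
def Ker (A B C Q : ℕ) : Finset (Co A B C Q → ZMod 2) :=
  univ.filter fun x => ∀ s : Co A B C Q, ∑ t : Co A B C Q, Mt A B s t * x t = 0

/-- The criterion. -/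
def Good (A B : ℕ) : Prop := ∃ C Q : ℕ, A + B = 16 * C ∧ Squarefree (A * B * C) ∧
  Odd (A * B * C) ∧ Q ∈ B.primeFactors ∧ (Ker A B C Q).card = 1

/-! ### Labels -/

/-- Coordinates `(i, i', k, k')`. -/
abbrev V4 : Type := ZMod 2 × ZMod 2 × ZMod 2 × ZMod 2

/-- `i k' + i' k`, with `i, i'` from the first argument. -/
def psi (v w : V4) : ZMod 2 := v.1 * w.2.2.2 + v.2.1 * w.2.2.1

/-- The polar form of the quadratic form `psi v v`. -/
def br (v w : V4) : ZMod 2 := psi v w + psi w v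

/-- The plane of the primes of `A`. -/
def plA : Finset V4 := univ.filter fun v => v.2.2.1 = v.1 ∧ v.2.2.2 = v.2.1

/-- The plane of the primes of `C`. -/
def plC : Finset V4 := univ.filter fun v => v.1 = 0 ∧ v.2.1 = 0

/-- The third plane of the family of `plA` and `plC`. -/
def plE : Finset V4 := univ.filter fun v => v.2.2.1 = 0 ∧ v.2.2.2 = 0

/-- The three planes of the other family. -/
def plM (i : Fin 3) : Finset V4 := univ.filter fun v =>
  if i = 0 then v.1 = 0 ∧ v.2.2.1 = 0 else if i = 1 then v.2.1 = 0 ∧ v.2.2.2 = 0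
  else v.1 = v.2.1 ∧ v.2.2.1 = v.2.2.2

/-- A colour (`0` for `A`, `1` for `B`, `2` for `C`) and a vector. -/
abbrev Lb : Type := Fin 3 × V4

/-- The labels `(c, s, s')` of the large primes `R`, `n`, `P` (the last two shifted by `c`). -/
def Trip : Finset (V4 × V4 × V4) := univ.filter fun z => z.1 ∈ plC ∧ z.2.1 + z.1 ∈ plA ∧
  z.2.2 + z.1 ∈ plA ∧ psi z.2.1 z.2.1 = 0 ∧ psi z.2.2 z.2.2 = 0

/-- The labels of the small primes that survive the mean over the large primes. -/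
def Wl (z : V4 × V4 × V4) : Finset Lb :=
  (univ.filter fun k => psi k.2 k.2 = 0 ∧ br z.2.1 k.2 = 0 ∧ br z.2.2 k.2 = 0).filter fun k =>
    (k.1 = 0 → k.2 + z.1 ∈ plA) ∧ (k.1 = 2 → k.2 ∈ plC)

/-- The weight of a colour. -/
def rw (i : Fin 3) : ℝ := if i = 1 then 1 / 4 else 1 / 2

/-- The phase of a labelling. -/
def Ph (S : Finset ℕ) (f : S → Lb) : ZMod 2 := ∑ p : S, ∑ q : S, al p q * psi (f q).2 (f p).2

/-- The weight of a labelling. -/
def wg (S : Finset ℕ) (f : S → Lb) : ℝ := ∏ p : S, rw (f p).1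

/-- The product of a triple. -/
def pr (d : ℕ × ℕ × ℕ) : ℕ := d.1 * d.2.1 * d.2.2

/-- The colour of a prime. -/
def cl (d : ℕ × ℕ × ℕ) (p : ℕ) : Fin 3 := if p ∣ d.1 then 0 else if p ∣ d.2.1 then 1 else 2

/-- The mean size of the kernel for given small parts. -/
def Sd (d : ℕ × ℕ × ℕ) : ℝ := 1 / 8 * ∑ z ∈ Trip,
  ∑ f ∈ Fintype.piFinset fun p : (pr d).primeFactors => (Wl z).filter fun k => k.1 = cl d p,
    wg _ f * (sg (Ph _ f) : ℝ)

/-! ### The small parts -/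

/-- The bound for the product of the small parts. -/
def DD (u : ℝ) : ℕ := ⌊Real.exp (u / 200)⌋₊

/-- The excess of prime factors. -/
def KK (u : ℝ) : ℕ := ⌈Real.log u ^ (1 / 4 : ℝ)⌉₊

/-- The triples of small parts. -/
def Tri (u : ℝ) : Finset (ℕ × ℕ × ℕ) :=
  (Icc 1 (DD u) ×ˢ Icc 1 (DD u) ×ˢ Icc 1 (DD u)).filter fun d => Squarefree (pr d) ∧ Odd (pr d) ∧
    pr d ≤ DD u ∧ ((pr d).primeFactors.card : ℝ) ≤ 10 * Real.log u

/-- The triples that are used. -/
def Fam (u : ℝ) : Finset (ℕ × ℕ × ℕ) := (Tri u).filter fun d =>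
  Odd (d.1.primeFactors.card + d.2.2.primeFactors.card) ∧
    d.2.2.primeFactors.card + KK u ≤ d.1.primeFactors.card

/-- Odd squarefree numbers. -/
def Sq (u : ℝ) : Finset ℕ := (Icc 1 (DD u)).filter fun m => Squarefree m ∧ Odd m

/-- The logarithmic sum over all labellings. -/
def GG (u : ℝ) (F : (S : Finset ℕ) → (S → Lb) → ℝ) : ℝ :=
  ∑ m ∈ Sq u, (∑ f : m.primeFactors → Lb, F _ f) / m

/-- The number of primes of a colour. -/
def om (S : Finset ℕ) (f : S → Lb) (i : Fin 3) : ℕ := (univ.filter fun p => (f p).1 = i).card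

/-- The condition on the numbers of prime factors. -/
def Io (u : ℝ) (S : Finset ℕ) (f : S → Lb) : Prop := (S.card : ℝ) ≤ 10 * Real.log u ∧
  Odd (om S f 0 + om S f 2) ∧ om S f 2 + KK u ≤ om S f 0

/-- The term of a labelling. -/
def tm (u : ℝ) (z : V4 × V4 × V4) (S : Finset ℕ) (f : S → Lb) : ℝ := by
  classical exact if (∀ p, f p ∈ Wl z) ∧ Io u S f then wg S f * (sg (Ph S f) : ℝ) else 0

/-- The labels of the primes that are not tiny. -/
def Med (u : ℝ) (S : Finset ℕ) (f : S → Lb) : Finset Lb :=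
  (univ.filter fun p : S => u ^ 800 < (p : ℕ)).image f

/-- The terms whose labels at the primes that are not tiny lie in `Y`. -/
def tmP (u : ℝ) (z : V4 × V4 × V4) (Y : Finset V4) (S : Finset ℕ) (f : S → Lb) : ℝ :=
  if ∀ k ∈ Med u S f, k.2 ∈ Y then tm u z S f else 0

/-- The primes up to `D`. -/
def PP (D : ℕ) : Finset ℕ := (Icc 1 D).filter Nat.Prime

/-! ### The large primes -/

/-- The smooth weight on the primes at scale `exp s`. -/
def wt (s : ℝ) (n : ℕ) : ℝ := if n.Prime then Real.log n * W s n else 0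

/-- The logarithm on the primes. -/
def th (R : ℕ) : ℝ := if R.Prime then Real.log R else 0

/-- The model of the primes by Ramanujan sums. -/
def lam (V R : ℕ) : ℝ := ∑ q ∈ Icc 1 V, (μ q : ℝ) / q.totient *
  ∑ r ∈ q.divisors with r ∣ R, (μ (q / r) : ℝ) * r

/-- The truncated singular series. -/
def kap (V : ℕ) (d : ℕ × ℕ × ℕ) : ℝ := ∑ q ∈ Icc 1 V, (μ q : ℝ) / q.totient *
  ∑ r ∈ q.divisors with r.Coprime (d.1 * d.2.1), (μ (q / r) : ℝ) * r / (16 * d.2.2 * r).totient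

/-- The integer part of the logarithm. -/
def lg (d : ℕ) : ℕ := ⌊Real.log d⌋₊

/-- The scale of `P`. -/
def sP (u : ℝ) (j : ℕ) (d : ℕ × ℕ × ℕ) : ℝ := u - j - lg d.1

/-- The scale of `Q`. -/
def sQ (u : ℝ) (d : ℕ × ℕ × ℕ) : ℝ := u - lg d.2.1

/-- The scales of `n`. -/
def Jr (u : ℝ) : Finset ℕ := Icc ⌈7 / 20 * u⌉₊ ⌊2 / 5 * u⌋₊

/-- The characters in the large primes. -/
def chi (x y z : ℕ) (e e' : Bool) (n P Q : ℕ) : ℝ :=
  if n % 4 = 1 ∧ P % 4 = 1 then
    (jacobiSym Q x * jacobiSym n y * jacobiSym P z * (if e then jacobiSym Q n else 1) *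
      (if e' then jacobiSym Q P else 1) : ℤ) else 0

/-- The value of `g` at `R = (d₁ n P + d₂ Q) / (16 d₃)`. -/
def Rw (g : ℕ → ℝ) (d : ℕ × ℕ × ℕ) (n P Q : ℕ) : ℝ :=
  if 16 * d.2.2 ∣ d.1 * n * P + d.2.1 * Q then g ((d.1 * n * P + d.2.1 * Q) / (16 * d.2.2)) else 0

/-- The sum over the large primes. -/
def TT (g : ℕ → ℝ) (u : ℝ) (j : ℕ) (d : ℕ × ℕ × ℕ) (φ : ℕ → ℕ → ℕ → ℝ) : ℝ :=
  ∑ n ∈ range (Mx j), ∑ P ∈ range (Mx (sP u j d)), ∑ Q ∈ range (Mx (sQ u d)),
    wt j n * wt (sP u j d) P * wt (sQ u d) Q * φ n P Q * Rw g d n P Q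

/-- The product of the three masses. -/
def MM (u : ℝ) (j : ℕ) (d : ℕ × ℕ × ℕ) : ℝ := M0 j * M0 (sP u j d) * M0 (sQ u d)

/-- Admissible moduli of the characters. -/
def Ch (d : ℕ × ℕ × ℕ) (x y z : ℕ) : Prop :=
  x ∣ d.1 * d.2.1 ∧ y ∣ d.2.1 * d.2.2 ∧ z ∣ d.2.1 * d.2.2

/-- The sum of the squares of the sums over the residue classes. -/
def Var (g : ℕ → ℝ) (r y : ℕ) : ℝ := ∑ s ∈ range r, (∑ R ∈ range y with R % r = s, g R) ^ 2

/-- The level of the model. -/
def VV (u : ℝ) (a : ℕ) : ℕ := ⌊u ^ a⌋₊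

end Pool.Agent.Lib.MP_d6ddbd_nt.L
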