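import Pool.Agent.Lib.MP_d6ddbd_nt.L.St

/-! Pairs of vectors of the system and labellings of the primes. -/

open Finset Function

noncomputable section

namespace Pool.Agent.Lib.MP_d6ddbd_nt.L

namespace Ex

/-- The vectors allowed for a colour. -/
def pl (i : Fin 3) : Finset V4 := if i = 0 then plA else if i = 1 then univ else plC

/-- The types of coordinates of a prime of a given colour. -/
def ok (i t : Fin 3) : Prop := if i = 0 then t = 0 else if i = 1 then t ≠ 0 else t = 2

instance (i t : Fin 3) : Decidable (ok i t) := by unfold ok; infer_instance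

/-- Extension by zero. -/
def ex {α M : Type} [DecidableEq α] [Zero M] (T : Finset α) (g : T → M) (p : α) : M :=
  if h : p ∈ T then g ⟨p, h⟩ else 0

theorem ex_mem {α M : Type} [DecidableEq α] [Zero M] {T : Finset α} (g : T → M) (p : T) :
    ex T g p = g p := dif_pos p.2

theorem ex_not {α M : Type} [DecidableEq α] [Zero M] {T : Finset α} (g : T → M) {p : α}
    (h : p ∉ T) : ex T g p = 0 := dif_neg h

/-- The vector of a prime. -/
def vec (K : Finset (ℕ × Fin 3)) (x y : K → ZMod 2) (p : ℕ) : V4 :=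
  (ex K x (p, 0) + ex K x (p, 1), ex K y (p, 0) + ex K y (p, 1),
    ex K x (p, 0) + ex K x (p, 2), ex K y (p, 0) + ex K y (p, 2))

/-- The sum over the labellings. -/
def SF (T : Finset ℕ) (W : ℕ → Finset V4) (Φ : (ℕ → V4) → ℝ) : ℝ :=
  ∑ g ∈ Fintype.piFinset fun p : T => W p, Φ (ex T g)

theorem SF_insert {T : Finset ℕ} {a : ℕ} (h : a ∉ T) (W : ℕ → Finset V4) (Φ : (ℕ → V4) → ℝ) :
    SF (insert a T) W Φ = ∑ v ∈ W a, SF T W fun w => Φ (update w a v) := by
  unfold SF
  rw [← sum_product']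
  have key : ∀ (v : V4) (g : T → V4),
      ex (insert a T) (fun p => update (ex T g) a v p) = update (ex T g) a v := fun v g => by
    funext p
    by_cases hp : p ∈ insert a T
    · exact ex_mem _ ⟨p, hp⟩
    · rw [ex_not _ hp, update_of_ne (fun e => hp (by simp [e])),
        ex_not _ fun e => hp (mem_insert_of_mem e)]
  have ne : ∀ p : T, (p : ℕ) ≠ a := fun p e => h (e ▸ p.2)
  symm
  refine sum_nbij' (fun x p => update (ex T x.2) a x.1 p)
    (fun g => (g ⟨a, mem_insert_self _ _⟩, fun p => g ⟨p, mem_insert_of_mem p.2⟩))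
    (fun x hx => ?_) (fun g hg => ?_) (fun x _ => ?_) (fun g _ => ?_) (fun x _ => by rw [key])
  · simp only [mem_product, Fintype.mem_piFinset] at hx ⊢
    rintro ⟨p, hp⟩
    rcases mem_insert.1 hp with rfl | hp'
    · simpa using hx.1
    · rw [update_of_ne (ne ⟨p, hp'⟩), ex_mem _ ⟨p, hp'⟩]
      exact hx.2 ⟨p, hp'⟩
  · simp only [mem_product, Fintype.mem_piFinset] at hg ⊢
    exact ⟨hg _, fun p => hg _⟩
  · refine Prod.ext (by simp) (funext fun p => ?_)
    simp only
    rw [update_of_ne (ne p), ex_mem]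
  · funext ⟨p, hp⟩
    rcases mem_insert.1 hp with rfl | hp'
    · simp
    · simp only
      rw [update_of_ne (ne ⟨p, hp'⟩), ex_mem _ ⟨p, hp'⟩]

variable {K : Finset (ℕ × Fin 3)} {T : Finset ℕ} {col : ℕ → Fin 3}

theorem three (i : Fin 3) : i = 0 ∨ i = 1 ∨ i = 2 := by revert i; decide

theorem pairs (hK : ∀ s, s ∈ K ↔ s.1 ∈ T ∧ ok (col s.1) s.2) (Φ : (ℕ → V4) → ℝ) :
    ∑ x : K → ZMod 2, ∑ y : K → ZMod 2, Φ (vec K x y) = SF T (fun p => pl (col p)) Φ := by
  unfold SF
  rw [← sum_product']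
  have z : ∀ (x : K → ZMod 2) (p : ℕ) (t : Fin 3), ¬ ok (col p) t → ex K x (p, t) = 0 :=
    fun x p t h => ex_not _ fun e => h ((hK _).1 e).2
  have key : ∀ x y : K → ZMod 2, ex T (fun p => vec K x y p) = vec K x y := fun x y => by
    funext p
    by_cases hp : p ∈ T
    · exact ex_mem _ ⟨p, hp⟩
    · have : ∀ (x : K → ZMod 2) t, ex K x (p, t) = 0 := fun x t =>
        ex_not _ fun e => hp ((hK _).1 e).1
      rw [ex_not _ hp]
      simp only [vec, this, add_zero]
      rfl
  refine sum_nbij' (fun x p => vec K x.1 x.2 p)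
    (fun g => (fun s => if s.1.2 = 2 then (ex T g s.1.1).2.2.1 else (ex T g s.1.1).1,
      fun s => if s.1.2 = 2 then (ex T g s.1.1).2.2.2 else (ex T g s.1.1).2.1))
    (fun x _ => ?_) (fun g _ => by simp) (fun x _ => ?_) (fun g hg => ?_) (fun x _ => by rw [key])
  · rw [Fintype.mem_piFinset]
    intro p
    rcases three (col p) with h | h | h
    · have a1 := fun x => z x p 1 (by rw [h]; decide)
      have a2 := fun x => z x p 2 (by rw [h]; decide)
      simp [h, pl, plA, vec, a1, a2]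
    · simp [h, pl]
    · have a1 := fun x => z x p 0 (by rw [h]; decide)
      have a2 := fun x => z x p 1 (by rw [h]; decide)
      simp [h, pl, plC, vec, a1, a2]
  · rw [key]
    have a : ∀ (x : K → ZMod 2) (s : K), (if s.1.2 = 2 then ex K x (s.1.1, 0) + ex K x (s.1.1, 2)
        else ex K x (s.1.1, 0) + ex K x (s.1.1, 1)) = x s := by
      rintro x ⟨⟨p, t⟩, hs⟩
      have h1 : ok (col p) t := ((hK _).1 hs).2
      have h2 : ex K x (p, t) = x ⟨(p, t), hs⟩ := ex_mem x ⟨(p, t), hs⟩
      rcases three t with rfl | rfl | rfl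
      · rw [if_neg (show (0 : Fin 3) ≠ 2 by decide), h2, z x p 1 (by revert h1; generalize col p = i; revert i; decide),
          add_zero]
      · rw [if_neg (show (1 : Fin 3) ≠ 2 by decide), h2, z x p 0 (by revert h1; generalize col p = i; revert i; decide),
          zero_add]
      · rw [if_pos rfl, h2, z x p 0 (by revert h1; generalize col p = i; revert i; decide),
          zero_add]
    exact Prod.ext (funext fun s => a x.1 s) (funext fun s => a x.2 s)
  · funext p
    have hp := Fintype.mem_piFinset.1 hg p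
    have a : ∀ (F : ℕ × Fin 3 → ZMod 2) (t : Fin 3), ok (col p) t →
        ex K (fun s => F s) (p, t) = F (p, t) := fun F t h =>
      ex_mem (T := K) (fun s => F s) ⟨(p, t), (hK _).2 ⟨p.2, h⟩⟩
    have b1 := a fun s => if s.2 = 2 then (ex T g s.1).2.2.1 else (ex T g s.1).1
    have b2 := a fun s => if s.2 = 2 then (ex T g s.1).2.2.2 else (ex T g s.1).2.1
    simp only [ex_mem] at b1 b2
    unfold vec
    rcases three (col p) with h | h | h
    · rw [z _ p 1 (by rw [h]; decide), z _ p 1 (by rw [h]; decide), z _ p 2 (by rw [h]; decide),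
        z _ p 2 (by rw [h]; decide), b1 0 (by rw [h]; decide), b2 0 (by rw [h]; decide)]
      simp only [h, pl, plA, if_true, mem_filter, mem_univ, true_and] at hp
      ext <;> simp [hp.1, hp.2]
    · rw [z _ p 0 (by rw [h]; decide), z _ p 0 (by rw [h]; decide), b1 1 (by rw [h]; decide),
        b2 1 (by rw [h]; decide), b1 2 (by rw [h]; decide), b2 2 (by rw [h]; decide)]
      ext <;> simp
    · rw [z _ p 0 (by rw [h]; decide), z _ p 0 (by rw [h]; decide), z _ p 1 (by rw [h]; decide),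
        z _ p 1 (by rw [h]; decide), b1 2 (by rw [h]; decide), b2 2 (by rw [h]; decide)]
      have hp' : g p ∈ plC := by simpa [h, pl] using hp
      simp only [plC, mem_filter, mem_univ, true_and] at hp'
      ext <;> simp [hp'.1, hp'.2]

theorem sum_K (hK : ∀ s, s ∈ K ↔ s.1 ∈ T ∧ ok (col s.1) s.2) (x : K → ZMod 2)
    (F : ℕ × Fin 3 → ZMod 2) :
    ∑ s : K, F s * x s = ∑ p ∈ T, ∑ t : Fin 3, F (p, t) * ex K x (p, t) := by
  rw [← sum_product', ← sum_subset (s₁ := K)
    (fun s hs => mem_product.2 ⟨((hK s).1 hs).1, mem_univ _⟩)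
    (fun s _ hs => by rw [ex_not _ hs, mul_zero]), ← sum_coe_sort K]
  exact sum_congr rfl fun s _ => by rw [ex_mem]

theorem form (hK : ∀ s, s ∈ K ↔ s.1 ∈ T ∧ ok (col s.1) s.2) (A B : ℕ) (x y : K → ZMod 2) :
    ∑ s : K, ∑ t : K, y s * Mt A B s t * x t =
      ∑ p ∈ T, ∑ q ∈ T, Nn A B p q * psi (vec K x y p) (vec K x y q) := by
  have h1 : ∀ s : K, ∑ t : K, y s * Mt A B s t * x t =
      (∑ q ∈ T, ∑ t : Fin 3, Mt A B s (q, t) * ex K x (q, t)) * y s := fun s => by
    rw [← sum_K hK x fun t => Mt A B s t, sum_mul]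
    exact sum_congr rfl fun t _ => by ring
  simp only [h1]
  rw [sum_K hK y fun s => ∑ q ∈ T, ∑ t : Fin 3, Mt A B s (q, t) * ex K x (q, t)]
  have h2 : ∀ p, ∑ t : Fin 3, (∑ q ∈ T, ∑ t' : Fin 3, Mt A B (p, t) (q, t') * ex K x (q, t')) *
      ex K y (p, t) = ∑ q ∈ T, (Nn A B p q * ((vec K x y p).2.1 * (vec K x y q).2.2.1) +
        Nn A B q p * ((vec K x y q).1 * (vec K x y p).2.2.2)) := fun p => by
    simp only [sum_mul]
    rw [sum_comm]
    refine sum_congr rfl fun q _ => ?_
    simp only [Fin.sum_univ_three, Mt, vec]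
    have c0 : ci 0 = 1 := rfl
    have c1 : ci 1 = 1 := rfl
    have c2 : ci 2 = 0 := rfl
    have k0 : ck 0 = 1 := rfl
    have k1 : ck 1 = 0 := rfl
    have k2 : ck 2 = 1 := rfl
    rw [c0, c1, c2, k0, k1, k2]
    ring
  simp only [h2, sum_add_distrib, psi, mul_add]
  rw [add_comm, sum_comm]

theorem card_K (hK : ∀ s, s ∈ K ↔ s.1 ∈ T ∧ ok (col s.1) s.2) :
    Fintype.card K = ∑ p ∈ T, if col p = 1 then 2 else 1 := by
  have : K = (T ×ˢ univ).filter fun s => ok (col s.1) s.2 := by
    ext s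
    simp [hK]
  rw [Fintype.card_coe, this, card_filter, sum_product]
  have h : ∀ i : Fin 3, (∑ t : Fin 3, if ok i t then 1 else 0) = if i = 1 then 2 else 1 := by decide
  exact sum_congr rfl fun p _ => h _

end Ex

end Pool.Agent.Lib.MP_d6ddbd_nt.L
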