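import Pool.Agent.Lib.MP_d6ddbd_nt.L.Exp1

/-! The phase of a labelling as a function of the large primes. -/

open Finset Function

noncomputable section

namespace Pool.Agent.Lib.MP_d6ddbd_nt.L

namespace Ex

open G (ep al sg)

/-- The exponent of the symbol of `Q`. -/
def eQ (i : Fin 3) (v c : V4) : ZMod 2 := if i = 0 then psi v c else if i = 1 then psi v v else 0

/-- The exponent of the symbol of `n` or `P`. -/
def eN (i : Fin 3) (v a c : V4) : ZMod 2 :=
  br v a + (if i = 1 then psi v v + psi v c else 0) + if i = 0 then 0 else psi a c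

/-- The exponent of the symbol of two small primes. -/
def eS (i : Fin 3) (v : V4) (j : Fin 3) (w c : V4) : ZMod 2 :=
  psi v w + (if i = 1 ∧ j ≠ 2 then psi v v else 0) + (if i = 0 ∧ j ≠ 0 then psi v c else 0) +
    if i = 1 ∧ j ≠ 1 then psi v c else 0

/-- The shifted vector. -/
def sh (i : Fin 3) (v c : V4) : V4 := if i = 1 then v else v + c

theorem psiC : ∀ c ∈ plC, ∀ w, psi c w = 0 := by decide +kernel

theorem psiA : ∀ a ∈ plA, psi a a = 0 := by decide +kernel

theorem brA : ∀ a ∈ plA, ∀ b ∈ plA, psi a b + psi b a = 0 := by decide +kernel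

theorem eQ_two (v c : V4) : eQ 2 v c = 0 := rfl

theorem eN_zero : ∀ v ∈ plA, ∀ a ∈ plA, ∀ c, eN 0 v a c = 0 := by decide +kernel

theorem sh_sh : ∀ (i : Fin 3) (v c : V4), sh i (sh i v c) c = v := by decide +kernel

theorem add_add : ∀ a c : V4, a + c + c = a := by decide +kernel

theorem shA : ∀ c ∈ plC, ∀ a ∈ plA, psi (a + c) (a + c) = psi a c := by decide +kernel

theorem shQ : ∀ c ∈ plC, ∀ i : Fin 3, ∀ v ∈ pl i, psi (sh i v c) (sh i v c) = eQ i v c := by
  decide +kernel

theorem shN : ∀ c ∈ plC, ∀ a ∈ plA, psi a c = 0 → ∀ i : Fin 3, ∀ v ∈ pl i, eQ i v c = 0 →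
    br (a + c) (sh i v c) = eN i v a c := by decide +kernel

theorem shS : ∀ c ∈ plC, ∀ i : Fin 3, ∀ v ∈ pl i, eQ i v c = 0 → ∀ j : Fin 3, ∀ w ∈ pl j,
    eS i v j w c = psi (sh i v c) (sh j w c) := by decide +kernel

theorem shP0 : ∀ c v : V4, v ∈ plA ↔ v + c + c ∈ plA := fun c v => by rw [add_add]

theorem shP2 : ∀ c ∈ plC, ∀ v : V4, v ∈ plC ↔ v + c ∈ plC := by decide +kernel

theorem shP {c : V4} (hc : c ∈ plC) (i : Fin 3) (v : V4) :
    v ∈ pl i ↔ (i = 0 → sh i v c + c ∈ plA) ∧ (i = 2 → sh i v c ∈ plC) := by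
  rcases three i with rfl | rfl | rfl
  · simpa [pl, sh] using shP0 c v
  · simp [pl]
  · simpa [pl, sh] using shP2 c hc v

theorem phase {S : Finset ℕ} {κ : ℕ → Fin 3} {n P Q R : ℕ} {N : ℕ → ℕ → ZMod 2} {v : ℕ → V4}
    {a b c : V4} (hn : n ∉ S) (hP : P ∉ insert n S) (hR : R ∉ insert P (insert n S))
    (hv : ∀ p ∈ S, v p ∈ pl (κ p)) (ha : a ∈ plA) (hb : b ∈ plA) (hc : c ∈ plC)
    (N1 : ∀ p q, p ≠ q → N p q = al q p) (d0 : ∀ p ∈ S, al p p = 0)
    (N2 : ∀ p ∈ S, κ p = 1 →
      N p p = ∑ q ∈ S, (if κ q ≠ 2 then al q p else 0) + al n p + al P p + al Q p)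
    (sn : ∀ q ∈ S, al q n = al n q) (sP : ∀ q ∈ S, al q P = al P q) (snP : al P n = al n P)
    (R0 : ∀ p ∈ S, κ p = 0 → al R p = ∑ q ∈ S, (if κ q ≠ 0 then al q p else 0) + al Q p)
    (R1 : ∀ p ∈ S, κ p = 1 → al R p = ∑ q ∈ S, (if κ q ≠ 1 then al q p else 0) + al n p + al P p)
    (Rn : al R n = ∑ q ∈ S, (if κ q ≠ 0 then al q n else 0) + al Q n)
    (RP : al R P = ∑ q ∈ S, (if κ q ≠ 0 then al q P else 0) + al Q P) :
    ∑ p ∈ insert R (insert P (insert n S)), ∑ q ∈ insert R (insert P (insert n S)),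
      N p q * psi (update (update (update v n a) P b) R c p)
        (update (update (update v n a) P b) R c q) =
      ∑ p ∈ S, ∑ q ∈ S, al q p * eS (κ p) (v p) (κ q) (v q) c +
        (∑ p ∈ S, eQ (κ p) (v p) c * al Q p + ∑ p ∈ S, eN (κ p) (v p) a c * al n p +
          ∑ p ∈ S, eN (κ p) (v p) b c * al P p + psi a c * al Q n + psi b c * al Q P) := by
  set w := update (update (update v n a) P b) R c with hw
  have Pn : P ≠ n := fun e => hP (by simp [e])
  have RP' : R ≠ P := fun e => hR (by simp [e])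
  have Rn' : R ≠ n := fun e => hR (by simp [e])
  have Sn : ∀ p ∈ S, p ≠ n := fun p h e => hn (e ▸ h)
  have SP : ∀ p ∈ S, p ≠ P := fun p h e => hP (mem_insert_of_mem (e ▸ h))
  have SR : ∀ p ∈ S, p ≠ R := fun p h e => hR (mem_insert_of_mem (mem_insert_of_mem (e ▸ h)))
  have wR : w R = c := update_self ..
  have wP : w P = b := by rw [hw, update_of_ne RP'.symm, update_self]
  have wn : w n = a := by rw [hw, update_of_ne Rn'.symm, update_of_ne Pn.symm, update_self]
  have wS : ∀ p ∈ S, w p = v p := fun p h => by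
    rw [hw, update_of_ne (SR p h), update_of_ne (SP p h), update_of_ne (Sn p h)]
  have row : ∀ (p : ℕ) (x : V4), ∑ q ∈ insert R (insert P (insert n S)), N p q * psi x (w q) =
      N p R * psi x c + (N p P * psi x b + (N p n * psi x a + ∑ q ∈ S, N p q * psi x (v q))) :=
    fun p x => by
      rw [sum_insert hR, sum_insert hP, sum_insert hn, wR, wP, wn,
        sum_congr rfl fun q h => by rw [wS q h]]
  have big : ∀ (m : ℕ) (x : V4), (∀ p ∈ S, p ≠ m) → (∀ q ∈ S, al q m = al m q) → R ≠ m →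
      al R m = ∑ q ∈ S, (if κ q ≠ 0 then al q m else 0) + al Q m →
      N m R * psi x c + ∑ q ∈ S, N m q * psi x (v q) = psi x c * al Q m +
        ∑ q ∈ S, (psi x (v q) + if κ q = 0 then 0 else psi x c) * al m q := by
    intro m x h1 h2 h3 h4
    rw [N1 m R h3.symm, h4, add_mul, sum_mul, add_right_comm, ← sum_add_distrib, add_comm,
      mul_comm]
    congr 1
    refine sum_congr rfl fun q h => ?_
    rw [N1 m q (h1 q h).symm, h2 q h]
    by_cases e : κ q = 0 <;> simp [e] <;> ring
  have small : ∀ p ∈ S, N p R * psi (v p) c + (N p P * psi (v p) b + (N p n * psi (v p) a +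
      ∑ q ∈ S, N p q * psi (v p) (v q))) = ∑ q ∈ S, al q p * eS (κ p) (v p) (κ q) (v q) c +
        (eQ (κ p) (v p) c * al Q p +
          (psi (v p) a + if κ p = 1 then psi (v p) (v p) + psi (v p) c else 0) * al n p +
          (psi (v p) b + if κ p = 1 then psi (v p) (v p) + psi (v p) c else 0) * al P p) := by
    intro p h
    have e1 : ∑ q ∈ S, N p q * psi (v p) (v q) =
        N p p * psi (v p) (v p) + ∑ q ∈ S, al q p * psi (v p) (v q) := by
      rw [← add_sum_erase S _ h, ← add_sum_erase S (fun q => al q p * psi (v p) (v q)) h, d0 p h,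
        zero_mul, zero_add]
      congr 1
      exact sum_congr rfl fun q hq => by rw [N1 p q (ne_of_mem_erase hq).symm]
    rw [e1, N1 p R (SR p h), N1 p P (SP p h), N1 p n (Sn p h)]
    have hp := hv p h
    rcases three (κ p) with k | k | k
    · have z : psi (v p) (v p) = 0 := psiA _ (by simpa [k, pl] using hp)
      have e2 : ∑ q ∈ S, al q p * eS 0 (v p) (κ q) (v q) c = ∑ q ∈ S, al q p * psi (v p) (v q) +
          (∑ q ∈ S, if κ q ≠ 0 then al q p else 0) * psi (v p) c := by
        rw [sum_mul, ← sum_add_distrib]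
        refine sum_congr rfl fun q _ => ?_
        by_cases e : κ q = 0
        · simp [eS, e]
        · simp [eS, e]
          ring
      rw [R0 p h k, k, e2, z]
      simp only [eQ, if_true, show ¬ (0 : Fin 3) = 1 by decide, if_false]
      ring
    · have e2 : ∑ q ∈ S, al q p * eS 1 (v p) (κ q) (v q) c = ∑ q ∈ S, al q p * psi (v p) (v q) +
          (∑ q ∈ S, if κ q ≠ 2 then al q p else 0) * psi (v p) (v p) +
          (∑ q ∈ S, if κ q ≠ 1 then al q p else 0) * psi (v p) c := by
        rw [sum_mul, sum_mul, ← sum_add_distrib, ← sum_add_distrib]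
        refine sum_congr rfl fun q _ => ?_
        by_cases e : κ q = 2 <;> by_cases e' : κ q = 1 <;> simp [eS, e, e'] <;> ring
      rw [R1 p h k, N2 p h k, k, e2]
      simp only [eQ, if_true, show ¬ (1 : Fin 3) = 0 by decide, if_false]
      ring
    · have z : ∀ x, psi (v p) x = 0 := psiC _ (by simpa [k, pl] using hp)
      simp [k, eS, eQ, z]
  have hS := (sum_congr rfl fun p h => (by rw [wS p h, row] :
    ∑ q ∈ insert R (insert P (insert n S)), N p q * psi (w p) (w q) = _)).trans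
      (sum_congr rfl small)
  rw [sum_insert hR, sum_insert hP, sum_insert hn, hS, wR, wP, wn, row, row, row]
  have b1 := big n a Sn sn Rn' Rn
  have b2 := big P b SP sP RP' RP
  have e3 : ∀ (x : V4) (m : ℕ), ∑ p ∈ S, eN (κ p) (v p) x c * al m p =
      ∑ p ∈ S, (psi (v p) x + if κ p = 1 then psi (v p) (v p) + psi (v p) c else 0) * al m p +
        ∑ q ∈ S, (psi x (v q) + if κ q = 0 then 0 else psi x c) * al m q := fun x m => by
    rw [← sum_add_distrib]
    exact sum_congr rfl fun p _ => by rw [eN, br]; ring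
  have e4 := brA a ha b hb
  simp only [psiC c hc, psiA a ha, psiA b hb, mul_zero, sum_const_zero, add_zero, zero_add,
    sum_add_distrib, e3, N1 P n Pn, N1 n P Pn.symm, snP]
  linear_combination b1 + b2 + al n P * e4

end Ex

end Pool.Agent.Lib.MP_d6ddbd_nt.L
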