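import Pool.Agent.Lib.MP_d6ddbd_nt.L.Exp2
import Pool.Agent.Lib.MP_d6ddbd_nt.G.CaseA

/-! Symbols of the primes of `A`, `B`, `C`. -/

open Finset Function

noncomputable section

namespace Pool.Agent.Lib.MP_d6ddbd_nt.L

namespace Ex

open G (ep al sg)
open G.CA (sg_add sg_sum jac_left jac_right)

theorem two (x : ZMod 2) : x = 0 ∨ x = 1 := by revert x; decide

theorem sg_inj : ∀ x y : ZMod 2, sg x = sg y → x = y := by decide

theorem sg_al {p q : ℕ} (hp : Odd p) (hq : Odd q) (h : p.Coprime q) :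
    sg (al p q) = jacobiSym p q := by
  rw [G.KerAux.al_eq hp hq]
  rcases jacobiSym.eq_one_or_neg_one (a := p) (b := q) (by rwa [Int.gcd_natCast_natCast]) with
    e | e <;> simp [e, sg]

theorem sg_mul {p q : ℕ} (hp : Odd p) (hq : Odd q) (h : p.Coprime q) (x : ZMod 2) :
    sg (x * al p q) = if x = 1 then jacobiSym p q else 1 := by
  rcases two x with rfl | rfl
  · simp [sg]
  · simp [sg_al hp hq h]

theorem sg_P {S : Finset ℕ} {m : ℕ} (hm : Odd m) (hS : ∀ p ∈ S, Odd p ∧ m.Coprime p)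
    (ε : ℕ → ZMod 2) :
    sg (∑ p ∈ S, ε p * al m p) = jacobiSym m (∏ p ∈ S with ε p = 1, p) := by
  rw [jac_right _ _ fun p hp => (hS p (mem_filter.1 hp).1).1.pos.ne', prod_filter, sg_sum]
  exact prod_congr rfl fun p hp => sg_mul hm (hS p hp).1 (hS p hp).2 _

theorem sg_L {m p : ℕ} (hm : Squarefree m) (om : Odd m) (hp : Odd p) (h : m.Coprime p) :
    sg (∑ q ∈ m.primeFactors, al q p) = jacobiSym m p := by
  conv_rhs => rw [← Nat.prod_primeFactors_of_squarefree hm, jac_left]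
  rw [sg_sum]
  exact prod_congr rfl fun q hq => sg_al (om.of_dvd_nat (Nat.dvd_of_mem_primeFactors hq)) hp
    (h.coprime_dvd_left (Nat.dvd_of_mem_primeFactors hq))

theorem cong {U V Z p : ℕ} (h : U + V = 16 * Z) (hp : p ∣ U) (sq : Squarefree (U * V * Z))
    (od : Odd (U * V * Z)) :
    ∑ q ∈ Z.primeFactors, al q p = ∑ q ∈ V.primeFactors, al q p := by
  obtain ⟨c1, s1, s2⟩ := Nat.squarefree_mul_iff.1 sq
  obtain ⟨c2, -, s3⟩ := Nat.squarefree_mul_iff.1 s1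
  obtain ⟨o1, oZ⟩ := Nat.odd_mul.1 od
  obtain ⟨oU, oV⟩ := Nat.odd_mul.1 o1
  have op := oU.of_dvd_nat hp
  apply sg_inj
  rw [sg_L s2 oZ op ((c1.coprime_dvd_left (hp.mul_right _)).symm),
    sg_L s3 oV op (c2.coprime_dvd_left hp).symm]
  have e : jacobiSym (4 ^ 2) p = 1 := jacobiSym.sq_one' (by
    have : Nat.Coprime (2 ^ 2) p := (Nat.coprime_two_left.2 op).pow_left 2
    exact_mod_cast this)
  rw [← one_mul (jacobiSym Z p), ← e, ← jacobiSym.mul_left]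
  apply jacobiSym.mod_left'
  obtain ⟨k, rfl⟩ := hp
  have : (4 : ℤ) ^ 2 * Z = V + p * k := by zify at h; linarith
  rw [this, Int.add_mul_emod_self_left]

theorem fil {d : ℕ × ℕ × ℕ} (h : Squarefree (pr d)) :
    d.1.primeFactors = (pr d).primeFactors.filter (cl d · = 0) ∧
    d.2.1.primeFactors = (pr d).primeFactors.filter (cl d · = 1) ∧
    d.2.2.primeFactors = (pr d).primeFactors.filter (cl d · = 2) := by
  obtain ⟨c1, s1, s2⟩ := Nat.squarefree_mul_iff.1 h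
  obtain ⟨c2, s0, s3⟩ := Nat.squarefree_mul_iff.1 s1
  have k : ∀ p, p.Prime → (p ∣ pr d ↔ p ∣ d.1 ∨ p ∣ d.2.1 ∨ p ∣ d.2.2) ∧ ¬(p ∣ d.1 ∧ p ∣ d.2.1) ∧
      ¬(p ∣ d.1 ∧ p ∣ d.2.2) ∧ ¬(p ∣ d.2.1 ∧ p ∣ d.2.2) := fun p hp =>
    ⟨by rw [pr, hp.dvd_mul, hp.dvd_mul, or_assoc],
      fun e => hp.one_lt.ne' (Nat.eq_one_of_dvd_coprimes c2 e.1 e.2),
      fun e => hp.one_lt.ne' (Nat.eq_one_of_dvd_coprimes c1 (e.1.mul_right _) e.2),
      fun e => hp.one_lt.ne' (Nat.eq_one_of_dvd_coprimes c1 (e.1.mul_left _) e.2)⟩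
  refine ⟨?_, ?_, ?_⟩ <;> ext p <;>
    simp only [mem_filter, Nat.mem_primeFactors, ne_eq, h.ne_zero, s0.ne_zero, s2.ne_zero,
      s3.ne_zero, not_false_eq_true, and_true, and_assoc, and_congr_right_iff, cl] <;>
    intro hp <;> have := k p hp <;> split_ifs <;> simp <;> tauto

theorem mem_Co {A B C Q : ℕ} (h : Squarefree (pr (A, B, C))) (hQ : cl (A, B, C) Q = 1)
    (s : ℕ × Fin 3) : s ∈ Co A B C Q ↔
      s.1 ∈ (pr (A, B, C)).primeFactors.erase Q ∧ ok (cl (A, B, C) s.1) s.2 := by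
  obtain ⟨f0, f1, f2⟩ := fil h
  simp only at f0 f1 f2
  obtain ⟨p, t⟩ := s
  simp only [Co, f0, f1, f2, mem_union, mem_product, mem_filter, mem_erase, mem_singleton,
    mem_insert]
  by_cases e : p = Q
  · simp [e, hQ]
  · rcases three (cl (A, B, C) p) with k | k | k <;> rcases three t with rfl | rfl | rfl <;>
      simp [k, e, ok]

end Ex

end Pool.Agent.Lib.MP_d6ddbd_nt.L
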