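import Pool.Agent.Lib.MP_d6ddbd_nt.L.Exp3

/-! The terms of the expansion. -/

open Finset Function

noncomputable section

namespace Pool.Agent.Lib.MP_d6ddbd_nt.L

namespace Ex

open G (ep al sg)
open G.CA (sg_add sg_sum abs_sg)

/-- The part of the phase that depends on the small primes only. -/
def E0 (S : Finset ℕ) (κ : ℕ → Fin 3) (c : V4) (v : ℕ → V4) : ZMod 2 :=
  ∑ p ∈ S, ∑ q ∈ S, al q p * eS (κ p) (v p) (κ q) (v q) c

/-- The coefficient of a term. -/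
def si (S : Finset ℕ) (κ : ℕ → Fin 3) (c : V4) (v : ℕ → V4) : ℝ :=
  1 / 8 * (∏ p ∈ S, rw (κ p)) * sg (E0 S κ c v)

/-- The modulus of the character of `Q`. -/
def mx (S : Finset ℕ) (κ : ℕ → Fin 3) (c : V4) (v : ℕ → V4) : ℕ :=
  ∏ p ∈ S with eQ (κ p) (v p) c = 1, p

/-- The modulus of the character of `n` or `P`. -/
def my (S : Finset ℕ) (κ : ℕ → Fin 3) (a c : V4) (v : ℕ → V4) : ℕ :=
  ∏ p ∈ S with eN (κ p) (v p) a c = 1, p

/-- The terms. -/
def Idx (S : Finset ℕ) (κ : ℕ → Fin 3) : Finset ((V4 × V4 × V4) × (S → V4)) :=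
  (plC ×ˢ plA ×ˢ plA) ×ˢ Fintype.piFinset fun p : S => pl (κ p)

theorem rw_pos (i : Fin 3) : 0 < rw i := by unfold rw; split_ifs <;> norm_num

theorem card_pl (i : Fin 3) : ((pl i).card : ℝ) * rw i ≤ 4 := by
  have : ∀ i : Fin 3, (pl i).card = if i = 1 then 16 else 4 := by decide +kernel
  rw [this, rw]
  split_ifs <;> norm_num

theorem size (S : Finset ℕ) (κ : ℕ → Fin 3) :
    ∑ i ∈ Idx S κ, |si S κ i.1.1 (ex S i.2)| ≤ 8 * 4 ^ S.card := by
  have h : ∀ c v, |si S κ c v| = 1 / 8 * ∏ p ∈ S, rw (κ p) := fun c v => by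
    rw [si, abs_mul, abs_sg, mul_one, abs_of_pos (mul_pos (by norm_num)
      (prod_pos fun p _ => rw_pos _))]
  have c1 : plA.card = 4 := by decide +kernel
  have c2 : plC.card = 4 := by decide +kernel
  simp only [h, sum_const, nsmul_eq_mul, Idx, card_product, c1, c2, Fintype.card_piFinset]
  push_cast
  have : (∏ p : S, ((pl (κ p)).card : ℝ)) * ∏ p ∈ S, rw (κ p) ≤ 4 ^ S.card := by
    rw [prod_coe_sort S fun p => ((pl (κ p)).card : ℝ), ← prod_mul_distrib, ← prod_const]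
    exact prod_le_prod (fun p _ => mul_nonneg (Nat.cast_nonneg _) (rw_pos _).le)
      fun p _ => card_pl _
  linarith

theorem prod_one {S : Finset ℕ} (hS : ∀ p ∈ S, p.Prime) (ε : ℕ → ZMod 2) :
    ∏ p ∈ S with ε p = 1, p = 1 ↔ ∀ p ∈ S, ε p = 0 := by
  rw [prod_eq_one_iff]
  refine ⟨fun h p hp => (two _).resolve_right fun e => (hS p hp).one_lt.ne' (h p
    (mem_filter.2 ⟨hp, e⟩)), fun h p hp => ?_⟩
  have := mem_filter.1 hp
  exact absurd ((h p this.1).symm.trans this.2) (by decide)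

theorem inner {S : Finset ℕ} (κ : ℕ → Fin 3) {a b c : V4} (hc : c ∈ plC) (ha : a ∈ plA)
    (hb : b ∈ plA) (ac : psi a c = 0) (bc : psi b c = 0) :
    ∑ g ∈ (Fintype.piFinset fun p : S => pl (κ p)) with (∀ p : S, eQ (κ p) (g p) c = 0 ∧
      eN (κ p) (g p) a c = 0 ∧ eN (κ p) (g p) b c = 0), si S κ c (ex S g) =
    1 / 8 * ∑ f ∈ Fintype.piFinset fun p : S => (Wl (c, a + c, b + c)).filter fun k => k.1 = κ p,
      wg _ f * (sg (Ph _ f) : ℝ) := by
  rw [mul_sum]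
  refine sum_nbij' (fun g p => (κ p, sh (κ p) (g p) c)) (fun f p => sh (κ p) (f p).2 c)
    (fun g hg => ?_) (fun f hf => ?_) (fun g _ => funext fun p => sh_sh ..) (fun f hf => ?_)
    (fun g hg => ?_)
  · simp only [mem_filter, Fintype.mem_piFinset, Wl, mem_univ, true_and, and_true] at hg ⊢
    intro p
    obtain ⟨h1, h2, h3⟩ := hg.2 p
    have h := hg.1 p
    exact ⟨⟨(shQ c hc _ _ h).trans h1, (shN c hc a ha ac _ _ h h1).trans h2,
      (shN c hc b hb bc _ _ h h1).trans h3⟩, (shP hc _ _).1 h⟩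
  · simp only [mem_filter, Fintype.mem_piFinset, Wl, mem_univ, true_and] at hf ⊢
    have h : ∀ p : S, sh (κ p) (f p).2 c ∈ pl (κ p) := fun p => by
      rw [shP hc, sh_sh, ← (hf p).2]
      exact (hf p).1.2
    refine ⟨h, fun p => ?_⟩
    obtain ⟨⟨h1, h2, h3⟩, -⟩ := (hf p).1
    have e := shQ c hc _ _ (h p)
    rw [sh_sh, h1] at e
    rw [← shN c hc a ha ac _ _ (h p) e.symm, ← shN c hc b hb bc _ _ (h p) e.symm, sh_sh]
    exact ⟨e.symm, h2, h3⟩
  · funext p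
    simp only [mem_filter, Fintype.mem_piFinset] at hf
    exact Prod.ext (hf p).2.symm (sh_sh ..)
  · simp only [mem_filter, Fintype.mem_piFinset] at hg
    rw [si, wg, mul_assoc, ← prod_coe_sort S fun p => rw (κ p)]
    congr 4
    rw [E0, Ph, sum_comm, ← sum_coe_sort S]
    refine sum_congr rfl fun q _ => ?_
    rw [← sum_coe_sort S]
    refine sum_congr rfl fun p _ => ?_
    rw [ex_mem, ex_mem, shS c hc _ _ (hg.1 p) (hg.2 p).1 _ _ (hg.1 q)]

theorem triv {S : Finset ℕ} (hS : ∀ p ∈ S, p.Prime) (κ : ℕ → Fin 3) :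
    ∑ i ∈ Idx S κ, (if mx S κ i.1.1 (ex S i.2) = 1 ∧ my S κ i.1.2.1 i.1.1 (ex S i.2) = 1 ∧
      my S κ i.1.2.2 i.1.1 (ex S i.2) = 1 ∧ decide (psi i.1.2.1 i.1.1 = 1) = false ∧
      decide (psi i.1.2.2 i.1.1 = 1) = false then si S κ i.1.1 (ex S i.2) else 0) =
    1 / 8 * ∑ z ∈ Trip, ∑ f ∈ Fintype.piFinset fun p : S => (Wl z).filter fun k => k.1 = κ p,
      wg _ f * (sg (Ph _ f) : ℝ) := by
  have e1 : ∀ x : ZMod 2, decide (x = 1) = false ↔ x = 0 := by decide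
  rw [mul_sum, Idx, sum_product, ← sum_filter_add_sum_filter_not _
    fun z : V4 × V4 × V4 => psi z.2.1 z.1 = 0 ∧ psi z.2.2 z.1 = 0,
    sum_eq_zero (s := filter (fun _ => ¬ _) _) fun z hz => sum_eq_zero fun g _ => if_neg fun h =>
      (mem_filter.1 hz).2 ⟨(e1 _).1 h.2.2.2.1, (e1 _).1 h.2.2.2.2⟩, add_zero]
  refine sum_nbij' (fun z => (z.1, z.2.1 + z.1, z.2.2 + z.1))
    (fun z => (z.1, z.2.1 + z.1, z.2.2 + z.1)) (fun z hz => ?_) (fun z hz => ?_)
    (fun z _ => by simp only [add_add]) (fun z _ => by simp only [add_add]) (fun z hz => ?_)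
  · simp only [mem_filter, mem_product, Trip, mem_univ, true_and, add_add] at hz ⊢
    obtain ⟨⟨hc, ha, hb⟩, h1, h2⟩ := hz
    exact ⟨hc, ha, hb, (shA _ hc _ ha).trans h1, (shA _ hc _ hb).trans h2⟩
  · simp only [mem_filter, mem_product, Trip, mem_univ, true_and] at hz ⊢
    obtain ⟨hc, ha, hb, h1, h2⟩ := hz
    rw [← shA _ hc _ ha, ← shA _ hc _ hb, add_add, add_add]
    exact ⟨⟨hc, ha, hb⟩, h1, h2⟩
  · simp only [mem_filter, mem_product] at hz
    obtain ⟨⟨hc, ha, hb⟩, h1, h2⟩ := hz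
    rw [← inner κ hc ha hb h1 h2, sum_filter]
    refine sum_congr rfl fun g _ => if_congr ?_ rfl rfl
    simp only [mx, my, prod_one hS, e1, h1, h2, and_true]
    refine ⟨fun h p => ?_, fun h => ⟨fun p hp => ?_, fun p hp => ?_, fun p hp => ?_⟩⟩
    · rw [← ex_mem g p]
      exact ⟨h.1 p p.2, h.2.1 p p.2, h.2.2 p p.2⟩
    · exact (ex_mem g ⟨p, hp⟩).symm ▸ (h ⟨p, hp⟩).1
    · exact (ex_mem g ⟨p, hp⟩).symm ▸ (h ⟨p, hp⟩).2.1
    · exact (ex_mem g ⟨p, hp⟩).symm ▸ (h ⟨p, hp⟩).2.2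

theorem ch {d : ℕ × ℕ × ℕ} {v : ℕ → V4} (hv : ∀ p ∈ (pr d).primeFactors, v p ∈ pl (cl d p))
    {a b : V4} (ha : a ∈ plA) (hb : b ∈ plA) (c : V4) :
    Ch d (mx (pr d).primeFactors (cl d) c v) (my (pr d).primeFactors (cl d) a c v)
      (my (pr d).primeFactors (cl d) b c v) := by
  have h : ∀ a ∈ plA, my (pr d).primeFactors (cl d) a c v ∣ d.2.1 * d.2.2 := fun a ha => by
    refine prod_primes_dvd _ (fun p hp => (Nat.prime_of_mem_primeFactors (mem_filter.1 hp).1).prime)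
      fun p hp => ?_
    obtain ⟨h1, h2⟩ := mem_filter.1 hp
    have h3 := Nat.dvd_of_mem_primeFactors h1
    rw [pr, mul_assoc, (Nat.prime_of_mem_primeFactors h1).dvd_mul] at h3
    refine h3.resolve_left fun e => ?_
    have k : cl d p = 0 := if_pos e
    have := hv p h1
    rw [k] at h2 this
    rw [eN_zero _ this a ha] at h2
    exact absurd h2 (by decide)
  refine ⟨prod_primes_dvd _
    (fun p hp => (Nat.prime_of_mem_primeFactors (mem_filter.1 hp).1).prime) fun p hp => ?_,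
    h a ha, h b hb⟩
  obtain ⟨-, h2⟩ := mem_filter.1 hp
  by_contra e
  rw [cl, if_neg fun k => e (k.mul_right _), if_neg fun k => e (k.mul_left _), eQ_two] at h2
  exact absurd h2 (by decide)

end Ex

end Pool.Agent.Lib.MP_d6ddbd_nt.L
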