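import Pool.Agent.Lib.MP_d6ddbd_nt.L.St

/-! The Legendre family: the truncated singular series is not small. -/

open Finset Filter ArithmeticFunction
open scoped ArithmeticFunction.Moebius

noncomputable section

namespace Pool.Agent.Lib.MP_d6ddbd_nt.L

namespace KapA

/-- Truncated sums over subsets. -/
def S (g : ℕ → ℝ) (P : Finset ℕ) (X : ℕ) : ℝ :=
  ∑ s ∈ P.powerset, if ∏ p ∈ s, p ≤ X then ∏ p ∈ s, g p else 0

lemma S_insert (g : ℕ → ℝ) {P : Finset ℕ} {p : ℕ} (hp : p ∉ P) (h0 : 0 < p) (X : ℕ) :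
    S g (insert p P) X = S g P X + g p * S g P (X / p) := by
  unfold S
  rw [sum_powerset_insert hp, mul_sum]
  congr 1
  refine sum_congr rfl fun s hs => ?_
  have : p ∉ s := fun h => hp (mem_powerset.1 hs h)
  simp only [prod_insert this, Nat.le_div_iff_mul_le h0, mul_comm p, mul_ite, mul_zero]

lemma S_base (g : ℕ → ℝ) (B : Finset ℕ) {X : ℕ} (hX : 1 ≤ X) :
    2 - ∏ p ∈ B, (1 + |g p|) ≤ S g B X := by
  rw [prod_one_add, sub_le_iff_le_add, S, ← sum_add_distrib]
  refine le_trans ?_ (single_le_sum (f := fun s : Finset ℕ =>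
    (if ∏ p ∈ s, p ≤ X then ∏ p ∈ s, g p else 0) + ∏ p ∈ s, |g p|) (fun s _ => ?_)
    (empty_mem_powerset B))
  · simp only [prod_empty, if_pos hX]
    norm_num
  · rw [← abs_prod]
    split_ifs
    · linarith [neg_abs_le (∏ p ∈ s, g p)]
    · simp

lemma S_ge (g : ℕ → ℝ) {B : Finset ℕ} {δ : ℝ} (h0 : 0 ≤ δ) (hB : ∀ p ∈ B, 0 < p)
    (hδ : δ ≤ 2 - ∏ p ∈ B, (1 + |g p|)) (A : Finset ℕ) (hA : ∀ p ∈ A, p ∉ B ∧ 0 < p ∧ 0 ≤ g p) :
    ∀ X, 0 ≤ S g (A ∪ B) X ∧ (1 ≤ X → δ ≤ S g (A ∪ B) X) := by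
  induction A using Finset.induction_on with
  | empty =>
    intro X
    rw [empty_union]
    refine ⟨?_, fun h => hδ.trans (S_base g B h)⟩
    rcases Nat.eq_zero_or_pos X with rfl | h
    · refine (sum_eq_zero fun s hs => if_neg (not_le.2 ?_)).ge
      exact prod_pos fun p hp => hB p (mem_powerset.1 hs hp)
    · exact h0.trans (hδ.trans (S_base g B h))
  | insert p A hp ih =>
    intro X
    obtain ⟨a1, a2, a3⟩ := hA p (mem_insert_self _ _)
    have ih' := ih fun q hq => hA q (mem_insert_of_mem hq)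
    rw [insert_union, S_insert g (by simp [hp, a1]) a2]
    have := mul_nonneg a3 (ih' (X / p)).1
    exact ⟨add_nonneg (ih' X).1 this, fun h => by linarith [(ih' X).2 h]⟩

lemma tele (n : ℕ) :
    ∑ j ∈ range n, 1 / (2 * j + 2 : ℝ) ^ 2 ≤ (1 / 2 - 1 / (2 * (2 * n + 1)) : ℝ) := by
  induction n with
  | zero => simp
  | succ n ih =>
    rw [sum_range_succ]
    have : 1 / (2 * n + 2 : ℝ) ^ 2 ≤ 1 / (2 * (2 * n + 1)) - 1 / (2 * (2 * (n + 1) + 1)) := by
      rw [div_sub_div _ _ (by positivity) (by positivity), div_le_div_iff₀ (by positivity)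
        (by positivity)]
      nlinarith [(Nat.cast_nonneg n : (0 : ℝ) ≤ n)]
    push_cast
    linarith

lemma prod_le {g : ℕ → ℝ} {B : Finset ℕ}
    (h : ∀ p ∈ B, p.Prime ∧ p ≠ 2 ∧ |g p| ≤ 1 / (p - 1 : ℝ) ^ 2) :
    ∏ p ∈ B, (1 + |g p|) ≤ 9 / 5 := by
  have h1 : ∏ p ∈ B, (1 + |g p|) ≤ Real.exp (∑ p ∈ B, |g p|) :=
    Real.prod_one_add_le_exp_sum _ fun _ => abs_nonneg _
  have h2 : ∑ p ∈ B, |g p| ≤ 1 / 2 := by
    have s1 : B ⊆ (range (B.sup id)).image fun j => 2 * j + 3 := fun p hp => by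
      obtain ⟨a, b, -⟩ := h p hp
      have c : p ≤ B.sup id := le_sup (f := id) hp
      have d := a.two_le
      have e := a.eq_two_or_odd.resolve_left b
      exact mem_image.2 ⟨(p - 3) / 2, mem_range.2 (by omega), by omega⟩
    calc ∑ p ∈ B, |g p| ≤ ∑ p ∈ B, 1 / (p - 1 : ℝ) ^ 2 := sum_le_sum fun p hp => (h p hp).2.2
      _ ≤ ∑ p ∈ (range (B.sup id)).image fun j => 2 * j + 3, 1 / ((p : ℕ) - 1 : ℝ) ^ 2 :=
        sum_le_sum_of_subset_of_nonneg s1 fun _ _ _ => by positivity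
      _ = ∑ j ∈ range (B.sup id), 1 / (2 * j + 2 : ℝ) ^ 2 := by
        rw [sum_image fun a _ b _ e => by simpa using e]
        refine sum_congr rfl fun j _ => ?_
        push_cast
        ring
      _ ≤ 1 / 2 := (tele _).trans (sub_le_self _ (by positivity))
  refine h1.trans ((Real.exp_le_exp.2 h2).trans ?_)
  have e : Real.exp (1 / 2) ^ 2 = Real.exp 1 := by
    rw [← Real.exp_nat_mul]
    norm_num
  refine abs_le_of_sq_le_sq' ?_ (by norm_num) |>.2
  rw [e]
  linarith [Real.exp_one_lt_d9]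

lemma tot (n : ℕ) : (n.totient : ℝ) = n * ∏ p ∈ n.primeFactors, (1 - (p : ℝ)⁻¹) := by
  have := congrArg (Rat.cast : ℚ → ℝ) (Nat.totient_eq_mul_prod_factors n)
  push_cast at this
  exact this

lemma fac_pos {p : ℕ} (hp : p.Prime) : 0 < 1 - (p : ℝ)⁻¹ :=
  sub_pos.2 (inv_lt_one_of_one_lt₀ (by exact_mod_cast hp.one_lt))

/-- The local factor. -/
def h (D c p : ℕ) : ℝ := if p ∣ D then 0 else if p ∣ c then 1 else (1 - (p : ℝ)⁻¹)⁻¹

lemma term (D : ℕ) {c r : ℕ} (hc : c ≠ 0) (hr : r ≠ 0) :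
    (if r.Coprime D then (r : ℝ) / (c * r).totient else 0) =
      (∏ p ∈ r.primeFactors, h D c p) / c.totient := by
  split_ifs with H
  · have e1 : ∏ p ∈ r.primeFactors, h D c p =
        (∏ p ∈ r.primeFactors \ c.primeFactors, (1 - (p : ℝ)⁻¹))⁻¹ := by
      rw [← prod_inv_distrib]
      symm
      refine prod_subset_one_on_sdiff sdiff_subset (fun p hp => ?_) fun p hp => ?_
      · obtain ⟨a, b⟩ := mem_sdiff.1 hp
        have a' := Nat.mem_primeFactors.1 a
        have c1 : p ∈ c.primeFactors := not_not.1 fun e => b (mem_sdiff.2 ⟨a, e⟩)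
        rw [h, if_neg fun e => a'.1.one_lt.ne' (Nat.eq_one_of_dvd_coprimes H a'.2.1 e),
          if_pos (Nat.dvd_of_mem_primeFactors c1)]
      · obtain ⟨a, b⟩ := mem_sdiff.1 hp
        have a' := Nat.mem_primeFactors.1 a
        rw [h, if_neg fun e => a'.1.one_lt.ne' (Nat.eq_one_of_dvd_coprimes H a'.2.1 e),
          if_neg fun e => b (Nat.mem_primeFactors.2 ⟨a'.1, e, hc⟩)]
    have e2 : ((c * r).totient : ℝ) =
        c.totient * r * ∏ p ∈ r.primeFactors \ c.primeFactors, (1 - (p : ℝ)⁻¹) := by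
      rw [tot, tot c, Nat.primeFactors_mul hc hr, ← union_sdiff_self_eq_union,
        prod_union disjoint_sdiff]
      push_cast
      ring
    have e3 : 0 < ∏ p ∈ r.primeFactors \ c.primeFactors, (1 - (p : ℝ)⁻¹) :=
      prod_pos fun p hp => fac_pos (Nat.prime_of_mem_primeFactors (mem_sdiff.1 hp).1)
    have e4 : (0 : ℝ) < c.totient := by exact_mod_cast Nat.totient_pos.2 hc.bot_lt
    have e5 : (r : ℝ) ≠ 0 := by exact_mod_cast hr
    rw [e1, e2]
    field_simp
  · obtain ⟨p, a, b, e⟩ := Nat.Prime.not_coprime_iff_dvd.1 H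
    rw [prod_eq_zero (f := h D c) (Nat.mem_primeFactors.2 ⟨a, b, hr⟩) (if_pos e), zero_div]

lemma tot_sq {q : ℕ} (hq : Squarefree q) : (q.totient : ℝ) = ∏ p ∈ q.primeFactors, (p - 1 : ℝ) := by
  rw [tot]
  nth_rw 1 [← Nat.prod_primeFactors_of_squarefree hq]
  rw [Nat.cast_prod, ← prod_mul_distrib]
  refine prod_congr rfl fun p hp => ?_
  have : (p : ℝ) ≠ 0 := by exact_mod_cast (Nat.prime_of_mem_primeFactors hp).ne_zero
  field_simp

lemma mu_mul {q r : ℕ} (hq : Squarefree q) (hr : r ∣ q) : (μ q : ℝ) * μ (q / r) = μ r := by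
  obtain ⟨k, rfl⟩ := hr
  have r0 : 0 < r := Nat.pos_of_mul_pos_right hq.ne_zero.bot_lt
  have e := moebius_sq_eq_one_of_squarefree (Squarefree.of_mul_right hq)
  rw [Nat.mul_div_cancel_left _ r0, isMultiplicative_moebius.map_mul_of_coprime
    (Nat.coprime_of_squarefree_mul hq), ← Int.cast_mul, mul_assoc, ← sq, e, mul_one]

/-- The local factor of the series. -/
def g (D c p : ℕ) : ℝ := (1 - h D c p) / (p - 1)

lemma inner (D : ℕ) {c q : ℕ} (hc : c ≠ 0) (hq : Squarefree q) :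
    (μ q : ℝ) / q.totient * ∑ r ∈ q.divisors with r.Coprime D,
      (μ (q / r) : ℝ) * r / (c * r).totient = (∏ p ∈ q.primeFactors, g D c p) / c.totient := by
  have e := IsMultiplicative.prodPrimeFactors_one_sub_of_squarefree _
    (IsMultiplicative.prodPrimeFactors (h D c)) hq
  have e1 : ∏ p ∈ q.primeFactors, (1 - (prodPrimeFactors (h D c)) p) =
      ∏ p ∈ q.primeFactors, (1 - h D c p) := prod_congr rfl fun p hp => by
    have := Nat.prime_of_mem_primeFactors hp
    rw [prodPrimeFactors_apply this.ne_zero, this.primeFactors, prod_singleton]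
  simp only [g]
  rw [prod_div_distrib, ← tot_sq hq, ← e1, e, div_mul_eq_mul_div, div_right_comm, sum_filter,
    mul_sum, sum_div _ _ (c.totient : ℝ)]
  congr 1
  refine sum_congr rfl fun r hr => ?_
  have r0 := (Nat.pos_of_mem_divisors hr).ne'
  rw [prodPrimeFactors_apply r0, mul_div_assoc (μ r : ℝ), ← term D hc r0,
    ← mu_mul hq (Nat.dvd_of_mem_divisors hr)]
  split_ifs
  · ring
  · simp

lemma toS (F : ℕ → ℝ) (V : ℕ) :
    ∑ q ∈ Icc 1 V with Squarefree q, ∏ p ∈ q.primeFactors, F p = S F (PP V) V := by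
  rw [S, ← sum_filter]
  refine sum_nbij' (fun q => q.primeFactors) (fun s => ∏ p ∈ s, p) (fun q hq => ?_)
    (fun s hs => ?_) (fun q hq => ?_) (fun s hs => ?_) fun _ _ => rfl
  · obtain ⟨a, b⟩ := mem_filter.1 hq
    have a' := mem_Icc.1 a
    refine mem_filter.2 ⟨mem_powerset.2 fun p hp => ?_, ?_⟩
    · have c := Nat.prime_of_mem_primeFactors hp
      exact mem_filter.2 ⟨mem_Icc.2 ⟨c.one_le, (Nat.le_of_mem_primeFactors hp).trans a'.2⟩, c⟩
    · rw [Nat.prod_primeFactors_of_squarefree b]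
      exact a'.2
  · obtain ⟨a, b⟩ := mem_filter.1 hs
    have c : ∀ p ∈ s, p.Prime := fun p hp => (mem_filter.1 (mem_powerset.1 a hp)).2
    refine mem_filter.2 ⟨mem_Icc.2 ⟨prod_pos fun p hp => (c p hp).pos, b⟩, ?_⟩
    exact squarefree_prod_of_pairwise_isCoprime
      (fun p hp q hq e => Nat.coprime_iff_isRelPrime.1 ((Nat.coprime_primes (c p hp) (c q hq)).2 e))
      fun p hp => (c p hp).squarefree
  · exact Nat.prod_primeFactors_of_squarefree (mem_filter.1 hq).2
  · exact Nat.primeFactors_prod fun p hp =>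
      (mem_filter.1 (mem_powerset.1 (mem_filter.1 hs).1 hp)).2

end KapA

open KapA in
theorem kap' : KapS := by
  intro V d hV hs _
  have d0 : d.2.2 ≠ 0 := right_ne_zero_of_mul hs.ne_zero
  have c0 : 16 * d.2.2 ≠ 0 := by omega
  set D := d.1 * d.2.1
  set c := 16 * d.2.2 with hc
  have e : kap V d = S (g D c) (PP V) V / c.totient := by
    rw [← toS, sum_div, kap, sum_filter]
    refine sum_congr rfl fun q _ => ?_
    split_ifs with H
    · exact inner D c0 H
    · rw [moebius_eq_zero_of_not_squarefree H]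
      simp
  have k := S_ge (g D c) (B := (PP V).filter fun p => ¬ (p ∣ D ∨ p ∣ c)) (δ := 1 / 5)
    (by norm_num) (fun p hp => (mem_filter.1 (mem_filter.1 hp).1).2.pos) (by
      have := prod_le (g := g D c) (B := (PP V).filter fun p => ¬ (p ∣ D ∨ p ∣ c)) fun p hp => by
        obtain ⟨a, b⟩ := mem_filter.1 hp
        have a' := (mem_filter.1 a).2
        rw [not_or] at b
        refine ⟨a', fun e => b.2 (e ▸ Dvd.dvd.mul_right (by norm_num) _), le_of_eq ?_⟩
        have p1 : (0 : ℝ) < p - 1 := sub_pos.2 (by exact_mod_cast a'.one_lt)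
        have p0 : (p : ℝ) ≠ 0 := by exact_mod_cast a'.ne_zero
        have : g D c p = -(1 / (p - 1 : ℝ) ^ 2) := by
          rw [g, h, if_neg b.1, if_neg b.2]
          field_simp
          ring
        rw [this, abs_neg, abs_of_nonneg (by positivity)]
      linarith) ((PP V).filter fun p => p ∣ D ∨ p ∣ c) (fun p hp => by
      obtain ⟨a, b⟩ := mem_filter.1 hp
      have a' := (mem_filter.1 a).2
      refine ⟨fun e => (mem_filter.1 e).2 b, a'.pos, div_nonneg ?_
        (sub_nonneg.2 (by exact_mod_cast a'.one_le))⟩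
      rw [h]
      split_ifs with h1 h2
      · norm_num
      · norm_num
      · exact (b.elim h1 h2).elim) V
  rw [filter_union_filter_not_eq] at k
  have t1 : (0 : ℝ) < c.totient := by exact_mod_cast Nat.totient_pos.2 c0.bot_lt
  have t2 : (c.totient : ℝ) ≤ 16 * d.2.2 := by exact_mod_cast Nat.totient_le c
  have t3 : (0 : ℝ) < d.2.2 := by exact_mod_cast d0.bot_lt
  rw [e, div_le_div_iff₀ (by positivity) t1]
  nlinarith [k.2 hV]

end Pool.Agent.Lib.MP_d6ddbd_nt.L
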