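import Pool.Agent.Lib.MP_d6ddbd_nt.L.St

/-! The Legendre family: few labels, and the plane of `C`. -/

open Finset Filter

noncomputable section

namespace Pool.Agent.Lib.MP_d6ddbd_nt.L

open G (ep al sg)

namespace M24

lemma GG_mono (u : ℝ) {F F' : (S : Finset ℕ) → (S → Lb) → ℝ} (h : ∀ S f, F S f ≤ F' S f) :
    GG u F ≤ GG u F' :=
  sum_le_sum fun m _ => div_le_div_of_nonneg_right (sum_le_sum fun f _ => h _ f)
    (Nat.cast_nonneg m)

lemma GG_mul (u c : ℝ) (F : (S : Finset ℕ) → (S → Lb) → ℝ) :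
    GG u (fun S f => c * F S f) = c * GG u F := by
  simp only [GG, mul_sum, ← mul_div_assoc]

lemma GG_abs (u : ℝ) {F F' : (S : Finset ℕ) → (S → Lb) → ℝ} (h : ∀ S f, |F S f| ≤ F' S f) :
    |GG u F| ≤ GG u F' := by
  refine abs_le.2 ⟨?_, GG_mono u fun S f => (le_abs_self _).trans (h S f)⟩
  rw [← neg_one_mul, ← GG_mul]
  exact GG_mono u fun S f => by linarith [neg_abs_le (F S f), h S f]

lemma rw_nonneg (i : Fin 3) : 0 ≤ rw i := by
  unfold rw
  split_ifs <;> norm_num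

lemma key (hE : EulS) (a b : ℝ) (ha : 0 ≤ a) (hb : 0 ≤ b) : ∃ C : ℝ, ∀ᶠ u : ℝ in atTop,
    ∀ w : ℕ → Lb → ℝ, (∀ p k, 0 ≤ w p k) →
      (∀ p : ℕ, ∑ k, w p k ≤ (if (p : ℝ) ≤ u ^ 800 then a else 0) + b) →
        GG u (fun S f => ∏ p : S, w p (f p)) ≤
          Real.exp (a * Real.log (Real.log u) + b * Real.log u + C) := by
  obtain ⟨-, h2, ⟨C, h3⟩, -⟩ := hE
  refine ⟨a * C + b * C, ?_⟩
  filter_upwards [h3] with u hu w h0 hw
  refine (h2 u w h0).trans (Real.exp_le_exp.2 ?_)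
  have h4 : ∑ p ∈ PP (DD u), (∑ k, w p k) / p ≤
      a * ∑ p ∈ (PP (DD u)).filter (fun p : ℕ => (p : ℝ) ≤ u ^ 800), 1 / (p : ℝ) +
        b * ∑ p ∈ PP (DD u), 1 / (p : ℝ) := by
    rw [sum_filter, mul_sum, mul_sum, ← sum_add_distrib]
    refine sum_le_sum fun p _ => ?_
    refine (div_le_div_of_nonneg_right (hw p) (Nat.cast_nonneg p)).trans (le_of_eq ?_)
    split_ifs <;> ring
  have h5 := mul_le_mul_of_nonneg_left hu.1 hb
  have h6 := mul_le_mul_of_nonneg_left hu.2 ha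
  linarith

lemma grow (a C r c : ℝ) (hr : 0 < r) (hc : 0 < c) : ∀ᶠ u : ℝ in atTop,
    a * Real.log (Real.log u) + C ≤ c * Real.log u ^ r := by
  have h1 := ((isLittleO_log_rpow_atTop hr).const_mul_left a).bound (half_pos hc)
  have h2 := ((tendsto_rpow_atTop hr).const_mul_atTop (half_pos hc)).eventually_ge_atTop C
  refine Real.tendsto_log_atTop.eventually (p := fun x => a * Real.log x + C ≤ c * x ^ r) ?_
  filter_upwards [h1, h2, eventually_ge_atTop (0 : ℝ)] with x h3 h4 hx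
  rw [Real.norm_eq_abs, Real.norm_eq_abs, abs_of_nonneg (Real.rpow_nonneg hx r)] at h3
  linarith [le_abs_self (a * Real.log x)]

lemma fin_le {u ε x : ℝ} (hu : 0 < u) (hε : 0 < ε) (h : x ≤ Real.log ε + 3 * Real.log u) :
    Real.exp x ≤ ε * u ^ 3 := by
  refine (Real.exp_le_exp.2 h).trans (le_of_eq ?_)
  rw [Real.exp_add, Real.exp_log hε, show 3 * Real.log u = Real.log (u ^ 3) by
    rw [Real.log_pow, Nat.cast_ofNat], Real.exp_log (by positivity)]

lemma sum_col (g : Fin 3 → ℝ) : ∑ k : Lb, g k.1 = 16 * (g 0 + g 1 + g 2) := by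
  rw [Fintype.sum_prod_type, Fin.sum_univ_three]
  simp only [sum_const, card_univ, Fintype.card_prod, ZMod.card, nsmul_eq_mul]
  push_cast
  ring

lemma mem_Med {u : ℝ} {S : Finset ℕ} (f : S → Lb) (p : S) (h : ¬ ((p : ℕ) : ℝ) ≤ u ^ 800) :
    f p ∈ Med u S f :=
  mem_image.2 ⟨p, mem_filter.2 ⟨mem_univ _, not_le.1 h⟩, rfl⟩

/-- The tilt of the weights. -/
def tl (i : Fin 3) : ℝ := (if i = 0 then 2 else 1) * (if i = 2 then 1 / 2 else 1)

lemma tl_nonneg (i : Fin 3) : 0 ≤ tl i := by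
  unfold tl
  split_ifs <;> norm_num

lemma tilt {u : ℝ} {S : Finset ℕ} {f : S → Lb} (h : Io u S f) :
    (2 : ℝ) ^ KK u ≤ ∏ p : S, tl (f p).1 := by
  simp only [tl, prod_mul_distrib, prod_ite, prod_const, one_pow, mul_one]
  change _ ≤ (2 : ℝ) ^ om S f 0 * (1 / 2) ^ om S f 2
  rw [one_div, inv_pow, ← div_eq_mul_inv, le_div_iff₀ (by positivity), ← pow_add, add_comm]
  exact pow_le_pow_right₀ one_le_two h.2.2

lemma med (c : V4) : ∑ k : Lb,
    (if k.2 ∈ plC ∧ (k.1 = 0 → k.2 = c) then rw k.1 * tl k.1 else 0) ≤ 3 := by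
  have h4 : plC.card = 4 := by decide
  have h0 : ∑ v : V4, (if v ∈ plC ∧ v = c then (1 : ℝ) else 0) ≤ 1 := by
    refine le_trans (sum_le_sum (g := fun v => if v = c then (1 : ℝ) else 0) fun v _ => ?_)
      (by simp)
    by_cases h : v = c
    · rw [if_pos h]
      split_ifs <;> norm_num
    · rw [if_neg h, if_neg fun h' => h h'.2]
  have h1 : ∑ v : V4, (if v ∈ plC then (1 / 4 : ℝ) else 0) = 1 := by
    rw [← sum_filter, filter_mem_eq_inter, univ_inter, sum_const, h4]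
    norm_num
  have e0 : rw 0 * tl 0 = 1 := by norm_num [rw, tl, Fin.ext_iff]
  have e1 : rw 1 * tl 1 = 1 / 4 := by norm_num [rw, tl, Fin.ext_iff]
  have e2 : rw 2 * tl 2 = 1 / 4 := by norm_num [rw, tl, Fin.ext_iff]
  have n1 : ¬ (1 : Fin 3) = 0 := by decide
  have n2 : ¬ (2 : Fin 3) = 0 := by decide
  rw [Fintype.sum_prod_type, Fin.sum_univ_three]
  simp only [e0, e1, e2, n1, n2, forall_const, false_imp_iff, and_true, h1]
  linarith

lemma lab (c v : V4) (hc : c ∈ plC) (hv : v ∈ plC) (h : v + c ∈ plA) : v = c := by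
  have e : ∀ x y : ZMod 2, x + y = 0 + 0 → x = y := by decide
  obtain ⟨a, b, c, d⟩ := c
  obtain ⟨a', b', c', d'⟩ := v
  simp only [plC, plA, mem_filter, mem_univ, true_and, Prod.mk_add_mk] at hc hv h
  obtain ⟨rfl, rfl⟩ := hc
  obtain ⟨rfl, rfl⟩ := hv
  rw [e _ _ h.1, e _ _ h.2]

end M24

open M24

theorem m2 : M2S := by
  intro hE U hU ε hε
  obtain ⟨C, hC⟩ := key hE 20 (5 / 2) (by norm_num) (by norm_num)
  filter_upwards [hC, grow 20 (C - Real.log ε) 1 (1 / 2) one_pos one_half_pos,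
    eventually_gt_atTop (0 : ℝ)] with u h1 h2 hu
  rw [Real.rpow_one] at h2
  have h0 : ∀ (p : ℕ) (k : Lb), 0 ≤ if (p : ℝ) ≤ u ^ 800 ∨ k ∈ U then rw k.1 else 0 := by
    intro p k
    split_ifs
    exacts [rw_nonneg _, le_rfl]
  refine le_trans (GG_mono u fun S f => ?_) ((h1 _ h0 fun p => ?_).trans
    (fin_le hu hε (by linarith)))
  · split_ifs with h
    · refine le_of_eq (prod_congr rfl fun p _ => (if_pos ?_).symm)
      exact or_iff_not_imp_left.2 fun hp => h (mem_Med f p hp)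
    · exact prod_nonneg fun p _ => h0 p (f p)
  · by_cases hp : (p : ℝ) ≤ u ^ 800
    · simp only [hp, true_or, if_true]
      rw [sum_col rw]
      norm_num [rw, Fin.ext_iff]
    · simp only [hp, false_or, if_false]
      rw [← sum_filter, filter_mem_eq_inter, univ_inter, zero_add]
      exact hU

theorem m4 : M4S := by
  intro hE z hz ε hε
  have hc : z.1 ∈ plC := (mem_filter.1 hz).2.1
  obtain ⟨C, hC⟩ := key hE 24 3 (by norm_num) (by norm_num)
  filter_upwards [hC, grow 24 (C - Real.log ε) (1 / 4) (Real.log 2) (by norm_num)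
    (Real.log_pos one_lt_two), eventually_gt_atTop (0 : ℝ)] with u h1 h2 hu
  have h0 : ∀ (p : ℕ) (k : Lb), 0 ≤ if (p : ℝ) ≤ u ^ 800 ∨ (k.2 ∈ plC ∧ (k.1 = 0 → k.2 = z.1))
      then rw k.1 * tl k.1 else 0 := by
    intro p k
    split_ifs
    exacts [mul_nonneg (rw_nonneg _) (tl_nonneg _), le_rfl]
  have h3 := h1 _ h0 fun p => by
    by_cases hp : (p : ℝ) ≤ u ^ 800
    · simp only [hp, true_or, if_true]
      rw [sum_col fun i => rw i * tl i]
      norm_num [rw, tl, Fin.ext_iff]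
    · simp only [hp, false_or, if_false]
      rw [zero_add]
      exact med z.1
  have hK : (0 : ℝ) < 2 ^ KK u := by positivity
  refine le_trans (GG_abs u (F' := fun S f => (2 ^ KK u)⁻¹ * ∏ p : S,
    if ((p : ℕ) : ℝ) ≤ u ^ 800 ∨ ((f p).2 ∈ plC ∧ ((f p).1 = 0 → (f p).2 = z.1))
      then rw (f p).1 * tl (f p).1 else 0) fun S f => ?_) ?_
  · have hn : 0 ≤ ((2 : ℝ) ^ KK u)⁻¹ * ∏ p : S,
        if ((p : ℕ) : ℝ) ≤ u ^ 800 ∨ ((f p).2 ∈ plC ∧ ((f p).1 = 0 → (f p).2 = z.1))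
          then rw (f p).1 * tl (f p).1 else 0 :=
      mul_nonneg (by positivity) (prod_nonneg fun p _ => h0 p (f p))
    rw [tmP]
    split_ifs with hY
    swap
    · rwa [abs_zero]
    rw [tm]
    split_ifs with hW
    swap
    · rwa [abs_zero]
    have e : ∀ p : S, ((p : ℕ) : ℝ) ≤ u ^ 800 ∨
        ((f p).2 ∈ plC ∧ ((f p).1 = 0 → (f p).2 = z.1)) := fun p =>
      or_iff_not_imp_left.2 fun hp => ⟨hY _ (mem_Med f p hp), fun h =>
        lab _ _ hc (hY _ (mem_Med f p hp)) ((mem_filter.1 (hW.1 p)).2.1 h)⟩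
    have hw : 0 ≤ wg S f := prod_nonneg fun p _ => rw_nonneg _
    have hs : |((sg (Ph S f) : ℤ) : ℝ)| = 1 := by
      unfold sg
      split_ifs <;> simp
    rw [prod_congr rfl fun p _ => if_pos (e p), prod_mul_distrib, abs_mul, hs, mul_one,
      abs_of_nonneg hw, ← div_eq_inv_mul, le_div_iff₀ hK]
    exact mul_le_mul_of_nonneg_left (tilt hW.2) hw
  · rw [GG_mul]
    refine (mul_le_mul_of_nonneg_left h3 (by positivity)).trans ?_
    rw [← Real.exp_log hK, ← Real.exp_neg, ← Real.exp_add, Real.log_pow]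
    refine fin_le hu hε ?_
    have h4 : Real.log u ^ (1 / 4 : ℝ) ≤ KK u := Nat.le_ceil _
    have h5 := mul_le_mul_of_nonneg_left h4 (Real.log_pos one_lt_two).le
    linarith

end Pool.Agent.Lib.MP_d6ddbd_nt.L
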