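import Pool.Agent.Lib.MP_d6ddbd_nt.L.St
import Pool.Agent.Lib.MP_d6ddbd_nt.G.Sw2

/-! From polynomial bounds for a Dirichlet series and its derivatives to finite sums. -/

namespace Pool.Agent.Lib.MP_d6ddbd_nt.L.PntAux

open Complex Finset LSeries MeasureTheory MP_f64879_nt G.SwAux
open scoped Real

theorem smooth (k r : ℕ) : ∃ C : ℝ, 0 ≤ C ∧ ∀ (a : ℕ → ℂ) (σ B d w : ℝ) (N : ℕ),
    abscissaOfAbsConv a ≤ 1 → a 0 = 0 → 1 < σ → σ ≤ 2 → 0 ≤ B → 0 < d → d ≤ 1 → 0 < w → (∀ n ∉ range N, w + 1 ≤ Real.log n) →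
    (∀ s : ℂ, s.re = σ → ∀ j ≤ k, ‖LSeries (logMul^[j] a) s‖ ≤ B * (‖s‖ + 2) ^ r) →
      ‖∑ n ∈ range N, a n / (n : ℂ) ^ (σ : ℂ) * bp ((Real.log n - w) / d)‖ ≤
        C * B / d ^ r / w ^ k := by
  refine ⟨∑ j ∈ range (k + 1), k.choose j * (7 ^ r * fI (bq (k - j)) r),
    sum_nonneg fun j _ => by have := fI_nonneg (bq (k - j)) r; positivity,
    fun a σ B d w N ha a0 h2 h3 hB d0 d1 hw hN h => ?_⟩
  have hj : ∀ j ∈ range (k + 1), ‖∑ n ∈ range N, term (logMul^[j] a) σ n *
      bq (k - j) (Real.log n / d - w / d)‖ ≤ B * (7 / d) ^ r * fI (bq (k - j)) r := fun j hj => by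
    have hs := G.SwAux.sm ha (s := σ) (by simpa) j
    rw [← tsum_eq_sum (L := .unconditional ℕ) fun n hn => by
      rw [bq_apply, bp_zero (le_abs.2 (.inl (by
        rw [← sub_div, le_div_iff₀ d0]; linarith [hN n hn])))]; simp]
    refine four_le _ hs.norm (fun n => Real.log n / d) (w / d) fun ξ => ?_
    set s : ℂ := σ - (2 * π * ξ / d : ℝ) * I with hs'
    have e : ∀ n : ℕ, term (logMul^[j] a) σ n * cexp ((2 * π * ξ * (Real.log n / d) : ℝ) * I) =
        term (logMul^[j] a) s n := by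
      intro n
      rcases eq_or_ne n 0 with rfl | hn
      · simp
      have hn' : (n : ℂ) ≠ 0 := by exact_mod_cast hn
      rw [term_of_ne_zero hn, term_of_ne_zero hn, hs', cpow_sub _ _ hn',
        div_div_eq_mul_div, div_mul_eq_mul_div, cpow_def_of_ne_zero hn' (_ * I), ← natCast_log]
      congr 3
      push_cast
      ring
    simp only [e]
    refine (h s (by simp [hs']) j (Nat.lt_succ_iff.1 (mem_range.1 hj))).trans ?_
    have b1 := norm_sub_le (σ : ℂ) ((2 * π * ξ / d : ℝ) * I)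
    rw [norm_mul, norm_I, mul_one, norm_real, norm_real, Real.norm_of_nonneg (by linarith),
      Real.norm_eq_abs, abs_div, abs_mul, abs_of_pos Real.two_pi_pos, abs_of_pos d0] at b1
    have b2 : 4 ≤ 7 / d := by rw [le_div_iff₀ d0]; linarith
    have b3 : 2 * π * |ξ| / d ≤ 7 * |ξ| / d := by gcongr; linarith [Real.pi_lt_d2]
    calc _ ≤ B * (7 / d * (1 + |ξ|)) ^ r := by
          gcongr
          rw [mul_add, mul_one, div_mul_eq_mul_div]
          linarith
      _ = _ := by rw [mul_pow, mul_assoc]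
  have e : (w : ℂ) ^ k * ∑ n ∈ range N, a n / (n : ℂ) ^ (σ : ℂ) * bp ((Real.log n - w) / d) =
      ∑ j ∈ range (k + 1), (k.choose j * (-d) ^ (k - j)) * ∑ n ∈ range N,
        term (logMul^[j] a) σ n * bq (k - j) (Real.log n / d - w / d) := by
    simp only [mul_sum]
    rw [sum_comm]
    refine sum_congr rfl fun n _ => ?_
    rcases eq_or_ne n 0 with rfl | hn
    · simp [a0]
    have : (d : ℂ) ≠ 0 := by exact_mod_cast d0.ne'
    rw [show (w : ℂ) = (Real.log n : ℝ) + -d * ((Real.log n / d - w / d : ℝ) : ℂ) by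
      rw [ofReal_sub, ofReal_div, ofReal_div]; field_simp; ring, add_pow, sum_mul]
    refine sum_congr rfl fun j _ => ?_
    rw [term_of_ne_zero hn, logMul_iter, bq_apply, mul_pow, sub_div]
    ring
  have e2 := congrArg norm e
  rw [norm_mul, norm_pow, norm_real, Real.norm_of_nonneg hw.le] at e2
  rw [le_div_iff₀' (by positivity), e2, sum_mul, sum_div]
  refine norm_sum_le_of_le _ fun j hj' => ?_
  rw [norm_mul, norm_mul, norm_pow, norm_neg, norm_real, Real.norm_of_nonneg d0.le,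
    Complex.norm_natCast]
  calc _ ≤ k.choose j * 1 * (B * (7 / d) ^ r * fI (bq (k - j)) r) := by
        gcongr
        · exact pow_le_one₀ d0.le d1
        · exact hj j hj'
    _ = _ := by rw [div_pow]; ring

theorem sharp (m r : ℕ) : ∃ C : ℝ, 0 ≤ C ∧ ∀ (a : ℕ → ℂ) (σ B d u : ℝ),
    abscissaOfAbsConv a ≤ 1 → (∀ n ∈ range (Mx u), ‖a n‖ ≤ 1) → a 0 = 0 → 1 < σ → σ ≤ 2 → 0 ≤ B → 0 < d → d ≤ 1 → 0 < u →
    (∀ s : ℂ, s.re = σ → ∀ j ≤ m + 1, ‖LSeries (logMul^[j] a) s‖ ≤ B * (‖s‖ + 2) ^ r) →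
      ‖∑ n ∈ Icc 1 ⌊Real.exp u⌋₊, a n‖ ≤ C * B * Real.exp (σ * u) / d ^ (r + 1) / u ^ m +
        (Real.exp (u / 2 + 1) + (3 * d * Real.exp u + 1)) := by
  obtain ⟨C, hC, hsm⟩ := smooth (m + 1) r
  refine ⟨C * 2 ^ m * Real.exp 1, by positivity, 
    fun a σ B d u ha' ha a0 h2 h3 hB d0 d1 hu h => ?_⟩
  set g : ℝ → ℝ := fun x => Real.exp (σ * x) * bp (-x / d) with hg
  have g0 : ∀ x, 0 ≤ g x := fun x => mul_nonneg (Real.exp_pos _).le bp.nonneg
  have gc : Continuous g := by have := bp.continuous; fun_prop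
  have gz : ∀ x, d ≤ |x| → g x = 0 := fun x hx => by
    rw [hg]
    beta_reduce
    rw [bp_zero (by rwa [abs_div, abs_neg, abs_of_pos d0, le_div_iff₀ d0, one_mul]), mul_zero]
  have gi : Integrable g := gc.integrable_of_hasCompactSupport
    (.intro (isCompact_Icc (a := -d) (b := d)) fun x hx => gz x (by
      by_contra h
      exact hx (abs_le.1 (not_le.1 h).le)))
  set c := ∫ x, g x with hc
  have gle : ∀ x y, x ≤ y → ∫ t in x..y, g t ≤ c := fun x y hxy => by
    rw [intervalIntegral.integral_of_le hxy]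
    exact setIntegral_le_integral gi (.of_forall g0)
  have c1 : d / Real.exp 1 ≤ c := by
    refine le_trans ?_ (gle (-d / 2) (d / 2) (by linarith))
    refine le_trans (le_of_eq ?_) (intervalIntegral.integral_mono_on (f := fun _ => Real.exp (-1))
      (by linarith) (by simp) (gc.intervalIntegrable _ _) fun x hx => ?_)
    · rw [intervalIntegral.integral_const, Real.exp_neg, smul_eq_mul]
      ring
    · rw [hg]
      beta_reduce
      rw [bp_one (by
        rw [abs_div, abs_neg, abs_of_pos d0, div_le_iff₀ d0, abs_le]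
        constructor <;> linarith [hx.1, hx.2]), mul_one]
      exact Real.exp_le_exp.2 (by nlinarith [hx.1])
  have c0 : 0 < c := lt_of_lt_of_le (by positivity) c1
  set G : ℝ → ℝ := fun t => ∫ x in (u / 2 - t)..(u - t), g x with hG
  have hN : ∀ n ∉ range (Mx u), u + 1 ≤ Real.log n := fun n hn => by
    have h1 : Real.exp (u + 1) < n := (Nat.lt_floor_add_one _).trans_le (by
      exact_mod_cast not_lt.1 (mem_range.not.1 hn))
    exact ((Real.lt_log_iff_exp_lt ((Real.exp_pos _).trans h1)).2 h1).le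
  have i1 : ‖∑ n ∈ range (Mx u), a n * G (Real.log n)‖ ≤
      Real.exp (σ * u) * (C * B / d ^ r / (u / 2) ^ (m + 1)) * |u - u / 2| := by
    have e : ∑ n ∈ range (Mx u), a n * G (Real.log n) =
        ∫ w in (u / 2)..u, ∑ n ∈ range (Mx u), a n * g (w - Real.log n) := by
      rw [intervalIntegral.integral_finsetSum fun n _ =>
        Continuous.intervalIntegrable (by fun_prop) _ _]
      refine sum_congr rfl fun n _ => ?_
      rw [intervalIntegral.integral_const_mul, intervalIntegral.integral_ofReal,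
        intervalIntegral.integral_comp_sub_right]
    rw [e]
    refine intervalIntegral.norm_integral_le_of_norm_le_const fun w hw => ?_
    rw [Set.uIoc_of_le (by linarith)] at hw
    have e2 : ∑ n ∈ range (Mx u), a n * g (w - Real.log n) = Real.exp (σ * w) *
        ∑ n ∈ range (Mx u), a n / (n : ℂ) ^ (σ : ℂ) * bp ((Real.log n - w) / d) := by
      rw [mul_sum]
      refine sum_congr rfl fun n _ => ?_
      rcases eq_or_ne n 0 with rfl | hn
      · simp [a0]
      have hn' : (0 : ℝ) < n := by positivity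
      rw [hg]
      beta_reduce
      rw [mul_sub, Real.exp_sub, neg_sub, mul_comm σ (Real.log n), ← Real.rpow_def_of_pos hn',
        ofReal_mul, ofReal_div, ofReal_cpow hn'.le, ofReal_natCast]
      ring
    rw [e2, norm_mul, norm_real, Real.norm_of_nonneg (Real.exp_pos _).le]
    have := hw.1.le
    have := hw.2
    gcongr
    refine (hsm a σ B d w _ ha' a0 h2 h3 hB d0 d1 (by linarith) (fun n hn => ?_) h).trans
      (by gcongr)
    linarith [hN n hn]
  set y := Real.exp u with hy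
  have y0 : 0 < y := Real.exp_pos u
  set S₁ := Icc 1 ⌊Real.exp (u / 2 + 1)⌋₊ with hS₁
  set S₂ := Ioc ⌊y * (1 - d)⌋₊ ⌊y * (1 + 2 * d)⌋₊ with hS₂
  have i2 : ∀ n ∈ range (Mx u), ‖a n * ((if n ∈ Icc 1 ⌊y⌋₊ then c else 0) - G (Real.log n) : ℝ)‖ ≤
      (if n ∈ S₁ then c else 0) + if n ∈ S₂ then c else 0 := fun n hn0 => by
    have b0 : ∀ p : Prop, ∀ [Decidable p], 0 ≤ if p then c else 0 := fun p _ => by
      split_ifs <;> positivity
    rcases eq_or_ne n 0 with rfl | hn
    · rw [a0, zero_mul, norm_zero]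
      exact add_nonneg (b0 _) (b0 _)
    rw [norm_mul, norm_real, Real.norm_eq_abs]
    refine (mul_le_of_le_one_left (abs_nonneg _) (ha n hn0)).trans ?_
    have b1 : |(if n ∈ Icc 1 ⌊y⌋₊ then c else 0) - G (Real.log n)| ≤ c := by
      have b2 : G (Real.log n) ≤ c := gle _ _ (by linarith)
      have b3 : 0 ≤ G (Real.log n) := intervalIntegral.integral_nonneg (by linarith) fun x _ => g0 x
      rw [abs_le]
      split_ifs <;> constructor <;> linarith
    by_cases n1 : n ∈ S₁
    · rw [if_pos n1]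
      linarith [b0 (n ∈ S₂)]
    by_cases n2 : n ∈ S₂
    · rw [if_pos n2]
      linarith [b0 (n ∈ S₁)]
    rw [if_neg n1, if_neg n2, add_zero, abs_nonpos_iff, sub_eq_zero]
    have hn' : (0 : ℝ) < n := by positivity
    have b2 : u / 2 + 1 < Real.log n := (Real.lt_log_iff_exp_lt hn').2
      (Nat.lt_of_floor_lt (by rw [hS₁, mem_Icc] at n1; omega))
    rcases le_or_gt n ⌊y * (1 - d)⌋₊ with n3 | n3
    · have b3 := (Nat.le_floor_iff' hn).1 n3
      have b4 : Real.log n ≤ u - d := by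
        rw [Real.log_le_iff_le_exp hn', sub_eq_add_neg, Real.exp_add]
        refine b3.trans ?_
        gcongr
        linarith [Real.add_one_le_exp (-d)]
      rw [if_pos (mem_Icc.2 ⟨by omega, Nat.le_floor (by nlinarith)⟩)]
      refine (intervalIntegral.integral_eq_integral_of_support_subset fun x hx => ?_).symm
      have b5 := abs_lt.1 (not_le.1 fun h => hx (gz x h))
      constructor <;> linarith [b5.1, b5.2]
    · have b3 : y * (1 + 2 * d) < n := Nat.lt_of_floor_lt (by rw [hS₂, mem_Ioc] at n2; omega)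
      have b4 : u + d ≤ Real.log n := by
        rw [Real.le_log_iff_exp_le hn', Real.exp_add]
        refine le_trans ?_ b3.le
        have b5 := Real.abs_exp_sub_one_le (x := d) (by rwa [abs_of_pos d0])
        rw [abs_of_pos d0] at b5
        gcongr
        linarith [le_abs_self (Real.exp d - 1)]
      rw [if_neg fun h => by nlinarith [(Nat.le_floor_iff' hn).1 (mem_Icc.1 h).2]]
      refine ((intervalIntegral.integral_congr (g := fun _ => 0) fun x hx => gz x ?_).trans
        (by simp)).symm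
      rw [Set.uIcc_of_le (by linarith)] at hx
      exact le_abs.2 (.inr (by linarith [hx.2]))
  have i3 : ∀ S : Finset ℕ, ∑ n ∈ range (Mx u), (if n ∈ S then c else 0) ≤ S.card * c := fun S => by
    rw [sum_ite_mem, sum_const, nsmul_eq_mul]
    gcongr
    exact inter_subset_right
  have i4 : (S₁.card : ℝ) ≤ Real.exp (u / 2 + 1) := by
    simpa [hS₁] using Nat.floor_le (Real.exp_pos _).le
  have i5 : (S₂.card : ℝ) ≤ 3 * d * y + 1 := by
    rw [hS₂, Nat.card_Ioc, Nat.cast_sub (Nat.floor_mono (by nlinarith))]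
    linarith [Nat.floor_le (show 0 ≤ y * (1 + 2 * d) by positivity),
      Nat.sub_one_lt_floor (y * (1 - d))]
  have e : (c : ℂ) * ∑ n ∈ Icc 1 ⌊y⌋₊, a n = ∑ n ∈ range (Mx u), a n * G (Real.log n) +
      ∑ n ∈ range (Mx u), a n * ((if n ∈ Icc 1 ⌊y⌋₊ then c else 0) - G (Real.log n) : ℝ) := by
    have b1 : range (Mx u) ∩ Icc 1 ⌊y⌋₊ = Icc 1 ⌊y⌋₊ := inter_eq_right.2 fun n hn =>
      mem_range.2 (Nat.lt_succ_of_le ((mem_Icc.1 hn).2.trans
        (Nat.floor_mono (Real.exp_le_exp.2 (by linarith)))))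
    rw [← sum_add_distrib, mul_sum, ← b1, ← sum_ite_mem, b1]
    refine sum_congr rfl fun n _ => ?_
    split_ifs <;> push_cast <;> ring
  have e2 := congrArg norm e
  rw [norm_mul, norm_real, Real.norm_of_nonneg c0.le] at e2
  have i6 := (norm_sum_le_of_le _ i2).trans (sum_add_distrib.trans_le (add_le_add (i3 S₁) (i3 S₂)))
  have i7 : Real.exp (σ * u) * (C * B / d ^ r / (u / 2) ^ (m + 1)) * |u - u / 2| ≤
      c * (C * 2 ^ m * Real.exp 1 * B * Real.exp (σ * u) / d ^ (r + 1) / u ^ m) := by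
    refine le_trans (le_of_eq ?_) (mul_le_mul_of_nonneg_right c1 (by positivity))
    rw [abs_of_pos (by linarith), div_pow]
    field_simp
    ring
  refine le_of_mul_le_mul_left ?_ c0
  rw [e2]
  refine (norm_add_le_of_le (i1.trans i7) i6).trans ?_
  nlinarith

theorem pow_le_exp (k : ℕ) {u : ℝ} (hu : 0 ≤ u) :
    u ^ k ≤ 2 ^ k * k.factorial * Real.exp (u / 2) := by
  have c3 := Real.pow_div_factorial_le_exp (u / 2) (by linarith) k
  rw [div_pow, div_div, div_le_iff₀ (by positivity)] at c3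
  linarith

/-- Sums of coefficients of size `1 + log n` from polynomial bounds for the derivatives. -/
theorem gen (r a : ℕ) : ∃ (m : ℕ) (C : ℝ), 0 ≤ C ∧ ∀ (c : ℕ → ℂ) (B : ℝ) (y : ℕ), 3 ≤ y →
    abscissaOfAbsConv c ≤ 1 → (∀ n, n ≠ 0 → ‖c n‖ ≤ 1 + Real.log n) → 0 ≤ B →
    (∀ s : ℂ, 1 < s.re → s.re ≤ 3 / 2 → ∀ j ≤ m,
      ‖LSeries (logMul^[j] c) s‖ ≤ B * (‖s‖ + 2) ^ r) →
      ‖∑ n ∈ Icc 1 y, c n‖ ≤ C * (B + 1) * y / Real.log y ^ a := by
  obtain ⟨C, hC, h⟩ := sharp ((a + 1) * (r + 1) + a) r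
  set K : ℝ := 6 * Real.exp 1 * (2 ^ (a + 1) * (a + 1).factorial) + 9 with hK
  refine ⟨(a + 1) * (r + 1) + a + 1, C * Real.exp 1 + K, by positivity,
    fun c B y hy hc hb hB hd => ?_⟩
  have y3 : (3 : ℝ) ≤ y := by exact_mod_cast hy
  have y0 : (0 : ℝ) < y := by linarith
  have u1 : 1 ≤ Real.log y := by
    rw [Real.le_log_iff_exp_le y0]; linarith [Real.exp_one_lt_d9]
  have ey : Real.exp (Real.log y) = y := Real.exp_log y0
  set u := Real.log y with hu
  have v0 : (0 : ℝ) < u + 2 := by linarith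
  set f : ℕ → ℂ := fun n => if n = 0 then 0 else (((u + 2)⁻¹ : ℝ) : ℂ) * c n with hf
  have f1 : ∀ j, ∀ {n : ℕ}, n ≠ 0 →
      logMul^[j] f n = ((((u + 2)⁻¹ : ℝ) : ℂ) • logMul^[j] c) n := fun j n hn => by
    simp only [logMul_iter, hf, if_neg hn, Pi.smul_apply, smul_eq_mul]
    ring
  have s1 : 0 < 1 / (2 * u) := by positivity
  have s2 : 1 / (2 * u) ≤ 1 / 2 := one_div_le_one_div_of_le (by norm_num) (by linarith)
  have h3 := h f (1 + 1 / (2 * u)) ((u + 2)⁻¹ * B) (1 / u ^ (a + 1)) u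
    (abscissaOfAbsConv_le_of_forall_lt_LSeriesSummable (x := 1) fun x hx =>
      (LSeriesSummable_congr _ (f1 0)).2 ((G.SwAux.sm hc (by simpa using hx) 0).smul _))
    (fun n hn => by
      rcases eq_or_ne n 0 with rfl | n0
      · simp [hf]
      have b1 : (n : ℝ) ≤ Real.exp (u + 1) :=
        (Nat.le_floor_iff' n0).1 (Nat.lt_succ_iff.1 (mem_range.1 hn))
      have b2 := (Real.log_le_iff_le_exp (by positivity)).2 b1
      simp only [hf, if_neg n0, norm_mul, norm_real, Real.norm_of_nonneg (inv_pos.2 v0).le]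
      rw [inv_mul_le_iff₀ v0]
      linarith [hb n n0])
    (by simp [hf]) (by linarith) (by linarith) (by positivity) (by positivity)
    ((div_le_one (by positivity)).2 (one_le_pow₀ u1)) (by linarith) fun s hs j hj => by
      rw [LSeries_congr (f1 j), LSeries_smul, norm_mul, norm_real,
        Real.norm_of_nonneg (inv_pos.2 v0).le, mul_assoc]
      gcongr
      exact hd s (by linarith) (by linarith) j hj
  rw [ey, Nat.floor_natCast, sum_congr rfl fun n hn =>
    (if_neg (by have := (mem_Icc.1 hn).1; omega) : f n = _), ← mul_sum, norm_mul, norm_real,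
    Real.norm_of_nonneg (inv_pos.2 v0).le, inv_mul_le_iff₀ v0] at h3
  refine h3.trans ?_
  have c1 : Real.exp ((1 + 1 / (2 * u)) * u) ≤ y * Real.exp 1 := by
    rw [add_mul, one_mul, Real.exp_add, ey]
    gcongr
    rw [div_mul_eq_mul_div, div_le_one (by positivity)]
    linarith
  have c2 : Real.exp (u / 2) * Real.exp (u / 2) = y := by rw [← Real.exp_add, add_halves, ey]
  have c3 := pow_le_exp (a + 1) (show 0 ≤ u by linarith)
  have c4 : 1 ≤ Real.exp (u / 2 + 1) := Real.one_le_exp (by linarith)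
  have c5 : (u + 2) * (2 * Real.exp (u / 2 + 1)) ≤
      6 * Real.exp 1 * (2 ^ (a + 1) * (a + 1).factorial) * y / u ^ a := by
    rw [le_div_iff₀ (by positivity), Real.exp_add, ← c2]
    calc _ ≤ 3 * u * (2 * (Real.exp (u / 2) * Real.exp 1)) * u ^ a := by gcongr; linarith
      _ = 6 * Real.exp 1 * u ^ (a + 1) * Real.exp (u / 2) := by ring
      _ ≤ 6 * Real.exp 1 * (2 ^ (a + 1) * (a + 1).factorial * Real.exp (u / 2)) *
          Real.exp (u / 2) := by gcongr
      _ = _ := by ring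
  have c6 : (u + 2) * (3 * (1 / u ^ (a + 1)) * y) ≤ 9 * y / u ^ a := by
    calc _ ≤ 3 * u * (3 * (1 / u ^ (a + 1)) * y) := by gcongr; linarith
      _ = _ := by field_simp; ring
  have c7 : (u + 2) * (C * ((u + 2)⁻¹ * B) * Real.exp ((1 + 1 / (2 * u)) * u) /
      (1 / u ^ (a + 1)) ^ (r + 1) / u ^ ((a + 1) * (r + 1) + a)) ≤
      C * Real.exp 1 * B * y / u ^ a := by
    calc _ ≤ (u + 2) * (C * ((u + 2)⁻¹ * B) * (y * Real.exp 1) /
          (1 / u ^ (a + 1)) ^ (r + 1) / u ^ ((a + 1) * (r + 1) + a)) := by gcongr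
      _ = _ := by
        rw [one_div, inv_pow, ← pow_mul, pow_add u ((a + 1) * (r + 1))]
        field_simp
  have c8 : C * Real.exp 1 * B * y / u ^ a + K * y / u ^ a ≤
      (C * Real.exp 1 + K) * (B + 1) * y / u ^ a := by
    rw [← add_div, ← add_mul]
    have : 0 ≤ K := by positivity
    have : 0 ≤ C * Real.exp 1 := by positivity
    gcongr
    nlinarith
  refine le_trans ?_ c8
  have c9 := mul_le_mul_of_nonneg_left c4 v0.le
  rw [hK, add_mul _ 9, add_div, mul_add (u + 2), mul_add (u + 2), mul_add (u + 2)]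
  linarith

/-- Primes against prime powers. -/
theorem th_lam (a : ℕ) : ∃ C : ℝ, 0 ≤ C ∧ ∀ (w : ℕ → ℂ) (y : ℕ), 3 ≤ y → (∀ n, ‖w n‖ ≤ 1) →
    ‖∑ n ∈ range y, w n * (th n : ℂ) -
      ∑ n ∈ Icc 1 y, w n * (ArithmeticFunction.vonMangoldt n : ℝ)‖ ≤
        C * y / Real.log y ^ a := by
  refine ⟨3 * (2 ^ (a + 1) * (a + 1).factorial), by positivity, fun w y hy hw => ?_⟩
  have y3 : (3 : ℝ) ≤ y := by exact_mod_cast hy
  have y0 : (0 : ℝ) < y := by linarith
  have u1 : 1 ≤ Real.log y := by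
    rw [Real.le_log_iff_exp_le y0]; linarith [Real.exp_one_lt_d9]
  have e1 : ∑ n ∈ range y, w n * (th n : ℂ) + w y * (th y : ℂ) =
      ∑ n ∈ Icc 1 y, w n * (th n : ℂ) := by
    rw [← sum_range_succ, range_eq_Ico, sum_eq_sum_Ico_succ_bot (by omega)]
    simp [th, Nat.not_prime_zero, Ico_add_one_right_eq_Icc]
  have e2 := Chebyshev.psi_sub_theta_le (x := y) (by linarith)
  rw [Chebyshev.psi, Chebyshev.theta, Nat.floor_natCast, sum_filter, ← sum_sub_distrib] at e2
  have e3 : ‖∑ n ∈ Icc 1 y, w n * ((ArithmeticFunction.vonMangoldt n - th n : ℝ) : ℂ)‖ ≤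
      2 * √y * Real.log y := by
    refine (norm_sum_le_of_le _ fun n _ => ?_).trans e2
    have : 0 ≤ ArithmeticFunction.vonMangoldt n - th n := by
      unfold th
      split_ifs with h
      · rw [ArithmeticFunction.vonMangoldt_apply_prime h, sub_self]
      · rw [sub_zero]; exact ArithmeticFunction.vonMangoldt_nonneg
    rw [norm_mul, norm_real, Real.norm_of_nonneg this]
    exact mul_le_of_le_one_left this (hw n)
  have e4 : ‖w y * (th y : ℂ)‖ ≤ Real.log y := by
    rw [norm_mul, norm_real]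
    refine (mul_le_of_le_one_left (norm_nonneg _) (hw y)).trans ?_
    unfold th
    split_ifs
    · exact (Real.norm_of_nonneg (by linarith)).le
    · rw [norm_zero]; linarith
  have e5 : ∑ n ∈ range y, w n * (th n : ℂ) -
      ∑ n ∈ Icc 1 y, w n * (ArithmeticFunction.vonMangoldt n : ℝ) = -(w y * (th y : ℂ) +
      ∑ n ∈ Icc 1 y, w n * ((ArithmeticFunction.vonMangoldt n - th n : ℝ) : ℂ)) := by
    simp only [ofReal_sub, mul_sub, sum_sub_distrib, ← e1]
    ring
  rw [e5, norm_neg]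
  refine (norm_add_le_of_le e4 e3).trans ?_
  have c1 : √(y : ℝ) = Real.exp (Real.log y / 2) := by
    rw [Real.exp_half, Real.exp_log y0]
  have c2 : √(y : ℝ) * √(y : ℝ) = y := Real.mul_self_sqrt y0.le
  have c3 := pow_le_exp (a + 1) (show 0 ≤ Real.log y by linarith)
  have c4 : 1 ≤ √(y : ℝ) := Real.one_le_sqrt.2 (by linarith)
  rw [← c1] at c3
  rw [le_div_iff₀ (by positivity)]
  calc _ ≤ 3 * √y * Real.log y * Real.log y ^ a := by gcongr; nlinarith
    _ = 3 * √y * Real.log y ^ (a + 1) := by ring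
    _ ≤ 3 * √y * (2 ^ (a + 1) * (a + 1).factorial * √y) := by gcongr
    _ = 3 * (2 ^ (a + 1) * (a + 1).factorial) * (√y * √y) := by ring
    _ = _ := by rw [c2]

end Pool.Agent.Lib.MP_d6ddbd_nt.L.PntAux
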