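import Pool.Agent.Lib.MP_d6ddbd_nt.L.Defs

/-! The Legendre family: statements of the pieces. -/

open Finset Filter

noncomputable section

namespace Pool.Agent.Lib.MP_d6ddbd_nt.L

open G (ep al sg)
open MP_f64879_nt (W Mx M0)

/-! ### Algebra -/

/-- The local conditions: some translate of a point by a point of order two is a double. -/
def DescS : Prop := ∀ A B : ℕ, Good A B → ∀ X Y : ℚ, Y ≠ 0 →
  Y ^ 2 = X * (X - B ^ 2) * (X + A * B) →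
    (IsSquare X ∧ IsSquare (X + A * B)) ∨
    (IsSquare (-(A * B : ℚ) * X) ∧ IsSquare ((A * B : ℚ) * (X + A * B))) ∨
    (IsSquare X ∧ IsSquare ((B * (A + B) : ℚ) * (X + A * B))) ∨
    (IsSquare (-(A * B : ℚ) * X) ∧ IsSquare ((A * (A + B) : ℚ) * (X + A * B)))

/-- The descent. -/
def FinS : Prop := DescS → ∀ A B : ℕ, Good A B →
  {P : ℚ × ℚ | P.2 ^ 2 = P.1 * (P.1 - 1) * (P.1 + A / B)}.Finite

/-- Alternating matrices over `ZMod 2`. -/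
def ParS : Prop := ∀ (ι : Type) [Fintype ι] [DecidableEq ι] (M : ι → ι → ZMod 2),
  (((univ.filter fun x : ι → ZMod 2 => ∀ s, ∑ t, M s t * x t = 0).card : ℝ) =
    (∑ x : ι → ZMod 2, ∑ y : ι → ZMod 2, (sg (∑ s, ∑ t, y s * M s t * x t) : ℝ)) /
      2 ^ Fintype.card ι) ∧
  ((∀ s t, M s t = M t s) → (∀ s, M s s = 0) → Even (Fintype.card ι) →
    (univ.filter fun x : ι → ZMod 2 => ∀ s, ∑ t, M s t * x t = 0).card = 1 ∨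
      4 ≤ (univ.filter fun x : ι → ZMod 2 => ∀ s, ∑ t, M s t * x t = 0).card)

/-- The expansion of the size of the kernel in characters of the large primes. -/
def ExpS : Prop := ParS → ∀ d : ℕ × ℕ × ℕ, Squarefree (pr d) → Odd (pr d) →
  ∃ (I : Type) (_ : Fintype I) (σ : I → ℝ) (x y z : I → ℕ) (e e' : I → Bool),
    ∑ i, |σ i| ≤ 8 * 4 ^ (pr d).primeFactors.card ∧ (∀ i, Ch d (x i) (y i) (z i)) ∧
    ∑ i, (if x i = 1 ∧ y i = 1 ∧ z i = 1 ∧ e i = false ∧ e' i = false then σ i else 0) = Sd d ∧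
    ∀ n P Q R : ℕ, n.Prime → P.Prime → Q.Prime → R.Prime → n % 4 = 1 → P % 4 = 1 →
      Squarefree (d.1 * n * P * (d.2.1 * Q) * (d.2.2 * R)) → Odd (Q * R) →
      d.1 * n * P + d.2.1 * Q = 16 * (d.2.2 * R) →
      ((Ker (d.1 * n * P) (d.2.1 * Q) (d.2.2 * R) Q).card : ℝ) =
          ∑ i, σ i * chi (x i) (y i) (z i) (e i) (e' i) n P Q ∧
        (Odd (d.1.primeFactors.card + d.2.2.primeFactors.card) →
          (Ker (d.1 * n * P) (d.2.1 * Q) (d.2.2 * R) Q).card = 1 ∨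
            4 ≤ (Ker (d.1 * n * P) (d.2.1 * Q) (d.2.2 * R) Q).card)

/-- The criterion is computable. -/
def CompS : Prop := ∃ G : ℤ × ℕ → Bool, Computable G ∧
  ∀ (a : ℤ) (b : ℕ), G (a, b) = true ↔ a < 0 ∧ Good a.natAbs b

/-! ### The small primes -/

/-- Euler products, Mertens, Rankin. -/
def EulS : Prop :=
  (∀ (D : ℕ) (h : ℕ → ℝ), (∀ p, 0 ≤ h p) →
    ∑ m ∈ Icc 1 D with Squarefree m, (∏ p ∈ m.primeFactors, h p) / m ≤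
      Real.exp (∑ p ∈ PP D, h p / p)) ∧
  (∀ (u : ℝ) (w : ℕ → Lb → ℝ), (∀ p k, 0 ≤ w p k) →
    GG u (fun S f => ∏ p : S, w p (f p)) ≤ Real.exp (∑ p ∈ PP (DD u), (∑ k, w p k) / p)) ∧
  (∃ C : ℝ, ∀ᶠ u : ℝ in atTop, ∑ p ∈ PP (DD u), 1 / (p : ℝ) ≤ Real.log u + C ∧
    ∑ p ∈ (PP (DD u)).filter (fun p : ℕ => (p : ℝ) ≤ u ^ 800), 1 / (p : ℝ) ≤
      Real.log (Real.log u) + C) ∧
  ∀ a : ℕ, ∀ᶠ u : ℝ in atTop,
    ∑ m ∈ (Icc 1 (DD u)).filter (fun m : ℕ => Squarefree m ∧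
      (∀ p ∈ m.primeFactors, (p : ℝ) ≤ u ^ 800) ∧ Real.exp (u ^ (1 / 4 : ℝ)) < m),
        (20 : ℝ) ^ m.primeFactors.card / m ≤ 1 / u ^ a

/-- Sums over primes with prescribed symbols. -/
def ChS : Prop := ∀ᶠ u : ℝ in atTop,
  ∑ p ∈ PP (DD u) with p % 4 = 1, 1 / (p : ℝ) ≤ 3 / 5 * Real.log u ∧
  ∀ x : ℕ, Squarefree x → Odd x → 1 < x → (x : ℝ) ≤ Real.exp (u ^ (1 / 4 : ℝ)) →
    1 / 10 * Real.log u ≤
      ∑ p ∈ (PP (DD u)).filter (fun p : ℕ => u ^ 800 < p ∧ p % 4 = 1 ∧ jacobiSym x p = -1),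
        1 / (p : ℝ)

/-- Two linked labels. -/
def M1S : Prop := ∀ z ∈ Trip, ∀ ε : ℝ, 0 < ε → ∀ᶠ u : ℝ in atTop,
  |GG u fun S f => if ∃ k ∈ Med u S f, ∃ k' ∈ Med u S f, br k.2 k'.2 = 1 then tm u z S f else 0| ≤
    ε * u ^ 3

/-- Few labels. -/
def M2S : Prop := EulS → ∀ U : Finset Lb, ∑ k ∈ U, rw k.1 ≤ 5 / 2 → ∀ ε : ℝ, 0 < ε →
  ∀ᶠ u : ℝ in atTop, (GG u fun S f => if Med u S f ⊆ U then wg S f else 0) ≤ ε * u ^ 3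

/-- The main planes: a tiny prime with a label outside the plane. -/
def M3S : Prop := EulS → ChS → ∀ z ∈ Trip, ∀ i : Fin 3, z.2.1 ∈ plM i → z.2.2 ∈ plM i →
  ∀ ε : ℝ, 0 < ε → ∀ᶠ u : ℝ in atTop,
    |GG u fun S f => if ∀ p, (f p).2 ∈ plM i then 0 else tmP u z (plM i) S f| ≤ ε * u ^ 3

/-- The plane of `C`. -/
def M4S : Prop := EulS → ∀ z ∈ Trip, ∀ ε : ℝ, 0 < ε → ∀ᶠ u : ℝ in atTop,
  |GG u (tmP u z plC)| ≤ ε * u ^ 3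

/-- The plane of `A`. -/
def M5S : Prop := EulS → ChS → ∀ z ∈ Trip, z.2.1 ∈ plA → ∀ ε : ℝ, 0 < ε →
  ∀ᶠ u : ℝ in atTop, |GG u (tmP u z plA)| ≤ ε * u ^ 3

open Classical in
/-- Triples and labellings. -/
def BrS : Prop := ∀ (u : ℝ) (F : (S : Finset ℕ) → (S → Lb) → ℝ),
  ∑ d ∈ Fam u, (∑ f ∈ Fintype.piFinset fun p : (pr d).primeFactors =>
    univ.filter fun k : Lb => k.1 = cl d p, F _ f) / (pr d : ℝ) =
      GG u fun S f => if Io u S f then F S f else 0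

/-- The mass of the family. -/
def MzS : Prop := EulS → BrS → ∃ c : ℝ, 0 < c ∧ ∀ᶠ u : ℝ in atTop,
  c * u ^ 3 ≤ ∑ d ∈ Fam u, 1 / (pr d : ℝ)

/-- The first moment over the small primes. -/
def ModS : Prop := ∃ c : ℝ, 0 < c ∧ ∀ᶠ u : ℝ in atTop,
  c * u ^ 3 ≤ ∑ d ∈ Fam u, (4 - Sd d) / (pr d : ℝ)

/-- Assembly of the first moment. -/
def MaS : Prop := EulS → ChS → BrS → M1S → M2S → M3S → M4S → M5S → MzS → ModS

/-! ### The large primes -/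

/-- The prime number theorem with a logarithmic saving. -/
def PntS : Prop := ∀ a : ℕ, ∃ C : ℝ, 0 ≤ C ∧ ∀ y : ℕ, 3 ≤ y →
  |∑ R ∈ range y, th R - y| ≤ C * y / Real.log y ^ a

/-- Siegel-Walfisz for a non-trivial character. -/
def SwcS : Prop := ∀ a b : ℕ, ∃ C : ℝ, 0 ≤ C ∧ ∀ (y q : ℕ) [NeZero q]
  (χ : DirichletCharacter ℂ q), 3 ≤ y → (q : ℝ) ≤ Real.log y ^ b → χ ≠ 1 →
    ‖∑ R ∈ range y, χ R * (th R : ℂ)‖ ≤ C * y / Real.log y ^ a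

/-- Siegel-Walfisz in additive form. -/
def SwaS : Prop := ∀ a b : ℕ, ∃ C : ℝ, 0 ≤ C ∧ ∀ (Y y f : ℕ) (t : ℤ), 3 ≤ Y → y ≤ Y → 1 ≤ f →
  (f : ℝ) ≤ Real.log Y ^ b → IsCoprime t f →
    ‖∑ R ∈ range y, (th R : ℂ) * Complex.exp (2 * Real.pi * Complex.I * (R * t / f)) -
      (ArithmeticFunction.moebius f : ℂ) / f.totient * y‖ ≤ C * Y / Real.log Y ^ a

/-- The additive form from the two multiplicative ones. -/
def SwbS : Prop := PntS → SwcS → SwaS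

/-- The model: additive form, Fourier coefficients and mean square. -/
def LamS : Prop :=
  (∀ (V y f : ℕ) (t : ℤ), 1 ≤ f → f ≤ V → IsCoprime t f →
    ‖∑ R ∈ range y, (lam V R : ℂ) * Complex.exp (2 * Real.pi * Complex.I * (R * t / f)) -
      (ArithmeticFunction.moebius f : ℂ) / f.totient * y‖ ≤ V ^ 3) ∧
  ∀ a : ℕ, ∀ᶠ u : ℝ in atTop, ∀ Y : ℕ, Real.exp (9 / 10 * u) ≤ Y → (Y : ℝ) ≤ Real.exp (u + 5) →
    ∑ R ∈ range Y, (th R - lam (VV u a) R) ^ 2 ≤ 8 * Y * u ^ 2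

/-- Barban-Davenport-Halberstam for the difference of the primes and the model. -/
def BdhS : Prop := ∀ c : ℕ, ∃ a : ℕ, ∀ᶠ u : ℝ in atTop, ∀ Y y D K : ℕ,
  Real.exp (9 / 10 * u) ≤ Y → (Y : ℝ) ≤ Real.exp (u + 5) → y ≤ Y → (D * K) ^ 2 ≤ Y →
    ∑ m ∈ Icc 1 D, ∑ k ∈ Icc 1 K, Var (fun R => th R - lam (VV u a) R) (m * k) y ≤ Y ^ 2 / u ^ c

/-- The proof of `BdhS`. -/
def BdaS : Prop := SwaS → LamS → BdhS

/-- The dispersion lemma. -/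
def LdS : Prop := ∀ (c v w L N K Y : ℕ) (sN sA sB : Finset ℕ) (β : ℕ → ℕ → ℝ) (γ : ℕ → ℝ)
  (g : ℕ → ℕ → ℝ) (G : ℝ), 1 ≤ c → 1 ≤ v → 1 ≤ w → w ≤ L →
  (∀ ν ∈ sN, ν ≤ N ∧ (v * ν).Coprime w ∧ |γ ν| ≤ 1 ∧ ∑ R ∈ range Y, g ν R ^ 2 ≤ G) →
  (∀ P ∈ sA, P ≤ L ∧ (v * P).Coprime c) →
  (∀ ν ∈ sN, ∀ P ∈ sA, ∀ Q ∈ sB, v * ν * P + w * Q < c * Y) →
    (∑ P ∈ sA, ∑ Q ∈ sB, β P Q * ∑ ν ∈ sN, γ ν *
        if c ∣ v * ν * P + w * Q then g ν ((v * ν * P + w * Q) / c) else 0) ^ 2 ≤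
      (∑ P ∈ sA, ∑ Q ∈ sB, β P Q ^ 2) * (100 * sN.card * (K + 1) * (L / w) * G +
        100 * ∑ k ∈ Ioc K (N / c), ∑ ν ∈ sN,
          ((∑ y ∈ range (Y + 1), Var (g ν) (v * w * k) y) / (L * v * k) +
            Var (g ν) (v * w * k) Y))

/-- Oscillation of the Jacobi symbol along residue classes. -/
def JbS : Prop := ∃ C : ℝ, 0 ≤ C ∧ ∀ (Y y r N : ℕ) (sN : Finset ℕ) (a : ℕ → ℝ), 1 ≤ r → y ≤ Y →
  Y ^ 2 ≤ N ^ 6 → (∀ ν ∈ sN, ν.Prime ∧ ν % 4 = 1 ∧ ν ≤ N) → (∀ R, |a R| ≤ 1) →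
  (∀ R, a R ≠ 0 → R.Prime ∧ R ≠ 2) →
    ∑ ν ∈ sN, Var (fun R => a R * jacobiSym R ν) r y ≤ C * r * N * (Y / r + 1 : ℝ) ^ (23 / 12 : ℝ)

/-- The terms with a symbol between two large primes. -/
def EjS : Prop := ∀ᶠ u : ℝ in atTop, ∀ j ∈ Jr u, ∀ d ∈ Tri u, ∀ (x y z : ℕ) (e e' : Bool),
  e = true ∨ e' = true → |TT th u j d (chi x y z e e')| ≤ Real.exp (-u / 1000) / d.2.2

/-- The primes `R` may be replaced by the model. -/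
def EnS : Prop := ∀ c : ℕ, ∃ a : ℕ, ∀ᶠ u : ℝ in atTop, ∀ j ∈ Jr u,
  ∀ x y z : ℕ × ℕ × ℕ → ℕ, ∑ d ∈ Tri u,
    |TT (fun R => th R - lam (VV u a) R) u j d (chi (x d) (y d) (z d) false false)| /
      (d.1 * d.2.1 : ℝ) ≤ 1 / u ^ c

/-- Bombieri-Vinogradov for the weight on the primes. -/
def BvS : Prop := ∀ b : ℕ, ∃ C : ℝ, 0 ≤ C ∧ ∀ s : ℝ, 3 ≤ s → M0 s ≤ C * s ∧
  ∑ n ∈ range (Mx s), wt s n ≤ M0 s ∧ ∃ E : ℕ → ℝ, (∀ m, 0 ≤ E m) ∧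
    (∀ m x r : ℕ, 1 ≤ m → r.Coprime m → Squarefree x → Odd x → x.Coprime m →
      |∑ n ∈ range (Mx s) with n ≡ r [MOD m], wt s n * jacobiSym n x -
        if x = 1 then M0 s / m.totient else 0| ≤ x * E (m * x)) ∧
    ∀ D : ℕ, (D : ℝ) ≤ Real.exp (s / 10) → ∑ m ∈ Icc 1 D, E m ≤ C / s ^ b

/-- The evaluation of the model. -/
def TsS : Prop := ∀ a c : ℕ, ∀ᶠ u : ℝ in atTop, ∀ j ∈ Jr u, ∀ x y z : ℕ × ℕ × ℕ → ℕ,
  (∀ d ∈ Tri u, Ch d (x d) (y d) (z d)) → ∑ d ∈ Tri u,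
    |TT (lam (VV u a)) u j d (chi (x d) (y d) (z d) false false) -
      if x d = 1 ∧ y d = 1 ∧ z d = 1 then kap (VV u a) d * MM u j d / 4 else 0| /
      (d.1 * d.2.1 : ℝ) ≤ 1 / u ^ c

/-- The singular series is not small. -/
def KapS : Prop := ∀ (V : ℕ) (d : ℕ × ℕ × ℕ), 1 ≤ V → Squarefree (pr d) → Odd (pr d) →
  1 / (100 * d.2.2 : ℝ) ≤ kap V d

/-- Equidistribution of the symbols of the large primes. -/
def EqS : Prop := ∀ c : ℕ, ∀ᶠ u : ℝ in atTop, ∃ κ : ℕ × ℕ × ℕ → ℝ,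
  (∀ d ∈ Tri u, 1 / (100 * d.2.2 : ℝ) ≤ κ d) ∧ ∀ j ∈ Jr u,
    ∀ (x y z : ℕ × ℕ × ℕ → ℕ) (e e' : ℕ × ℕ × ℕ → Bool),
      (∀ d ∈ Tri u, Ch d (x d) (y d) (z d)) → ∑ d ∈ Tri u,
        |TT th u j d (chi (x d) (y d) (z d) (e d) (e' d)) -
          if x d = 1 ∧ y d = 1 ∧ z d = 1 ∧ e d = false ∧ e' d = false then κ d * MM u j d / 4
          else 0| / (d.1 * d.2.1 : ℝ) ≤ 1 / u ^ c

/-- Reductions. -/
def EjR : Prop := LdS → JbS → EjS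

/-- Reductions. -/
def EnR : Prop := LdS → LamS → BdhS → EnS

/-- Reductions. -/
def TsR : Prop := BvS → TsS

/-- Reductions. -/
def EqR : Prop := EjS → EnS → TsS → KapS → EqS

/-! ### The count -/

/-- The weight of a member of the family. -/
def wF (u : ℝ) (j : ℕ) (d : ℕ × ℕ × ℕ) (n P Q : ℕ) : ℝ :=
  wt j n * wt (sP u j d) P * wt (sQ u d) Q * chi 1 1 1 false false n P Q * Rw th d n P Q

open Classical in
/-- The weighted number of good members of the family. -/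
def WgS : Prop := ∃ c : ℝ, 0 < c ∧ ∀ᶠ u : ℝ in atTop, c * u ^ 4 ≤
  ∑ j ∈ Jr u, ∑ d ∈ Tri u, (∑ n ∈ range (Mx j), ∑ P ∈ range (Mx (sP u j d)),
    ∑ Q ∈ range (Mx (sQ u d)),
      if Good (d.1 * n * P) (d.2.1 * Q) then wF u j d n P Q else 0) / (d.1 * d.2.1 : ℝ)

/-- The good pairs have positive density. -/
def CntS : Prop := ∃ c : ℝ, 0 < c ∧ ∀ᶠ H : ℕ in atTop,
  c * H ^ 2 ≤ ({x : ℕ × ℕ | x.1 ≤ H ∧ x.2 ≤ H ∧ Good x.1 x.2}.ncard : ℝ)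

/-- Reductions. -/
def WgR : Prop := ParS → ExpS → EqS → ModS → WgS

/-- Reductions. -/
def CntR : Prop := WgS → CntS

/-- The final statement. -/
def FinalS : Prop := ∃ G : ℤ × ℕ → Bool, Computable G ∧
  (∀ t : ℚ, G (t.num, t.den) = true →
    {P : ℚ × ℚ | P.2 ^ 2 = P.1 * (P.1 - 1) * (P.1 - t)}.Finite) ∧
  ∃ c : ℝ, 0 < c ∧ ∀ᶠ H : ℕ in atTop, c * H ^ 2 ≤
    ({t : ℚ | t.num.natAbs ≤ H ∧ t.den ≤ H ∧ G (t.num, t.den) = true}.ncard : ℝ)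

/-- Reductions. -/
def FinalR : Prop := DescS → FinS → CompS → CntS → FinalS

end Pool.Agent.Lib.MP_d6ddbd_nt.L
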