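import Pool.Agent.Lib.MP_d6ddbd_nt.L.Pnt1

/-! Siegel-Walfisz for a non-trivial character. -/

namespace Pool.Agent.Lib.MP_d6ddbd_nt.L

open Complex Finset LSeries

namespace SwcAux

theorem der (m : ℕ) : ∃ D : ℝ, 0 ≤ D ∧ ∀ (q : ℕ) [NeZero q] (χ : DirichletCharacter ℂ q),
    χ.IsPrimitive → χ ≠ 1 → ∀ s : ℂ, 1 < s.re → s.re ≤ 3 / 2 → ∀ j ≤ m,
      ‖LSeries (logMul^[j] ((fun n : ℕ => χ n) *
        fun n => (ArithmeticFunction.vonMangoldt n : ℂ))) s‖ ≤ D * q * (‖s‖ + 2) ^ 1 := by
  obtain ⟨K, hK, h1⟩ := G.SwAux.zf2 (ε := 1 / (20 * (m + 1) : ℕ)) (by positivity)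
  refine ⟨m.factorial * K ^ (20 * (m + 1)), by positivity, fun q _ χ hp hχ s h2 h3 j hj => ?_⟩
  have q1 : (1 : ℝ) ≤ q := by exact_mod_cast NeZero.one_le
  have T1 : 1 ≤ ‖s‖ + 2 := by linarith [norm_nonneg s]
  have e0 : (0 : ℝ) ≤ 1 / (20 * (m + 1) : ℕ) := by positivity
  refine (h1 q χ hp hχ s h2 (by linarith) j).trans ?_
  calc _ ≤ m.factorial * (K * (q : ℝ) ^ (1 / (20 * (m + 1) : ℕ) : ℝ) *
        (‖s‖ + 2) ^ (1 / (20 * (m + 1) : ℕ) : ℝ)) ^ (20 * (m + 1)) := by
        refine mul_le_mul (by gcongr) (pow_le_pow_right₀ ?_ (by omega))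
          (by positivity) (by positivity)
        exact one_le_mul_of_one_le_of_one_le (one_le_mul_of_one_le_of_one_le hK
          (Real.one_le_rpow q1 e0)) (Real.one_le_rpow T1 e0)
    _ = _ := by
        rw [mul_assoc K, ← Real.mul_rpow (by linarith) (by linarith), mul_pow, one_div,
          Real.rpow_inv_natCast_pow (by positivity) (by omega)]
        ring

theorem th_le {R y : ℕ} (h : R < y) : 0 ≤ th R ∧ th R ≤ Real.log y := by
  have h1 : (1 : ℝ) ≤ y := by exact_mod_cast (show 1 ≤ y by omega)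
  unfold th
  split_ifs with hp
  · have h2 : (1 : ℝ) ≤ R := by exact_mod_cast hp.one_lt.le
    exact ⟨Real.log_nonneg h2, Real.log_le_log (by linarith) (by exact_mod_cast h.le)⟩
  · exact ⟨le_rfl, Real.log_nonneg h1⟩

/-- The primes dividing the modulus. -/
theorem bad {q y : ℕ} (hq : q ≠ 0) (w : ℕ → ℂ) {c : ℝ} (hw : ∀ n, ‖w n‖ ≤ c)
    (h0 : ∀ n, n.Coprime q → w n = 0) :
    ‖∑ R ∈ range y, w R * (th R : ℂ)‖ ≤ q * (c * Real.log y) := by
  have c0 : 0 ≤ c := (norm_nonneg _).trans (hw 0)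
  have l0 : 0 ≤ Real.log y := Real.log_natCast_nonneg y
  calc _ ≤ ∑ R ∈ range y, if R ∈ Icc 1 q then c * Real.log y else 0 := by
        refine norm_sum_le_of_le _ fun R hR => ?_
        obtain ⟨h1, h2⟩ := th_le (mem_range.1 hR)
        split_ifs with h
        · rw [norm_mul, norm_real, Real.norm_of_nonneg h1]
          gcongr
          exact hw R
        · by_cases hp : R.Prime
          · rw [h0 R (hp.coprime_iff_not_dvd.2 fun hd => h (mem_Icc.2
              ⟨hp.one_lt.le, Nat.le_of_dvd (Nat.pos_of_ne_zero hq) hd⟩)), zero_mul, norm_zero]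
          · simp [th, hp]
    _ ≤ _ := by
        rw [sum_ite_mem, sum_const, nsmul_eq_mul]
        gcongr
        exact_mod_cast (card_le_card inter_subset_right).trans (by simp)

theorem pw (k : ℕ) {y : ℝ} (hy : 1 ≤ y) : Real.log y ^ k ≤ 2 ^ k * k.factorial * y := by
  have h := Real.log_nonneg hy
  refine (PntAux.pow_le_exp k h).trans ?_
  gcongr
  exact (Real.exp_le_exp.2 (by linarith)).trans_eq (Real.exp_log (by linarith))

end SwcAux

theorem swc : SwcS := fun a b => by
  obtain ⟨m, C, hC, h⟩ := PntAux.gen 1 (a + b)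
  obtain ⟨B, hB, hd⟩ := SwcAux.der m
  obtain ⟨D, hD, ht⟩ := PntAux.th_lam a
  refine ⟨2 * (2 ^ (a + b + 1) * (a + b + 1).factorial) + D + C * (B + 1), by positivity,
    fun y q _ χ hy hq hχ => ?_⟩
  have : NeZero χ.conductor := ⟨χ.conductor_ne_zero⟩
  have y3 : (3 : ℝ) ≤ y := by exact_mod_cast hy
  have u1 : 1 ≤ Real.log y := by
    rw [Real.le_log_iff_exp_le (by linarith)]; linarith [Real.exp_one_lt_d9]
  have q1 : (χ.conductor : ℝ) ≤ q := by
    exact_mod_cast Nat.le_of_dvd (NeZero.pos q) χ.conductor_dvd_level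
  have h1 := h ((fun n : ℕ => χ.primitiveCharacter n) *
      fun n => (ArithmeticFunction.vonMangoldt n : ℂ)) (B * χ.conductor) y hy
    (abscissaOfAbsConv_le_of_forall_lt_LSeriesSummable (x := 1) fun x hx =>
      χ.primitiveCharacter.LSeriesSummable_twist_vonMangoldt (by simpa using hx))
    (fun n _ => by
      rw [Pi.mul_apply, norm_mul, norm_real,
        Real.norm_of_nonneg ArithmeticFunction.vonMangoldt_nonneg]
      have := ArithmeticFunction.vonMangoldt_le_log (n := n)
      have := mul_le_of_le_one_left (ArithmeticFunction.vonMangoldt_nonneg (n := n))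
        (χ.primitiveCharacter.norm_le_one n)
      linarith)
    (by positivity) (hd _ _ χ.primitiveCharacter_isPrimitive fun h1 => hχ (by
      rw [← χ.changeLevel_primitiveCharacter, h1, map_one]))
  have h2 := ht (fun n => χ.primitiveCharacter n) y hy fun n => χ.primitiveCharacter.norm_le_one n
  have h3 := SwcAux.bad (y := y) (NeZero.ne q) (fun n => χ n - χ.primitiveCharacter n) (c := 2)
    (fun n => (norm_sub_le _ _).trans (by
      linarith [χ.norm_le_one n, χ.primitiveCharacter.norm_le_one n])) fun n hn => by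
      have := χ.primitiveCharacter_apply_of_isCoprime (Nat.isCoprime_iff_coprime.2 hn)
      rw [Int.cast_natCast, Int.cast_natCast] at this
      rw [this, sub_self]
  have e : ∑ R ∈ range y, χ R * (th R : ℂ) =
      ∑ R ∈ range y, (χ R - χ.primitiveCharacter R) * (th R : ℂ) +
      (∑ n ∈ range y, χ.primitiveCharacter n * (th n : ℂ) -
        ∑ n ∈ Icc 1 y, χ.primitiveCharacter n * (ArithmeticFunction.vonMangoldt n : ℝ)) +
      ∑ n ∈ Icc 1 y, ((fun n : ℕ => χ.primitiveCharacter n) *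
        fun n => (ArithmeticFunction.vonMangoldt n : ℂ)) n := by
    simp only [sub_mul, sum_sub_distrib, Pi.mul_apply]
    ring
  rw [e, add_mul, add_mul, add_div, add_div]
  have h4 := SwcAux.pw (a + b + 1) (y := y) (by linarith)
  have h5 : 1 ≤ Real.log y ^ b := one_le_pow₀ u1
  refine norm_add_le_of_le (norm_add_le_of_le (h3.trans ?_) h2) (h1.trans ?_)
  · rw [le_div_iff₀ (by positivity)]
    calc _ ≤ Real.log y ^ b * (2 * Real.log y) * Real.log y ^ a := by gcongr
      _ = 2 * Real.log y ^ (a + b + 1) := by ring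
      _ ≤ _ := by rw [mul_assoc]; gcongr
  · calc _ ≤ C * ((B + 1) * Real.log y ^ b) * y / Real.log y ^ (a + b) := by
          gcongr
          nlinarith [mul_le_mul_of_nonneg_left (q1.trans hq) hB]
      _ = _ := by field_simp; ring

end Pool.Agent.Lib.MP_d6ddbd_nt.L
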