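import Pool.Agent.Lib.MP_d6ddbd_nt.L.St

/-! The Legendre family: the final statement from the pieces. -/

namespace Pool.Agent.Lib.MP_d6ddbd_nt.L

theorem top (desc : DescS) (fin : FinS) (par : ParS) (exp : ExpS) (comp : CompS) (eul : EulS)
    (ch : ChS) (br : BrS) (m1 : M1S) (m2 : M2S) (m3 : M3S) (m4 : M4S) (m5 : M5S) (mz : MzS)
    (ma : MaS) (pnt : PntS) (swc : SwcS) (swb : SwbS) (lam : LamS) (bda : BdaS) (ld : LdS)
    (jb : JbS) (bv : BvS) (kap : KapS) (ej : EjR) (en : EnR) (ts : TsR) (eq : EqR) (wg : WgR)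
    (cnt : CntR) (last : FinalR) : FinalS :=
  last desc fin comp (cnt (wg par exp
    (eq (ej ld jb) (en ld lam (bda (swb pnt swc) lam)) (ts bv) kap)
    (ma eul ch br m1 m2 m3 m4 m5 mz)))

end Pool.Agent.Lib.MP_d6ddbd_nt.L
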